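import Pool.Agent.Helper32.OR.F3

/-!
Points of the segment from 1 to an element (project OR, MP_d4e3d0_lc).
-/

namespace Pool.Agent.Helper32.OR

open FreeGroup

variable {α : Type*} [DecidableEq α]

theorem F4_norm {p γ : FreeGroup α} (hp : p ∈ (ftree α).seg 1 γ) :
    p.norm + (p⁻¹ * γ).norm = γ.norm := by
  have h := hp
  rw [TreeSp.mem_seg, ftree_d, ftree_d, ftree_d, inv_one, one_mul, one_mul] at h
  exact h

/-- Remove the last letter of `x`. -/
theorem ftree_step (x : FreeGroup α) (hx : x ≠ 1) :
    ∃ z, (ftree α).d z x = 1 ∧ (ftree α).d 1 z + 1 = (ftree α).d 1 x := by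
  have h0 : x.norm ≠ 0 := fun h => hx (FreeGroup.norm_eq_zero.1 h)
  obtain ⟨h1, h2⟩ := F3_split x (x.norm - 1) (Nat.sub_le _ _) _ rfl
  refine ⟨FreeGroup.mk (x.toWord.take (x.norm - 1)), ?_, ?_⟩
  · rw [ftree_d]
    omega
  · rw [ftree_d, ftree_d, inv_one, one_mul, one_mul]
    omega

/-- A point `p` of the segment from `1` to `γ` is an initial part of `γ`: `p.norm + (p⁻¹ * γ).norm =
γ.norm` and `norm_inv_mul` give `lcp p.toWord γ.toWord = p.norm`. -/
theorem toWord_of_mem_seg {p γ : FreeGroup α} (hp : p ∈ (ftree α).seg 1 γ) :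
    p.toWord = γ.toWord.take p.norm := by
  have h1 := F4_norm hp
  have h2 := norm_inv_mul p γ
  have h3 : lcp p.toWord γ.toWord = p.norm := by omega
  have h4 := lcp_take p.toWord γ.toWord
  rw [h3] at h4
  rw [← h4]
  exact (List.take_of_length_le (le_refl _)).symm

/-- For two points of the segment from `1` to `γ` the word between them is a subword of `γ`. -/
theorem toWord_between {p q γ : FreeGroup α} (hp : p ∈ (ftree α).seg 1 γ)
    (hq : q ∈ (ftree α).seg 1 γ) (h : (ftree α).d 1 p ≤ (ftree α).d 1 q) :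
    (p⁻¹ * q).toWord <:+: γ.toWord := by
  have hp1 := toWord_of_mem_seg hp
  have hq1 := toWord_of_mem_seg hq
  have hle : p.norm ≤ q.norm := by
    rw [ftree_d, ftree_d, inv_one, one_mul, one_mul] at h
    exact h
  have hpt : p.toWord = q.toWord.take p.norm := by
    rw [hq1, List.take_take, min_eq_left hle]
    exact hp1
  have hl : lcp p.toWord q.toWord = p.norm := by
    apply le_antisymm
    · exact lcp_le_left _ _
    · refine le_lcp _ _ _ (le_refl _) hle ?_
      rw [← hpt]
      exact List.take_of_length_le (le_refl _)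
  have h1 := toWord_inv_mul p q
  rw [hl] at h1
  have h2 : p.toWord.drop p.norm = [] := List.drop_of_length_le (le_refl _)
  rw [h2] at h1
  have h3 : (p⁻¹ * q).toWord = q.toWord.drop p.norm := by
    rw [h1]
    rfl
  rw [h3, hq1]
  refine ⟨γ.toWord.take p.norm, γ.toWord.drop q.norm, ?_⟩
  have h4 : γ.toWord.take p.norm = (γ.toWord.take q.norm).take p.norm := by
    rw [List.take_take, min_eq_left hle]
  rw [h4, List.take_append_drop, List.take_append_drop]

end Pool.Agent.Helper32.OR
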