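import Pool.Agent.Helper32.OR.Tree

/-!
A line in a tree with a translation, and its translates (project OR, MP_d4e3d0_lc).
-/

namespace Pool.Agent.Helper32.OR

open TreeSp

/-- A group acting on a tree, a line with a translation by `L`, and small cancellation for the
translates of the line. -/
structure Line {V : Type*} (T : TreeSp V) (F : Type*) [Group F] [MulAction F V] where
  iso : ∀ (g : F) (x y : V), T.d (g • x) (g • y) = T.d x y
  c : F
  a : ℤ → V
  L : ℕ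
  l0 : ℕ
  l0_pos : 1 ≤ l0
  large : 8 * l0 + 8 ≤ L
  dist : ∀ i j : ℤ, (T.d (a i) (a j) : ℤ) = |i - j|
  trans : ∀ i : ℤ, c • a i = a (i + L)
  sc : ∀ (g : F) (i j i' j' : ℤ), a i = g • a i' → a j = g • a j' → l0 ≤ T.d (a i) (a j) →
    g ∈ Subgroup.zpowers c

namespace Line

variable {V : Type*} {T : TreeSp V} {F : Type*} [Group F] [MulAction F V] (Λ : Line T F)

/-- The translate of the line by `g`. -/
def axis (g : F) : Set V := {x | ∃ i : ℤ, x = g • Λ.a i}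

/-- The translation along `axis g`. -/
def tau (g : F) : F := g * Λ.c * g⁻¹

/-- Two translates of the line are the same. -/
def Same (g h : F) : Prop := g⁻¹ * h ∈ Subgroup.zpowers Λ.c

theorem same_refl (g : F) : Λ.Same g g := by simp [Same]

theorem same_symm {g h : F} (H : Λ.Same g h) : Λ.Same h g := by
  have := Subgroup.inv_mem _ H
  simpa [Same] using this

theorem same_trans {g h k : F} (H : Λ.Same g h) (H' : Λ.Same h k) : Λ.Same g k := by
  have := Subgroup.mul_mem _ H H'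
  simpa [Same, mul_assoc] using this

theorem same_mul (k g h : F) : Λ.Same (k * g) (k * h) ↔ Λ.Same g h := by
  simp [Same, mul_assoc]

theorem trans_zpow (k : ℤ) (i : ℤ) : Λ.c ^ k • Λ.a i = Λ.a (i + k * Λ.L) := by
  induction k using Int.induction_on generalizing i with
  | zero => simp
  | succ k ih =>
    rw [zpow_add_one, mul_smul, Λ.trans, ih]
    congr 1
    ring
  | pred k ih =>
    have h : Λ.c⁻¹ • Λ.a i = Λ.a (i - Λ.L) := by
      rw [inv_smul_eq_iff, Λ.trans]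
      congr 1
      ring
    rw [zpow_sub_one, mul_smul, h, ih]
    congr 1
    ring

theorem same_axis {g h : F} (H : Λ.Same g h) : Λ.axis g = Λ.axis h := by
  have key : ∀ g h : F, Λ.Same g h → Λ.axis h ⊆ Λ.axis g := by
    intro g h H x hx
    obtain ⟨k, hk⟩ := Subgroup.mem_zpowers_iff.1 H
    obtain ⟨i, rfl⟩ := hx
    refine ⟨i + k * Λ.L, ?_⟩
    rw [← Λ.trans_zpow, hk, ← mul_smul]
    simp
  exact Set.Subset.antisymm (key h g (Λ.same_symm H)) (key g h H)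

theorem same_tau {g h : F} (H : Λ.Same g h) : Λ.tau g = Λ.tau h := by
  obtain ⟨k, hk⟩ := Subgroup.mem_zpowers_iff.1 H
  have hh : h = g * Λ.c ^ k := by rw [hk]; group
  rw [tau, tau, hh]
  group

theorem tau_mul (k g : F) : Λ.tau (k * g) = k * Λ.tau g * k⁻¹ := by
  simp only [tau]
  group

theorem tau_zpow (g : F) (k : ℤ) : Λ.tau g ^ k = g * Λ.c ^ k * g⁻¹ := by
  rw [tau, conj_zpow]

theorem tau_smul (g : F) (k i : ℤ) : Λ.tau g ^ k • (g • Λ.a i) = g • Λ.a (i + k * Λ.L) := by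
  rw [tau_zpow, ← mul_smul, ← Λ.trans_zpow, ← mul_smul]
  congr 1
  group

theorem tau_mem_axis (g : F) (k : ℤ) {x : V} (hx : x ∈ Λ.axis g) :
    Λ.tau g ^ k • x ∈ Λ.axis g := by
  obtain ⟨i, rfl⟩ := hx
  exact ⟨_, Λ.tau_smul g k i⟩

theorem smul_mem_axis (k g : F) {x : V} (hx : x ∈ Λ.axis g) : k • x ∈ Λ.axis (k * g) := by
  obtain ⟨i, rfl⟩ := hx
  exact ⟨i, by rw [mul_smul]⟩

theorem smul_mem_axis_iff (k g : F) (x : V) : k • x ∈ Λ.axis (k * g) ↔ x ∈ Λ.axis g := by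
  constructor
  · intro h
    have := Λ.smul_mem_axis k⁻¹ (k * g) h
    simpa using this
  · exact Λ.smul_mem_axis k g

theorem axis_nonempty (g : F) : (Λ.axis g).Nonempty := ⟨g • Λ.a 0, 0, rfl⟩

theorem d_smul_smul (g : F) (i j : ℤ) : (T.d (g • Λ.a i) (g • Λ.a j) : ℤ) = |i - j| := by
  rw [Λ.iso, Λ.dist]

/-- A translate of a point of an axis is far away. -/
theorem d_tau (g : F) {k : ℤ} (hk : k ≠ 0) {p q : V} (hp : p ∈ Λ.axis g) (hq : q ∈ Λ.axis g) :
    Λ.L ≤ T.d p (Λ.tau g ^ k • q) + T.d p q := by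
  obtain ⟨i, rfl⟩ := hp
  obtain ⟨j, rfl⟩ := hq
  rw [Λ.tau_smul]
  have h1 := Λ.d_smul_smul g i (j + k * Λ.L)
  have h2 := Λ.d_smul_smul g i j
  have h3 : (Λ.L : ℤ) ≤ |k| * Λ.L := by
    have : 1 ≤ |k| := Int.one_le_abs hk
    nlinarith [Int.natCast_nonneg Λ.L]
  have h4 : |k| * (Λ.L : ℤ) = |k * (Λ.L : ℤ)| := by
    rw [abs_mul, abs_of_nonneg (Int.natCast_nonneg Λ.L)]
  have h5 : |k * (Λ.L : ℤ)| ≤ |i - (j + k * Λ.L)| + |i - j| := by
    have h6 := abs_sub (i - j) (i - (j + k * Λ.L))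
    have h7 : (i - j) - (i - (j + k * Λ.L)) = k * (Λ.L : ℤ) := by ring
    rw [h7] at h6
    linarith
  have : (Λ.L : ℤ) ≤ (T.d (g • Λ.a i) (g • Λ.a (j + k * Λ.L)) : ℤ) +
      (T.d (g • Λ.a i) (g • Λ.a j) : ℤ) := by
    rw [h1, h2]; linarith
  exact_mod_cast this

theorem conv_range : T.Conv (Set.range Λ.a) := by
  have key : ∀ i j : ℤ, i ≤ j → T.seg (Λ.a i) (Λ.a j) ⊆ Set.range Λ.a := by
    intro i j hij p hp
    have h1 := T.mem_seg.1 hp
    have hd := Λ.dist i j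
    have e1 : |i - j| = j - i := by rw [abs_sub_comm]; exact abs_of_nonneg (by omega)
    rw [e1] at hd
    set m : ℤ := (T.d (Λ.a i) p : ℤ) with hm
    have hm1 : 0 ≤ m := Int.natCast_nonneg _
    have hm2 : m ≤ j - i := by
      have : T.d (Λ.a i) p ≤ T.d (Λ.a i) (Λ.a j) := by omega
      rw [← hd, hm]
      exact_mod_cast this
    have h2 := Λ.dist i (i + m)
    have h3 := Λ.dist (i + m) j
    have e2 : |i - (i + m)| = m := by rw [show i - (i + m) = -m by ring, abs_neg]; exact abs_of_nonneg hm1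
    have e3 : |i + m - j| = j - i - m := by
      rw [show i + m - j = -(j - i - m) by ring, abs_neg]; exact abs_of_nonneg (by omega)
    rw [e2] at h2
    rw [e3] at h3
    have h4 : Λ.a (i + m) ∈ T.seg (Λ.a i) (Λ.a j) := by
      rw [mem_seg]
      omega
    have h5 := T.seg_order hp h4 (by omega)
    refine ⟨i + m, ?_⟩
    symm
    apply T.eq_of_d
    omega
  rintro _ ⟨i, rfl⟩ _ ⟨j, rfl⟩
  rcases le_total i j with h | h
  · exact key i j h
  · rw [seg_comm]; exact key j i h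

include Λ in
theorem smul_seg (g : F) {x y p : V} (hp : p ∈ T.seg x y) : g • p ∈ T.seg (g • x) (g • y) := by
  rw [mem_seg] at *
  rw [Λ.iso, Λ.iso, Λ.iso, hp]

include Λ in
theorem smul_seg_iff (g : F) (x y p : V) : g • p ∈ T.seg (g • x) (g • y) ↔ p ∈ T.seg x y := by
  rw [mem_seg, mem_seg, Λ.iso, Λ.iso, Λ.iso]

theorem conv_axis (g : F) : T.Conv (Λ.axis g) := by
  rintro _ ⟨i, rfl⟩ _ ⟨j, rfl⟩ p hp
  have h1 := Λ.smul_seg g⁻¹ hp
  simp only [inv_smul_smul] at h1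
  obtain ⟨k, hk⟩ := Λ.conv_range _ ⟨i, rfl⟩ _ ⟨j, rfl⟩ h1
  exact ⟨k, by rw [hk, smul_inv_smul]⟩

theorem gate_smul (k g : F) {x b : V} (h : T.IsGate (Λ.axis g) x b) :
    T.IsGate (Λ.axis (k * g)) (k • x) (k • b) := by
  refine ⟨Λ.smul_mem_axis k g h.1, fun y hy => ?_⟩
  have h1 : k⁻¹ • y ∈ Λ.axis g := by
    have := Λ.smul_mem_axis k⁻¹ (k * g) hy
    simpa using this
  have h2 := Λ.smul_seg k (h.2 _ h1)
  simpa using h2

theorem gate_tau (g : F) (k : ℤ) {x b : V} (h : T.IsGate (Λ.axis g) x b) :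
    T.IsGate (Λ.axis g) (Λ.tau g ^ k • x) (Λ.tau g ^ k • b) := by
  have h1 := Λ.gate_smul (Λ.tau g ^ k) g h
  have h2 : Λ.axis (Λ.tau g ^ k * g) = Λ.axis g := by
    apply Λ.same_axis
    rw [tau_zpow]
    refine Subgroup.mem_zpowers_iff.2 ⟨-k, ?_⟩
    group
  rwa [h2] at h1

/-- Small cancellation for two translates. -/
theorem overlap {g h : F} {p q : V} (hp : p ∈ Λ.axis g) (hp' : p ∈ Λ.axis h) (hq : q ∈ Λ.axis g)
    (hq' : q ∈ Λ.axis h) (hd : Λ.l0 ≤ T.d p q) : Λ.Same g h := by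
  obtain ⟨i, rfl⟩ := hp
  obtain ⟨i', hi⟩ := hp'
  obtain ⟨j, rfl⟩ := hq
  obtain ⟨j', hj⟩ := hq'
  rw [Λ.iso] at hd
  refine Λ.sc (g⁻¹ * h) i j i' j' ?_ ?_ hd
  · rw [mul_smul, ← hi, inv_smul_smul]
  · rw [mul_smul, ← hj, inv_smul_smul]

end Line

end Pool.Agent.Helper32.OR
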