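import Pool.Agent.Helper32.OR.FL3
import Pool.Agent.Helper32.OR.Line

/-!
Small cancellation for the axes (project OR, MP_d4e3d0_lc).
-/

namespace Pool.Agent.Helper32.OR

open FreeGroup

theorem FL4_zpow {n : ℕ} (c : List (Fin n × Bool)) (hc : c ≠ []) (k i : ℤ) :
    (mk c) ^ k * lineA c hc i = lineA c hc (i + k * c.length) := by
  induction k using Int.induction_on generalizing i with
  | zero => simp
  | succ k ih =>
    rw [zpow_add_one, mul_assoc, lineA_trans, ih]
    congr 1
    ring
  | pred k ih =>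
    have h : (mk c)⁻¹ * lineA c hc i = lineA c hc (i - c.length) := by
      rw [inv_mul_eq_iff_eq_mul, lineA_trans]
      congr 1
      ring
    rw [zpow_sub_one, mul_assoc, h, ih]
    congr 1
    ring

theorem FL4_toWord {n : ℕ} (c : List (Fin n × Bool)) (hc : c ≠ []) (h : IsCyclicallyReduced c)
    (i : ℤ) (m : ℕ) : (mk (cycWord c hc i m)).toWord = cycWord c hc i m := by
  rw [toWord_mk]
  exact (cycWord_reduced c hc h i m).reduce_eq

theorem FL4_take_invRev {n : ℕ} (w : List (Fin n × Bool)) (l : ℕ) (hl : l ≤ w.length) :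
    (invRev w).take l = invRev (win w l (w.length - l)) := by
  unfold win invRev
  have h1 : (w.drop (w.length - l)).length = l := by
    rw [List.length_drop]
    omega
  have h2 : (w.drop (w.length - l)).take l = w.drop (w.length - l) := by
    apply List.take_of_length_le
    omega
  rw [h2, List.take_reverse, List.length_map, List.map_drop]

/-- The case `i ≤ j`. -/
theorem FL4_le {n : ℕ} (c : List (Fin n × Bool)) (hc : c ≠ []) (h : IsCyclicallyReduced c)
    (l0 : ℕ) (hSC : SC c hc l0) (g : FreeGroup (Fin n)) (i j i' j' : ℤ)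
    (h1 : lineA c hc i = g * lineA c hc i') (h2 : lineA c hc j = g * lineA c hc j')
    (h3 : l0 ≤ (ftree (Fin n)).d (lineA c hc i) (lineA c hc j)) (hij : i ≤ j) :
    g ∈ Subgroup.zpowers (mk c) := by
  obtain ⟨m, rfl⟩ : ∃ m : ℕ, j = i + m := ⟨(j - i).toNat, by omega⟩
  have hd := lineA_dist c hc h i (i + m)
  have hm : l0 ≤ m := by
    have e : |i - (i + (m : ℤ))| = m := by
      rw [show i - (i + (m : ℤ)) = -(m : ℤ) by ring, abs_neg, Nat.abs_cast]
    omega
  have hq : (lineA c hc i)⁻¹ * lineA c hc (i + m) = (lineA c hc i')⁻¹ * lineA c hc j' := by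
    rw [h1, h2]
    group
  have hd' := lineA_dist c hc h i' j'
  have hdd : (ftree (Fin n)).d (lineA c hc i') (lineA c hc j') = m := by
    rw [ftree_d, ← hq, ← ftree_d]
    have e : |i - (i + (m : ℤ))| = m := by
      rw [show i - (i + (m : ℤ)) = -(m : ℤ) by ring, abs_neg, Nat.abs_cast]
    omega
  rw [hdd] at hd'
  rw [lineA_diff] at hq
  rcases le_total i' j' with hle | hle
  · obtain rfl : j' = i' + m := by
      rw [abs_sub_comm, abs_of_nonneg (by omega)] at hd'
      omega
    rw [lineA_diff] at hq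
    have hw := congrArg toWord hq
    rw [FL4_toWord c hc h, FL4_toWord c hc h] at hw
    have hwin : cycWord c hc i l0 = cycWord c hc i' l0 := by
      have e1 := win_cycWord c hc i m l0 0 (by omega)
      have e2 := win_cycWord c hc i' m l0 0 (by omega)
      simp only [Nat.cast_zero, add_zero] at e1 e2
      rw [← e1, ← e2, hw]
    obtain ⟨k, hk⟩ := (hSC i i').1 hwin
    have hi : i = i' + k * c.length := by
      have : (c.length : ℤ) * k = k * c.length := mul_comm _ _
      omega
    have hz := FL4_zpow c hc k i'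
    rw [← hi, h1] at hz
    have hg : g = (mk c) ^ k := (mul_right_cancel hz).symm
    rw [hg]
    exact Subgroup.mem_zpowers_iff.2 ⟨k, rfl⟩
  · exfalso
    obtain rfl : i' = j' + m := by
      rw [abs_of_nonneg (by omega)] at hd'
      omega
    have e0 : (lineA c hc (j' + m))⁻¹ * lineA c hc j' = mk (invRev (cycWord c hc j' m)) := by
      rw [← inv_mk, ← lineA_diff]
      group
    rw [e0] at hq
    have hw := congrArg toWord hq
    rw [FL4_toWord c hc h, ← inv_mk, toWord_inv, FL4_toWord c hc h] at hw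
    have e1 := win_cycWord c hc i m l0 0 (by omega)
    simp only [Nat.cast_zero, add_zero] at e1
    have e2 := FL4_take_invRev (cycWord c hc j' m) l0 (by rw [length_cycWord]; exact hm)
    rw [length_cycWord, win_cycWord c hc j' m l0 (m - l0) (by omega)] at e2
    refine (hSC i (j' + ((m - l0 : ℕ) : ℤ))).2 ?_
    rw [← e1, hw, ← e2]
    unfold win
    rw [List.drop_zero]

/-- Let `m = |i - j| ≥ l0`, also `m = |i' - j'|` (`lineA_dist`, left translation). Exchanging `i, i'`
with `j, j'` we may assume `i < j`. `(lineA i)⁻¹ * lineA j = (lineA i')⁻¹ * lineA j'`. If `i' < j'`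
then `cycWord i m = cycWord i' m` (both reduced), so their first `l0` letters agree, `SC` gives
`L ∣ i - i'`, hence `lineA i = (mk c) ^ k * lineA i'` and `g = (mk c) ^ k`. If `j' < i'` then
`cycWord i m = invRev (cycWord j' m)`, whose first `l0` letters are
`invRev (cycWord (j' + m - l0) l0)`: impossible by `SC`. -/
theorem lineA_sc {n : ℕ} (c : List (Fin n × Bool)) (hc : c ≠ []) (h : IsCyclicallyReduced c)
    (l0 : ℕ) (hl0 : 1 ≤ l0) (hSC : SC c hc l0) (g : FreeGroup (Fin n)) (i j i' j' : ℤ)
    (h1 : lineA c hc i = g * lineA c hc i') (h2 : lineA c hc j = g * lineA c hc j')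
    (h3 : l0 ≤ (ftree (Fin n)).d (lineA c hc i) (lineA c hc j)) :
    g ∈ Subgroup.zpowers (mk c) := by
  rcases le_total i j with hij | hij
  · exact FL4_le c hc h l0 hSC g i j i' j' h1 h2 h3 hij
  · rw [(ftree (Fin n)).d_comm] at h3
    exact FL4_le c hc h l0 hSC g j i j' i' h2 h1 h3 hij

/-- The line. `iso`: `(g x)⁻¹ (g y) = x⁻¹ y`. -/
noncomputable def fline {n : ℕ} (c : List (Fin n × Bool)) (hc : c ≠ [])
    (h : IsCyclicallyReduced c) (l0 : ℕ) (hl0 : 1 ≤ l0) (hL : 8 * l0 + 8 ≤ c.length)
    (hSC : SC c hc l0) : Line (ftree (Fin n)) (FreeGroup (Fin n)) where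
  iso := by
    intro g x y
    rw [ftree_d, ftree_d, smul_eq_mul, smul_eq_mul]
    congr 1
    group
  c := mk c
  a := lineA c hc
  L := c.length
  l0 := l0
  l0_pos := hl0
  large := hL
  dist := lineA_dist c hc h
  trans := by
    intro i
    rw [smul_eq_mul]
    exact lineA_trans c hc i
  sc := by
    intro g i j i' j' h1 h2 h3
    rw [smul_eq_mul] at h1 h2
    exact lineA_sc c hc h l0 hl0 hSC g i j i' j' h1 h2 h3

end Pool.Agent.Helper32.OR
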