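import Pool.Agent.Helper32.OR.Mill
import Pool.Agent.Helper32.OR.FL4
import Pool.Agent.Helper32.OR.F4

/-!
Greendlinger's lemma for words (project OR, MP_d4e3d0_lc).
-/

namespace Pool.Agent.Helper32.OR

open FreeGroup

private theorem Green_app {α : Type*} (u v : List (α × Bool)) :
    invRev (u ++ v) = invRev v ++ invRev u := by
  simp [invRev, List.map_append, List.reverse_append]

private theorem Green_aux {n : ℕ} (c : List (Fin n × Bool)) (hc : c ≠ [])
    (h : IsCyclicallyReduced c) (m : ℕ) (γ g : FreeGroup (Fin n)) (i j : ℤ)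
    (hp : g * lineA c hc i ∈ (ftree (Fin n)).seg 1 γ)
    (hq : g * lineA c hc j ∈ (ftree (Fin n)).seg 1 γ)
    (hd : (ftree (Fin n)).d 1 (g * lineA c hc i) ≤ (ftree (Fin n)).d 1 (g * lineA c hc j))
    (hm : (m : ℤ) ≤ |i - j|) :
    ∃ i : ℤ, cycWord c hc i m <:+: γ.toWord ∨ invRev (cycWord c hc i m) <:+: γ.toWord := by
  obtain ⟨s, t, hst⟩ := toWord_between hp hq hd
  have e : (g * lineA c hc i)⁻¹ * (g * lineA c hc j) = (lineA c hc i)⁻¹ * lineA c hc j := by
    group
  rw [e] at hst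
  rcases le_or_gt i j with hij | hij
  · obtain ⟨k, hk⟩ := Int.eq_ofNat_of_zero_le (by omega : 0 ≤ j - i)
    have hj : j = i + (k : ℤ) := by omega
    have hmk : m ≤ k := by
      rw [abs_sub_comm, hk, abs_of_nonneg (by omega)] at hm
      exact_mod_cast hm
    rw [hj, lineA_diff, toWord_mk, (cycWord_reduced c hc h i k).reduce_eq] at hst
    obtain ⟨l, rfl⟩ := Nat.exists_eq_add_of_le hmk
    rw [cycWord_add] at hst
    refine ⟨i, Or.inl ⟨s, cycWord c hc (i + m) l ++ t, ?_⟩⟩
    rw [← hst]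
    simp [List.append_assoc]
  · obtain ⟨k, hk⟩ := Int.eq_ofNat_of_zero_le (by omega : 0 ≤ i - j)
    have hi : i = j + (k : ℤ) := by omega
    have hmk : m ≤ k := by
      rw [hk, abs_of_nonneg (by omega)] at hm
      exact_mod_cast hm
    have e2 : (lineA c hc i)⁻¹ * lineA c hc j = ((lineA c hc j)⁻¹ * lineA c hc i)⁻¹ := by
      group
    rw [e2, hi, lineA_diff, toWord_inv, toWord_mk, (cycWord_reduced c hc h j k).reduce_eq] at hst
    obtain ⟨l, rfl⟩ := Nat.exists_eq_add_of_le hmk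
    rw [cycWord_add, Green_app] at hst
    refine ⟨j, Or.inr ⟨s ++ invRev (cycWord c hc (j + m) l), t, ?_⟩⟩
    rw [← hst]
    simp [List.append_assoc]

/-- Apply `Line.greendlinger` to `fline c hc h l0 hl0 hL hSC` and `x0 = 1` (`ftree_step`). The points
`p = g * lineA i`, `q = g * lineA j` lie on the segment from `1` to `γ`; let `m = c.length - 3 * l0 - 2`,
so `|i - j| ≥ m` (`lineA_dist`). Exchange `p` and `q` so that `d 1 p ≤ d 1 q`. If `i ≤ j` then
`p⁻¹ * q = mk (cycWord i (j - i))` (`lineA_diff`), a reduced word (`cycWord_reduced`), so it is a subword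
of `γ.toWord` by `toWord_between`, and its first `m` letters are `cycWord i m` (`cycWord_add`). If
`j < i` then `p⁻¹ * q = (mk (cycWord j (i - j)))⁻¹` with word `invRev (cycWord j (i - j))`, whose last `m`
letters are `invRev (cycWord j m)`. -/
theorem greendlinger {n : ℕ} (c : List (Fin n × Bool)) (hc : c ≠ []) (h : IsCyclicallyReduced c)
    (l0 : ℕ) (hl0 : 1 ≤ l0) (hL : 8 * l0 + 8 ≤ c.length) (hSC : SC c hc l0)
    (γ : FreeGroup (Fin n)) (hγ : γ ∈ Subgroup.normalClosure {FreeGroup.mk c}) (h1 : γ ≠ 1) :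
    ∃ i : ℤ, cycWord c hc i (c.length - 3 * l0 - 2) <:+: γ.toWord ∨
      invRev (cycWord c hc i (c.length - 3 * l0 - 2)) <:+: γ.toWord := by
  obtain ⟨g, i, j, hp, hq, hd⟩ := (fline c hc h l0 hl0 hL hSC).greendlinger 1
    (fun x hx => ftree_step x hx) γ hγ h1
  have hp' : g * lineA c hc i ∈ (ftree (Fin n)).seg 1 γ := by
    have := hp
    rw [smul_eq_mul, smul_eq_mul, mul_one] at this
    exact this
  have hq' : g * lineA c hc j ∈ (ftree (Fin n)).seg 1 γ := by
    have := hq
    rw [smul_eq_mul, smul_eq_mul, mul_one] at this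
    exact this
  have hd' : c.length ≤ (ftree (Fin n)).d (lineA c hc i) (lineA c hc j) + 3 * l0 + 2 := hd
  have hdist := lineA_dist c hc h i j
  have hm : ((c.length - 3 * l0 - 2 : ℕ) : ℤ) ≤ |i - j| := by
    rw [← hdist]
    exact_mod_cast (by omega : c.length - 3 * l0 - 2 ≤
      (ftree (Fin n)).d (lineA c hc i) (lineA c hc j))
  rcases le_total ((ftree (Fin n)).d 1 (g * lineA c hc i))
    ((ftree (Fin n)).d 1 (g * lineA c hc j)) with hle | hle
  · exact Green_aux c hc h _ γ g i j hp' hq' hle hm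
  · exact Green_aux c hc h _ γ g j i hq' hp' hle (by rwa [abs_sub_comm])

end Pool.Agent.Helper32.OR
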