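import Pool.Agent.Helper32.OR.BinDefs

/-!
Sentences with three blocks of quantifiers (project OR, MP_d4e3d0_lc).
-/

namespace Pool.Agent.Helper32.OR

open FirstOrder

/-- Quantify the last `k` variables universally. -/
def allN {α : Type*} : (k : ℕ) → {m : ℕ} → grpLang.BoundedFormula α (m + k) →
    grpLang.BoundedFormula α m
  | 0, _, φ => φ
  | k + 1, _, φ => allN k φ.all

/-- Quantify the last `k` variables existentially. -/
def exN {α : Type*} : (k : ℕ) → {m : ℕ} → grpLang.BoundedFormula α (m + k) →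
    grpLang.BoundedFormula α m
  | 0, _, φ => φ
  | k + 1, _, φ => exN k φ.ex

/-- The sentence `∀ x₁ … x_a ∃ z₁ … z_b ∀ u, ψ`. -/
def AEA (a b : ℕ) (ψ : grpLang.BoundedFormula Empty (0 + a + b + 1)) : grpLang.Sentence :=
  allN a (m := 0) (exN b ψ.all)

/-- The sentence `∃ x₁ … x_a ∀ y₁ … y_b ∃ z₁ … z_m, ψ`. -/
def EAE (a b m : ℕ) (ψ : grpLang.BoundedFormula Empty (0 + a + b + m)) : grpLang.Sentence :=
  exN a (m := 0) (allN b (exN m ψ))

/-- Every tuple of length `a` lies in a free subgroup `M` of rank `j ≥ 2` such that `⟨M, u⟩` is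
the free product of `M` and `⟨u⟩ ≅ ℤ` for every `u` outside of `M`. -/
def Closed1 (G : Type) [Group G] (a : ℕ) : Prop :=
  ∀ x : Fin a → G, ∃ j : ℕ, 2 ≤ j ∧ ∃ f : FreeGroup (Fin j) →* G, Function.Injective f ∧
    (∀ i, x i ∈ f.range) ∧ ∀ u, u ∉ f.range → Function.Injective
      (FreeGroup.lift (Fin.snoc (fun i => f (FreeGroup.of i)) u : Fin (j + 1) → G))

/-- The elements `x 0, …, x (s - 1)` are part of a free basis of a subgroup containing any given
`b` elements. -/
def Part (G : Type) [Group G] (s b : ℕ) (x : Fin s → G) : Prop :=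
  ∀ y : Fin b → G, ∃ (N : ℕ) (hN : s ≤ N) (f : FreeGroup (Fin N) →* G), Function.Injective f ∧
    (∀ i : Fin s, f (FreeGroup.of (Fin.castLE hN i)) = x i) ∧ ∀ i, y i ∈ f.range

end Pool.Agent.Helper32.OR
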