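import Mathlib

/-!
Groups in which two elements commute or generate a free group (project OR, MP_d4e3d0_lc).
-/

namespace Pool.Agent.Helper32.OR

/-- Two elements commute or satisfy no relation; the centralizer of an element `≠ 1` is infinite
cyclic; the group is not abelian. -/
structure Pairs (G : Type) [Group G] : Prop where
  rel : ∀ (a b : G) (w : FreeGroup (Fin 2)), w ≠ 1 → FreeGroup.lift ![a, b] w = 1 → a * b = b * a
  tf : ∀ (a : G) (k : ℤ), a ^ k = 1 → k = 0 ∨ a = 1
  cen : ∀ a : G, a ≠ 1 → ∃ u : G, u ≠ 1 ∧ ∀ x : G, a * x = x * a ↔ x ∈ Subgroup.zpowers u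
  noncomm : ∃ a b : G, a * b ≠ b * a

end Pool.Agent.Helper32.OR
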