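import Pool.Agent.Helper32.OR.B1

/-!
Bijections which preserve the two variable relations (project OR, MP_d4e3d0_lc).
-/

namespace Pool.Agent.Helper32.OR

open FirstOrder

/-- A term without variables has the value `1` in every group. -/
private theorem B2_closed {β : Type*} [DecidableEq β] (t : grpLang.Term β)
    (h : t.varFinset = ∅) (G : Type) [Group G] (v : β → G) : t.realize v = 1 := by
  induction t with
  | var b =>
    simp [Language.Term.varFinset] at h
  | @func l f ts ih =>
    have hsub : ∀ i, (ts i).varFinset = ∅ := by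
      intro i
      rw [Finset.eq_empty_iff_forall_notMem] at h ⊢
      intro z hz
      apply h z
      simp only [Language.Term.varFinset, Finset.mem_biUnion, Finset.mem_univ, true_and]
      exact ⟨i, hz⟩
    have hw := fun i => ih i (hsub i)
    change GrpFun l at f
    cases f with
    | one => rfl
    | inv =>
      change ((ts 0).realize v)⁻¹ = 1
      rw [hw 0, inv_one]
    | mul =>
      change (ts 0).realize v * (ts 1).realize v = 1
      rw [hw 0, hw 1, mul_one]

/-- A finite set with at most two elements is empty or contained in a pair. -/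
private theorem B2_pair {β : Type*} [DecidableEq β] (s : Finset β) (h : s.card ≤ 2) :
    s = ∅ ∨ ∃ x y : β, s ⊆ {x, y} := by
  rcases s.eq_empty_or_nonempty with h0 | ⟨x, hx⟩
  · exact Or.inl h0
  · right
    have h1 : (s.erase x).card ≤ 1 := by
      rw [Finset.card_erase_of_mem hx]
      omega
    have : Nonempty β := ⟨x⟩
    obtain ⟨y, hy⟩ := Finset.card_le_one_iff_subset_singleton.1 h1
    refine ⟨x, y, fun z hz => ?_⟩
    by_cases hzx : z = x
    · rw [hzx]
      exact Finset.mem_insert_self _ _
    · exact Finset.mem_insert_of_mem (hy (Finset.mem_erase.2 ⟨hzx, hz⟩))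

/-- The case of an equation between two terms. -/
private theorem B2_equal {G H : Type} [Group G] [Group H] (e : G ≃ H)
    (he : ∀ (a b : G) (w : FreeGroup (Fin 2)), FreeGroup.lift ![a, b] w = 1 ↔
      FreeGroup.lift ![e a, e b] w = 1) {β : Type*} [DecidableEq β]
    (t₁ t₂ : grpLang.Term β) (h : (t₁.varFinset ∪ t₂.varFinset).card ≤ 2) (v : β → G) :
    t₁.realize v = t₂.realize v ↔ t₁.realize (e ∘ v) = t₂.realize (e ∘ v) := by
  rcases B2_pair _ h with h0 | ⟨x, y, hxy⟩
  · rw [Finset.union_eq_empty] at h0
    rw [B2_closed t₁ h0.1, B2_closed t₂ h0.2, B2_closed t₁ h0.1, B2_closed t₂ h0.2]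
    exact ⟨fun _ => rfl, fun _ => rfl⟩
  · obtain ⟨w₁, h₁⟩ := exists_word t₁ x y (Finset.subset_union_left.trans hxy)
    obtain ⟨w₂, h₂⟩ := exists_word t₂ x y (Finset.subset_union_right.trans hxy)
    have h3 := he (v x) (v y) (w₁ * w₂⁻¹)
    rw [map_mul, map_inv, mul_inv_eq_one, map_mul, map_inv, mul_inv_eq_one] at h3
    rw [h₁, h₂, h₁, h₂]
    exact h3

/-- If a bijection preserves all relations between two elements then it preserves all formulas of
the fragment. Induction on the formula. For `equal t₁ t₂`: the variables of both terms lie in some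
`{x, y}` (card at most 2; if there is no variable at all and no element of the index type is
available treat the terms as constants: then both sides are equal to `1`), the equation is
`lift ![v x, v y] (w₁ * w₂⁻¹) = 1`. For `all` use surjectivity of `e` (`Fin.snoc` and composition). -/
theorem realize_iff_of_equiv {G H : Type} [Group G] [Group H] (e : G ≃ H)
    (he : ∀ (a b : G) (w : FreeGroup (Fin 2)), FreeGroup.lift ![a, b] w = 1 ↔
      FreeGroup.lift ![e a, e b] w = 1) {α : Type*} [DecidableEq α] {k : ℕ}
    (φ : grpLang.BoundedFormula α k) (hφ : TwoVar φ) (v : α → G) (xs : Fin k → G) :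
    φ.Realize v xs ↔ φ.Realize (e ∘ v) (e ∘ xs) := by
  induction φ with
  | falsum => exact Iff.rfl
  | equal t₁ t₂ =>
    change t₁.realize (Sum.elim v xs) = t₂.realize (Sum.elim v xs) ↔
      t₁.realize (Sum.elim (e ∘ v) (e ∘ xs)) = t₂.realize (Sum.elim (e ∘ v) (e ∘ xs))
    rw [← Sum.comp_elim]
    exact B2_equal e he t₁ t₂ hφ _
  | rel R ts => exact R.elim
  | imp φ ψ ih₁ ih₂ =>
    rw [Language.BoundedFormula.realize_imp, Language.BoundedFormula.realize_imp]
    exact imp_congr (ih₁ hφ.1 xs) (ih₂ hφ.2 xs)
  | all φ ih =>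
    rw [Language.BoundedFormula.realize_all, Language.BoundedFormula.realize_all]
    constructor
    · intro h b
      have h1 := (ih hφ (Fin.snoc xs (e.symm b))).1 (h (e.symm b))
      rw [Fin.comp_snoc, e.apply_symm_apply] at h1
      exact h1
    · intro h a
      rw [ih hφ (Fin.snoc xs a), Fin.comp_snoc]
      exact h (e a)

theorem sentence_iff_of_equiv {G H : Type} [Group G] [Group H] (e : G ≃ H)
    (he : ∀ (a b : G) (w : FreeGroup (Fin 2)), FreeGroup.lift ![a, b] w = 1 ↔
      FreeGroup.lift ![e a, e b] w = 1) (φ : grpLang.Sentence) (hφ : TwoVar φ) :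
    G ⊨ φ ↔ H ⊨ φ := by
  have h := realize_iff_of_equiv e he φ hφ (default : Empty → G) (default : Fin 0 → G)
  have h1 : e ∘ (default : Empty → G) = default := Subsingleton.elim _ _
  have h2 : e ∘ (default : Fin 0 → G) = default := Subsingleton.elim _ _
  rw [h1, h2] at h
  exact h

end Pool.Agent.Helper32.OR
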