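import Mathlib

/-!
Choice of the window length (project OR, MP_d4e3d0_lc).
-/

namespace Pool.Agent.Helper32.OR

private theorem Ct8_sq_le (s : ℕ) : s * s ≤ 3 ^ s := by
  induction s with
  | zero => simp
  | succ s ih =>
    rcases Nat.lt_or_ge s 2 with h | h
    · interval_cases s <;> norm_num
    · rw [pow_succ]
      nlinarith

private theorem Ct8_exp (b K : ℕ) (hb : 3 ≤ b) :
    ∀ᶠ s : ℕ in Filter.atTop, K * b ^ 3 * s ^ 2 * (b - 1) ^ s ≤ b ^ s := by
  have hb0 : (0 : ℝ) < b := by exact_mod_cast (by omega : 0 < b)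
  have hr : |((b - 1 : ℕ) : ℝ) / b| < 1 := by
    rw [abs_of_nonneg (by positivity), div_lt_one hb0]
    exact_mod_cast (by omega : b - 1 < b)
  have h := tendsto_pow_const_mul_const_pow_of_abs_lt_one 2 hr
  have hpos : (0 : ℝ) < 1 / (K * (b : ℝ) ^ 3 + 1) := by positivity
  filter_upwards [h.eventually_lt_const hpos] with s hs
  rw [div_pow, ← mul_div_assoc, div_lt_div_iff₀ (by positivity) (by positivity)] at hs
  have h2 : ((K * b ^ 3 * s ^ 2 * (b - 1) ^ s : ℕ) : ℝ) ≤ ((b ^ s : ℕ) : ℝ) := by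
    push_cast
    have h3 : (0 : ℝ) ≤ (s : ℝ) ^ 2 * ((b - 1 : ℕ) : ℝ) ^ s := by positivity
    nlinarith
  exact_mod_cast h2

/-- Choice of the window length: `s t` is the least `s ≥ 1` with `t * s ≤ b ^ s`, `b = 2 n - 1 ≥ 3`.
It tends to infinity because `t ≤ b ^ (s t)`. For large `t` it is at least 2, so
`b ^ (s - 1) < t * (s - 1)` and `b ^ s < b * t * s`, hence
`s * (b - 1) ^ s = ((b - 1) / b) ^ s * (s * b ^ s) ≤ b * s ^ 2 * ((b - 1) / b) ^ s * t`, and
`s ^ 2 * ((b - 1) / b) ^ s → 0`. -/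
theorem exists_window_length (n K : ℕ) (hn : 2 ≤ n) : ∃ s : ℕ → ℕ, (∀ t, 1 ≤ s t) ∧
    Filter.Tendsto s Filter.atTop Filter.atTop ∧
    ∀ᶠ t : ℕ in Filter.atTop, t * s t ≤ (2 * n - 1) ^ s t ∧
      K * (s t * (2 * n - 1) ^ 2 * (2 * n - 2) ^ s t) ≤ t := by
  obtain ⟨b, hb⟩ : ∃ b, b = 2 * n - 1 := ⟨_, rfl⟩
  have hb1 : 2 * n - 2 = b - 1 := by omega
  rw [← hb, hb1]
  have hb3 : 3 ≤ b := by omega
  have hex : ∀ t : ℕ, ∃ s, 1 ≤ s ∧ t * s ≤ b ^ s := fun t => by
    refine ⟨t + 1, by omega, ?_⟩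
    calc t * (t + 1) ≤ (t + 1) * (t + 1) := Nat.mul_le_mul_right _ (by omega)
      _ ≤ 3 ^ (t + 1) := Ct8_sq_le _
      _ ≤ b ^ (t + 1) := Nat.pow_le_pow_left hb3 _
  classical
  obtain ⟨s, hs⟩ : ∃ s : ℕ → ℕ, s = fun t => Nat.find (hex t) := ⟨_, rfl⟩
  have h1 : ∀ t, 1 ≤ s t ∧ t * s t ≤ b ^ s t := fun t => by
    rw [hs]; exact Nat.find_spec (hex t)
  have hmin : ∀ t m, m < s t → ¬ (1 ≤ m ∧ t * m ≤ b ^ m) := fun t m hm => by
    rw [hs] at hm
    exact Nat.find_min (hex t) hm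
  have htop : Filter.Tendsto s Filter.atTop Filter.atTop := by
    refine Filter.tendsto_atTop.2 fun M => ?_
    filter_upwards [Filter.eventually_gt_atTop (b ^ M)] with t ht
    by_contra hlt
    push Not at hlt
    have h2 : t ≤ b ^ M := calc
      t ≤ t * s t := Nat.le_mul_of_pos_right t (h1 t).1
      _ ≤ b ^ s t := (h1 t).2
      _ ≤ b ^ M := Nat.pow_le_pow_right (by omega) hlt.le
    omega
  refine ⟨s, fun t => (h1 t).1, htop, ?_⟩
  filter_upwards [htop.eventually (Ct8_exp b K hb3),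
    htop.eventually (Filter.eventually_ge_atTop 2)] with t ht ht2
  refine ⟨(h1 t).2, ?_⟩
  have h2 := hmin t (s t - 1) (by omega)
  have h3 : b ^ (s t - 1) < t * (s t - 1) := by
    by_contra hc
    push Not at hc
    exact h2 ⟨by omega, hc⟩
  have h4 : b ^ s t = b ^ (s t - 1) * b := by
    rw [← pow_succ]
    congr 1
    omega
  have h5 : b ^ s t ≤ b * s t * t := by
    rw [h4]
    have h6 : b ^ (s t - 1) ≤ t * s t := h3.le.trans (Nat.mul_le_mul_left t (by omega))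
    calc b ^ (s t - 1) * b ≤ t * s t * b := Nat.mul_le_mul_right b h6
      _ = b * s t * t := by ring
  have h7 : b * s t * (K * (s t * b ^ 2 * (b - 1) ^ s t)) ≤ b * s t * t := by
    refine le_trans (le_of_eq ?_) (ht.trans h5)
    ring
  exact Nat.le_of_mul_le_mul_left h7 (Nat.mul_pos (by omega) (by omega))

end Pool.Agent.Helper32.OR
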