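import Pool.Agent.Helper32.OR.Defs

/-!
From spheres to balls (project OR, MP_d4e3d0_lc).
-/

namespace Pool.Agent.Helper32.OR

open FreeGroup

private theorem Ct9_fin (n t : ℕ) : {r : FreeGroup (Fin n) | r.norm ≤ t}.Finite := by
  have h := (List.finite_length_le (Fin n × Bool) t).preimage
    (f := (toWord : FreeGroup (Fin n) → List (Fin n × Bool))) toWord_injective.injOn
  exact h

private theorem Ct9_sum (n : ℕ) (Q : FreeGroup (Fin n) → Prop) (t : ℕ) :
    Set.ncard {r : FreeGroup (Fin n) | r.norm ≤ t ∧ Q r} =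
      ∑ u ∈ Finset.range (t + 1), Set.ncard {r : FreeGroup (Fin n) | r.norm = u ∧ Q r} := by
  induction t with
  | zero => simp
  | succ t ih =>
    rw [Finset.sum_range_succ, ← ih]
    have hd : Disjoint {r : FreeGroup (Fin n) | r.norm ≤ t ∧ Q r}
        {r : FreeGroup (Fin n) | r.norm = t + 1 ∧ Q r} := by
      rw [Set.disjoint_left]
      rintro r ⟨h1, _⟩ ⟨h2, _⟩
      omega
    rw [← Set.ncard_union_eq hd ((Ct9_fin n t).subset fun r hr => hr.1)
      ((Ct9_fin n (t + 1)).subset fun r hr => le_of_eq hr.1)]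
    congr 1
    ext r
    simp only [Set.mem_setOf_eq, Set.mem_union]
    constructor
    · rintro ⟨h1, h2⟩
      rcases Nat.lt_or_ge r.norm (t + 1) with h | h
      · exact Or.inl ⟨by omega, h2⟩
      · exact Or.inr ⟨by omega, h2⟩
    · rintro (⟨h1, h2⟩ | ⟨h1, h2⟩)
      · exact ⟨by omega, h2⟩
      · exact ⟨by omega, h2⟩

private theorem Ct9_sum' (n t : ℕ) :
    Set.ncard {r : FreeGroup (Fin n) | r.norm ≤ t} =
      ∑ u ∈ Finset.range (t + 1), Set.ncard {r : FreeGroup (Fin n) | r.norm = u} := by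
  have h := Ct9_sum n (fun _ => True) t
  simpa using h

private theorem Ct9_split (n : ℕ) (P : FreeGroup (Fin n) → Prop) (t : ℕ) :
    Set.ncard {r : FreeGroup (Fin n) | r.norm ≤ t} =
      Set.ncard {r : FreeGroup (Fin n) | r.norm ≤ t ∧ P r} +
        Set.ncard {r : FreeGroup (Fin n) | r.norm ≤ t ∧ ¬ P r} := by
  have hd : Disjoint {r : FreeGroup (Fin n) | r.norm ≤ t ∧ P r}
      {r : FreeGroup (Fin n) | r.norm ≤ t ∧ ¬ P r} := by
    rw [Set.disjoint_left]
    rintro r ⟨_, h1⟩ ⟨_, h2⟩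
    exact h2 h1
  rw [← Set.ncard_union_eq hd ((Ct9_fin n t).subset fun r hr => hr.1)
    ((Ct9_fin n t).subset fun r hr => hr.1)]
  congr 1
  ext r
  simp only [Set.mem_setOf_eq, Set.mem_union]
  tauto

private theorem Ct9_one (n : ℕ) (hn : 1 ≤ n) (u : ℕ) :
    1 ≤ Set.ncard {r : FreeGroup (Fin n) | r.norm = u} := by
  have hf : {r : FreeGroup (Fin n) | r.norm = u}.Finite :=
    (Ct9_fin n u).subset fun r hr => le_of_eq hr
  exact (Set.ncard_pos hf).mpr ⟨of (⟨0, hn⟩ : Fin n) ^ u, norm_of_pow _ u⟩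

/-- From spheres to balls: if the proportion of the exceptions among the words of length exactly
`t` is at most `ε t → 0` then the proportion in the balls tends to 0 (the spheres have at least
one element, so their sum tends to infinity). -/
theorem aas_of_sphere (n : ℕ) (hn : 1 ≤ n) (P : FreeGroup (Fin n) → Prop) (ε : ℕ → ℝ)
    (hε : Filter.Tendsto ε Filter.atTop (nhds 0))
    (h : ∀ᶠ t : ℕ in Filter.atTop, (Set.ncard {r : FreeGroup (Fin n) | r.norm = t ∧ ¬ P r} : ℝ) ≤
      ε t * Set.ncard {r : FreeGroup (Fin n) | r.norm = t}) : AAS n P := by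
  set E : ℕ → ℝ := fun t => (Set.ncard {r : FreeGroup (Fin n) | r.norm = t ∧ ¬ P r} : ℝ) with hE
  set S : ℕ → ℝ := fun t => (Set.ncard {r : FreeGroup (Fin n) | r.norm = t} : ℝ) with hS
  have hS1 : ∀ u, 1 ≤ S u := fun u => by
    simp only [hS]
    exact_mod_cast Ct9_one n hn u
  have hlo : E =o[Filter.atTop] S := by
    rw [Asymptotics.isLittleO_iff]
    intro c hc
    filter_upwards [h, hε.eventually (gt_mem_nhds hc)] with t h1 h2
    rw [Real.norm_of_nonneg (by positivity), Real.norm_of_nonneg (by positivity)]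
    exact h1.trans (mul_le_mul_of_nonneg_right h2.le (by positivity))
  have hSt : Filter.Tendsto (fun m => ∑ i ∈ Finset.range m, S i) Filter.atTop Filter.atTop := by
    refine Filter.tendsto_atTop_mono (fun m => ?_) tendsto_natCast_atTop_atTop
    calc (m : ℝ) = ∑ _i ∈ Finset.range m, (1 : ℝ) := by simp
      _ ≤ _ := Finset.sum_le_sum fun i _ => hS1 i
  have hsum := hlo.sum_range (fun u => by positivity) hSt
  have hdiv := hsum.tendsto_div_nhds_zero
  have hdiv1 := hdiv.comp (Filter.tendsto_add_atTop_nat 1)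
  have h1 : Filter.Tendsto (fun t : ℕ => 1 - (∑ i ∈ Finset.range (t + 1), E i) /
      (∑ i ∈ Finset.range (t + 1), S i)) Filter.atTop (nhds (1 - 0)) :=
    tendsto_const_nhds.sub hdiv1
  rw [sub_zero] at h1
  refine h1.congr fun t => ?_
  have hb : (Set.ncard {r : FreeGroup (Fin n) | r.norm ≤ t} : ℝ) =
      ∑ i ∈ Finset.range (t + 1), S i := by
    rw [Ct9_sum']
    push_cast
    rfl
  have he : (Set.ncard {r : FreeGroup (Fin n) | r.norm ≤ t ∧ ¬ P r} : ℝ) =
      ∑ i ∈ Finset.range (t + 1), E i := by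
    rw [Ct9_sum n (fun r => ¬ P r)]
    push_cast
    rfl
  have hsp : (Set.ncard {r : FreeGroup (Fin n) | r.norm ≤ t} : ℝ) =
      (Set.ncard {r : FreeGroup (Fin n) | r.norm ≤ t ∧ P r} : ℝ) +
        (Set.ncard {r : FreeGroup (Fin n) | r.norm ≤ t ∧ ¬ P r} : ℝ) := by
    exact_mod_cast Ct9_split n P t
  have hpos : 0 < ∑ i ∈ Finset.range (t + 1), S i := by
    apply Finset.sum_pos (fun i _ => lt_of_lt_of_le one_pos (hS1 i))
    exact ⟨0, by simp⟩
  rw [hb, ← he, ← hb]
  rw [hb] at hsp ⊢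
  rw [eq_div_iff hpos.ne', sub_mul, one_mul, div_mul_cancel₀ _ hpos.ne']
  linarith

end Pool.Agent.Helper32.OR
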