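import Pool.Agent.Helper32.OR.Ct7
import Pool.Agent.Helper32.OR.Ct8
import Pool.Agent.Helper32.OR.Ct9

/-!
Generic relators (project OR, MP_d4e3d0_lc).
-/

namespace Pool.Agent.Helper32.OR

open FreeGroup

theorem Ct10_finite (n t : ℕ) : {r : FreeGroup (Fin n) | r.norm = t}.Finite := by
  refine ((red_finite n t).preimage
    (f := fun r : FreeGroup (Fin n) => r.toWord) (toWord_injective.injOn)).subset ?_
  intro r hr
  exact ⟨hr, isReduced_toWord⟩

/-- Assembly: take `s t` of `exists_window_length` (with `K + 1` for `K`); `K * s ≤ t` follows from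
the last inequality there. The exceptions in the sphere of radius `t` are contained in
`{t < K * badCard}` (proportion `≤ 2 K t / (2 n - 1) ^ s ≤ 2 K / s`) and `{win 0 = invRev (win (t - s))}`
(proportion `≤ 1 / (2 n - 1) ^ s`, `inverse_windows` with `i = 0`, `j = t - s ≥ s`). -/
theorem generic_aas (n K : ℕ) (hn : 2 ≤ n) : AAS n (Generic n K) := by
  obtain ⟨s, hs1, hs2, hs3⟩ := exists_window_length n (K + 2) hn
  refine aas_of_sphere n (by omega) (Generic n K) (fun t => ((2 * K + 1 : ℕ) : ℝ) / (s t : ℝ)) ?_ ?_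
  · exact (tendsto_natCast_atTop_atTop.comp hs2).const_div_atTop _
  · filter_upwards [hs3, Filter.eventually_ge_atTop (K + 1)] with t ht hK
    obtain ⟨h1, h2⟩ := ht
    have hst := hs1 t
    set σ := s t with hσ
    -- elementary consequences
    have hg : 1 ≤ (2 * n - 1) ^ 2 * (2 * n - 2) ^ σ :=
      Nat.mul_pos (Nat.pow_pos (by omega)) (Nat.pow_pos (by omega))
    have h3 : (K + 2) * σ ≤ t := by
      calc (K + 2) * σ = (K + 2) * (σ * 1) := by ring
        _ ≤ (K + 2) * (σ * ((2 * n - 1) ^ 2 * (2 * n - 2) ^ σ)) :=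
          Nat.mul_le_mul_left _ (Nat.mul_le_mul_left _ hg)
        _ = (K + 2) * (σ * (2 * n - 1) ^ 2 * (2 * n - 2) ^ σ) := by ring
        _ ≤ t := h2
    have h4 : 2 * σ ≤ t := by nlinarith
    have h5 : K * σ ≤ t := by nlinarith
    have h6 : K * (σ * (2 * n - 1) ^ 2 * (2 * n - 2) ^ σ) ≤ t :=
      le_trans (Nat.mul_le_mul_right _ (by omega)) h2
    have ht1 : 1 ≤ t := by omega
    set A : Set (List (Fin n × Bool)) := {w | w ∈ Red n t ∧ t < K * badCard w σ} with hA
    set B : Set (List (Fin n × Bool)) :=
      {w | w ∈ Red n t ∧ win w σ (t - σ) = invRev (win w σ 0)} with hB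
    have hAB : Set.ncard {r : FreeGroup (Fin n) | r.norm = t ∧ ¬ Generic n K r} ≤
        Set.ncard A + Set.ncard B := by
      have e1 : {r : FreeGroup (Fin n) | r.norm = t ∧ ¬ Generic n K r} ⊆
          {r : FreeGroup (Fin n) | r.norm = t ∧
            (fun w => t < K * badCard w σ ∨ win w σ (t - σ) = invRev (win w σ 0)) r.toWord} := by
        rintro r ⟨hr, hG⟩
        refine ⟨hr, ?_⟩
        by_contra hcon
        simp only [not_or, not_lt] at hcon
        apply hG
        refine ⟨σ, hst, by omega, by omega, by rw [hr]; exact hcon.1, by rw [hr]; exact h6, ?_⟩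
        intro h
        apply hcon.2
        rw [hr] at h
        rw [h, invRev_invRev]
      have e2 := Set.ncard_le_ncard e1 ((Ct10_finite n t).subset fun r hr => hr.1)
      rw [ncard_norm n t (fun w => t < K * badCard w σ ∨ win w σ (t - σ) = invRev (win w σ 0))]
        at e2
      refine e2.trans ?_
      have e3 : {w : List (Fin n × Bool) | w ∈ Red n t ∧
          (t < K * badCard w σ ∨ win w σ (t - σ) = invRev (win w σ 0))} = A ∪ B := by
        ext w
        simp only [hA, hB, Set.mem_setOf_eq, Set.mem_union]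
        tauto
      rw [e3]
      exact Set.ncard_union_le _ _
    have hR : Set.ncard {r : FreeGroup (Fin n) | r.norm = t} = Set.ncard (Red n t) := by
      have := ncard_norm n t (fun _ => True)
      simpa using this
    rw [hR]
    have hm := markov_badCard n t σ K (by omega) hst ht1
    have hi := inverse_windows n t σ 0 (t - σ) (by omega) hst (by omega) (by omega)
    have hA2 : Set.ncard A * σ ≤ 2 * K * Set.ncard (Red n t) := by
      have e1 : Set.ncard A * (t * σ) ≤ 2 * K * t * Set.ncard (Red n t) :=
        (Nat.mul_le_mul_left _ h1).trans hm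
      have e2 : t * (Set.ncard A * σ) ≤ t * (2 * K * Set.ncard (Red n t)) := by
        calc t * (Set.ncard A * σ) = Set.ncard A * (t * σ) := by ring
          _ ≤ 2 * K * t * Set.ncard (Red n t) := e1
          _ = t * (2 * K * Set.ncard (Red n t)) := by ring
      exact Nat.le_of_mul_le_mul_left e2 (by omega)
    have hB2 : Set.ncard B * σ ≤ Set.ncard (Red n t) := by
      refine le_trans (Nat.mul_le_mul_left _ ?_) hi
      exact le_trans (Nat.le_mul_of_pos_left _ (by omega)) h1
    have hfin : Set.ncard {r : FreeGroup (Fin n) | r.norm = t ∧ ¬ Generic n K r} * σ ≤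
        (2 * K + 1) * Set.ncard (Red n t) := by
      calc _ ≤ (Set.ncard A + Set.ncard B) * σ := Nat.mul_le_mul_right _ hAB
        _ = Set.ncard A * σ + Set.ncard B * σ := by ring
        _ ≤ 2 * K * Set.ncard (Red n t) + Set.ncard (Red n t) := Nat.add_le_add hA2 hB2
        _ = _ := by ring
    have hσ0 : (0 : ℝ) < (σ : ℝ) := by exact_mod_cast hst
    rw [div_mul_eq_mul_div, le_div_iff₀ hσ0]
    exact_mod_cast hfin

end Pool.Agent.Helper32.OR
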