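import Pool.Agent.Helper32.OR.StDefs

/-!
Subgroups of such groups (project OR, MP_d4e3d0_lc).
-/

namespace Pool.Agent.Helper32.OR

/-- Restriction to a nonabelian subgroup; `cen`: the centralizer of `a` in `H` is the intersection
of `H` with a cyclic group, hence cyclic. -/
theorem Pairs.of_injective {G H : Type} [Group G] [Group H] (h : Pairs G) (f : H →* G)
    (hf : Function.Injective f) (hH : ∃ a b : H, a * b ≠ b * a) : Pairs H := by
  refine ⟨?_, ?_, ?_, hH⟩
  · intro a b w hw hw1
    have h1 : f.comp (FreeGroup.lift ![a, b]) = FreeGroup.lift ![f a, f b] := by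
      ext i
      fin_cases i <;> simp
    have h2 : FreeGroup.lift ![f a, f b] w = 1 := by
      rw [← h1, MonoidHom.comp_apply, hw1, map_one]
    apply hf
    rw [map_mul, map_mul]
    exact h.rel _ _ w hw h2
  · intro a k hk
    have h1 : f a ^ k = 1 := by rw [← map_zpow, hk, map_one]
    rcases h.tf _ _ h1 with h2 | h2
    · exact Or.inl h2
    · exact Or.inr (hf (by rw [h2, map_one]))
  · intro a ha
    have hfa : f a ≠ 1 := fun h1 => ha (hf (by rw [h1, map_one]))
    obtain ⟨u, -, hu⟩ := h.cen (f a) hfa
    let K : Subgroup H := (Subgroup.zpowers u).comap f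
    let k : K →* Subgroup.zpowers u :=
      (f.comp K.subtype).codRestrict _ (fun x => x.2)
    have hk : Function.Injective k := by
      intro x y hxy
      exact Subtype.ext (hf (congrArg Subtype.val hxy))
    have hcyc : IsCyclic K := isCyclic_of_injective k hk
    obtain ⟨v, hv⟩ := hcyc.exists_generator
    have hiff : ∀ x : H, a * x = x * a ↔ x ∈ Subgroup.zpowers v.1 := by
      intro x
      have h1 : a * x = x * a ↔ x ∈ K := by
        rw [Subgroup.mem_comap, ← hu]
        constructor
        · intro h2
          rw [← map_mul, h2, map_mul]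
        · intro h2
          apply hf
          rw [map_mul, map_mul, h2]
      rw [h1]
      constructor
      · intro hx
        obtain ⟨n, hn⟩ := Subgroup.mem_zpowers_iff.1 (hv ⟨x, hx⟩)
        exact Subgroup.mem_zpowers_iff.2 ⟨n, congrArg Subtype.val hn⟩
      · intro hx
        obtain ⟨n, hn⟩ := Subgroup.mem_zpowers_iff.1 hx
        rw [← hn]
        exact K.zpow_mem v.2 n
    refine ⟨v.1, ?_, hiff⟩
    intro h1
    have h2 : a ∈ Subgroup.zpowers v.1 := (hiff a).1 rfl
    rw [h1, Subgroup.zpowers_one_eq_bot, Subgroup.mem_bot] at h2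
    exact ha h2

/-- In a group with `Pairs` two noncommuting elements generate a free group: `lift ![a, b]` is
injective. -/
theorem Pairs.lift_injective {G : Type} [Group G] (h : Pairs G) (a b : G) (hab : a * b ≠ b * a) :
    Function.Injective (FreeGroup.lift ![a, b]) := by
  rw [injective_iff_map_eq_one]
  intro w hw
  by_contra hne
  exact hab (h.rel a b w hne hw)

end Pool.Agent.Helper32.OR
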