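import Mathlib

/-!
Relations between powers of one element (project OR, MP_d4e3d0_lc).
-/

namespace Pool.Agent.Helper32.OR

/-- The relation `w` between two powers of `u`: only the exponent sums of `w` matter. -/
theorem lift_zpow (w : FreeGroup (Fin 2)) : ∃ α β : ℤ, ∀ (G : Type) [Group G]
    (u : G) (i j : ℤ), FreeGroup.lift ![u ^ i, u ^ j] w = u ^ (α * i + β * j) := by
  induction w using FreeGroup.induction_on with
  | C1 =>
    refine ⟨0, 0, fun G _ u i j => ?_⟩
    rw [map_one, zero_mul, zero_mul, add_zero, zpow_zero]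
  | of x =>
    fin_cases x
    · refine ⟨1, 0, fun G _ u i j => ?_⟩
      rw [FreeGroup.lift_apply_of, one_mul, zero_mul, add_zero]
      rfl
    · refine ⟨0, 1, fun G _ u i j => ?_⟩
      rw [FreeGroup.lift_apply_of, one_mul, zero_mul, zero_add]
      rfl
  | inv_of x h =>
    obtain ⟨α, β, h⟩ := h
    refine ⟨-α, -β, fun G _ u i j => ?_⟩
    rw [map_inv, h G u i j, ← zpow_neg]
    congr 1
    ring
  | mul x y hx hy =>
    obtain ⟨α, β, hx⟩ := hx
    obtain ⟨α', β', hy⟩ := hy
    refine ⟨α + α', β + β', fun G _ u i j => ?_⟩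
    rw [map_mul, hx G u i j, hy G u i j, ← zpow_add]
    congr 1
    ring

end Pool.Agent.Helper32.OR
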