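import Pool.Agent.Helper32.OR.St2
import Pool.Agent.Helper32.OR.St3

/-!
All such countable groups have the same two variable relations (project OR, MP_d4e3d0_lc).
-/

namespace Pool.Agent.Helper32.OR

/-- The set of the centralizers of nontrivial elements. -/
private def St4_C (G : Type) [Group G] : Set (Subgroup G) :=
  {C : Subgroup G | ∃ a : G, a ≠ 1 ∧ C = Subgroup.centralizer {a}}

private theorem St4_gen {G : Type} [Group G] (h : Pairs G) (C : St4_C G) :
    ∃ u : G, u ≠ 1 ∧ (C : Subgroup G) = Subgroup.zpowers u := by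
  obtain ⟨C, a, ha, rfl⟩ := C
  obtain ⟨u, hu, hx⟩ := h.cen a ha
  refine ⟨u, hu, ?_⟩
  ext x
  rw [← hx x]
  show x ∈ Subgroup.centralizer {a} ↔ _
  rw [Subgroup.mem_centralizer_iff]
  simp

private theorem St4_sub {G : Type} [Group G] (h : Pairs G) {a b : G} (ha : a ≠ 1)
    (hab : a * b = b * a) (x : G) (hx : a * x = x * a) : b * x = x * b := by
  obtain ⟨u, _, hc⟩ := h.cen a ha
  obtain ⟨i, hi⟩ := (hc b).1 hab
  obtain ⟨j, hj⟩ := (hc x).1 hx
  simp only at hi hj
  rw [← hi, ← hj, ← zpow_add, ← zpow_add, add_comm]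

private theorem St4_cent_eq {G : Type} [Group G] (h : Pairs G) {a b : G} (ha : a ≠ 1)
    (hb : b ≠ 1) (hab : a * b = b * a) :
    Subgroup.centralizer {a} = Subgroup.centralizer {b} := by
  ext x
  rw [Subgroup.mem_centralizer_iff, Subgroup.mem_centralizer_iff]
  simp only [Set.mem_singleton_iff, forall_eq]
  exact ⟨St4_sub h ha hab x, St4_sub h hb hab.symm x⟩

/-- The chosen generator of a centralizer. -/
private noncomputable def St4_u {G : Type} [Group G] (h : Pairs G) (C : St4_C G) : G :=
  (St4_gen h C).choose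

private theorem St4_u_ne {G : Type} [Group G] (h : Pairs G) (C : St4_C G) : St4_u h C ≠ 1 :=
  (St4_gen h C).choose_spec.1

private theorem St4_u_eq {G : Type} [Group G] (h : Pairs G) (C : St4_C G) :
    (C : Subgroup G) = Subgroup.zpowers (St4_u h C) :=
  (St4_gen h C).choose_spec.2

private theorem St4_pow {G : Type} [Group G] (h : Pairs G) (C : St4_C G) (k : ℤ) :
    St4_u h C ^ k = 1 ↔ k = 0 := by
  constructor
  · intro hk
    exact (h.tf _ _ hk).resolve_right (St4_u_ne h C)
  · rintro rfl
    exact zpow_zero _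

/-- Elements of the group in terms of generators and exponents. -/
private noncomputable def St4_P {G : Type} [Group G] (h : Pairs G) :
    Option (St4_C G × {i : ℤ // i ≠ 0}) → G
  | none => 1
  | some (C, i) => St4_u h C ^ (i : ℤ)

private theorem St4_cent {G : Type} [Group G] (h : Pairs G) (C : St4_C G) (i : ℤ) (hi : i ≠ 0) :
    (C : Subgroup G) = Subgroup.centralizer {St4_u h C ^ i} := by
  have h1 : St4_u h C ^ i ≠ 1 := fun hh => hi ((St4_pow h C i).1 hh)
  have h2 := St4_u_eq h C
  obtain ⟨a, ha, hC⟩ := C.2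
  have h3 : St4_u h C ^ i ∈ (C : Subgroup G) := by
    rw [h2]
    exact Subgroup.zpow_mem_zpowers _ _
  rw [hC, Subgroup.mem_centralizer_iff] at h3
  have h4 := h3 a rfl
  conv_lhs => rw [hC]
  exact St4_cent_eq h ha h1 h4

private theorem St4_comm {G : Type} [Group G] (h : Pairs G) (C D : St4_C G) (i j : ℤ)
    (hi : i ≠ 0) (hj : j ≠ 0)
    (hc : St4_u h C ^ i * St4_u h D ^ j = St4_u h D ^ j * St4_u h C ^ i) : C = D := by
  have h1 : St4_u h C ^ i ≠ 1 := fun hh => hi ((St4_pow h C i).1 hh)
  have h2 : St4_u h D ^ j ≠ 1 := fun hh => hj ((St4_pow h D j).1 hh)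
  apply Subtype.ext
  rw [St4_cent h C i hi, St4_cent h D j hj]
  exact St4_cent_eq h h1 h2 hc

private theorem St4_bij {G : Type} [Group G] (h : Pairs G) : Function.Bijective (St4_P h) := by
  constructor
  · rintro (_ | ⟨C, i, hi⟩) (_ | ⟨D, j, hj⟩) hh
    · rfl
    · exact absurd ((St4_pow h D j).1 hh.symm) hj
    · exact absurd ((St4_pow h C i).1 hh) hi
    · have hh' : St4_u h C ^ i = St4_u h D ^ j := hh
      have hCD : C = D := St4_comm h C D i j hi hj (by rw [hh'])
      subst hCD
      have h3 : St4_u h C ^ (i - j) = 1 := by rw [zpow_sub, hh', mul_inv_cancel]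
      have h4 := (St4_pow h C _).1 h3
      have h5 : i = j := by omega
      subst h5
      rfl
  · intro x
    by_cases hx : x = 1
    · exact ⟨none, hx.symm⟩
    · have h0 : (Subgroup.centralizer {x} : Subgroup G) ∈ St4_C G := ⟨x, hx, rfl⟩
      have h1 : x ∈ ((⟨Subgroup.centralizer {x}, h0⟩ : St4_C G) : Subgroup G) := by
        show x ∈ Subgroup.centralizer {x}
        rw [Subgroup.mem_centralizer_iff]
        simp
      rw [St4_u_eq h] at h1
      obtain ⟨i, hi⟩ := h1
      simp only at hi
      refine ⟨some (⟨Subgroup.centralizer {x}, h0⟩, ⟨i, ?_⟩), hi⟩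
      rintro rfl
      rw [zpow_zero] at hi
      exact hx hi.symm

private theorem St4_same {G H : Type} [Group G] [Group H] (hG : Pairs G) (hH : Pairs H)
    (C : St4_C G) (D : St4_C H) (i j : ℤ) (w : FreeGroup (Fin 2)) :
    FreeGroup.lift ![St4_u hG C ^ i, St4_u hG C ^ j] w = 1 ↔
      FreeGroup.lift ![St4_u hH D ^ i, St4_u hH D ^ j] w = 1 := by
  obtain ⟨α, β, hw⟩ := lift_zpow w
  rw [hw G, hw H, St4_pow, St4_pow]

private theorem St4_noncomm {G : Type} [Group G] (hG : Pairs G) (a b : G)
    (hab : a * b ≠ b * a) (w : FreeGroup (Fin 2)) :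
    FreeGroup.lift ![a, b] w = 1 ↔ w = 1 := by
  constructor
  · intro h1
    by_contra hw
    exact hab (hG.rel a b w hw h1)
  · rintro rfl
    exact map_one _

private theorem St4_countable {G : Type} [Group G] [Countable G] : (St4_C G).Countable := by
  have h1 : St4_C G ⊆ Set.range (fun a : G => (Subgroup.centralizer {a} : Subgroup G)) := by
    rintro C ⟨a, _, rfl⟩
    exact ⟨a, rfl⟩
  exact (Set.countable_range _).mono h1

/-- The bijection between the centralizers. -/
private theorem St4_E {G H : Type} [Group G] [Group H] [Countable G] [Countable H]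
    (hG : Pairs G) (hH : Pairs H) : Nonempty (St4_C G ≃ St4_C H) := by
  have i1 : Infinite (St4_C G) := (hG.infinite_centralizers).to_subtype
  have i2 : Infinite (St4_C H) := (hH.infinite_centralizers).to_subtype
  have c1 : Countable (St4_C G) := St4_countable.to_subtype
  have c2 : Countable (St4_C H) := St4_countable.to_subtype
  obtain ⟨d1⟩ := nonempty_denumerable (St4_C G)
  obtain ⟨d2⟩ := nonempty_denumerable (St4_C H)
  exact ⟨Denumerable.equiv₂ _ _⟩

private theorem St4_main {G H : Type} [Group G] [Group H] (hG : Pairs G) (hH : Pairs H)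
    (E : St4_C G ≃ St4_C H) (o p : Option (St4_C G × {i : ℤ // i ≠ 0})) (w : FreeGroup (Fin 2)) :
    FreeGroup.lift ![St4_P hG o, St4_P hG p] w = 1 ↔
      FreeGroup.lift ![St4_P hH (o.map (Prod.map E id)), St4_P hH (p.map (Prod.map E id))] w
        = 1 := by
  obtain ⟨C0⟩ : Nonempty (St4_C G) := by
    obtain ⟨a, b, hab⟩ := hG.noncomm
    have ha : a ≠ 1 := by
      rintro rfl
      exact hab (by rw [one_mul, mul_one])
    exact ⟨⟨_, a, ha, rfl⟩⟩
  rcases o with _ | ⟨C, i, hi⟩ <;> rcases p with _ | ⟨D, j, hj⟩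
  · have := St4_same hG hH C0 (E C0) 0 0 w
    rw [zpow_zero, zpow_zero] at this
    exact this
  · have := St4_same hG hH D (E D) 0 j w
    rw [zpow_zero, zpow_zero] at this
    exact this
  · have := St4_same hG hH C (E C) i 0 w
    rw [zpow_zero, zpow_zero] at this
    exact this
  · by_cases hCD : C = D
    · subst hCD
      exact St4_same hG hH C (E C) i j w
    · have h1 := St4_noncomm hG (St4_P hG (some (C, ⟨i, hi⟩))) (St4_P hG (some (D, ⟨j, hj⟩)))
        (fun hh => hCD (St4_comm hG C D i j hi hj hh)) w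
      have h2 := St4_noncomm hH (St4_P hH (some (E C, ⟨i, hi⟩))) (St4_P hH (some (E D, ⟨j, hj⟩)))
        (fun hh => hCD (E.injective (St4_comm hH (E C) (E D) i j hi hj hh))) w
      exact h1.trans h2.symm

/-- Main point: both groups are the disjoint union of `{1}` and of the sets `C - 1`, `C` in the
countably infinite set of centralizers of nontrivial elements (commuting is an equivalence relation
on the nontrivial elements: `b` commutes with `a` iff `b ∈ zpowers u`). Choose a generator `u_C` for
each centralizer `C` and a bijection `C ↦ C'` between the two countably infinite sets of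
centralizers, and let `e (u_C ^ i) = u_{C'} ^ i`. If `a, b` do not commute then neither do `e a, e b`
and no `w ≠ 1` is a relation on either side (`rel`). If they commute then `a = u ^ i`, `b = u ^ j` with
the same `u = u_C` (also if one of them is 1) and `e a = u' ^ i`, `e b = u' ^ j`, and by `lift_zpow` and
`tf` the relation `w` holds iff `α * i + β * j = 0` on both sides. -/
theorem Pairs.exists_equiv {G H : Type} [Group G] [Group H] [Countable G] [Countable H]
    (hG : Pairs G) (hH : Pairs H) : ∃ e : G ≃ H, ∀ (a b : G) (w : FreeGroup (Fin 2)),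
      FreeGroup.lift ![a, b] w = 1 ↔ FreeGroup.lift ![e a, e b] w = 1 := by
  obtain ⟨E⟩ := St4_E hG hH
  let PG := Equiv.ofBijective _ (St4_bij hG)
  let PH := Equiv.ofBijective _ (St4_bij hH)
  let M : Option (St4_C G × {i : ℤ // i ≠ 0}) ≃ Option (St4_C H × {i : ℤ // i ≠ 0}) :=
    Equiv.optionCongr (Equiv.prodCongr E (Equiv.refl _))
  refine ⟨(PG.symm.trans M).trans PH, fun a b w => ?_⟩
  obtain ⟨o, rfl⟩ := PG.surjective a
  obtain ⟨p, rfl⟩ := PG.surjective b
  have h1 : ∀ q, ((PG.symm.trans M).trans PH) (PG q) = St4_P hH (q.map (Prod.map E id)) := by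
    intro q
    simp only [Equiv.trans_apply, Equiv.symm_apply_apply]
    rcases q with _ | ⟨C, i⟩ <;> rfl
  rw [h1, h1]
  exact St4_main hG hH E o p w

end Pool.Agent.Helper32.OR
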