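import Pool.Agent.Helper32.OR.Co5
import Pool.Agent.Helper32.OR.Ct10
import Pool.Agent.Helper32.OR.B2
import Pool.Agent.Helper32.OR.St1
import Pool.Agent.Helper32.OR.St4
import Pool.Agent.Helper22.OR.Bridge
import Pool.Agent.Helper22.OR.Out

/-!
Assembly: the random one-relator groups and the free groups satisfy the hypotheses of the graph part
(project OR, MP_d4e3d0_lc).
-/

namespace Pool.Agent.Helper32.OR

open FreeGroup Filter FirstOrder Pool.Agent.Helper22.OR

/-- The one-relator group with relator `r`. -/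
abbrev OneRel {n : ℕ} (r : FreeGroup (Fin n)) : Type := PresentedGroup ({r} : Set (FreeGroup (Fin n)))

/-- The proportion of the reduced relators of length at most `t` for which the group satisfies
`φ`. -/
noncomputable def prob (n t : ℕ) (φ : grpLang.Sentence) : ℝ :=
  (Set.ncard {r : FreeGroup (Fin n) | r.norm ≤ t ∧ OneRel r ⊨ φ} : ℝ) /
    (Set.ncard {r : FreeGroup (Fin n) | r.norm ≤ t} : ℝ)

theorem ball_finite (n t : ℕ) : {r : FreeGroup (Fin n) | r.norm ≤ t}.Finite := by
  have h1 : {l : List (Fin n × Bool) | l.length ≤ t}.Finite := List.finite_length_le _ _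
  refine Set.Finite.subset (h1.image FreeGroup.mk) ?_
  intro r hr
  exact ⟨r.toWord, hr, FreeGroup.mk_toWord⟩

theorem ball_pos (n t : ℕ) : 0 < Set.ncard {r : FreeGroup (Fin n) | r.norm ≤ t} := by
  rw [Set.ncard_pos (ball_finite n t)]
  exact ⟨1, by simp⟩

theorem aas_mono {n : ℕ} {P Q : FreeGroup (Fin n) → Prop} (h : AAS n P) (hPQ : ∀ r, P r → Q r) :
    AAS n Q := by
  unfold AAS at *
  refine tendsto_of_tendsto_of_tendsto_of_le_of_le h (tendsto_const_nhds (x := (1 : ℝ))) ?_ ?_
  · intro t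
    have h1 : Set.ncard {r : FreeGroup (Fin n) | r.norm ≤ t ∧ P r} ≤
        Set.ncard {r : FreeGroup (Fin n) | r.norm ≤ t ∧ Q r} :=
      Set.ncard_le_ncard (fun r hr => ⟨hr.1, hPQ r hr.2⟩)
        ((ball_finite n t).subset (fun r hr => hr.1))
    have h2 : (0 : ℝ) < (Set.ncard {r : FreeGroup (Fin n) | r.norm ≤ t} : ℝ) := by
      exact_mod_cast ball_pos n t
    have h3 : (Set.ncard {r : FreeGroup (Fin n) | r.norm ≤ t ∧ P r} : ℝ) ≤
        (Set.ncard {r : FreeGroup (Fin n) | r.norm ≤ t ∧ Q r} : ℝ) := by exact_mod_cast h1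
    exact div_le_div_of_nonneg_right h3 h2.le
  · intro t
    have h1 : Set.ncard {r : FreeGroup (Fin n) | r.norm ≤ t ∧ Q r} ≤
        Set.ncard {r : FreeGroup (Fin n) | r.norm ≤ t} :=
      Set.ncard_le_ncard (fun r hr => hr.1) (ball_finite n t)
    have h2 : (0 : ℝ) < (Set.ncard {r : FreeGroup (Fin n) | r.norm ≤ t} : ℝ) := by
      exact_mod_cast ball_pos n t
    show _ / _ ≤ (1 : ℝ)
    rw [div_le_one h2]
    exact_mod_cast h1

/-- If `¬ P` holds asymptotically almost surely then the proportion of `P` tends to `0`. -/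
theorem aas_not {n : ℕ} {P : FreeGroup (Fin n) → Prop} (h : AAS n (fun r => ¬ P r)) :
    Tendsto (fun t : ℕ => (Set.ncard {r : FreeGroup (Fin n) | r.norm ≤ t ∧ P r} : ℝ) /
      (Set.ncard {r : FreeGroup (Fin n) | r.norm ≤ t} : ℝ)) atTop (nhds 0) := by
  unfold AAS at h
  have h1 := h.const_sub 1
  rw [sub_self] at h1
  refine h1.congr ?_
  intro t
  have h2 : (0 : ℝ) < (Set.ncard {r : FreeGroup (Fin n) | r.norm ≤ t} : ℝ) := by
    exact_mod_cast ball_pos n t
  have h3 : Set.ncard {r : FreeGroup (Fin n) | r.norm ≤ t ∧ P r} +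
      Set.ncard {r : FreeGroup (Fin n) | r.norm ≤ t ∧ ¬ P r} =
      Set.ncard {r : FreeGroup (Fin n) | r.norm ≤ t} := by
    rw [← Set.ncard_union_eq (Set.disjoint_left.2 (fun r h4 h5 => h5.2 h4.2))
      ((ball_finite n t).subset (fun r hr => hr.1)) ((ball_finite n t).subset (fun r hr => hr.1))]
    congr 1
    ext r
    constructor
    · rintro (h4 | h4) <;> exact h4.1
    · intro h4
      by_cases h5 : P r
      · exact Or.inl ⟨h4, h5⟩
      · exact Or.inr ⟨h4, h5⟩
  have h4 : (Set.ncard {r : FreeGroup (Fin n) | r.norm ≤ t ∧ P r} : ℝ) +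
      (Set.ncard {r : FreeGroup (Fin n) | r.norm ≤ t ∧ ¬ P r} : ℝ) =
      (Set.ncard {r : FreeGroup (Fin n) | r.norm ≤ t} : ℝ) := by exact_mod_cast h3
  show 1 - _ = _
  rw [eq_div_iff h2.ne', sub_mul, one_mul, div_mul_cancel₀ _ h2.ne']
  linarith

theorem aas_good (n K : ℕ) (hn : 2 ≤ n) : AAS n (fun r => ∃ (c : List (Fin n × Bool)) (hc : c ≠ [])
    (s l0 : ℕ), GoodRel n K c hc s l0 ∧
      Subgroup.normalClosure {r} = Subgroup.normalClosure {FreeGroup.mk c}) := by
  obtain ⟨K', hK'⟩ := goodRel_of_generic n K hn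
  exact aas_mono (generic_aas n K' hn) hK'

theorem hyp_congr {n : ℕ} {c : List (Fin n × Bool)} {L e s b : ℕ} {RR : Set (List (Letter n))}
    (h : Hyp (gens c) L e s b RR) (N : Subgroup (FreeGroup (Fin n))) [N.Normal]
    (hN : N = Subgroup.normalClosure {FreeGroup.mk c}) :
    Hyp (fun i => (QuotientGroup.mk (FreeGroup.of i) : FreeGroup (Fin n) ⧸ N)) L e s b RR := by
  subst hN
  exact h

/-- Random one-relator groups satisfy the hypotheses of the graph part. -/
theorem aas_hyp (n : ℕ) (hn : 2 ≤ n) : AAS n (fun r => ∃ (L e s b : ℕ) (RR : Set (List (Letter n))),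
    Hyp (fun i => (PresentedGroup.of i : OneRel r)) L e s b RR) := by
  refine aas_mono (aas_good n (100 * n + 100) hn) ?_
  rintro r ⟨c, hc, s, l0, hg, hN⟩
  exact ⟨_, _, _, _, _, hyp_congr (hyp_of_goodRel hn le_rfl hg) _ hN⟩

/-- Free groups satisfy the hypotheses of the graph part, with no relators. -/
theorem hyp_free (n : ℕ) : ∃ L e s b : ℕ,
    Hyp (FreeGroup.of : Fin n → FreeGroup (Fin n)) L e s b ∅ := by
  have hl : FreeGroup.lift (FreeGroup.of : Fin n → FreeGroup (Fin n)) = MonoidHom.id _ := by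
    ext i
    simp
  refine ⟨_, 1, 1, 0, ?_, ?_, ?_, ?_, ?_, ?_, ?_, le_rfl, le_rfl, Nat.lt_succ_self _⟩
  · rw [hl]
    exact fun x => ⟨x, rfl⟩
  · exact fun w hw => absurd hw (Set.notMem_empty w)
  · exact fun w hw => absurd hw (Set.notMem_empty w)
  · exact fun w hw => absurd hw (Set.notMem_empty w)
  · exact fun w hw => absurd hw (Set.notMem_empty w)
  · intro w hw h1
    rw [hl] at h1
    exact absurd h1 hw
  · exact fun ρ v hw => absurd hw (Set.notMem_empty _)

theorem aas_pairs (n : ℕ) (hn : 3 ≤ n) : AAS n (fun r => Pairs (OneRel r)) := by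
  refine aas_mono (aas_hyp n (by omega)) ?_
  rintro r ⟨L, e, s, b, RR, h⟩
  exact pairs h hn

theorem pairs_free (m : ℕ) (hm : 2 ≤ m) : Pairs (FreeGroup (Fin m)) := by
  obtain ⟨L, e, s, b, h⟩ := hyp_free (m + 1)
  have h1 : Pairs (FreeGroup (Fin (m + 1))) := pairs h (by omega)
  refine h1.of_injective (FreeGroup.map Fin.castSucc)
    (FreeGroup.map_injective (Fin.castSucc_injective m)) ?_
  obtain ⟨L', e', s', b', h'⟩ := hyp_free m
  exact noncomm h' hm

instance countable_free (m : ℕ) : Countable (FreeGroup (Fin m)) :=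
  Function.Surjective.countable (f := (FreeGroup.mk : List (Fin m × Bool) → _))
    (fun x => ⟨x.toWord, FreeGroup.mk_toWord⟩)

instance countable_oneRel {n : ℕ} (r : FreeGroup (Fin n)) : Countable (OneRel r) :=
  Function.Surjective.countable (f := (QuotientGroup.mk : FreeGroup (Fin n) → OneRel r))
    QuotientGroup.mk_surjective

theorem pairs_iff {G H : Type} [Group G] [Group H] [Countable G] [Countable H] (hG : Pairs G)
    (hH : Pairs H) (φ : grpLang.Sentence) (hφ : TwoVar φ) : G ⊨ φ ↔ H ⊨ φ := by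
  obtain ⟨e, he⟩ := hG.exists_equiv hH
  exact sentence_iff_of_equiv e he φ hφ

/-- The zero-one law for the sentences whose atomic formulas contain at most two variables. -/
theorem binary_fragment (n : ℕ) (hn : 3 ≤ n) : AAS n (fun r => ∀ φ : grpLang.Sentence, TwoVar φ →
    (OneRel r ⊨ φ ↔ FreeGroup (Fin 2) ⊨ φ)) :=
  aas_mono (aas_pairs n hn) (fun _ h φ hφ => pairs_iff h (pairs_free 2 le_rfl) φ hφ)

theorem binary_limits (n : ℕ) (hn : 3 ≤ n) (φ : grpLang.Sentence) (hφ : TwoVar φ) :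
    (FreeGroup (Fin 2) ⊨ φ → Tendsto (fun t => prob n t φ) atTop (nhds 1)) ∧
    (¬ (FreeGroup (Fin 2) ⊨ φ) → Tendsto (fun t => prob n t φ) atTop (nhds 0)) := by
  constructor
  · intro h
    exact aas_mono (binary_fragment n hn) (fun r hr => (hr φ hφ).2 h)
  · intro h
    exact aas_not (aas_mono (binary_fragment n hn) (fun r hr h1 => h ((hr φ hφ).1 h1)))

end Pool.Agent.Helper32.OR
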