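import Mathlib

/-!
Residues of consecutive integers (project OR, MP_d4e3d0_lc).
-/

namespace Pool.Agent.Helper32.OR

/-- Among `m ≤ L` consecutive integers `i, i + 1, …` at most `s` have a residue modulo `L` which is
`> L - s` (injectivity of the residues of consecutive integers). -/
theorem card_wrapping (L s m : ℕ) (i : ℤ) (hs : 1 ≤ s) (hL : s ≤ L) (hm : m ≤ L) :
    ((Finset.range m).filter (fun x : ℕ => (L : ℤ) < (i + x) % L + s)).card ≤ s := by
  have hL0 : (0 : ℤ) < L := by omega
  have key : ((Finset.range m).filter (fun x : ℕ => (L : ℤ) < (i + x) % L + s)).card ≤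
      (Finset.Ico (L - s) L).card := by
    apply Finset.card_le_card_of_injOn (fun x : ℕ => ((i + x) % (L : ℤ)).toNat)
    · intro x hx
      rw [Finset.mem_coe, Finset.mem_filter, Finset.mem_range] at hx
      rw [Finset.mem_coe, Finset.mem_Ico]
      have h1 := Int.emod_nonneg (i + x) hL0.ne'
      have h2 := Int.emod_lt_of_pos (i + x) hL0
      have h3 := hx.2
      simp only
      constructor <;> omega
    · intro x hx y hy hxy
      rw [Finset.mem_coe, Finset.mem_filter, Finset.mem_range] at hx hy
      have h1 := Int.emod_nonneg (i + x) hL0.ne'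
      have h2 := Int.emod_nonneg (i + y) hL0.ne'
      simp only at hxy
      have h3 : (i + x) % (L : ℤ) = (i + y) % (L : ℤ) := by omega
      have h4 := (Int.emod_eq_emod_iff_emod_sub_eq_zero).1 h3
      have h5 : (i + x) - (i + y) = (x : ℤ) - y := by ring
      rw [h5] at h4
      have hx' := hx.1
      have hy' := hy.1
      have h6 : (x : ℤ) - y = 0 :=
        Int.eq_zero_of_abs_lt_dvd (Int.dvd_of_emod_eq_zero h4) (by rw [abs_lt]; omega)
      omega
  refine key.trans ?_
  rw [Nat.card_Ico]
  omega

end Pool.Agent.Helper32.OR
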