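import Pool.Agent.Helper32.OR.Co1
import Pool.Agent.Helper32.OR.Co2

/-!
Bad windows of cyclic subwords (project OR, MP_d4e3d0_lc).
-/

namespace Pool.Agent.Helper32.OR

open FreeGroup

private theorem Co4_rel {S T : Set ℕ} (R : ℕ → ℕ → Prop) (hT : T.Finite)
    (h : ∀ a ∈ S, ∃ b ∈ T, R a b) (h' : ∀ a ∈ S, ∀ a' ∈ S, ∀ b, R a b → R a' b → a = a') :
    S.ncard ≤ T.ncard := by
  choose! f hf using h
  refine Set.ncard_le_ncard_of_injOn f (fun a ha => (hf a ha).1) ?_ hT
  intro a ha a' ha' e
  refine h' a ha a' ha' (f a) (hf a ha).2 ?_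
  rw [e]
  exact (hf a' ha').2

private theorem Co4_inj {L : ℕ} (i : ℤ) {k k' : ℕ} (hk : k < L) (hk' : k' < L)
    (e : (i + k) % (L : ℤ) = (i + k') % (L : ℤ)) : k = k' := by
  have e2 : (L : ℤ) ∣ (i + k) - (i + k') :=
    Int.dvd_of_emod_eq_zero (Int.emod_eq_emod_iff_emod_sub_eq_zero.mp e)
  have e3 : (L : ℤ) ∣ (k : ℤ) - k' := by
    have : (k : ℤ) - k' = (i + k) - (i + k') := by ring
    rw [this]
    exact e2
  have e4 := Int.eq_zero_of_abs_lt_dvd e3 (by rw [abs_lt]; constructor <;> omega)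
  omega

/-- Windows of a cyclic subword. Let `k` be a bad window of `cycWord c hc i m` (place `i + k` in the
periodic word). Call places whose residue is `≤ L - s` linear. At most `s` places are not linear
(`card_wrapping`). If `k` is linear and its window agrees with (is inverse to) the window at a linear
place then the window of `w = u ++ c ++ v` at `u.length + (i + k) % L` is bad. If `k` is linear and
not bad in `w` then its window agrees with or is inverse to the window at a non-linear place `k'`;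
for each `k'` there is at most one such `k` with an equal window and at most one with an inverse
window (two of them would be bad in `w`). Total `≤ badCard w s + s + 2 * s`. -/
theorem badCard_cycWord {n s : ℕ} (u c v : List (Fin n × Bool)) (hc : c ≠ []) (hs : 1 ≤ s)
    (hsL : s ≤ c.length) (i : ℤ) (m : ℕ) (hm : m ≤ c.length) :
    badCard (cycWord c hc i m) s ≤ badCard (u ++ c ++ v) s + 3 * s := by
  have hl : 0 < c.length := List.length_pos_iff.2 hc
  have hL0 : (c.length : ℤ) ≠ 0 := by omega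
  have hwl : (u ++ c ++ v).length = u.length + c.length + v.length := by
    simp only [List.length_append]
  have hWl : (cycWord c hc i m).length = m := length_cycWord c hc i m
  obtain ⟨p, hp⟩ : ∃ p : ℕ → ℕ, ∀ k : ℕ, ((p k : ℕ) : ℤ) = (i + k) % (c.length : ℤ) :=
    ⟨fun k => ((i + k) % (c.length : ℤ)).toNat, fun k =>
      Int.toNat_of_nonneg (Int.emod_nonneg _ hL0)⟩
  have hpinj : ∀ k k' : ℕ, k < m → k' < m → p k = p k' → k = k' := by
    intro k k' hk hk' e
    apply Co4_inj (L := c.length) i (by omega) (by omega)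
    rw [← hp, ← hp, e]
  -- windows at linear places
  have hwin : ∀ k : ℕ, k + s ≤ m → p k + s ≤ c.length →
      win (cycWord c hc i m) s k = win (u ++ c ++ v) s (u.length + p k) := by
    intro k hk hpk
    rw [win_cycWord c hc i m s k hk, ← cycWord_eq_win u c v hc (p k) hpk]
    apply cycWord_of_dvd
    rw [hp]
    exact ⟨(i + k) / (c.length : ℤ), by rw [Int.emod_def]; ring⟩
  have hbad1 : ∀ k k' : ℕ, k + s ≤ m → k' + s ≤ m → p k + s ≤ c.length → p k' + s ≤ c.length →
      k' ≠ k → win (cycWord c hc i m) s k' = win (cycWord c hc i m) s k →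
      Bad (u ++ c ++ v) s (u.length + p k) := by
    intro k k' hk hk' hpk hpk' hne e
    refine Or.inl ⟨u.length + p k', ?_, by omega, ?_⟩
    · intro e1
      exact hne (hpinj k' k (by omega) (by omega) (by omega))
    · rw [← hwin k' hk' hpk', ← hwin k hk hpk, e]
  have hbad2 : ∀ k k' : ℕ, k + s ≤ m → k' + s ≤ m → p k + s ≤ c.length → p k' + s ≤ c.length →
      win (cycWord c hc i m) s k' = invRev (win (cycWord c hc i m) s k) →
      Bad (u ++ c ++ v) s (u.length + p k) := by
    intro k k' hk hk' hpk hpk' e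
    refine Or.inr ⟨u.length + p k', by omega, ?_⟩
    rw [← hwin k' hk' hpk', ← hwin k hk hpk, e]
  -- the non-linear places
  obtain ⟨NL, hNL⟩ : ∃ NL : Set ℕ, NL = (((Finset.range m).filter
    (fun x : ℕ => (c.length : ℤ) < (i + x) % c.length + s) : Finset ℕ) : Set ℕ) := ⟨_, rfl⟩
  have hNLfin : NL.Finite := by rw [hNL]; exact Finset.finite_toSet _
  have hNLcard : NL.ncard ≤ s := by
    rw [hNL, Set.ncard_coe_finset]
    exact card_wrapping c.length s m i hs hsL hm
  have hNLmem : ∀ k : ℕ, k + s ≤ m → ¬ (p k + s ≤ c.length) → k ∈ NL := by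
    intro k hk hpk
    rw [hNL, Finset.mem_coe, Finset.mem_filter, Finset.mem_range]
    refine ⟨by omega, ?_⟩
    rw [← hp k]
    omega
  obtain ⟨T, hT⟩ : ∃ T : Set ℕ, T = {k : ℕ | k + s ≤ (u ++ c ++ v).length ∧
    Bad (u ++ c ++ v) s k} := ⟨_, rfl⟩
  have hTfin : T.Finite := by
    rw [hT]
    refine (Set.finite_Iic ((u ++ c ++ v).length)).subset ?_
    rintro k ⟨hk, _⟩
    exact Set.mem_Iic.2 (by omega)
  obtain ⟨A, hA⟩ : ∃ A : Set ℕ, A = {k : ℕ | k + s ≤ m ∧ p k + s ≤ c.length ∧
    Bad (u ++ c ++ v) s (u.length + p k)} := ⟨_, rfl⟩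
  obtain ⟨B1, hB1⟩ : ∃ B1 : Set ℕ, B1 = {k : ℕ | k + s ≤ m ∧ p k + s ≤ c.length ∧
    ¬ Bad (u ++ c ++ v) s (u.length + p k) ∧ ∃ j ∈ NL,
      win (cycWord c hc i m) s j = win (cycWord c hc i m) s k} := ⟨_, rfl⟩
  obtain ⟨B2, hB2⟩ : ∃ B2 : Set ℕ, B2 = {k : ℕ | k + s ≤ m ∧ p k + s ≤ c.length ∧
    ¬ Bad (u ++ c ++ v) s (u.length + p k) ∧ ∃ j ∈ NL,
      win (cycWord c hc i m) s j = invRev (win (cycWord c hc i m) s k)} := ⟨_, rfl⟩
  have hAcard : A.ncard ≤ T.ncard := by
    refine Set.ncard_le_ncard_of_injOn (fun k => u.length + p k) ?_ ?_ hTfin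
    · intro k hk
      rw [hA] at hk
      obtain ⟨h1, h2, h3⟩ := hk
      rw [hT]
      exact ⟨by omega, h3⟩
    · intro k hk k' hk' e
      rw [hA] at hk hk'
      obtain ⟨h1, _⟩ := hk
      obtain ⟨h1', _⟩ := hk'
      have e' : u.length + p k = u.length + p k' := e
      exact hpinj k k' (by omega) (by omega) (by omega)
  have hB1card : B1.ncard ≤ NL.ncard := by
    refine Co4_rel (fun k j => win (cycWord c hc i m) s j = win (cycWord c hc i m) s k)
      hNLfin ?_ ?_
    · intro k hk
      rw [hB1] at hk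
      exact hk.2.2.2
    · intro k hk k' hk' j e e'
      rw [hB1] at hk hk'
      obtain ⟨h1, h2, h3, _⟩ := hk
      obtain ⟨h1', h2', _, _⟩ := hk'
      by_contra hne
      exact h3 (hbad1 k k' h1 h1' h2 h2' (fun e2 => hne e2.symm) (e'.symm.trans e))
  have hB2card : B2.ncard ≤ NL.ncard := by
    refine Co4_rel (fun k j => win (cycWord c hc i m) s j = invRev (win (cycWord c hc i m) s k))
      hNLfin ?_ ?_
    · intro k hk
      rw [hB2] at hk
      exact hk.2.2.2
    · intro k hk k' hk' j e e'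
      rw [hB2] at hk hk'
      obtain ⟨h1, h2, h3, _⟩ := hk
      obtain ⟨h1', h2', _, _⟩ := hk'
      by_contra hne
      have e3 : win (cycWord c hc i m) s k' = win (cycWord c hc i m) s k :=
        invRev_injective (e'.symm.trans e)
      exact h3 (hbad1 k k' h1 h1' h2 h2' (fun e2 => hne e2.symm) e3)
  have hAfin : A.Finite := by
    rw [hA]
    refine (Set.finite_Iic m).subset ?_
    rintro k ⟨hk, _⟩
    exact Set.mem_Iic.2 (by omega)
  have hB1fin : B1.Finite := by
    rw [hB1]
    refine (Set.finite_Iic m).subset ?_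
    rintro k ⟨hk, _⟩
    exact Set.mem_Iic.2 (by omega)
  have hB2fin : B2.Finite := by
    rw [hB2]
    refine (Set.finite_Iic m).subset ?_
    rintro k ⟨hk, _⟩
    exact Set.mem_Iic.2 (by omega)
  have hsub : {k : ℕ | k + s ≤ (cycWord c hc i m).length ∧ Bad (cycWord c hc i m) s k} ⊆
      A ∪ (NL ∪ (B1 ∪ B2)) := by
    rintro k ⟨hk, hbk⟩
    rw [hWl] at hk
    by_cases hpk : p k + s ≤ c.length
    · by_cases hbw : Bad (u ++ c ++ v) s (u.length + p k)
      · left
        rw [hA]
        exact ⟨hk, hpk, hbw⟩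
      · right
        right
        rcases hbk with ⟨j, hj, hjl, e⟩ | ⟨j, hjl, e⟩
        · rw [hWl] at hjl
          left
          rw [hB1]
          refine ⟨hk, hpk, hbw, j, hNLmem j hjl ?_, e⟩
          intro hpj
          exact hbw (hbad1 k j hk hjl hpk hpj hj e)
        · rw [hWl] at hjl
          right
          rw [hB2]
          refine ⟨hk, hpk, hbw, j, hNLmem j hjl ?_, e⟩
          intro hpj
          exact hbw (hbad2 k j hk hjl hpk hpj e)
    · right
      left
      exact hNLmem k hk hpk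
  have h1 : badCard (cycWord c hc i m) s ≤ (A ∪ (NL ∪ (B1 ∪ B2))).ncard :=
    Set.ncard_le_ncard hsub (hAfin.union (hNLfin.union (hB1fin.union hB2fin)))
  have h2 := Set.ncard_union_le A (NL ∪ (B1 ∪ B2))
  have h3 := Set.ncard_union_le NL (B1 ∪ B2)
  have h4 := Set.ncard_union_le B1 B2
  have h5 : T.ncard = badCard (u ++ c ++ v) s := by rw [hT]; rfl
  omega

end Pool.Agent.Helper32.OR
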