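import Pool.Agent.Helper32.OR.Co3
import Pool.Agent.Helper32.OR.Co4

/-!
From a generic relator to a good one (project OR, MP_d4e3d0_lc).
-/

namespace Pool.Agent.Helper32.OR

open FreeGroup

/-- Assembly with `K' = 16 * K + 16`: `c.length ≥ r.norm - 2 * s ≥ r.norm / 2`. -/
theorem goodRel_of_generic (n K : ℕ) (hn : 2 ≤ n) : ∃ K' : ℕ, ∀ r : FreeGroup (Fin n),
    Generic n K' r → ∃ (c : List (Fin n × Bool)) (hc : c ≠ []) (s l0 : ℕ),
      GoodRel n K c hc s l0 ∧
      Subgroup.normalClosure {r} = Subgroup.normalClosure {FreeGroup.mk c} := by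
  refine ⟨16 * K + 16, fun r hr => ?_⟩
  obtain ⟨s, hs, h1, h2, h3, h4, h5⟩ := hr
  have e2 : (16 * K + 16) * s = 16 * (K * s) + 16 * s := by ring
  rw [e2] at h2
  obtain ⟨u, c, hw, hu, hc, hcyc⟩ := exists_core r (by omega) h5
  have hlen : r.norm = 2 * u.length + c.length := by
    have h6 : r.norm = r.toWord.length := rfl
    rw [h6, hw, List.length_append, List.length_append, invRev_length]
    ring
  obtain ⟨B, hB⟩ : ∃ B, badCard r.toWord s = B := ⟨_, rfl⟩
  obtain ⟨M, hM⟩ : ∃ M, s * (2 * n - 1) ^ 2 * (2 * n - 2) ^ s = M := ⟨_, rfl⟩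
  rw [hB] at h3
  rw [hM] at h4
  have e3 : (16 * K + 16) * B = 16 * (K * B) + 16 * B := by ring
  have e4 : (16 * K + 16) * M = 16 * (K * M) + 16 * M := by ring
  rw [e3] at h3
  rw [e4] at h4
  have hB' : badCard (u ++ c ++ invRev u) s = B := by rw [← hw]; exact hB
  have hsc := sc_of_bad u c (invRev u) hc hs (by rw [hB']; omega)
  rw [hB'] at hsc
  refine ⟨c, hc, s, B + 3 * s + 1, ?_, normalClosure_core r u c hw⟩
  exact
    { cyc := hcyc
      s_pos := hs
      l0_pos := by omega
      len := by omega
      s_le := by omega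
      l0_le := by
        have e5 : K * (B + 3 * s + 1) = K * B + 3 * (K * s) + K := by ring
        rw [e5]
        omega
      sc := hsc
      bad_le := by
        intro i m hm
        have h7 := badCard_cycWord u c (invRev u) hc hs (by omega) i m hm
        rw [hB'] at h7
        have h8 : K * badCard (cycWord c hc i m) s ≤ K * (B + 3 * s) := Nat.mul_le_mul_left K h7
        have e5 : K * (B + 3 * s) = K * B + 3 * (K * s) := by ring
        omega
      grow := by
        rw [hM]
        omega }

end Pool.Agent.Helper32.OR
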