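import Pool.Agent.Helper32.OR.BinDefs

/-!
Quantifier free formulas and homomorphisms (project OR, MP_d4e3d0_lc).
-/

namespace Pool.Agent.Helper32.OR

open FirstOrder

/-- Homomorphisms commute with terms. -/
theorem realize_term_hom {G H : Type} [Group G] [Group H] (f : G →* H) {β : Type*}
    (t : grpLang.Term β) (v : β → G) : t.realize (fun i => f (v i)) = f (t.realize v) := by
  induction t with
  | var i => rfl
  | func F ts ih =>
    simp only [Language.Term.realize_func, ih]
    cases F with
    | one => exact (map_one f).symm
    | inv => exact (map_inv f _).symm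
    | mul => exact (map_mul f _ _).symm

theorem Bk2_elim {G H : Type} [Group G] [Group H] (f : G →* H) {α : Type*} {k : ℕ}
    (v : α → G) (xs : Fin k → G) :
    (Sum.elim (fun i => f (v i)) (fun i => f (xs i)) : α ⊕ Fin k → H)
      = fun i => f (Sum.elim v xs i) := by
  funext i
  cases i <;> rfl

/-- The truth of a quantifier free formula is preserved by homomorphisms which do not kill finitely
many given elements `≠ 1`. Induction on `IsQF`: for `equal t₁ t₂` the set is `{g}` with
`g = t₁.realize * (t₂.realize)⁻¹` if `g ≠ 1`, otherwise empty; for `imp` take the union. -/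
theorem exists_finset_qf {G : Type} [Group G] {α : Type*} {k : ℕ}
    (φ : grpLang.BoundedFormula α k) (hφ : φ.IsQF) (v : α → G) (xs : Fin k → G) :
    ∃ S : Finset G, (∀ g ∈ S, g ≠ 1) ∧ ∀ (H : Type) [Group H] (f : G →* H),
      (∀ g ∈ S, f g ≠ 1) → (φ.Realize v xs ↔ φ.Realize (fun i => f (v i)) (fun i => f (xs i))) := by
  classical
  induction hφ with
  | falsum => exact ⟨∅, by simp, fun H _ f _ => Iff.rfl⟩
  | of_isAtomic h =>
    cases h with
    | rel R ts => exact R.elim
    | equal t₁ t₂ =>
      set a := t₁.realize (Sum.elim v xs) with ha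
      set b := t₂.realize (Sum.elim v xs) with hb
      refine ⟨if a * b⁻¹ = 1 then ∅ else {a * b⁻¹}, ?_, fun H _ f hf => ?_⟩
      · intro g hg
        by_cases h : a * b⁻¹ = 1
        · rw [if_pos h] at hg
          simp at hg
        · rw [if_neg h, Finset.mem_singleton] at hg
          rw [hg]
          exact h
      · rw [Language.BoundedFormula.realize_bdEqual, Language.BoundedFormula.realize_bdEqual,
          Bk2_elim, realize_term_hom, realize_term_hom, ← ha, ← hb]
        by_cases h : a * b⁻¹ = 1
        · have hab : a = b := mul_inv_eq_one.1 h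
          rw [hab]
          simp
        · have h1 : f (a * b⁻¹) ≠ 1 := hf _ (by rw [if_neg h]; exact Finset.mem_singleton_self _)
          constructor
          · intro hab
            exact absurd (mul_inv_eq_one.2 hab) h
          · intro hab
            exfalso
            apply h1
            rw [map_mul, map_inv, hab, mul_inv_cancel]
  | imp h₁ h₂ ih₁ ih₂ =>
    obtain ⟨S₁, hS₁, hf₁⟩ := ih₁
    obtain ⟨S₂, hS₂, hf₂⟩ := ih₂
    refine ⟨S₁ ∪ S₂, fun g hg => ?_, fun H _ f hf => ?_⟩
    · rcases Finset.mem_union.1 hg with h | h
      · exact hS₁ g h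
      · exact hS₂ g h
    · rw [Language.BoundedFormula.realize_imp, Language.BoundedFormula.realize_imp,
        hf₁ H f fun g hg => hf g (Finset.mem_union_left _ hg),
        hf₂ H f fun g hg => hf g (Finset.mem_union_right _ hg)]

/-- Injective homomorphisms preserve quantifier free formulas. -/
theorem realize_qf_injective {G H : Type} [Group G] [Group H] (f : G →* H)
    (hf : Function.Injective f) {α : Type*} {k : ℕ} (φ : grpLang.BoundedFormula α k)
    (hφ : φ.IsQF) (v : α → G) (xs : Fin k → G) :
    φ.Realize v xs ↔ φ.Realize (fun i => f (v i)) (fun i => f (xs i)) := by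
  obtain ⟨S, hS, h⟩ := exists_finset_qf φ hφ v xs
  exact h H f fun g hg h1 => hS g hg (hf (by rw [h1, map_one]))

end Pool.Agent.Helper32.OR
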