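import Pool.Agent.Helper32.OR.Bk4

/-!
Discrimination of free groups by retractions, finite sets (project OR, MP_d4e3d0_lc).
-/

namespace Pool.Agent.Helper32.OR

open FreeGroup

/-- Finitely many elements. -/
theorem exists_retr (j : ℕ) (hj : 2 ≤ j) (S : Finset (FreeGroup (Fin (j + 1))))
    (hS : ∀ w ∈ S, w ≠ 1) : ∃ g : FreeGroup (Fin j), ∀ w ∈ S, retr j g w ≠ 1 := by
  have h : ∀ w : FreeGroup (Fin (j + 1)), ∃ m₀ : ℕ, w ≠ 1 → ∀ m, m₀ ≤ m →
      retr j (gel (⟨0, by omega⟩ : Fin j) ⟨1, by omega⟩ m true) w ≠ 1 := by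
    intro w
    by_cases hw : w = 1
    · exact ⟨0, fun h => absurd hw h⟩
    · obtain ⟨m₀, hm⟩ := exists_retr_ne_one j hj w hw
      exact ⟨m₀, fun _ => hm⟩
  choose m₀ hm using h
  exact ⟨gel (⟨0, by omega⟩ : Fin j) ⟨1, by omega⟩ (S.sup m₀) true,
    fun w hw => hm w (hS w hw) _ (Finset.le_sup (f := m₀) hw)⟩

/-- Only finitely many generators occur in an element. -/
theorem Bk6_range (w : FreeGroup ℕ) : ∃ M₀ : ℕ, ∀ M, M₀ ≤ M →
    w ∈ (FreeGroup.map (Fin.val : Fin M → ℕ)).range := by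
  induction w using FreeGroup.induction_on with
  | C1 => exact ⟨0, fun M _ => one_mem _⟩
  | of i =>
    exact ⟨i + 1, fun M hM => ⟨FreeGroup.of (⟨i, hM⟩ : Fin M), FreeGroup.map.of⟩⟩
  | inv_of i ih =>
    obtain ⟨M₀, h⟩ := ih
    exact ⟨M₀, fun M hM => inv_mem (h M hM)⟩
  | mul x y hx hy =>
    obtain ⟨M₁, h1⟩ := hx
    obtain ⟨M₂, h2⟩ := hy
    exact ⟨max M₁ M₂, fun M hM => mul_mem (h1 M (le_trans (le_max_left _ _) hM))
      (h2 M (le_trans (le_max_right _ _) hM))⟩

/-- The version of `exists_retr` for several generators at once. -/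
theorem Bk6_fin (N : ℕ) (hN : 2 ≤ N) (M : ℕ) (hM : N ≤ M) :
    ∀ S : Finset (FreeGroup (Fin M)), (∀ w ∈ S, w ≠ 1) →
      ∃ f : FreeGroup (Fin M) →* FreeGroup (Fin N),
        (∀ i : Fin N, f (FreeGroup.of (Fin.castLE hM i)) = FreeGroup.of i) ∧
        ∀ w ∈ S, f w ≠ 1 := by
  classical
  induction M, hM using Nat.le_induction with
  | base => exact fun S hS => ⟨MonoidHom.id _, fun i => rfl, fun w hw => hS w hw⟩
  | succ M hM ih =>
    intro S hS
    obtain ⟨g, hg⟩ := exists_retr M (hN.trans hM) S hS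
    obtain ⟨f, hf, hfS⟩ := ih (S.image (retr M g)) (by
      intro w hw
      obtain ⟨v, hv, rfl⟩ := Finset.mem_image.1 hw
      exact hg v hv)
    refine ⟨f.comp (retr M g), fun i => ?_, fun w hw => hfS _ (Finset.mem_image_of_mem _ hw)⟩
    have h1 : retr M g (FreeGroup.of (Fin.castLE (hM.trans (Nat.le_succ M)) i)) =
        FreeGroup.of (Fin.castLE hM i) := by
      unfold retr
      rw [FreeGroup.lift_apply_of]
      exact Fin.snoc_castSucc (α := fun _ => FreeGroup (Fin M)) g (fun i => FreeGroup.of i)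
        (Fin.castLE hM i)
    rw [MonoidHom.comp_apply, h1, hf]

/-- Retraction of the free group of countable rank onto its free factor of rank `N ≥ 2`, not killing
finitely many elements: only the first `M ≥ N` generators occur in them; map the others to 1 and use
`exists_retr` downwards from `M` to `N` (induction on `M - N`). -/
theorem exists_retr_nat (N : ℕ) (hN : 2 ≤ N) (S : Finset (FreeGroup ℕ))
    (hS : ∀ w ∈ S, w ≠ 1) : ∃ f : FreeGroup ℕ →* FreeGroup (Fin N),
      (∀ i : Fin N, f (FreeGroup.of (i : ℕ)) = FreeGroup.of i) ∧ ∀ w ∈ S, f w ≠ 1 := by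
  classical
  choose M₀ hM₀ using Bk6_range
  set M : ℕ := max N (S.sup M₀) with hM
  have hNM : N ≤ M := le_max_left _ _
  set T : FreeGroup ℕ →* FreeGroup (Fin M) :=
    FreeGroup.lift (fun i => if h : i < M then FreeGroup.of (⟨i, h⟩ : Fin M) else 1) with hT
  have hTm : ∀ w : FreeGroup (Fin M), T (FreeGroup.map (Fin.val : Fin M → ℕ) w) = w := by
    intro w
    have h : T.comp (FreeGroup.map (Fin.val : Fin M → ℕ)) = MonoidHom.id _ := by
      ext i
      simp only [MonoidHom.comp_apply, FreeGroup.map.of, hT, FreeGroup.lift_apply_of,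
        MonoidHom.id_apply]
      rw [dif_pos i.2]
    exact DFunLike.congr_fun h w
  have hTS : ∀ w ∈ S, T w ≠ 1 := by
    intro w hw h1
    obtain ⟨w', hw'⟩ := hM₀ w M ((Finset.le_sup (f := M₀) hw).trans (le_max_right _ _))
    apply hS w hw
    rw [← hw', hTm] at h1
    rw [← hw', h1, _root_.map_one]
  obtain ⟨f, hf, hfS⟩ := Bk6_fin N hN M hNM (S.image T) (by
    intro w hw
    obtain ⟨v, hv, rfl⟩ := Finset.mem_image.1 hw
    exact hTS v hv)
  refine ⟨f.comp T, fun i => ?_, fun w hw => hfS _ (Finset.mem_image_of_mem _ hw)⟩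
  have h1 : T (FreeGroup.of (i : ℕ)) = FreeGroup.of (Fin.castLE hNM i) := by
    simp only [hT, FreeGroup.lift_apply_of]
    rw [dif_pos (i.2.trans_le hNM)]
    rfl
  rw [MonoidHom.comp_apply, h1, hf]

end Pool.Agent.Helper32.OR
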