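import Pool.Agent.Helper32.OR.Bk1
import Pool.Agent.Helper32.OR.Bk2
import Pool.Agent.Helper32.OR.Bk6

/-!
Transfer of sentences with three blocks of quantifiers (project OR, MP_d4e3d0_lc).
-/

namespace Pool.Agent.Helper32.OR

open FirstOrder

theorem Bk7_append {G H : Type} (f : G → H) {m n : ℕ} (x : Fin m → G) (y : Fin n → G) :
    (fun i => f (Fin.append x y i)) = Fin.append (fun i => f (x i)) (fun i => f (y i)) := by
  funext i
  refine Fin.addCases (fun i => ?_) (fun i => ?_) i
  · simp [Fin.append_left]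
  · simp [Fin.append_right]

/-- Evaluation at the images. -/
theorem Bk7_eval {G H : Type} [Group G] [Group H] (f : G → H) {a b m : ℕ} (v : Empty → G)
    (w : Empty → H) (d : Fin 0 → G) (e : Fin 0 → H)
    (x : Fin a → G) (y : Fin b → G) (z : Fin m → G)
    (x' : Fin a → H) (y' : Fin b → H) (z' : Fin m → H)
    (hx : ∀ i, f (x i) = x' i) (hy : ∀ i, f (y i) = y' i) (hz : ∀ i, f (z i) = z' i)
    (ψ : grpLang.BoundedFormula Empty (0 + a + b + m)) :
    ψ.Realize (fun i => f (v i))
      (fun i => f (Fin.append (Fin.append (Fin.append d x) y) z i)) ↔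
    ψ.Realize w (Fin.append (Fin.append (Fin.append e x') y') z') := by
  rw [Bk7_append, Bk7_append, Bk7_append,
    show (fun i => f (x i)) = x' from funext hx,
    show (fun i => f (y i)) = y' from funext hy,
    show (fun i => f (z i)) = z' from funext hz,
    show (fun i => f (d i)) = e from funext fun i => i.elim0,
    show (fun i => f (v i)) = w from funext fun i => i.elim]

/-- Only finitely many generators occur in a word. -/
theorem Bk7_fin (w : FreeGroup ℕ) : ∃ s : ℕ, ∀ t, s ≤ t → ∃ v : FreeGroup (Fin t),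
    FreeGroup.map (fun i : Fin t => (i : ℕ)) v = w := by
  induction w using FreeGroup.induction_on with
  | C1 => exact ⟨0, fun t _ => ⟨1, map_one _⟩⟩
  | of n => exact ⟨n + 1, fun t ht => ⟨FreeGroup.of ⟨n, ht⟩, by simp⟩⟩
  | inv_of n ih =>
    obtain ⟨s, hs⟩ := ih
    refine ⟨s, fun t ht => ?_⟩
    obtain ⟨v, hv⟩ := hs t ht
    exact ⟨v⁻¹, by rw [map_inv, hv]⟩
  | mul x y hx hy =>
    obtain ⟨s, hs⟩ := hx
    obtain ⟨s', hs'⟩ := hy
    refine ⟨s + s', fun t ht => ?_⟩
    obtain ⟨v, hv⟩ := hs t (by omega)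
    obtain ⟨v', hv'⟩ := hs' t (by omega)
    exact ⟨v * v', by rw [map_mul, hv, hv']⟩

/-- There is `s ≥ 2` such that the sentence transfers to every group with `Part G s b x`. Let `x'` be
the witnesses in `FreeGroup ℕ`; choose `s ≥ 2` such that only the first `s` generators occur in them:
`x' i = map (Fin.val) (x'' i)` with `x'' i : FreeGroup (Fin s)`. In `G` take the witnesses
`lift x (x'' i)`. For `y : Fin b → G` take `N, f` of `Part`, `y i = f (y' i)`. `FreeGroup ℕ` satisfies
`∃ z, ψ` at `x'` and `map val (y' i)`; take `z`, the finite set `S` of `exists_finset_qf`, and the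
retraction of `exists_retr_nat` onto `FreeGroup (Fin N)`: `ψ` holds in `FreeGroup (Fin N)` at
`map (castLE) (x'' i)`, `y' i` and the images of `z`; then apply `f` (`realize_qf_injective`), where
`f (map (castLE) (x'' i)) = lift x (x'' i)`. -/
theorem EAE_of_part (a b m : ℕ) (ψ : grpLang.BoundedFormula Empty (0 + a + b + m))
    (hψ : ψ.IsQF) (hF : FreeGroup ℕ ⊨ EAE a b m ψ) : ∃ s : ℕ, 2 ≤ s ∧ ∀ (G : Type) [Group G]
      (x : Fin s → G), Part G s b x → G ⊨ EAE a b m ψ := by
  obtain ⟨x', hx'⟩ := (sat_EAE a b m ψ).1 hF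
  choose T hT using fun i => Bk7_fin (x' i)
  have hs : ∀ i, T i ≤ Finset.univ.sup T + 2 := fun i =>
    (Finset.le_sup (Finset.mem_univ i)).trans (Nat.le_add_right _ _)
  refine ⟨Finset.univ.sup T + 2, by omega, fun G _ x hP => ?_⟩
  choose x'' hx'' using fun i => hT i _ (hs i)
  rw [sat_EAE]
  refine ⟨fun i => FreeGroup.lift x (x'' i), fun y => ?_⟩
  obtain ⟨N, hN, f, hf, hfx, hy⟩ := hP y
  choose y' hy' using hy
  obtain ⟨z, hz⟩ := hx' (fun i => FreeGroup.map (fun i : Fin N => (i : ℕ)) (y' i))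
  obtain ⟨S, hS, hS2⟩ := exists_finset_qf ψ hψ (@default (Empty → FreeGroup ℕ) Unique.instInhabited)
    (Fin.append (Fin.append (Fin.append (default : Fin 0 → FreeGroup ℕ) x')
      (fun i => FreeGroup.map (fun i : Fin N => (i : ℕ)) (y' i))) z)
  obtain ⟨r, hr, hrS⟩ := exists_retr_nat N (by omega) S hS
  have h1 := (hS2 _ r hrS).1 hz
  have hry : ∀ w : FreeGroup (Fin N), r (FreeGroup.map (fun i : Fin N => (i : ℕ)) w) = w := by
    intro w
    have : r.comp (FreeGroup.map (fun i : Fin N => (i : ℕ))) = MonoidHom.id _ := by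
      ext i
      simp only [MonoidHom.comp_apply, FreeGroup.map.of, hr, MonoidHom.id_apply]
    exact DFunLike.congr_fun this w
  have hrx : ∀ w : FreeGroup (Fin (Finset.univ.sup T + 2)),
      f (r (FreeGroup.map (fun i : Fin (Finset.univ.sup T + 2) => (i : ℕ)) w)) =
        FreeGroup.lift x w := by
    intro w
    have : (f.comp r).comp (FreeGroup.map (fun i : Fin (Finset.univ.sup T + 2) => (i : ℕ))) =
        FreeGroup.lift x := by
      ext i
      have := hr (Fin.castLE hN i)
      rw [Fin.val_castLE] at this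
      simp only [MonoidHom.comp_apply, FreeGroup.map.of, FreeGroup.lift_apply_of, this, hfx]
    exact DFunLike.congr_fun this w
  have h2 := (realize_qf_injective f hf ψ hψ _ _).1 h1
  refine ⟨fun i => f (r (z i)), ?_⟩
  exact (Bk7_eval (fun g => f (r g)) _ _ _ _ x' _ z (fun i => FreeGroup.lift x (x'' i)) y
    (fun i => f (r (z i))) (fun i => by rw [← hx'' i]; exact hrx _)
    (fun i => by rw [hry]; exact hy' i) (fun i => rfl) ψ).1 h2

end Pool.Agent.Helper32.OR
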