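import Pool.Agent.Helper32.OR.BinDefs

/-!
Terms with two variables are words (project OR, MP_d4e3d0_lc).
-/

namespace Pool.Agent.Helper32.OR

open FirstOrder

/-- A term with variables among `{x, y}` is a word in two letters: there is `w : FreeGroup (Fin 2)`
such that in every group and for every assignment `v` the value is `w (v x, v y)`. Induction on the
term. -/
theorem exists_word {β : Type*} [DecidableEq β] (t : grpLang.Term β) (x y : β)
    (h : t.varFinset ⊆ {x, y}) : ∃ w : FreeGroup (Fin 2), ∀ (G : Type) [Group G] (v : β → G),
      t.realize v = FreeGroup.lift ![v x, v y] w := by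
  induction t with
  | var b =>
    have hb : b = x ∨ b = y := by
      have : b ∈ ({x, y} : Finset β) := h (by simp [Language.Term.varFinset])
      simpa using this
    rcases hb with rfl | rfl
    · refine ⟨FreeGroup.of 0, ?_⟩
      intro G _ v
      rw [FreeGroup.lift_apply_of, Language.Term.realize_var]
      rfl
    · refine ⟨FreeGroup.of 1, ?_⟩
      intro G _ v
      rw [FreeGroup.lift_apply_of, Language.Term.realize_var]
      rfl
  | @func l f ts ih =>
    have hsub : ∀ i, (ts i).varFinset ⊆ {x, y} := by
      intro i z hz
      apply h
      simp only [Language.Term.varFinset, Finset.mem_biUnion, Finset.mem_univ, true_and]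
      exact ⟨i, hz⟩
    have hw := fun i => ih i (hsub i)
    change GrpFun l at f
    cases f with
    | one =>
      refine ⟨1, ?_⟩
      intro G _ v
      rw [map_one]
      rfl
    | inv =>
      obtain ⟨w, hw0⟩ := hw 0
      refine ⟨w⁻¹, ?_⟩
      intro G _ v
      rw [map_inv, ← hw0 G v]
      rfl
    | mul =>
      obtain ⟨w, hw0⟩ := hw 0
      obtain ⟨w', hw1⟩ := hw 1
      refine ⟨w * w', ?_⟩
      intro G _ v
      rw [map_mul, ← hw0 G v, ← hw1 G v]
      rfl

end Pool.Agent.Helper32.OR
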