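import Mathlib

/-!
The language of groups and the two variable fragment (project OR, MP_d4e3d0_lc).
-/

namespace Pool.Agent.Helper32.OR

open FirstOrder

/-- The function symbols of the language of groups. -/
inductive GrpFun : ℕ → Type
  | one : GrpFun 0
  | inv : GrpFun 1
  | mul : GrpFun 2

/-- The language of groups. -/
def grpLang : Language := ⟨GrpFun, fun _ => Empty⟩

/-- Every group is a structure for the language of groups. -/
instance grpStr (G : Type*) [Group G] : grpLang.Structure G where
  funMap := fun {k} f x => match k, f, x with
    | _, .one, _ => 1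
    | _, .inv, x => (x 0)⁻¹
    | _, .mul, x => x 0 * x 1
  RelMap := fun r _ => r.elim

/-- All atomic subformulas contain at most two variables. -/
def TwoVar {α : Type*} [DecidableEq α] : {k : ℕ} → grpLang.BoundedFormula α k → Prop
  | _, .falsum => True
  | _, .equal t₁ t₂ => (t₁.varFinset ∪ t₂.varFinset).card ≤ 2
  | _, .rel _ _ => True
  | _, .imp φ ψ => TwoVar φ ∧ TwoVar ψ
  | _, .all φ => TwoVar φ

end Pool.Agent.Helper32.OR
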