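import Pool.Agent.Helper32.OR.BlkDefs

/-!
Blocks of quantifiers (project OR, MP_d4e3d0_lc).
-/

namespace Pool.Agent.Helper32.OR

open FirstOrder

/-- Induction on `k`; in the step split `Fin (k + 1) → G` into `Fin.snoc` of the first `k` entries and
the last one (`Fin.append_snoc` or similar). -/
theorem realize_allN {α : Type*} {G : Type} [Group G] (k : ℕ) {m : ℕ}
    (φ : grpLang.BoundedFormula α (m + k)) (v : α → G) (xs : Fin m → G) :
    (allN k φ).Realize v xs ↔ ∀ ys : Fin k → G, φ.Realize v (Fin.append xs ys) := by
  induction k with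
  | zero =>
    constructor
    · intro h ys
      have e : Fin.append xs ys = xs := by
        rw [Fin.append_right_nil xs ys rfl]
        rfl
      rw [e]
      exact h
    · intro h
      have h1 := h Fin.elim0
      have e : Fin.append xs (Fin.elim0 : Fin 0 → G) = xs := by
        rw [Fin.append_right_nil xs _ rfl]
        rfl
      rw [e] at h1
      exact h1
  | succ k ih =>
    show (allN k φ.all).Realize v xs ↔ _
    rw [ih]
    constructor
    · intro h ys
      have h1 := (Language.BoundedFormula.realize_all.1 (h (Fin.init ys))) (ys (Fin.last k))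
      rw [← Fin.append_snoc, Fin.snoc_init_self] at h1
      exact h1
    · intro h ys
      rw [Language.BoundedFormula.realize_all]
      intro a
      have h1 := h (Fin.snoc ys a)
      rw [Fin.append_snoc] at h1
      exact h1

theorem realize_exN {α : Type*} {G : Type} [Group G] (k : ℕ) {m : ℕ}
    (φ : grpLang.BoundedFormula α (m + k)) (v : α → G) (xs : Fin m → G) :
    (exN k φ).Realize v xs ↔ ∃ ys : Fin k → G, φ.Realize v (Fin.append xs ys) := by
  induction k with
  | zero =>
    constructor
    · intro h
      refine ⟨Fin.elim0, ?_⟩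
      have e : Fin.append xs (Fin.elim0 : Fin 0 → G) = xs := by
        rw [Fin.append_right_nil xs _ rfl]
        rfl
      rw [e]
      exact h
    · rintro ⟨ys, h⟩
      have e : Fin.append xs ys = xs := by
        rw [Fin.append_right_nil xs ys rfl]
        rfl
      rw [e] at h
      exact h
  | succ k ih =>
    show (exN k φ.ex).Realize v xs ↔ _
    rw [ih]
    constructor
    · rintro ⟨ys, h⟩
      rw [Language.BoundedFormula.realize_ex] at h
      obtain ⟨a, h⟩ := h
      refine ⟨Fin.snoc ys a, ?_⟩
      rw [Fin.append_snoc]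
      exact h
    · rintro ⟨ys, h⟩
      refine ⟨Fin.init ys, ?_⟩
      rw [Language.BoundedFormula.realize_ex]
      refine ⟨ys (Fin.last k), ?_⟩
      rw [← Fin.append_snoc, Fin.snoc_init_self]
      exact h

/-- From `realize_allN` and `realize_exN`. -/
theorem sat_AEA {G : Type} [Group G] (a b : ℕ)
    (ψ : grpLang.BoundedFormula Empty (0 + a + b + 1)) :
    G ⊨ AEA a b ψ ↔ ∀ x : Fin a → G, ∃ z : Fin b → G, ∀ u : G, ψ.Realize default
      (Fin.snoc (Fin.append (Fin.append (default : Fin 0 → G) x) z) u) := by
  show (allN a (m := 0) (exN b ψ.all)).Realize default default ↔ _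
  rw [realize_allN]
  refine forall_congr' fun x => ?_
  rw [realize_exN]
  refine exists_congr fun z => ?_
  rw [Language.BoundedFormula.realize_all]

/-- From `realize_allN` and `realize_exN`. -/
theorem sat_EAE {G : Type} [Group G] (a b m : ℕ)
    (ψ : grpLang.BoundedFormula Empty (0 + a + b + m)) :
    G ⊨ EAE a b m ψ ↔ ∃ x : Fin a → G, ∀ y : Fin b → G, ∃ z : Fin m → G, ψ.Realize default
      (Fin.append (Fin.append (Fin.append (default : Fin 0 → G) x) y) z) := by
  show (exN a (m := 0) (allN b (exN m ψ))).Realize default default ↔ _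
  rw [realize_exN]
  refine exists_congr fun x => ?_
  rw [realize_allN]
  refine forall_congr' fun y => ?_
  rw [realize_exN]

/-- The negation of a sentence `AEA` is a sentence `EAE` with last block of length 1. -/
theorem not_AEA {G : Type} [Group G] (a b : ℕ)
    (ψ : grpLang.BoundedFormula Empty (0 + a + b + 1)) :
    ¬ (G ⊨ AEA a b ψ) ↔ G ⊨ EAE a b 1 ψ.not := by
  rw [sat_AEA, sat_EAE]
  push Not
  refine exists_congr fun x => forall_congr' fun z => ?_
  constructor
  · rintro ⟨u, hu⟩
    refine ⟨fun _ => u, ?_⟩
    rw [Language.BoundedFormula.realize_not, Fin.append_right_eq_snoc]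
    exact hu
  · rintro ⟨z1, hz⟩
    rw [Language.BoundedFormula.realize_not, Fin.append_right_eq_snoc] at hz
    exact ⟨z1 0, hz⟩

end Pool.Agent.Helper32.OR
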