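import Mathlib

/-!
Discrimination: substitution of a long element for the last free generator
(project OR, MP_d4e3d0_lc).
-/

namespace Pool.Agent.Helper32.OR

open FreeGroup

/-- `w` ends (as a reduced word) with `(b, ε) (a, ε)^m`. -/
def EndsWith {α : Type*} [DecidableEq α] (a b : α) (m : ℕ) (ε : Bool) (w : FreeGroup α) : Prop :=
  ∃ q : List (α × Bool), w.toWord = q ++ (b, ε) :: List.replicate m (a, ε)

/-- The element `a ^ m * b * a ^ m` or its inverse. -/
def gel {α : Type*} (a b : α) (m : ℕ) (ε : Bool) : FreeGroup α :=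
  mk (List.replicate m (a, ε) ++ (b, ε) :: List.replicate m (a, ε))

theorem Bk3_invRev_replicate {α : Type*} (a : α) (ε : Bool) (m : ℕ) :
    invRev (List.replicate m (a, ε)) = List.replicate m (a, !ε) := by
  simp [invRev]

theorem Bk3_mul_single {α : Type*} [DecidableEq α] (x : α × Bool) (u : FreeGroup α) :
    (mk [x] * u).toWord = reduce (x :: u.toWord) := by
  rw [toWord_mul, toWord_mk, reduce_singleton, List.singleton_append]

theorem Bk3_keep {α : Type*} [DecidableEq α] (a c : α) (hc : c ≠ a) (δ δ' : Bool)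
    (p : List (α × Bool)) (k : ℕ) (u : FreeGroup α) (t : List (α × Bool))
    (hu : u.toWord = t ++ (c, δ) :: p) :
    ∃ t', (mk (List.replicate k (a, δ')) * u).toWord = t' ++ (c, δ) :: p := by
  induction k with
  | zero =>
    refine ⟨t, ?_⟩
    rw [List.replicate_zero, ← one_eq_mk, one_mul, hu]
  | succ k ih =>
    obtain ⟨t', ht'⟩ := ih
    have e : mk (List.replicate (k + 1) (a, δ')) * u =
        mk [(a, δ')] * (mk (List.replicate k (a, δ')) * u) := by
      rw [← mul_assoc, mul_mk, List.replicate_succ, List.singleton_append]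
    rw [e, Bk3_mul_single, reduce.cons, reduce_toWord, ht']
    cases t' with
    | nil =>
      refine ⟨[(a, δ')], ?_⟩
      simp [Ne.symm hc]
    | cons hd tl =>
      simp only [List.cons_append]
      by_cases h : a = hd.1 ∧ δ' = !hd.2
      · exact ⟨tl, by simp [h.1, h.2]⟩
      · refine ⟨(a, δ') :: hd :: tl, ?_⟩
        rw [if_neg h]
        rfl

theorem Bk3_head {α : Type*} [DecidableEq α] (a : α) (m m' : ℕ) (ε ε' : Bool)
    (h : FreeGroup α) (hm : h.norm < m) :
    ∀ y ∈ (mk (List.replicate m (a, ε)) * h * mk (List.replicate m' (a, ε'))).toWord.head?,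
      y.1 = a := by
  intro y hy
  by_contra hya
  set g := mk (List.replicate m (a, ε)) * h * mk (List.replicate m' (a, ε')) with hg
  obtain ⟨t, ht⟩ : ∃ t, g.toWord = y :: t := by
    cases hw : g.toWord with
    | nil => rw [hw] at hy; simp at hy
    | cons z t =>
      rw [hw] at hy
      simp at hy
      exact ⟨t, by rw [hy]⟩
  have e0 : mk (List.replicate m (a, !ε)) = (mk (List.replicate m (a, ε)))⁻¹ := by
    rw [inv_mk, Bk3_invRev_replicate]
  have e1 : mk (List.replicate m (a, !ε)) * g = h * mk (List.replicate m' (a, ε')) := by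
    rw [hg, e0]; group
  have e2 : (mk (List.replicate m (a, !ε)) * g).toWord = List.replicate m (a, !ε) ++ y :: t := by
    have e3 : g = mk (y :: t) := by rw [← ht, mk_toWord]
    rw [e3, mul_mk, toWord_mk]
    apply IsReduced.reduce_eq
    have h1 : IsReduced (y :: t) := by rw [← ht]; exact isReduced_toWord
    rw [FreeGroup.IsReduced, List.isChain_append]
    refine ⟨List.isChain_replicate_of_rel _ (fun _ => rfl), h1, ?_⟩
    intro x hx z hz hxz
    simp at hz
    have hx1 := List.mem_of_mem_getLast? hx
    rw [List.eq_of_mem_replicate hx1] at hxz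
    rw [← hz] at hxz
    exact absurd hxz.symm hya
  rw [e1] at e2
  have e4 : ((h * mk (List.replicate m' (a, ε')))⁻¹).toWord =
      invRev t ++ (y.1, !y.2) :: List.replicate m (a, ε) := by
    rw [toWord_inv, e2]
    simp [invRev]
  obtain ⟨t', ht'⟩ := Bk3_keep a y.1 hya _ ε' _ m' _ _ e4
  have e5 : mk (List.replicate m' (a, ε')) * (h * mk (List.replicate m' (a, ε')))⁻¹ = h⁻¹ := by
    group
  rw [e5] at ht'
  have e6 : h⁻¹.norm = h.norm := norm_inv_eq
  have e7 : m + 1 ≤ h⁻¹.norm := by
    rw [FreeGroup.norm, ht']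
    simp
  omega

theorem Bk3_last {α : Type*} [DecidableEq α] (a : α) (m m' : ℕ) (ε ε' : Bool)
    (h : FreeGroup α) (hm : h.norm < m) :
    ∀ y ∈ (mk (List.replicate m' (a, ε')) * h * mk (List.replicate m (a, ε))).toWord.getLast?,
      y.1 = a := by
  intro y hy
  have h1 := Bk3_head a m m' (!ε) (!ε') h⁻¹ (by rw [norm_inv_eq]; exact hm)
  have h2 : mk (List.replicate m (a, !ε)) * h⁻¹ * mk (List.replicate m' (a, !ε')) =
      (mk (List.replicate m' (a, ε')) * h * mk (List.replicate m (a, ε)))⁻¹ := by
    rw [mul_inv_rev, mul_inv_rev, inv_mk, inv_mk, Bk3_invRev_replicate, Bk3_invRev_replicate,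
      mul_assoc]
  rw [h2, toWord_inv] at h1
  have h3 := h1 (y.1, !y.2) (by
    rw [invRev, List.head?_reverse, List.getLast?_map]
    simp only [Option.mem_def] at hy ⊢
    rw [hy]
    rfl)
  exact h3

theorem Bk3_reduced {α : Type*} (a b : α) (hab : a ≠ b) (m : ℕ) (ε : Bool) :
    IsReduced ((b, ε) :: List.replicate m (a, ε)) := by
  rw [← List.singleton_append, FreeGroup.IsReduced, List.isChain_append]
  refine ⟨List.isChain_singleton _, List.isChain_replicate_of_rel _ (fun _ => rfl), ?_⟩
  intro x hx z hz hxz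
  simp at hx
  have hz1 := List.mem_of_mem_head? hz
  rw [List.eq_of_mem_replicate hz1, ← hx] at hxz
  exact absurd hxz.symm hab

/-- Let `P = q (b, ε) (a, ε)^m` be reduced and `h` reduced with `|h| < m`, and `ε = ε'` if `h = 1`.
In the product `P * h * gel a b m ε'` the letter `(b, ε)` of `P` and the letter `(b, ε')` of
`gel` are not touched: if `h` is a power `a ^ k` (signed) then between the two letters there is
the power of `a` with exponent `± m + k ± m ≠ 0` (equal signs: `|k| < m`; different signs: it is `k ≠ 0`);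
if `h` contains another letter then it stays after at most `|h| < m` letters of `(a, ε)^m` on each
side have been cancelled. So the product ends with `(b, ε') (a, ε')^m`. -/
theorem endsWith_step {α : Type*} [DecidableEq α] (a b : α) (hab : a ≠ b) (m : ℕ) (ε ε' : Bool)
    (P h : FreeGroup α) (hP : EndsWith a b m ε P) (hm : h.norm < m) (hh : h = 1 → ε = ε') :
    EndsWith a b m ε' (P * h * gel a b m ε') := by
  obtain ⟨q, hq⟩ := hP
  set x := mk (List.replicate m (a, ε)) * h * mk (List.replicate m (a, ε')) with hx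
  have e1 : P = mk (q ++ [(b, ε)]) * mk (List.replicate m (a, ε)) := by
    rw [mul_mk, List.append_assoc, List.singleton_append, ← hq, mk_toWord]
  have e2 : gel a b m ε' = mk (List.replicate m (a, ε')) *
      mk ((b, ε') :: List.replicate m (a, ε')) := by
    rw [mul_mk, gel]
  have e3 : P * h * gel a b m ε' =
      mk ((q ++ [(b, ε)]) ++ (x.toWord ++ (b, ε') :: List.replicate m (a, ε'))) := by
    have e4 : mk ((q ++ [(b, ε)]) ++ (x.toWord ++ (b, ε') :: List.replicate m (a, ε'))) =
        mk (q ++ [(b, ε)]) * (x * mk ((b, ε') :: List.replicate m (a, ε'))) := by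
      rw [← mul_mk (L₁ := q ++ [(b, ε)]), ← mul_mk (L₁ := x.toWord), mk_toWord]
    rw [e4, e1, e2, hx]
    simp only [mul_assoc]
  have hPr : IsReduced ((q ++ [(b, ε)]) ++ List.replicate m (a, ε)) := by
    rw [List.append_assoc, List.singleton_append, ← hq]
    exact isReduced_toWord
  have hhead := Bk3_head a m m ε ε' h hm
  have hlast := Bk3_last a m m ε' ε h hm
  rw [← hx] at hhead hlast
  have hr : IsReduced ((q ++ [(b, ε)]) ++ (x.toWord ++ (b, ε') :: List.replicate m (a, ε'))) := by
    rw [FreeGroup.IsReduced, List.isChain_append] at hPr ⊢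
    refine ⟨hPr.1, ?_, ?_⟩
    · rw [List.isChain_append]
      refine ⟨isReduced_toWord, Bk3_reduced a b hab m ε', ?_⟩
      intro y hy z hz hyz
      simp at hz
      rw [hlast y hy, ← hz] at hyz
      exact absurd hyz hab
    · intro y hy z hz hyz
      simp at hy
      by_cases hx0 : x.toWord = []
      · rw [hx0, List.nil_append] at hz
        simp at hz
        rw [← hy, ← hz]
        by_contra hne
        have hne' : ε ≠ ε' := hne
        have h5 : (!ε) = ε' := by
          revert hne'; cases ε <;> cases ε' <;> simp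
        have h6 : x = 1 := toWord_eq_nil_iff.1 hx0
        have h7 : mk (List.replicate m (a, ε')) = (mk (List.replicate m (a, ε)))⁻¹ := by
          rw [inv_mk, Bk3_invRev_replicate, h5]
        have h8 : h = 1 := by
          rw [h6, h7] at hx
          have h9 := hx.symm
          rwa [mul_inv_eq_one, mul_eq_left] at h9
        exact hne' (hh h8)
      · have hz2 : z ∈ x.toWord.head? := by
          cases hw : x.toWord with
          | nil => exact absurd hw hx0
          | cons w l => rw [hw] at hz; simpa using hz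
        rw [← hy, hhead z hz2] at hyz
        exact absurd hyz.symm hab
  refine ⟨q ++ [(b, ε)] ++ x.toWord, ?_⟩
  rw [e3, toWord_mk, hr.reduce_eq]
  simp only [List.append_assoc]

/-- The first step: the product `h * gel a b m ε` with `|h| < m`. -/
theorem endsWith_first {α : Type*} [DecidableEq α] (a b : α) (hab : a ≠ b) (m : ℕ) (ε : Bool)
    (h : FreeGroup α) (hm : h.norm < m) : EndsWith a b m ε (h * gel a b m ε) := by
  have hlast := Bk3_last a m 0 ε ε h hm
  rw [List.replicate_zero, ← one_eq_mk, one_mul] at hlast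
  set x := h * mk (List.replicate m (a, ε)) with hx
  have e3 : h * gel a b m ε = mk (x.toWord ++ (b, ε) :: List.replicate m (a, ε)) := by
    have e4 : mk (x.toWord ++ (b, ε) :: List.replicate m (a, ε)) =
        x * mk ((b, ε) :: List.replicate m (a, ε)) := by
      rw [← mul_mk (L₁ := x.toWord), mk_toWord]
    have e2 : gel a b m ε = mk (List.replicate m (a, ε)) *
        mk ((b, ε) :: List.replicate m (a, ε)) := by
      rw [mul_mk, gel]
    rw [e4, e2, hx, mul_assoc]
  have hr : IsReduced (x.toWord ++ (b, ε) :: List.replicate m (a, ε)) := by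
    rw [FreeGroup.IsReduced, List.isChain_append]
    refine ⟨isReduced_toWord, Bk3_reduced a b hab m ε, ?_⟩
    intro y hy z hz hyz
    simp at hz
    rw [hlast y hy, ← hz] at hyz
    exact absurd hyz hab
  refine ⟨x.toWord, ?_⟩
  rw [e3, toWord_mk, hr.reduce_eq]

/-- The last step: `P * h ≠ 1`. -/
theorem endsWith_ne_one {α : Type*} [DecidableEq α] (a b : α) (m : ℕ) (ε : Bool)
    (P h : FreeGroup α) (hP : EndsWith a b m ε P) (hm : h.norm < m) : P * h ≠ 1 := by
  intro h0
  obtain ⟨q, hq⟩ := hP
  have h1 : h = P⁻¹ := by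
    rw [eq_inv_iff_mul_eq_one]
    exact mul_eq_one_comm.mp h0
  have h2 : h.norm = P.norm := by rw [h1, norm_inv_eq]
  have h3 : m + 1 ≤ P.norm := by
    rw [FreeGroup.norm, hq]
    simp
  omega

end Pool.Agent.Helper32.OR
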