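import Pool.Agent.Helper32.OR.Bk3

/-!
Discrimination of free groups by retractions (project OR, MP_d4e3d0_lc).
-/

namespace Pool.Agent.Helper32.OR

open FreeGroup

/-- The retraction `FreeGroup (Fin (j + 1)) → FreeGroup (Fin j)` which maps the last generator to
`g`. -/
def retr (j : ℕ) (g : FreeGroup (Fin j)) : FreeGroup (Fin (j + 1)) →* FreeGroup (Fin j) :=
  FreeGroup.lift (Fin.snoc (fun i => FreeGroup.of i) g)

theorem Bk4_gel_inv {α : Type*} (a b : α) (m : ℕ) (ε : Bool) :
    (gel a b m ε)⁻¹ = gel a b m (!ε) := by
  rw [gel, gel, FreeGroup.inv_mk]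
  congr 1
  simp [FreeGroup.invRev, List.map_replicate, List.reverse_replicate]

/-- Reducedness of the preimage. -/
theorem Bk4_red {j : ℕ} (M : List (Fin j × Bool))
    (h : IsReduced (M.map (fun x => (x.1.castSucc, x.2)))) : IsReduced M := by
  unfold FreeGroup.IsReduced at h ⊢
  rw [List.isChain_map] at h
  refine h.imp fun x y hxy he => hxy ?_
  simp only [he]

theorem Bk4_nil {j : ℕ} (M : List (Fin j × Bool)) (h : IsReduced M)
    (h1 : (FreeGroup.mk M : FreeGroup (Fin j)) = 1) : M = [] := by
  have h2 : (FreeGroup.mk M).toWord = [] := by rw [h1]; exact FreeGroup.toWord_one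
  rwa [FreeGroup.toWord_mk, h.reduce_eq] at h2

theorem Bk4_retr_castSucc {j : ℕ} (g : FreeGroup (Fin j)) (i : Fin j) (ε : Bool) :
    retr j g (mk [(i.castSucc, ε)]) = mk [(i, ε)] := by
  cases ε
  · have h1 : (mk [(i.castSucc, false)] : FreeGroup (Fin (j + 1))) = (of i.castSucc)⁻¹ := rfl
    have h2 : (mk [(i, false)] : FreeGroup (Fin j)) = (of i)⁻¹ := rfl
    rw [h1, h2, _root_.map_inv, retr, FreeGroup.lift_apply_of,
      Fin.snoc_castSucc (α := fun _ => FreeGroup (Fin j)) g (fun i => FreeGroup.of i) i]
  · have h1 : (mk [(i.castSucc, true)] : FreeGroup (Fin (j + 1))) = of i.castSucc := rfl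
    have h2 : (mk [(i, true)] : FreeGroup (Fin j)) = of i := rfl
    rw [h1, h2, retr, FreeGroup.lift_apply_of,
      Fin.snoc_castSucc (α := fun _ => FreeGroup (Fin j)) g (fun i => FreeGroup.of i) i]

theorem Bk4_retr_last {j : ℕ} (a b : Fin j) (m : ℕ) (ε : Bool) :
    retr j (gel a b m true) (mk [(Fin.last j, ε)]) = gel a b m ε := by
  cases ε
  · have h1 : (mk [(Fin.last j, false)] : FreeGroup (Fin (j + 1))) = (of (Fin.last j))⁻¹ := rfl
    rw [h1, _root_.map_inv, retr, FreeGroup.lift_apply_of, Fin.snoc_last, Bk4_gel_inv, Bool.not_true]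
  · have h1 : (mk [(Fin.last j, true)] : FreeGroup (Fin (j + 1))) = of (Fin.last j) := rfl
    rw [h1, retr, FreeGroup.lift_apply_of, Fin.snoc_last]

/-- The state after reading a reduced word. -/
theorem Bk4_state {j : ℕ} (a b : Fin j) (hab : a ≠ b) (m : ℕ) (L : List (Fin (j + 1) × Bool)) :
    IsReduced L → L.length < m →
    (∃ M : List (Fin j × Bool), L = M.map (fun x => (x.1.castSucc, x.2)) ∧
      retr j (gel a b m true) (mk L) = mk M) ∨
    ∃ (L' : List (Fin (j + 1) × Bool)) (ε : Bool) (M : List (Fin j × Bool))
      (P : FreeGroup (Fin j)), L = L' ++ (Fin.last j, ε) :: M.map (fun x => (x.1.castSucc, x.2)) ∧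
      EndsWith a b m ε P ∧ retr j (gel a b m true) (mk L) = P * mk M := by
  induction L using List.reverseRecOn with
  | nil =>
    intro _ _
    exact Or.inl ⟨[], rfl, _root_.map_one _⟩
  | append_singleton L x ih =>
    intro hL hm
    have hL0 : IsReduced L := (List.isChain_append.1 hL).1
    have hm0 : L.length < m := by
      rw [List.length_append] at hm
      omega
    have hmul : (mk (L ++ [x]) : FreeGroup (Fin (j + 1))) = mk L * mk [x] :=
      FreeGroup.mul_mk.symm
    obtain ⟨x, ε'⟩ := x
    rcases ih hL0 hm0 with ⟨M, hM, hr⟩ | ⟨L', ε, M, P, hM, hP, hr⟩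
    · induction x using Fin.lastCases with
      | last =>
        right
        refine ⟨L, ε', [], mk M * gel a b m ε', by simp, ?_, ?_⟩
        · refine endsWith_first a b hab m ε' (mk M) ?_
          refine lt_of_le_of_lt FreeGroup.norm_mk_le ?_
          have : L.length = M.length := by rw [hM, List.length_map]
          omega
        · rw [hmul, _root_.map_mul, hr, Bk4_retr_last]
          exact (mul_one _).symm
      | cast i =>
        left
        refine ⟨M ++ [(i, ε')], by simp [hM], ?_⟩
        rw [hmul, _root_.map_mul, hr, Bk4_retr_castSucc, FreeGroup.mul_mk]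
    · have hlen : M.length ≤ L.length := by
        rw [hM, List.length_append, List.length_cons, List.length_map]
        omega
      induction x using Fin.lastCases with
      | last =>
        right
        refine ⟨L, ε', [], P * mk M * gel a b m ε', by simp, ?_, ?_⟩
        · refine endsWith_step a b hab m ε ε' P (mk M) hP
            (lt_of_le_of_lt FreeGroup.norm_mk_le (by omega)) fun h1 => ?_
          have hMr : IsReduced M := by
            apply Bk4_red
            rw [hM] at hL0
            have h2 := (List.isChain_append.1 hL0).2.1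
            exact List.IsChain.tail h2
          have hMn := Bk4_nil M hMr h1
          rw [hM, hMn, List.map_nil, List.append_assoc] at hL
          have h3 := (List.isChain_append.1 hL).2.1
          simp only [List.cons_append, List.nil_append] at h3
          have h4 := (List.isChain_cons_cons.1 h3).1
          exact h4 rfl
        · rw [hmul, _root_.map_mul, hr, Bk4_retr_last]
          exact (mul_one _).symm
      | cast i =>
        right
        refine ⟨L', ε, M ++ [(i, ε')], P, by simp [hM], hP, ?_⟩
        rw [hmul, _root_.map_mul, hr, Bk4_retr_castSucc, mul_assoc, FreeGroup.mul_mk]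

/-- For `j ≥ 2` and `w ≠ 1` there is `m₀` such that `retr j (gel 0 1 m true)` does not kill `w` for
`m ≥ m₀`. Write the reduced word of `w` as `h₀ t^ε₁ h₁ … t^ε_k h_k` where `t` is the last generator and
the `h_i` do not contain it; if `k = 0` the retraction is injective on such words
(`w` is in the image of `FreeGroup.map Fin.castSucc`, on which `retr` is the inverse). If `k ≥ 1` take
`m > |h_i|` for all `i` and use `endsWith_first`, `endsWith_step`, `endsWith_ne_one` (induction over the
list of syllables; `h_i = 1` forces `ε_i = ε_(i+1)` because the word is reduced). A convenient way: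
recursion over the word of `w` with the state (nothing seen yet, `h`) or (last sign `ε`, `h`). -/
theorem exists_retr_ne_one (j : ℕ) (hj : 2 ≤ j) (w : FreeGroup (Fin (j + 1))) (hw : w ≠ 1) :
    ∃ m₀ : ℕ, ∀ m, m₀ ≤ m →
      retr j (gel (⟨0, by omega⟩ : Fin j) ⟨1, by omega⟩ m true) w ≠ 1 := by
  refine ⟨w.toWord.length + 1, fun m hm h1 => hw ?_⟩
  have hw2 : mk w.toWord = w := FreeGroup.mk_toWord
  have hab : (⟨0, by omega⟩ : Fin j) ≠ ⟨1, by omega⟩ := by
    intro h
    have := congrArg Fin.val h
    simp at this
  rcases Bk4_state (⟨0, by omega⟩ : Fin j) ⟨1, by omega⟩ hab m w.toWord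
    FreeGroup.isReduced_toWord (by omega) with ⟨M, hM, hr⟩ | ⟨L', ε, M, P, hM, hP, hr⟩
  · rw [hw2, h1] at hr
    have hMr : IsReduced M := by
      apply Bk4_red
      rw [← hM]
      exact FreeGroup.isReduced_toWord
    have hMn := Bk4_nil M hMr hr.symm
    rw [hMn, List.map_nil] at hM
    rw [← hw2, hM]
    rfl
  · rw [hw2, h1] at hr
    exact absurd hr.symm (endsWith_ne_one _ _ m ε P (mk M) hP
      (lt_of_le_of_lt FreeGroup.norm_mk_le (by
        have : w.toWord.length = L'.length + (M.length + 1) := by
          rw [hM, List.length_append, List.length_cons, List.length_map]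
        omega)))

end Pool.Agent.Helper32.OR
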