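import Pool.Agent.Helper32.OR.Bk1
import Pool.Agent.Helper32.OR.Bk2
import Pool.Agent.Helper32.OR.Bk6

/-!
Transfer of sentences with three blocks of quantifiers (project OR, MP_d4e3d0_lc).
-/

namespace Pool.Agent.Helper32.OR

open FirstOrder

theorem Bk5_append {G H : Type} (f : G → H) {m n : ℕ} (x : Fin m → G) (y : Fin n → G) :
    (fun i => f (Fin.append x y i)) = Fin.append (fun i => f (x i)) (fun i => f (y i)) := by
  funext i
  refine Fin.addCases (fun i => ?_) (fun i => ?_) i
  · simp [Fin.append_left]
  · simp [Fin.append_right]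

theorem Bk5_comp {G H : Type} (f : G → H) {a b : ℕ} (d : Fin 0 → G) (e : Fin 0 → H)
    (x : Fin a → G) (z : Fin b → G) (u : G) :
    (fun i => f ((Fin.snoc (Fin.append (Fin.append d x) z) u : Fin (0 + a + b + 1) → G) i)) =
    Fin.snoc (Fin.append (Fin.append e (fun i => f (x i))) (fun i => f (z i))) (f u) := by
  have h := Fin.comp_snoc f (Fin.append (Fin.append d x) z) u
  have h2 : (fun i => f ((Fin.snoc (Fin.append (Fin.append d x) z) u :
      Fin (0 + a + b + 1) → G) i)) =
      f ∘ (Fin.snoc (Fin.append (Fin.append d x) z) u : Fin (0 + a + b + 1) → G) := rfl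
  rw [h2, h]
  congr 1
  have h3 := Bk5_append f (Fin.append d x) z
  have h4 := Bk5_append f d x
  have h5 : (fun i => f (d i)) = e := by
    funext i; exact i.elim0
  rw [h5] at h4
  rw [h4] at h3
  exact h3

/-- Evaluation at the images. -/
theorem Bk5_eval {G H : Type} [Group G] [Group H] (f : G → H) {a b : ℕ} (v : Empty → G)
    (w : Empty → H) (d : Fin 0 → G) (e : Fin 0 → H)
    (x : Fin a → G) (z : Fin b → G) (u : G) (x' : Fin a → H) (z' : Fin b → H) (u' : H)
    (hx : ∀ i, f (x i) = x' i) (hz : ∀ i, f (z i) = z' i) (hu : f u = u')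
    (ψ : grpLang.BoundedFormula Empty (0 + a + b + 1)) :
    ψ.Realize (fun i => f (v i))
      (fun i => f ((Fin.snoc (Fin.append (Fin.append d x) z) u : Fin (0 + a + b + 1) → G) i)) ↔
    ψ.Realize w (Fin.snoc (Fin.append (Fin.append e x') z') u') := by
  rw [Bk5_comp f d e, hu, show (fun i => f (x i)) = x' from funext hx,
    show (fun i => f (z i)) = z' from funext hz,
    show (fun i => f (v i)) = w from funext fun i => i.elim]

/-- Let `x : Fin a → G`, take `j, f` of `Closed1` and `x' i` with `f (x' i) = x i`. `FreeGroup (Fin j)`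
satisfies the sentence: choose `z'`, and let `z = f ∘ z'`. Let `u : G`. If `u = f u'` use `ψ` at `u'` and
`realize_qf_injective` for `f`. Otherwise `F = lift (snoc (f ∘ of) u)` is injective on
`FreeGroup (Fin (j + 1))`, `f = F ∘ map castSucc`, `u = F (of last)`. If `ψ` fails at `x, z, u` in `G` then it
fails in `FreeGroup (Fin (j + 1))` at the images of `x', z'` and at `of last` (`realize_qf_injective`), and
by `exists_finset_qf` and `exists_retr` it fails in `FreeGroup (Fin j)` at `x', z', g` for some `g`,
because the retraction is the identity on the images of `x', z'`: contradiction. -/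
theorem AEA_of_closed1 {G : Type} [Group G] (a b : ℕ) (h : Closed1 G a)
    (ψ : grpLang.BoundedFormula Empty (0 + a + b + 1)) (hψ : ψ.IsQF)
    (hF : ∀ j : ℕ, 2 ≤ j → FreeGroup (Fin j) ⊨ AEA a b ψ) : G ⊨ AEA a b ψ := by
  rw [sat_AEA]
  intro x
  obtain ⟨j, hj, f, hf, hx, hu⟩ := h x
  choose x' hx' using hx
  obtain ⟨z', hz'⟩ := (sat_AEA a b ψ).1 (hF j hj) x'
  refine ⟨fun i => f (z' i), fun u => ?_⟩
  by_cases hm : u ∈ f.range
  · obtain ⟨u', rfl⟩ := hm
    have h1 := (realize_qf_injective f hf ψ hψ _ _).1 (hz' u')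
    exact (Bk5_eval f _ _ _ _ x' z' u' x (fun i => f (z' i)) (f u') hx' (fun _ => rfl) rfl ψ).1 h1
  · have hFi := hu u hm
    set F : FreeGroup (Fin (j + 1)) →* G :=
      FreeGroup.lift (Fin.snoc (fun i => f (FreeGroup.of i)) u : Fin (j + 1) → G) with hFd
    have hFu : F (FreeGroup.of (Fin.last j)) = u := by
      rw [hFd, FreeGroup.lift_apply_of, Fin.snoc_last]
    have hFf : ∀ w : FreeGroup (Fin j), F (FreeGroup.map Fin.castSucc w) = f w := by
      intro w
      have : F.comp (FreeGroup.map Fin.castSucc) = f := by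
        ext i
        simp only [MonoidHom.comp_apply, FreeGroup.map.of, hFd, FreeGroup.lift_apply_of]
        exact Fin.snoc_castSucc (α := fun _ => G) u (fun i => f (FreeGroup.of i)) i
      exact DFunLike.congr_fun this w
    by_contra hcon
    have hcon2 := fun h => hcon ((Bk5_eval F (fun e => e.elim) _ (fun e => e.elim0) _
      (fun i => FreeGroup.map Fin.castSucc (x' i))
      (fun i => FreeGroup.map Fin.castSucc (z' i)) (FreeGroup.of (Fin.last j)) x
      (fun i => f (z' i)) u (fun i => (hFf _).trans (hx' i)) (fun i => hFf _) hFu ψ).1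
      ((realize_qf_injective F hFi ψ hψ _ _).1 h))
    obtain ⟨S, hS, hS2⟩ := exists_finset_qf ψ hψ
      (fun e => e.elim : Empty → FreeGroup (Fin (j + 1)))
      (Fin.snoc (Fin.append (Fin.append (fun e => e.elim0)
          (fun i => FreeGroup.map Fin.castSucc (x' i)))
          (fun i => FreeGroup.map Fin.castSucc (z' i))) (FreeGroup.of (Fin.last j)) :
          Fin (0 + a + b + 1) → FreeGroup (Fin (j + 1)))
    obtain ⟨g, hg⟩ := exists_retr j hj S hS
    have h1 := hS2 _ (retr j g) hg
    have hr : ∀ w : FreeGroup (Fin j), retr j g (FreeGroup.map Fin.castSucc w) = w := by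
      intro w
      have : (retr j g).comp (FreeGroup.map Fin.castSucc) = MonoidHom.id _ := by
        ext i
        simp only [MonoidHom.comp_apply, FreeGroup.map.of, retr, FreeGroup.lift_apply_of,
          MonoidHom.id_apply]
        exact Fin.snoc_castSucc (α := fun _ => FreeGroup (Fin j)) g (fun i => FreeGroup.of i) i
      exact DFunLike.congr_fun this w
    apply hcon2
    rw [h1]
    exact (Bk5_eval (retr j g) _ _ _ _ _ _ _ x' z' (retr j g (FreeGroup.of (Fin.last j)))
      (fun i => hr _) (fun i => hr _) rfl ψ).2 (hz' _)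

end Pool.Agent.Helper32.OR
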