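import Pool.Agent.Helper32.OR.FL2

/-!
The cyclically reduced core (project OR, MP_d4e3d0_lc).
-/

namespace Pool.Agent.Helper32.OR

open FreeGroup

private theorem Co1_invRev_append {α : Type*} (a b : List (α × Bool)) :
    invRev (a ++ b) = invRev b ++ invRev a := by
  simp [invRev]

/-- `r.toWord = u ++ c ++ invRev u` with `c = reduceCyclically r.toWord`,
`u = conjugator r.toWord` (`reduceCyclically.conj_conjugator_reduceCyclically`). If `s ≤ u.length`
then the first window is `u.take s` and the last one is `invRev (u.take s)`, excluded. -/
theorem exists_core {n s : ℕ} (r : FreeGroup (Fin n)) (hs : 2 * s < r.norm)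
    (h : win r.toWord s 0 ≠ invRev (win r.toWord s (r.norm - s))) :
    ∃ u c : List (Fin n × Bool), r.toWord = u ++ c ++ invRev u ∧ u.length < s ∧ c ≠ [] ∧
      IsCyclicallyReduced c := by
  have e := reduceCyclically.conj_conjugator_reduceCyclically r.toWord
  have hc := reduceCyclically.isCyclicallyReduced (isReduced_toWord (x := r))
  generalize reduceCyclically.conjugator r.toWord = u at e
  generalize reduceCyclically r.toWord = c at e hc
  have hlen : r.norm = u.length + c.length + u.length := by
    unfold FreeGroup.norm
    rw [← e]
    simp only [List.length_append, invRev_length]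
  have hu : u.length < s := by
    by_contra hcon
    have hcon : s ≤ u.length := by omega
    apply h
    obtain ⟨a, b, hab, ha⟩ : ∃ a b, u = a ++ b ∧ a.length = s :=
      ⟨u.take s, u.drop s, (List.take_append_drop s u).symm, by simp [hcon]⟩
    subst hab
    rw [← e]
    have e1 : win (a ++ b ++ c ++ invRev (a ++ b)) s 0 = a := by
      unfold win
      rw [List.drop_zero, List.append_assoc, List.append_assoc, List.take_left' ha]
    have e2 : a ++ b ++ c ++ invRev (a ++ b) = (a ++ b ++ c ++ invRev b) ++ invRev a := by
      rw [Co1_invRev_append]
      simp only [List.append_assoc]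
    have e3 : win (a ++ b ++ c ++ invRev (a ++ b)) s (r.norm - s) = invRev a := by
      unfold win
      rw [e2, List.drop_left' (by simp only [List.length_append, invRev_length] at *; omega),
        List.take_of_length_le (by rw [invRev_length, ha])]
    rw [e1, e3, invRev_invRev]
  refine ⟨u, c, e.symm, hu, ?_, hc⟩
  rintro rfl
  simp only [List.length_nil] at hlen
  omega

/-- `r = mk u * mk c * (mk u)⁻¹`. -/
theorem normalClosure_core {n : ℕ} (r : FreeGroup (Fin n)) (u c : List (Fin n × Bool))
    (h : r.toWord = u ++ c ++ invRev u) :
    Subgroup.normalClosure {r} = Subgroup.normalClosure {FreeGroup.mk c} := by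
  have e : r = FreeGroup.mk u * FreeGroup.mk c * (FreeGroup.mk u)⁻¹ := by
    rw [inv_mk, mul_mk, mul_mk, ← h, mk_toWord]
  apply le_antisymm
  · apply Subgroup.normalClosure_le_normal
    rw [Set.singleton_subset_iff, e]
    exact (Subgroup.normalClosure_normal (s := {FreeGroup.mk c})).conj_mem _
      (Subgroup.subset_normalClosure (Set.mem_singleton _)) _
  · apply Subgroup.normalClosure_le_normal
    rw [Set.singleton_subset_iff]
    have e2 : FreeGroup.mk c = (FreeGroup.mk u)⁻¹ * r * (FreeGroup.mk u)⁻¹⁻¹ := by
      rw [e]; group
    rw [e2]
    exact (Subgroup.normalClosure_normal (s := {r})).conj_mem _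
      (Subgroup.subset_normalClosure (Set.mem_singleton _)) _

/-- A window of the periodic word at a place `p` with `0 ≤ p`, `p + s ≤ c.length` is the window of
`r` at `u.length + p`. -/
theorem cycWord_eq_win {n s : ℕ} (u c v : List (Fin n × Bool)) (hc : c ≠ []) (p : ℕ)
    (hp : p + s ≤ c.length) : cycWord c hc p s = win (u ++ c ++ v) s (u.length + p) := by
  have h1 := win_cycWord c hc 0 c.length s p hp
  rw [cycWord_zero_length, zero_add] at h1
  rw [← h1]
  unfold win
  rw [← List.drop_drop, List.append_assoc, List.drop_left, List.drop_append_of_le_length (by omega),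
    List.take_append_of_le_length (by rw [List.length_drop]; omega)]

end Pool.Agent.Helper32.OR
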