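import Pool.Agent.Helper32.OR.Co1
import Pool.Agent.Helper32.OR.Co2

/-!
Small cancellation from few bad windows (project OR, MP_d4e3d0_lc).
-/

namespace Pool.Agent.Helper32.OR

open FreeGroup

private theorem Co3_invRev_append {α : Type*} (a b : List (α × Bool)) :
    invRev (a ++ b) = invRev b ++ invRev a := by
  simp [invRev]

private theorem Co3_win_invRev {α : Type*} (Y : List (α × Bool)) (s x : ℕ)
    (h : x + s ≤ Y.length) :
    win (invRev Y) s x = invRev (win Y s (Y.length - s - x)) := by
  obtain ⟨a, b, d, rfl, ha, hb, hd⟩ : ∃ a b d : List (α × Bool), Y = a ++ b ++ d ∧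
      a.length = Y.length - s - x ∧ b.length = s ∧ d.length = x := by
    refine ⟨Y.take (Y.length - s - x), (Y.drop (Y.length - s - x)).take s,
      (Y.drop (Y.length - s - x)).drop s, ?_, ?_, ?_, ?_⟩
    · rw [List.append_assoc, List.take_append_drop, List.take_append_drop]
    · rw [List.length_take]; omega
    · rw [List.length_take, List.length_drop]; omega
    · rw [List.length_drop, List.length_drop]; omega
  have e1 : invRev (a ++ b ++ d) = invRev d ++ (invRev b ++ invRev a) := by
    rw [Co3_invRev_append, Co3_invRev_append]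
  have e2 : win (a ++ b ++ d) s ((a ++ b ++ d).length - s - x) = b := by
    unfold win
    rw [← ha, List.append_assoc, List.drop_left, List.take_left' hb]
  rw [e2, e1]
  unfold win
  rw [List.drop_left' (by rw [invRev_length, hd]), List.take_left' (by rw [invRev_length, hb])]

private theorem Co3_count {n s : ℕ} (u c v : List (Fin n × Bool)) (i : ℤ) (m : ℕ)
    (hc : 0 < c.length) (hm : m ≤ c.length) (A : Finset ℕ) (hA : A ⊆ Finset.range m)
    (hbad : ∀ x ∈ A, (i + x) % (c.length : ℤ) + s ≤ c.length ∧
      Bad (u ++ c ++ v) s (u.length + ((i + x) % (c.length : ℤ)).toNat)) :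
    A.card ≤ badCard (u ++ c ++ v) s := by
  have hL : (0 : ℤ) < c.length := by exact_mod_cast hc
  have hinj : Set.InjOn (fun x : ℕ => u.length + ((i + x) % (c.length : ℤ)).toNat) A := by
    intro x hx y hy hxy
    have hx' := Finset.mem_range.1 (hA hx)
    have hy' := Finset.mem_range.1 (hA hy)
    simp only at hxy
    have h1 := Int.emod_nonneg (i + x) hL.ne'
    have h2 := Int.emod_nonneg (i + y) hL.ne'
    have h3 : (i + x) % (c.length : ℤ) = (i + y) % (c.length : ℤ) := by omega
    have h4 := (Int.emod_eq_emod_iff_emod_sub_eq_zero).1 h3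
    have h5 : (i + x) - (i + y) = (x : ℤ) - y := by ring
    rw [h5] at h4
    obtain ⟨k, hk⟩ := Int.dvd_of_emod_eq_zero h4
    have h6 : k = 0 := by
      by_contra hne
      rcases lt_or_gt_of_ne hne with h | h
      · have : (c.length : ℤ) * k ≤ c.length * (-1) :=
          mul_le_mul_of_nonneg_left (by omega) hL.le
        omega
      · have : (c.length : ℤ) * 1 ≤ c.length * k :=
          mul_le_mul_of_nonneg_left (by omega) hL.le
        omega
    rw [h6, mul_zero] at hk
    omega
  have hfin : {i : ℕ | i + s ≤ (u ++ c ++ v).length ∧ Bad (u ++ c ++ v) s i}.Finite :=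
    (Set.finite_Iic (u ++ c ++ v).length).subset (fun k hk => by
      simp only [Set.mem_ofPred_eq, Set.mem_Iic] at *; omega)
  rw [← Finset.card_image_of_injOn hinj, ← Set.ncard_coe_finset]
  unfold badCard
  apply Set.ncard_le_ncard _ hfin
  intro k hk
  rw [Finset.mem_coe, Finset.mem_image] at hk
  obtain ⟨x, hx, rfl⟩ := hk
  obtain ⟨h1, h2⟩ := hbad x hx
  refine ⟨?_, h2⟩
  have h3 := Int.emod_nonneg (i + x) hL.ne'
  simp only [List.length_append]
  omega

private theorem Co3_window {n s : ℕ} (u c v : List (Fin n × Bool)) (hc : c ≠ []) (k : ℤ)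
    (hk : k % (c.length : ℤ) + s ≤ c.length) :
    win (u ++ c ++ v) s (u.length + (k % (c.length : ℤ)).toNat) = cycWord c hc k s := by
  have hL : (0 : ℤ) < c.length := by exact_mod_cast List.length_pos_iff.2 hc
  have h1 := Int.emod_nonneg k hL.ne'
  rw [← cycWord_eq_win u c v hc _ (by omega)]
  apply cycWord_of_dvd
  rw [Int.toNat_of_nonneg h1]
  have h2 := Int.emod_add_mul_ediv k (c.length : ℤ)
  exact ⟨-(k / c.length), by linarith⟩

private theorem Co3_wrap' (L s m : ℕ) (j : ℤ) (hs : 1 ≤ s) (hL : s ≤ L) (hm : m ≤ L) :
    ((Finset.range m).filter (fun x : ℕ => (L : ℤ) < (j + (m - x : ℕ)) % L + s)).card ≤ s := by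
  suffices key : (Finset.range m).filter (fun x : ℕ => (L : ℤ) < (j + (m - x : ℕ)) % L + s) ⊆
      ((Finset.range m).filter (fun x : ℕ => (L : ℤ) < (j + 1 + x) % L + s)).image
        (fun y : ℕ => m - 1 - y) by
    exact ((Finset.card_le_card key).trans Finset.card_image_le).trans
      (card_wrapping L s m (j + 1) hs hL hm)
  intro x hx
  rw [Finset.mem_filter, Finset.mem_range] at hx
  rw [Finset.mem_image]
  refine ⟨m - 1 - x, ?_, by omega⟩
  rw [Finset.mem_filter, Finset.mem_range]
  refine ⟨by omega, ?_⟩
  have h : j + 1 + ((m - 1 - x : ℕ) : ℤ) = j + ((m - x : ℕ) : ℤ) := by omega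
  rw [h]
  exact hx.2

/-- Small cancellation. Let `B = badCard w s`, `w = u ++ c ++ v` and `l0 = B + 3 * s + 1 ≤ L`,
`L = c.length`. If `cycWord i l0 = cycWord j l0` and `L` does not divide `i - j`: for
`x ≤ l0 - s` the windows of length `s` at `i + x` and `j + x` agree (`win_cycWord`). By
`card_wrapping` for at least `l0 - s + 1 - 2 s > B` of these `x` both residues `p = (i + x) % L`,
`q = (j + x) % L` are `≤ L - s`; they are different, so by `cycWord_eq_win` the window of `w` at
`u.length + p` is bad; different `x` give different `p`, contradiction. If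
`cycWord i l0 = invRev (cycWord j l0)`: the window at `i + x` is `invRev` of the window at
`j + l0 - s - x`; the same count (second alternative of `Bad`). -/
theorem sc_of_bad {n s : ℕ} (u c v : List (Fin n × Bool)) (hc : c ≠ []) (hs : 1 ≤ s)
    (hl0 : badCard (u ++ c ++ v) s + 3 * s + 1 ≤ c.length) :
    SC c hc (badCard (u ++ c ++ v) s + 3 * s + 1) := by
  classical
  set B := badCard (u ++ c ++ v) s with hB
  have hLn : 0 < c.length := List.length_pos_iff.2 hc
  have hL : (0 : ℤ) < c.length := by exact_mod_cast hLn
  intro i j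
  constructor
  · intro he
    by_contra hdvd
    have h1 := card_wrapping c.length s (B + 2 * s + 1) i hs (by omega) (by omega)
    have h2 := card_wrapping c.length s (B + 2 * s + 1) j hs (by omega) (by omega)
    have h3 := Co3_count (s := s) u c v i (B + 2 * s + 1) hLn (by omega)
      ((Finset.range (B + 2 * s + 1)).filter (fun x : ℕ =>
        (i + x) % (c.length : ℤ) + s ≤ c.length ∧ (j + x) % (c.length : ℤ) + s ≤ c.length))
      (Finset.filter_subset _ _) (by
        intro x hx
        rw [Finset.mem_filter, Finset.mem_range] at hx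
        obtain ⟨hxm, hx1, hx2⟩ := hx
        refine ⟨hx1, Or.inl ⟨u.length + ((j + x) % (c.length : ℤ)).toNat, ?_, ?_, ?_⟩⟩
        · intro hEq
          have h4 := Int.emod_nonneg (i + x) hL.ne'
          have h5 := Int.emod_nonneg (j + x) hL.ne'
          have h6 : (i + x) % (c.length : ℤ) = (j + x) % (c.length : ℤ) := by omega
          have h7 := (Int.emod_eq_emod_iff_emod_sub_eq_zero).1 h6
          have h8 : (i + x) - (j + x) = i - j := by ring
          rw [h8] at h7
          exact hdvd (Int.dvd_of_emod_eq_zero h7)
        · have h5 := Int.emod_nonneg (j + x) hL.ne'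
          simp only [List.length_append]
          omega
        · rw [Co3_window u c v hc _ hx2, Co3_window u c v hc _ hx1,
            ← win_cycWord c hc i (B + 3 * s + 1) s x (by omega),
            ← win_cycWord c hc j (B + 3 * s + 1) s x (by omega), he])
    have h4 : Finset.range (B + 2 * s + 1) ⊆
        ((Finset.range (B + 2 * s + 1)).filter (fun x : ℕ =>
          (i + x) % (c.length : ℤ) + s ≤ c.length ∧ (j + x) % (c.length : ℤ) + s ≤ c.length)) ∪
        (((Finset.range (B + 2 * s + 1)).filter
          (fun x : ℕ => (c.length : ℤ) < (i + x) % c.length + s)) ∪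
        ((Finset.range (B + 2 * s + 1)).filter
          (fun x : ℕ => (c.length : ℤ) < (j + x) % c.length + s))) := by
      intro x hx
      simp only [Finset.mem_union, Finset.mem_filter, hx, true_and]
      by_cases h5 : (c.length : ℤ) < (i + x) % c.length + s
      · exact Or.inr (Or.inl h5)
      · by_cases h6 : (c.length : ℤ) < (j + x) % c.length + s
        · exact Or.inr (Or.inr h6)
        · exact Or.inl ⟨not_lt.1 h5, not_lt.1 h6⟩
    have h5 := Finset.card_le_card h4
    rw [Finset.card_range] at h5
    have h6 := h5.trans (Finset.card_union_le _ _)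
    have h7 := Finset.card_union_le ((Finset.range (B + 2 * s + 1)).filter
          (fun x : ℕ => (c.length : ℤ) < (i + x) % c.length + s))
        ((Finset.range (B + 2 * s + 1)).filter
          (fun x : ℕ => (c.length : ℤ) < (j + x) % c.length + s))
    omega
  · intro he
    have h1 := card_wrapping c.length s (B + 2 * s + 1) i hs (by omega) (by omega)
    have h2 := Co3_wrap' c.length s (B + 2 * s + 1) j hs (by omega) (by omega)
    have h3 := Co3_count (s := s) u c v i (B + 2 * s + 1) hLn (by omega)
      ((Finset.range (B + 2 * s + 1)).filter (fun x : ℕ =>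
        (i + x) % (c.length : ℤ) + s ≤ c.length ∧
        (j + ((B + 2 * s + 1 - x : ℕ) : ℤ)) % (c.length : ℤ) + s ≤ c.length))
      (Finset.filter_subset _ _) (by
        intro x hx
        rw [Finset.mem_filter, Finset.mem_range] at hx
        obtain ⟨hxm, hx1, hx2⟩ := hx
        refine ⟨hx1, Or.inr ⟨u.length +
          ((j + ((B + 2 * s + 1 - x : ℕ) : ℤ)) % (c.length : ℤ)).toNat, ?_, ?_⟩⟩
        · have h5 := Int.emod_nonneg (j + ((B + 2 * s + 1 - x : ℕ) : ℤ)) hL.ne'
          simp only [List.length_append]
          omega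
        · rw [Co3_window u c v hc _ hx2, Co3_window u c v hc _ hx1,
            ← win_cycWord c hc i (B + 3 * s + 1) s x (by omega),
            ← win_cycWord c hc j (B + 3 * s + 1) s (B + 2 * s + 1 - x) (by omega), he,
            Co3_win_invRev _ s x (by rw [length_cycWord]; omega), length_cycWord, invRev_invRev]
          congr 1
          omega)
    have h4 : Finset.range (B + 2 * s + 1) ⊆
        ((Finset.range (B + 2 * s + 1)).filter (fun x : ℕ =>
          (i + x) % (c.length : ℤ) + s ≤ c.length ∧
          (j + ((B + 2 * s + 1 - x : ℕ) : ℤ)) % (c.length : ℤ) + s ≤ c.length)) ∪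
        (((Finset.range (B + 2 * s + 1)).filter
          (fun x : ℕ => (c.length : ℤ) < (i + x) % c.length + s)) ∪
        ((Finset.range (B + 2 * s + 1)).filter
          (fun x : ℕ => (c.length : ℤ) < (j + ((B + 2 * s + 1 - x : ℕ) : ℤ)) % c.length + s))) := by
      intro x hx
      simp only [Finset.mem_union, Finset.mem_filter, hx, true_and]
      by_cases h5 : (c.length : ℤ) < (i + x) % c.length + s
      · exact Or.inr (Or.inl h5)
      · by_cases h6 : (c.length : ℤ) < (j + ((B + 2 * s + 1 - x : ℕ) : ℤ)) % c.length + s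
        · exact Or.inr (Or.inr h6)
        · exact Or.inl ⟨not_lt.1 h5, not_lt.1 h6⟩
    have h5 := Finset.card_le_card h4
    rw [Finset.card_range] at h5
    have h6 := h5.trans (Finset.card_union_le _ _)
    have h7 := Finset.card_union_le ((Finset.range (B + 2 * s + 1)).filter
          (fun x : ℕ => (c.length : ℤ) < (i + x) % c.length + s))
        ((Finset.range (B + 2 * s + 1)).filter
          (fun x : ℕ => (c.length : ℤ) < (j + ((B + 2 * s + 1 - x : ℕ) : ℤ)) % c.length + s))
    omega

end Pool.Agent.Helper32.OR
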