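import Pool.Agent.Helper32.OR.Defs

/-!
Reduced words of given length (project OR, MP_d4e3d0_lc).
-/

namespace Pool.Agent.Helper32.OR

open FreeGroup

/-- Reduced words of length `m`. -/
def Red (n m : ℕ) : Set (List (Fin n × Bool)) := {w | w.length = m ∧ IsReduced w}

/-- Lists of given length over a finite alphabet. -/
theorem red_finite (n m : ℕ) : (Red n m).Finite :=
  (List.finite_length_eq (Fin n × Bool) m).subset fun _ hw => hw.1

/-- `FreeGroup.toWord` is a bijection from `{r | r.norm = t}` to `Red n t` (inverse `mk`). -/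
theorem ncard_norm (n t : ℕ) (P : List (Fin n × Bool) → Prop) :
    Set.ncard {r : FreeGroup (Fin n) | r.norm = t ∧ P r.toWord} =
      Set.ncard {w : List (Fin n × Bool) | w ∈ Red n t ∧ P w} := by
  have h : {w : List (Fin n × Bool) | w ∈ Red n t ∧ P w} =
      FreeGroup.toWord '' {r : FreeGroup (Fin n) | r.norm = t ∧ P r.toWord} := by
    ext w
    constructor
    · rintro ⟨⟨h1, h2⟩, h3⟩
      have h4 : (FreeGroup.mk w).toWord = w := by
        rw [toWord_mk]
        exact h2.reduce_eq
      refine ⟨FreeGroup.mk w, ⟨?_, ?_⟩, h4⟩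
      · show (FreeGroup.mk w).toWord.length = t
        rw [h4]
        exact h1
      · rw [h4]
        exact h3
    · rintro ⟨r, ⟨h1, h2⟩, rfl⟩
      exact ⟨⟨h1, isReduced_toWord⟩, h2⟩
  rw [h, Set.ncard_image_of_injective _ toWord_injective]

end Pool.Agent.Helper32.OR
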