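import Pool.Agent.Helper32.OR.Ct1

/-!
Extension of reduced words (project OR, MP_d4e3d0_lc).
-/

namespace Pool.Agent.Helper32.OR

open FreeGroup

private theorem Ct2_append {n : ℕ} (w : List (Fin n × Bool)) (hw : w ≠ []) (a : Fin n × Bool) :
    IsReduced (w ++ [a]) ↔ IsReduced w ∧ a ≠ ((w.getLast hw).1, !(w.getLast hw).2) := by
  unfold FreeGroup.IsReduced
  rw [List.isChain_append]
  have h1 : w.getLast? = some (w.getLast hw) := List.getLast?_eq_some_getLast hw
  rw [h1]
  obtain ⟨x, b⟩ := w.getLast hw
  obtain ⟨y, c⟩ := a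
  simp only [List.isChain_singleton, Option.mem_def, Option.some.injEq, List.head?_cons,
    true_and, forall_eq', ne_eq, Prod.mk.injEq, not_and]
  constructor
  · rintro ⟨h, h2⟩
    refine ⟨h, fun h3 => ?_⟩
    have := h2 h3.symm
    cases b <;> cases c <;> simp_all
  · rintro ⟨h, h2⟩
    refine ⟨h, fun h3 => ?_⟩
    have := h2 h3.symm
    cases b <;> cases c <;> simp_all

private theorem Ct2_fin (n m k : ℕ) (A : Set (List (Fin n × Bool))) :
    {w : List (Fin n × Bool) | w ∈ Red n (m + k) ∧ w.take m ∈ A}.Finite :=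
  (red_finite n (m + k)).subset (fun _ h => h.1)

private theorem Ct2_step (n m k : ℕ) (hn : 1 ≤ n) (hm : 1 ≤ m) (A : Set (List (Fin n × Bool))) :
    Set.ncard {w : List (Fin n × Bool) | w ∈ Red n (m + (k + 1)) ∧ w.take m ∈ A} =
      Set.ncard {w : List (Fin n × Bool) | w ∈ Red n (m + k) ∧ w.take m ∈ A} * (2 * n - 1) := by
  classical
  rw [Set.ncard_eq_toFinset_card _ (Ct2_fin n m (k + 1) A),
    Set.ncard_eq_toFinset_card _ (Ct2_fin n m k A)]
  rw [Finset.card_eq_sum_card_fiberwise (f := fun w : List (Fin n × Bool) => w.dropLast)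
    (t := (Ct2_fin n m k A).toFinset)]
  · rw [Finset.sum_const_nat (m := 2 * n - 1)]
    intro w hw
    rw [Set.Finite.mem_toFinset] at hw
    obtain ⟨⟨hl, hr⟩, ht⟩ := hw
    have hw0 : w ≠ [] := by
      rintro rfl
      simp at hl
      omega
    have hE : ((Ct2_fin n m (k + 1) A).toFinset.filter
        (fun v : List (Fin n × Bool) => v.dropLast = w)) =
        (Finset.univ.erase ((w.getLast hw0).1, !(w.getLast hw0).2)).image
          (fun a => w ++ [a]) := by
      ext v
      simp only [Finset.mem_filter, Set.Finite.mem_toFinset, Set.mem_ofPred_eq, Finset.mem_image,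
        Finset.mem_erase, Finset.mem_univ, and_true]
      constructor
      · rintro ⟨⟨⟨hvl, hvr⟩, _⟩, hd⟩
        have hv0 : v ≠ [] := by
          rintro rfl
          simp at hvl
        refine ⟨v.getLast hv0, ?_, ?_⟩
        · have : v = w ++ [v.getLast hv0] := by
            rw [← hd, List.dropLast_append_getLast hv0]
          rw [this] at hvr
          exact ((Ct2_append w hw0 _).1 hvr).2
        · rw [← hd, List.dropLast_append_getLast hv0]
      · rintro ⟨a, ha, rfl⟩
        refine ⟨⟨⟨?_, (Ct2_append w hw0 a).2 ⟨hr, ha⟩⟩, ?_⟩, ?_⟩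
        · simp [hl]
          omega
        · rw [List.take_append_of_le_length (by omega)]
          exact ht
        · simp
    rw [hE, Finset.card_image_of_injective _ (fun a b h => by simpa using h),
      Finset.card_erase_of_mem (Finset.mem_univ _)]
    simp [Fintype.card_prod]
    omega
  · intro v hv
    simp only [Set.Finite.coe_toFinset, Set.mem_ofPred_eq] at hv ⊢
    obtain ⟨⟨hvl, hvr⟩, hvt⟩ := hv
    refine ⟨⟨?_, ?_⟩, ?_⟩
    · simp [hvl]
    · have hv0 : v ≠ [] := by
        rintro rfl
        simp at hvl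
      have h1 : v.dropLast ++ [v.getLast hv0] = v := List.dropLast_append_getLast hv0
      unfold FreeGroup.IsReduced at hvr ⊢
      rw [← h1, List.isChain_append] at hvr
      exact hvr.1
    · rw [List.dropLast_eq_take, List.take_take, min_eq_left (by omega)]
      exact hvt

/-- Extension of reduced words: a reduced word of length `m ≥ 1` has exactly `2 n - 1` reduced
extensions by one letter (`w ++ [a]` is reduced iff `a ≠ (x, !b)` where `(x, b)` is the last letter
of `w`). Induction on `k`: the map `w ↦ (w.take (m + k), last letter)`. -/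
theorem ncard_take (n m k : ℕ) (hn : 1 ≤ n) (hm : 1 ≤ m) (A : Set (List (Fin n × Bool)))
    (hA : A ⊆ Red n m) :
    Set.ncard {w : List (Fin n × Bool) | w ∈ Red n (m + k) ∧ w.take m ∈ A} =
      Set.ncard A * (2 * n - 1) ^ k := by
  induction k with
  | zero =>
    have : {w : List (Fin n × Bool) | w ∈ Red n (m + 0) ∧ w.take m ∈ A} = A := by
      ext w
      simp only [Set.mem_ofPred_eq, add_zero]
      constructor
      · rintro ⟨h1, h2⟩
        rwa [List.take_of_length_le (by rw [h1.1])] at h2
      · intro h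
        refine ⟨hA h, ?_⟩
        rwa [List.take_of_length_le (by rw [(hA h).1])]
    rw [this, pow_zero, mul_one]
  | succ k ih =>
    rw [Ct2_step n m k hn hm A, ih, pow_succ, mul_assoc]

/-- `ncard_take` with `A = Red n m`. -/
theorem ncard_red_add (n m k : ℕ) (hn : 1 ≤ n) (hm : 1 ≤ m) :
    Set.ncard (Red n (m + k)) = Set.ncard (Red n m) * (2 * n - 1) ^ k := by
  rw [← ncard_take n m k hn hm (Red n m) subset_rfl]
  congr 1
  ext w
  simp only [Set.mem_ofPred_eq]
  constructor
  · intro h
    refine ⟨h, ?_, ?_⟩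
    · rw [List.length_take, h.1]
      omega
    · have h2 := h.2
      unfold FreeGroup.IsReduced at h2 ⊢
      rw [← List.take_append_drop m w, List.isChain_append] at h2
      exact h2.1
  · exact fun h => h.1

theorem ncard_red_pos (n m : ℕ) (hn : 1 ≤ n) : 0 < Set.ncard (Red n m) := by
  rw [Set.ncard_pos (red_finite n m)]
  refine ⟨List.replicate m ((⟨0, hn⟩ : Fin n), true), List.length_replicate, ?_⟩
  unfold FreeGroup.IsReduced
  exact List.isChain_replicate_of_rel m (fun _ => rfl)

end Pool.Agent.Helper32.OR
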