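import Pool.Agent.Helper32.OR.Ct2

/-!
Words with two equal windows (project OR, MP_d4e3d0_lc).
-/

namespace Pool.Agent.Helper32.OR

open FreeGroup

/-- Let `A` be the set of `v ∈ Red n (j + s)` with `win v s j = win v s i`. `w ∈ Red n t` has equal
windows iff `w.take (j + s) ∈ A`. The map `v ↦ v.take j` from `A` to `Red n j` is injective (strong
induction on `x < s`: the letter at `j + x` is the letter at `i + x`, and `i + x < j + x`). So
`A.ncard ≤ (Red n j).ncard`, and `ncard_take`, `ncard_red_add` give the claim. Here `j ≥ 1`. -/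
theorem equal_windows (n t s i j : ℕ) (hn : 1 ≤ n) (hij : i < j) (hj : j + s ≤ t) :
    Set.ncard {w : List (Fin n × Bool) | w ∈ Red n t ∧ win w s j = win w s i} *
      (2 * n - 1) ^ s ≤ Set.ncard (Red n t) := by
  obtain ⟨k, rfl⟩ := Nat.exists_eq_add_of_le hj
  set A : Set (List (Fin n × Bool)) := {v | v ∈ Red n (j + s) ∧ win v s j = win v s i} with hA
  have hAs : A ⊆ Red n (j + s) := fun v hv => hv.1
  have hwin : ∀ (w : List (Fin n × Bool)) (a y : ℕ), y < s → (win w s a)[y]? = w[a + y]? := by
    intro w a y hy
    rw [win, List.getElem?_take, if_pos hy, List.getElem?_drop]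
  have hwin2 : ∀ (w : List (Fin n × Bool)) (a y : ℕ), ¬ y < s → (win w s a)[y]? = none := by
    intro w a y hy
    rw [win, List.getElem?_take, if_neg hy]
  -- windows of a beginning
  have htk : ∀ (w : List (Fin n × Bool)) (a : ℕ), a ≤ j → win (w.take (j + s)) s a = win w s a := by
    intro w a ha
    apply List.ext_getElem?
    intro y
    by_cases hy : y < s
    · rw [hwin _ _ _ hy, hwin _ _ _ hy, List.getElem?_take, if_pos (by omega)]
    · rw [hwin2 _ _ _ hy, hwin2 _ _ _ hy]
  have h1 : Set.ncard {w : List (Fin n × Bool) | w ∈ Red n (j + s + k) ∧ win w s j = win w s i} ≤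
      Set.ncard A * (2 * n - 1) ^ k := by
    rw [← ncard_take n (j + s) k hn (by omega) A hAs]
    apply Set.ncard_le_ncard _ ((red_finite n (j + s + k)).subset fun w hw => hw.1)
    rintro w ⟨hw1, hw2⟩
    refine ⟨hw1, ⟨?_, ?_⟩, ?_⟩
    · rw [List.length_take, hw1.1]
      omega
    · exact List.IsChain.take hw1.2 _
    · rw [htk w j le_rfl, htk w i hij.le, hw2]
  have h2 : Set.ncard A ≤ Set.ncard (Red n j) := by
    refine Set.ncard_le_ncard_of_injOn (fun v => v.take j) ?_ ?_ (red_finite n j)
    · rintro v ⟨hv1, -⟩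
      refine ⟨?_, List.IsChain.take hv1.2 _⟩
      rw [List.length_take, hv1.1]
      omega
    · rintro v ⟨hv1, hv2⟩ v' ⟨hv1', hv2'⟩ hvv
      have hvv' : v.take j = v'.take j := hvv
      apply List.ext_getElem?
      intro x
      induction x using Nat.strong_induction_on with
      | _ x ih =>
        rcases lt_or_ge x j with hx | hx
        · have h := congrArg (fun l => l[x]?) hvv'
          simp only [List.getElem?_take, if_pos hx] at h
          exact h
        · obtain ⟨y, rfl⟩ := Nat.exists_eq_add_of_le hx
          by_cases hy : y < s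
          · rw [← hwin v j y hy, ← hwin v' j y hy, hv2, hv2', hwin v i y hy, hwin v' i y hy]
            exact ih (i + y) (by omega)
          · rw [List.getElem?_eq_none (by rw [hv1.1]; omega), List.getElem?_eq_none (by rw [hv1'.1]; omega)]
  calc Set.ncard {w : List (Fin n × Bool) | w ∈ Red n (j + s + k) ∧ win w s j = win w s i} *
        (2 * n - 1) ^ s ≤ (Set.ncard (Red n j) * (2 * n - 1) ^ k) * (2 * n - 1) ^ s :=
        Nat.mul_le_mul_right _ (h1.trans (Nat.mul_le_mul_right _ h2))
    _ = Set.ncard (Red n (j + s + k)) := by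
        rw [ncard_red_add n (j + s) k hn (by omega), ncard_red_add n j s hn (by omega)]
        ring

end Pool.Agent.Helper32.OR
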