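import Pool.Agent.Helper32.OR.Ct2

/-!
Words with two inverse windows (project OR, MP_d4e3d0_lc).
-/

namespace Pool.Agent.Helper32.OR

open FreeGroup

private theorem inverse_windows_take {n : ℕ} (w : List (Fin n × Bool)) (s i m : ℕ)
    (h : i + s ≤ m) : win (w.take m) s i = win w s i := by
  unfold win
  rw [List.drop_take, List.take_take]
  congr 1
  omega

private theorem inverse_windows_reduced_take {n : ℕ} {w : List (Fin n × Bool)} (m : ℕ)
    (h : IsReduced w) : IsReduced (w.take m) := by
  have h1 : IsReduced (w.take m ++ w.drop m) := by rw [List.take_append_drop]; exact h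
  unfold FreeGroup.IsReduced at h1 ⊢
  exact (List.isChain_append.1 h1).1

private theorem inverse_windows_card (n s i j : ℕ) (hij : i + s ≤ j) :
    Set.ncard {v : List (Fin n × Bool) | v ∈ Red n (j + s) ∧ win v s j = invRev (win v s i)} ≤
      Set.ncard (Red n j) := by
  refine Set.ncard_le_ncard_of_injOn (fun v => v.take j) ?_ ?_ (red_finite n j)
  · intro v hv
    obtain ⟨⟨h1, h2⟩, -⟩ := hv
    refine ⟨?_, inverse_windows_reduced_take j h2⟩
    simp only [List.length_take, h1]
    omega
  · intro v hv w hw hvw
    obtain ⟨⟨h1, h2⟩, h3⟩ := hv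
    obtain ⟨⟨k1, k2⟩, k3⟩ := hw
    have hvw' : v.take j = w.take j := hvw
    have e1 : v.drop j = win v s j := by
      unfold win
      rw [List.take_of_length_le]
      simp [h1]
    have e2 : w.drop j = win w s j := by
      unfold win
      rw [List.take_of_length_le]
      simp [k1]
    have e3 : win v s i = win w s i := by
      rw [← inverse_windows_take v s i j hij, ← inverse_windows_take w s i j hij, hvw']
    rw [← List.take_append_drop j v, ← List.take_append_drop j w, e1, e2, h3, k3, e3, hvw']

/-- The same with `invRev`; now the letters at `j + x` are determined by letters at places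
`< i + s ≤ j`. -/
theorem inverse_windows (n t s i j : ℕ) (hn : 1 ≤ n) (hs : 1 ≤ s) (hij : i + s ≤ j)
    (hj : j + s ≤ t) :
    Set.ncard {w : List (Fin n × Bool) | w ∈ Red n t ∧ win w s j = invRev (win w s i)} *
      (2 * n - 1) ^ s ≤ Set.ncard (Red n t) := by
  obtain ⟨k, rfl⟩ : ∃ k, t = (j + s) + k := ⟨t - (j + s), by omega⟩
  have h1 := ncard_take n (j + s) k hn (by omega)
    {v : List (Fin n × Bool) | v ∈ Red n (j + s) ∧ win v s j = invRev (win v s i)}
    (fun v hv => hv.1)
  have h2 : {w : List (Fin n × Bool) | w ∈ Red n (j + s + k) ∧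
      win w s j = invRev (win w s i)} = {w : List (Fin n × Bool) | w ∈ Red n (j + s + k) ∧
      w.take (j + s) ∈ {v : List (Fin n × Bool) | v ∈ Red n (j + s) ∧
        win v s j = invRev (win v s i)}} := by
    ext w
    simp only [Set.mem_ofPred_eq]
    constructor
    · rintro ⟨hw, h⟩
      refine ⟨hw, ⟨?_, inverse_windows_reduced_take _ hw.2⟩, ?_⟩
      · simp only [List.length_take, hw.1]
        omega
      · rw [inverse_windows_take w s j (j + s) le_rfl,
          inverse_windows_take w s i (j + s) (by omega)]
        exact h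
    · rintro ⟨hw, -, h⟩
      refine ⟨hw, ?_⟩
      rw [inverse_windows_take w s j (j + s) le_rfl,
          inverse_windows_take w s i (j + s) (by omega)] at h
      exact h
  have h3 := ncard_red_add n j (s + k) hn (by omega)
  have h4 := inverse_windows_card n s i j hij
  rw [h2, h1, show j + s + k = j + (s + k) by ring, h3, pow_add, mul_assoc]
  calc _ ≤ Set.ncard (Red n j) * ((2 * n - 1) ^ k * (2 * n - 1) ^ s) :=
        Nat.mul_le_mul_right _ h4
    _ = _ := by ring

end Pool.Agent.Helper32.OR
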