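import Pool.Agent.Helper32.OR.Defs

/-!
Overlapping windows are not inverse (project OR, MP_d4e3d0_lc).
-/

namespace Pool.Agent.Helper32.OR

open FreeGroup

private theorem Ct5_getElem_invRev {n : ℕ} (v : List (Fin n × Bool)) (x : ℕ)
    (hx : x < v.length) (hx' : x < (invRev v).length) :
    (invRev v)[x] = (v[v.length - 1 - x].1, !v[v.length - 1 - x].2) := by
  unfold invRev
  simp

/-- Overlapping windows of a reduced word are never inverse to each other. Let `i ≤ j < i + s`
(the other case is the same since `invRev` is an involution). The letters satisfy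
`w[j + x] = flip w[i + s - 1 - x]` for `x < s`, so `w[a] = flip w[b]` whenever `a + b = i + j + s - 1`
and both are in the union `[i, j + s)` of the windows with `a ∈ [j, j + s)`, `b ∈ [i, i + s)`.
If `i + j + s - 1 = 2 a` is even then `j ≤ a < i + s` and `w[a] = flip w[a]`, impossible; if it is
`2 a + 1` then `w[a + 1] = flip w[a]`, impossible because `w` is reduced. -/
theorem no_overlap_inverse {n : ℕ} (w : List (Fin n × Bool)) (hw : IsReduced w) (s i j : ℕ)
    (hs : 1 ≤ s) (hi : i + s ≤ w.length) (hj : j + s ≤ w.length) (h1 : i < j + s)
    (h2 : j < i + s) : win w s j ≠ invRev (win w s i) := by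
  intro h
  have hli : (win w s i).length = s := by simp [win]; omega
  have hlj : (win w s j).length = s := by simp [win]; omega
  have key : ∀ x, (hx : x < s) → w[j + x] =
      (w[i + (s - 1 - x)].1, !w[i + (s - 1 - x)].2) := by
    intro x hx
    have e1 : (win w s j)[x]'(by omega) = w[j + x] := by
      simp [win]
    have e2 : ∀ y, (hy : y < s) → (win w s i)[y]'(by omega) = w[i + y] := by
      intro y hy
      simp [win]
    have e3 := Ct5_getElem_invRev (win w s i) x (by omega) (by simp; omega)
    have e4 : (win w s j)[x]'(by omega) = (invRev (win w s i))[x]'(by simp; omega) := by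
      simp only [h]
    rw [← e1, e4, e3]
    simp only [hli]
    rw [e2 (s - 1 - x) (by omega)]
  have hch := List.isChain_iff_getElem.1 hw
  rcases Nat.even_or_odd' (i + j + s - 1) with ⟨a, ha | ha⟩
  · have hx := key (a - j) (by omega)
    have e1 : j + (a - j) = a := by omega
    have e2 : i + (s - 1 - (a - j)) = a := by omega
    simp only [e1, e2] at hx
    have := congrArg Prod.snd hx
    simp at this
  · have hx := key (a + 1 - j) (by omega)
    have e1 : j + (a + 1 - j) = a + 1 := by omega
    have e2 : i + (s - 1 - (a + 1 - j)) = a := by omega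
    simp only [e1, e2] at hx
    have hc := hch a (by omega)
    have h3 := congrArg Prod.fst hx
    have h4 := congrArg Prod.snd hx
    simp only at h3 h4
    have h5 := hc h3.symm
    rw [h4] at h5
    simp at h5

end Pool.Agent.Helper32.OR
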