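import Pool.Agent.Helper32.OR.Ct3
import Pool.Agent.Helper32.OR.Ct4
import Pool.Agent.Helper32.OR.Ct5

/-!
First moment of the number of bad windows (project OR, MP_d4e3d0_lc).
-/

namespace Pool.Agent.Helper32.OR

open FreeGroup

/-- The pair of places `q` is equal or inverse. -/
private def Ct6_P {n : ℕ} (t s : ℕ) (w : List (Fin n × Bool)) (q : ℕ × ℕ) : Prop :=
  q.1 + s ≤ t ∧ q.2 + s ≤ t ∧
    ((q.2 ≠ q.1 ∧ win w s q.2 = win w s q.1) ∨ win w s q.2 = invRev (win w s q.1))

open Classical in
private theorem Ct6_bad {n : ℕ} (t s : ℕ) (hs : 1 ≤ s) (w : List (Fin n × Bool))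
    (hw : w.length = t) :
    badCard w s ≤ ((Finset.range t ×ˢ Finset.range t).filter (Ct6_P t s w)).card := by
  have h1 : {i : ℕ | i + s ≤ w.length ∧ Bad w s i} ⊆
      (((Finset.range t ×ˢ Finset.range t).filter (Ct6_P t s w)).image Prod.fst : Finset ℕ) := by
    rintro i ⟨hi, hb⟩
    rw [hw] at hi
    rw [Finset.coe_image]
    rcases hb with ⟨j, hji, hj, he⟩ | ⟨j, hj, he⟩
    · rw [hw] at hj
      refine ⟨(i, j), ?_, rfl⟩
      rw [Finset.mem_coe, Finset.mem_filter, Finset.mem_product, Finset.mem_range,
        Finset.mem_range]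
      exact ⟨⟨by dsimp only; omega, by dsimp only; omega⟩, hi, hj, Or.inl ⟨hji, he⟩⟩
    · rw [hw] at hj
      refine ⟨(i, j), ?_, rfl⟩
      rw [Finset.mem_coe, Finset.mem_filter, Finset.mem_product, Finset.mem_range,
        Finset.mem_range]
      exact ⟨⟨by dsimp only; omega, by dsimp only; omega⟩, hi, hj, Or.inr he⟩
  unfold badCard
  calc _ ≤ Set.ncard (((((Finset.range t ×ˢ Finset.range t).filter (Ct6_P t s w)).image
        Prod.fst : Finset ℕ)) : Set ℕ) := Set.ncard_le_ncard h1 (Finset.finite_toSet _)
    _ = (((Finset.range t ×ˢ Finset.range t).filter (Ct6_P t s w)).image Prod.fst).card :=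
        Set.ncard_coe_finset _
    _ ≤ _ := Finset.card_image_le

private theorem Ct6_equal (n t s i j : ℕ) (hn : 1 ≤ n) (hi : i + s ≤ t) (hj : j + s ≤ t)
    (hij : j ≠ i) :
    Set.ncard {w : List (Fin n × Bool) | w ∈ Red n t ∧ win w s j = win w s i} *
      (2 * n - 1) ^ s ≤ Set.ncard (Red n t) := by
  rcases Nat.lt_or_gt_of_ne hij with h | h
  · have h1 := equal_windows n t s j i hn h hi
    have h2 : {w : List (Fin n × Bool) | w ∈ Red n t ∧ win w s j = win w s i} =
        {w : List (Fin n × Bool) | w ∈ Red n t ∧ win w s i = win w s j} := by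
      ext w
      exact and_congr_right fun _ => eq_comm
    rw [h2]
    exact h1
  · exact equal_windows n t s i j hn h hj

private theorem Ct6_inverse (n t s i j : ℕ) (hn : 1 ≤ n) (hs : 1 ≤ s) (hi : i + s ≤ t)
    (hj : j + s ≤ t) :
    Set.ncard {w : List (Fin n × Bool) | w ∈ Red n t ∧ win w s j = invRev (win w s i)} *
      (2 * n - 1) ^ s ≤ Set.ncard (Red n t) := by
  by_cases h1 : i + s ≤ j
  · exact inverse_windows n t s i j hn hs h1 hj
  · by_cases h2 : j + s ≤ i
    · have h3 := inverse_windows n t s j i hn hs h2 hi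
      have h4 : {w : List (Fin n × Bool) | w ∈ Red n t ∧ win w s j = invRev (win w s i)} =
          {w : List (Fin n × Bool) | w ∈ Red n t ∧ win w s i = invRev (win w s j)} := by
        ext w
        refine and_congr_right fun _ => ?_
        constructor
        · intro h
          rw [h, invRev_invRev]
        · intro h
          rw [h, invRev_invRev]
      rw [h4]
      exact h3
    · have h3 : {w : List (Fin n × Bool) | w ∈ Red n t ∧ win w s j = invRev (win w s i)} = ∅ := by
        ext w
        simp only [Set.mem_ofPred_eq, Set.mem_empty_iff_false, iff_false, not_and]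
        intro hw
        exact no_overlap_inverse w hw.2 s i j hs (by rw [hw.1]; exact hi) (by rw [hw.1]; exact hj)
          (by omega) (by omega)
      rw [h3, Set.ncard_empty, zero_mul]
      exact Nat.zero_le _

open Classical in
private theorem Ct6_pair (n t s : ℕ) (hn : 1 ≤ n) (hs : 1 ≤ s) (q : ℕ × ℕ) :
    ((red_finite n t).toFinset.filter (fun w => Ct6_P t s w q)).card * (2 * n - 1) ^ s ≤
      2 * Set.ncard (Red n t) := by
  obtain ⟨i, j⟩ := q
  by_cases hi : i + s ≤ t
  · by_cases hj : j + s ≤ t
    · have h0 : (((red_finite n t).toFinset.filter (fun w => Ct6_P t s w (i, j)) :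
          Finset (List (Fin n × Bool))) : Set (List (Fin n × Bool))) ⊆
          {w : List (Fin n × Bool) | w ∈ Red n t ∧ (j ≠ i ∧ win w s j = win w s i)} ∪
          {w : List (Fin n × Bool) | w ∈ Red n t ∧ win w s j = invRev (win w s i)} := by
        intro w hw
        rw [Finset.mem_coe, Finset.mem_filter, Set.Finite.mem_toFinset] at hw
        obtain ⟨hw1, -, -, h⟩ := hw
        rcases h with h | h
        · exact Or.inl ⟨hw1, h⟩
        · exact Or.inr ⟨hw1, h⟩
      have hfin1 : {w : List (Fin n × Bool) | w ∈ Red n t ∧ (j ≠ i ∧ win w s j = win w s i)}.Finite :=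
        (red_finite n t).subset fun _ h => h.1
      have hfin2 : {w : List (Fin n × Bool) | w ∈ Red n t ∧ win w s j = invRev (win w s i)}.Finite :=
        (red_finite n t).subset fun _ h => h.1
      have h1 : ((red_finite n t).toFinset.filter (fun w => Ct6_P t s w (i, j))).card ≤
          Set.ncard {w : List (Fin n × Bool) | w ∈ Red n t ∧ (j ≠ i ∧ win w s j = win w s i)} +
          Set.ncard {w : List (Fin n × Bool) | w ∈ Red n t ∧ win w s j = invRev (win w s i)} := by
        rw [← Set.ncard_coe_finset]
        exact (Set.ncard_le_ncard h0 (hfin1.union hfin2)).trans (Set.ncard_union_le _ _)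
      have h2 : Set.ncard {w : List (Fin n × Bool) | w ∈ Red n t ∧
          (j ≠ i ∧ win w s j = win w s i)} * (2 * n - 1) ^ s ≤ Set.ncard (Red n t) := by
        by_cases hji : j = i
        · have : {w : List (Fin n × Bool) | w ∈ Red n t ∧ (j ≠ i ∧ win w s j = win w s i)} = ∅ := by
            ext w
            simp [hji]
          rw [this, Set.ncard_empty, zero_mul]
          exact Nat.zero_le _
        · have : {w : List (Fin n × Bool) | w ∈ Red n t ∧ (j ≠ i ∧ win w s j = win w s i)} =
              {w : List (Fin n × Bool) | w ∈ Red n t ∧ win w s j = win w s i} := by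
            ext w
            simp [hji]
          rw [this]
          exact Ct6_equal n t s i j hn hi hj hji
      have h3 := Ct6_inverse n t s i j hn hs hi hj
      calc _ ≤ (Set.ncard {w : List (Fin n × Bool) | w ∈ Red n t ∧ (j ≠ i ∧ win w s j = win w s i)} +
          Set.ncard {w : List (Fin n × Bool) | w ∈ Red n t ∧ win w s j = invRev (win w s i)}) *
          (2 * n - 1) ^ s := Nat.mul_le_mul_right _ h1
        _ ≤ 2 * Set.ncard (Red n t) := by
          rw [add_mul]
          omega
    · have h0 : (red_finite n t).toFinset.filter (fun w => Ct6_P t s w (i, j)) = ∅ := by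
        rw [Finset.filter_eq_empty_iff]
        intro w _ h
        exact hj h.2.1
      rw [h0, Finset.card_empty, zero_mul]
      exact Nat.zero_le _
  · have h0 : (red_finite n t).toFinset.filter (fun w => Ct6_P t s w (i, j)) = ∅ := by
      rw [Finset.filter_eq_empty_iff]
      intro w _ h
      exact hi h.1
    rw [h0, Finset.card_empty, zero_mul]
    exact Nat.zero_le _

/-- First moment: `badCard w s` is at most the number of pairs `(i, j)`, `i ≠ j`, of places `≤ t - s`
with equal windows plus the number of pairs with inverse windows (these are disjoint by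
`no_overlap_inverse`); sum over `w`, exchange the sums, `equal_windows`, `inverse_windows`
(symmetric in `i, j`), at most `t ^ 2` pairs of each kind. -/
theorem sum_badCard (n t s : ℕ) (hn : 1 ≤ n) (hs : 1 ≤ s) :
    (∑ w ∈ (red_finite n t).toFinset, badCard w s) * (2 * n - 1) ^ s ≤
      2 * t ^ 2 * Set.ncard (Red n t) := by
  classical
  have h1 : ∑ w ∈ (red_finite n t).toFinset, badCard w s ≤
      ∑ w ∈ (red_finite n t).toFinset,
        ((Finset.range t ×ˢ Finset.range t).filter (Ct6_P t s w)).card := by
    apply Finset.sum_le_sum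
    intro w hw
    rw [Set.Finite.mem_toFinset] at hw
    exact Ct6_bad t s hs w hw.1
  have h2 : ∑ w ∈ (red_finite n t).toFinset,
        ((Finset.range t ×ˢ Finset.range t).filter (Ct6_P t s w)).card =
      ∑ q ∈ Finset.range t ×ˢ Finset.range t,
        ((red_finite n t).toFinset.filter (fun w => Ct6_P t s w q)).card := by
    simp only [Finset.card_filter]
    exact Finset.sum_comm
  calc _ ≤ (∑ q ∈ Finset.range t ×ˢ Finset.range t,
        ((red_finite n t).toFinset.filter (fun w => Ct6_P t s w q)).card) * (2 * n - 1) ^ s :=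
        Nat.mul_le_mul_right _ (h1.trans h2.le)
    _ = ∑ q ∈ Finset.range t ×ˢ Finset.range t,
        ((red_finite n t).toFinset.filter (fun w => Ct6_P t s w q)).card * (2 * n - 1) ^ s :=
        Finset.sum_mul _ _ _
    _ ≤ ∑ q ∈ Finset.range t ×ˢ Finset.range t, 2 * Set.ncard (Red n t) :=
        Finset.sum_le_sum fun q _ => Ct6_pair n t s hn hs q
    _ = 2 * t ^ 2 * Set.ncard (Red n t) := by
        rw [Finset.sum_const, Finset.card_product, Finset.card_range, smul_eq_mul]
        ring

end Pool.Agent.Helper32.OR
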