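import Pool.Agent.Helper32.OR.Ct6

/-!
Markov's inequality (project OR, MP_d4e3d0_lc).
-/

namespace Pool.Agent.Helper32.OR

open FreeGroup

/-- Markov's inequality for `sum_badCard`. -/
theorem markov_badCard (n t s K : ℕ) (hn : 1 ≤ n) (hs : 1 ≤ s) (ht : 1 ≤ t) :
    Set.ncard {w : List (Fin n × Bool) | w ∈ Red n t ∧ t < K * badCard w s} * (2 * n - 1) ^ s ≤
      2 * K * t * Set.ncard (Red n t) := by
  classical
  set B : ℕ := (2 * n - 1) ^ s with hB
  set R : Finset (List (Fin n × Bool)) := (red_finite n t).toFinset with hR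
  have hset : {w : List (Fin n × Bool) | w ∈ Red n t ∧ t < K * badCard w s} =
      ((R.filter (fun w => t < K * badCard w s) : Finset (List (Fin n × Bool))) :
        Set (List (Fin n × Bool))) := by
    ext w
    rw [Finset.mem_coe, Finset.mem_filter, hR, Set.Finite.mem_toFinset]
    exact Iff.rfl
  rw [hset, Set.ncard_coe_finset]
  set F : Finset (List (Fin n × Bool)) := R.filter (fun w => t < K * badCard w s) with hF
  have h1 : F.card * t ≤ K * ∑ w ∈ R, badCard w s := by
    calc F.card * t = ∑ _w ∈ F, t := by rw [Finset.sum_const, smul_eq_mul]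
      _ ≤ ∑ w ∈ F, K * badCard w s := by
        refine Finset.sum_le_sum fun w hw => ?_
        rw [hF, Finset.mem_filter] at hw
        exact hw.2.le
      _ ≤ ∑ w ∈ R, K * badCard w s :=
        Finset.sum_le_sum_of_subset (Finset.filter_subset _ _)
      _ = K * ∑ w ∈ R, badCard w s := by rw [Finset.mul_sum]
  have h2 := sum_badCard n t s hn hs
  rw [← hR, ← hB] at h2
  have h3 : t * (F.card * B) ≤ t * (2 * K * t * Set.ncard (Red n t)) := by
    calc t * (F.card * B) = (F.card * t) * B := by ring
      _ ≤ (K * ∑ w ∈ R, badCard w s) * B := Nat.mul_le_mul_right _ h1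
      _ = K * ((∑ w ∈ R, badCard w s) * B) := by ring
      _ ≤ K * (2 * t ^ 2 * Set.ncard (Red n t)) := Nat.mul_le_mul_left _ h2
      _ = t * (2 * K * t * Set.ncard (Red n t)) := by ring
  exact Nat.le_of_mul_le_mul_left h3 ht

end Pool.Agent.Helper32.OR
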