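import Pool.Agent.Helper32.OR.Rg2

/-!
Generators of the group of a graph relative to a subgraph (project OR, MP_d4e3d0_lc).
-/

namespace Pool.Agent.Helper32.OR

open Pool.Agent.Helper22.OR Pool.Agent.Helper22.OR.Gr

variable {α : Type} {G : Type} [Group G]

theorem Rg3_exit {f : α → G} {Γ : Gr α} (W : Finset Γ.V) {u v : Γ.V} {g : G}
    (hP : Γ.P f u v g) (hu : u ∈ W) (hv : v ∉ W) : ∃ d : Γ.D, Γ.st d ∈ W ∧ Γ.en d ∉ W := by
  induction hP with
  | refl v => exact absurd hu hv
  | fwd e _ ih =>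
    by_cases h : Γ.tgt e ∈ W
    · exact ih h hv
    · exact ⟨(e, true), hu, h⟩
  | bwd e _ ih =>
    by_cases h : Γ.src e ∈ W
    · exact ih h hv
    · exact ⟨(e, false), hu, h⟩

theorem Rg3_aux (f : α → G) (Γ : Gr α) (hΓ : ∀ v, ∃ g, Γ.P f Γ.base v g) (n : ℕ) :
    ∀ (D : Finset Γ.E) (W : Finset Γ.V) (h : IsSub Γ D W), Fintype.card Γ.V = n + W.card →
    (∀ v, ∃ g, (cutG Γ D W h).P f (cutG Γ D W h).base v g) →
    ∃ (m : ℕ) (g : Fin m → G), Γ.im f = (cutG Γ D W h).im f ⊔ Subgroup.closure (Set.range g) ∧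
      m + D.card + Fintype.card Γ.V = Fintype.card Γ.E + W.card := by
  induction n with
  | zero =>
    intro D W h hn hc
    have hW : W = Finset.univ := by
      rw [← Finset.card_eq_iff_eq_univ]
      omega
    subst hW
    obtain ⟨m, g, h1, h2⟩ := rel_gen_univ f Γ D h hc
    exact ⟨m, g, h1, by omega⟩
  | succ n ih =>
    intro D W h hn hc
    have hex : ∃ z, z ∉ W := by
      by_contra hcon
      push Not at hcon
      have : W = Finset.univ := Finset.eq_univ_iff_forall.2 hcon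
      rw [this, Finset.card_univ] at hn
      omega
    obtain ⟨z, hz⟩ := hex
    obtain ⟨g, hg⟩ := hΓ z
    obtain ⟨d, h1, h2⟩ := Rg3_exit W hg h.base hz
    obtain ⟨h', hc', him, hd⟩ := add_leaf f Γ D W h hc d h1 h2
    have hcard : (insert (Γ.en d) W).card = W.card + 1 := Finset.card_insert_of_notMem h2
    have hcardD : (insert d.1 D).card = D.card + 1 := Finset.card_insert_of_notMem hd
    obtain ⟨m, g, h3, h4⟩ := ih _ _ h' (by omega) hc'
    exact ⟨m, g, by rw [h3, him], by omega⟩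

/-- Induction on `card Γ.V - card W`. If `W ≠ univ`, a path from the base to a vertex outside of `W`
leaves `W` along a dart `d`; use `add_leaf`. -/
theorem rel_gen (f : α → G) (Γ : Gr α) (hΓ : ∀ v, ∃ g, Γ.P f Γ.base v g) (D : Finset Γ.E)
    (W : Finset Γ.V) (h : IsSub Γ D W)
    (hc : ∀ v, ∃ g, (cutG Γ D W h).P f (cutG Γ D W h).base v g) :
    ∃ (m : ℕ) (g : Fin m → G), Γ.im f = (cutG Γ D W h).im f ⊔ Subgroup.closure (Set.range g) ∧
      m + D.card + Fintype.card Γ.V = Fintype.card Γ.E + W.card :=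
  Rg3_aux f Γ hΓ (Fintype.card Γ.V - W.card) D W h
    (by have := Finset.card_le_univ W; omega) hc

end Pool.Agent.Helper32.OR
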