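import Pool.Agent.Helper32.OR.CvDefs
import Pool.Agent.Helper32.OR.Rg3

/-!
A nonprimitive closed path runs through the whole graph (project OR, MP_d4e3d0_lc).
-/

namespace Pool.Agent.Helper32.OR

open Pool.Agent.Helper22.OR Pool.Agent.Helper22.OR.Gr

variable {N L : ℕ} [NeZero L] {w : ZMod L → Letter N} {Γ : Gr (Fin N)} {p : ZMod L → Γ.D}

/-- The edges and the vertices of the path form a subgraph. -/
theorem isSub_loop (h : Loop w Γ p) : IsSub Γ (Finset.univ.image (fun i => (p i).1))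
    (Finset.univ.image (fun i => Γ.st (p i))) := by
  have hst : ∀ i, Γ.st (p i) ∈ Finset.univ.image (fun i => Γ.st (p i)) := fun i =>
    Finset.mem_image.2 ⟨i, Finset.mem_univ i, rfl⟩
  have hen : ∀ i, Γ.en (p i) ∈ Finset.univ.image (fun i => Γ.st (p i)) := fun i => by
    rw [h.next i]
    exact hst (i + 1)
  refine ⟨?_, ?_, ?_⟩
  · intro e he
    obtain ⟨i, _, rfl⟩ := Finset.mem_image.1 he
    have h1 := hst i
    have h2 := hen i
    revert h1 h2
    generalize Finset.univ.image (fun i => Γ.st (p i)) = W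
    rcases p i with ⟨e, b⟩
    cases b
    · intro _ h2
      exact h2
    · intro h1 _
      exact h1
  · intro e he
    obtain ⟨i, _, rfl⟩ := Finset.mem_image.1 he
    have h1 := hst i
    have h2 := hen i
    revert h1 h2
    generalize Finset.univ.image (fun i => Γ.st (p i)) = W
    rcases p i with ⟨e, b⟩
    cases b
    · intro h1 _
      exact h1
    · intro _ h2
      exact h2
  · rw [← h.base]
    exact hst 0

private theorem Cv1a_lv (a : Letter N) : lv FreeGroup.of a = FreeGroup.mk [a] := by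
  rcases a with ⟨x, b⟩
  cases b
  · simp [lv, FreeGroup.of, FreeGroup.inv_mk, FreeGroup.invRev]
  · simp [lv, FreeGroup.of]

private theorem Cv1a_st {D : Finset Γ.E} {W : Finset Γ.V} (hs : IsSub Γ D W) (d : Γ.D)
    (hd : d.1 ∈ D) : Γ.st d ∈ W := by
  rcases d with ⟨e, b⟩
  cases b
  · exact hs.tgt e hd
  · exact hs.src e hd

private theorem Cv1a_en {D : Finset Γ.E} {W : Finset Γ.V} (hs : IsSub Γ D W) (d : Γ.D)
    (hd : d.1 ∈ D) : Γ.en d ∈ W := by
  rcases d with ⟨e, b⟩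
  cases b
  · exact hs.src e hd
  · exact hs.tgt e hd

private theorem Cv1a_dart {D : Finset Γ.E} {W : Finset Γ.V} (hs : IsSub Γ D W) (d : Γ.D)
    (hd : d.1 ∈ D) : (cutG Γ D W hs).P FreeGroup.of ⟨Γ.st d, Cv1a_st hs d hd⟩
      ⟨Γ.en d, Cv1a_en hs d hd⟩ (FreeGroup.mk [Γ.lt d]) := by
  have h1 := P.dart (f := (FreeGroup.of : Fin N → FreeGroup (Fin N))) (Γ := cutG Γ D W hs)
    (⟨d.1, hd⟩, d.2)
  rw [Cv1a_lv] at h1
  rcases d with ⟨e, b⟩
  cases b
  · exact h1
  · exact h1

/-- Induction on `i`: the first `i` steps. -/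
theorem P_loop (h : Loop w Γ p) (D : Finset Γ.E) (W : Finset Γ.V) (hs : IsSub Γ D W)
    (hD : ∀ i, (p i).1 ∈ D) (i : ℕ) (hi : Γ.st (p (i : ZMod L)) ∈ W) :
    (cutG Γ D W hs).P FreeGroup.of (cutG Γ D W hs).base ⟨Γ.st (p (i : ZMod L)), hi⟩
      (FreeGroup.mk ((List.range i).map (fun i : ℕ => w (i : ZMod L)))) := by
  induction i with
  | zero =>
    have h1 : (cutG Γ D W hs).base = ⟨Γ.st (p ((0 : ℕ) : ZMod L)), hi⟩ := by
      apply Subtype.ext
      change Γ.base = Γ.st (p ((0 : ℕ) : ZMod L))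
      rw [Nat.cast_zero, h.base]
    rw [← h1]
    exact P.refl _
  | succ i ih =>
    have h1 := ih (Cv1a_st hs _ (hD _))
    have h2 := Cv1a_dart hs (p (i : ZMod L)) (hD _)
    have h3 : (⟨Γ.en (p (i : ZMod L)), Cv1a_en hs _ (hD _)⟩ : {v // v ∈ W}) =
        ⟨Γ.st (p ((i + 1 : ℕ) : ZMod L)), hi⟩ := by
      apply Subtype.ext
      change Γ.en (p (i : ZMod L)) = Γ.st (p ((i + 1 : ℕ) : ZMod L))
      rw [h.next, Nat.cast_succ]
    rw [h3] at h2
    refine (h1.trans h2).congr ?_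
    rw [h.lt, FreeGroup.mul_mk, List.range_succ, List.map_append]
    rfl

end Pool.Agent.Helper32.OR
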