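import Pool.Agent.Helper32.OR.Cv1a

/-!
A nonprimitive closed path runs through the whole graph (project OR, MP_d4e3d0_lc).
-/

namespace Pool.Agent.Helper32.OR

open Pool.Agent.Helper22.OR Pool.Agent.Helper22.OR.Gr

variable {N L : ℕ} [NeZero L] {w : ZMod L → Letter N} {Γ : Gr (Fin N)} {p : ZMod L → Γ.D}

/-- Let `D`, `W` be as in `isSub_loop`; the subgraph is connected and contains `x = wd w` (`P_loop`).
`rel_gen` gives `H = H' ⊔ closure (range g)` with `m = (|E| - |V|) - (|D| - |W|)` generators `g`, where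
`|E| ≤ |V| + 1`. If `|D| + 1 ≤ |W|` then `gen_of_good` with `k = 0` gives `x = 1`, impossible. If `|D| = |W|`
then `gen_of_good` with `k = 1` gives `H' = closure {z}`, `x = z ^ k`, `k = ± 1`, so `H' = closure {x}`, `m ≤ 1`
and `PrimIn x H`, impossible. If `|D| ≥ |W| + 1` then `m = 0`, `H = H'`, `|D| ≤ |W| + 1` and by
minimality `|E| ≤ |D|`, so `D` is everything, and then `W` too. -/
theorem cover (h : Loop w Γ p) {H : Subgroup (FreeGroup (Fin N))}
    (hΓ : Γ.Mini FreeGroup.of H 2) (hr : IsRoot (wd w)) (hp : ¬ PrimIn (wd w) H) :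
    (∀ e, ∃ i, (p i).1 = e) ∧ ∀ v, ∃ i, Γ.st (p i) = v := by
  classical
  have hs := isSub_loop h
  set D : Finset Γ.E := Finset.univ.image (fun i => (p i).1) with hD
  set W : Finset Γ.V := Finset.univ.image (fun i => Γ.st (p i)) with hW
  have hmD : ∀ i, (p i).1 ∈ D := fun i => Finset.mem_image_of_mem _ (Finset.mem_univ i)
  have hmW : ∀ i, Γ.st (p i) ∈ W := fun i =>
    Finset.mem_image_of_mem (fun i => Γ.st (p i)) (Finset.mem_univ i)
  have key : ∀ (j : ZMod L) (hj : Γ.st (p j) ∈ W), ∃ g,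
      (cutG Γ D W hs).P FreeGroup.of (cutG Γ D W hs).base ⟨Γ.st (p j), hj⟩ g := by
    intro j hj
    obtain ⟨k, rfl⟩ : ∃ k : ℕ, (k : ZMod L) = j := ⟨j.val, ZMod.natCast_zmod_val j⟩
    exact ⟨_, P_loop h D W hs hmD k hj⟩
  have hc : ∀ v, ∃ g, (cutG Γ D W hs).P FreeGroup.of (cutG Γ D W hs).base v g := by
    rintro ⟨v, hv⟩
    obtain ⟨i, _, rfl⟩ := Finset.mem_image.1 hv
    exact key i hv
  have hx : wd w ∈ (cutG Γ D W hs).im FreeGroup.of := by
    have h1 := P_loop h D W hs hmD L (hmW _)
    have h2 : (⟨Γ.st (p ((L : ℕ) : ZMod L)), hmW _⟩ : {v // v ∈ W}) = ⟨Γ.base, hs.base⟩ :=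
      Subtype.ext (by
        change Γ.st (p ((L : ℕ) : ZMod L)) = Γ.base
        rw [ZMod.natCast_self, h.base])
    have h3 : ∀ v u : (cutG Γ D W hs).V, v = u → ∀ y,
        (cutG Γ D W hs).P FreeGroup.of (cutG Γ D W hs).base v y →
        (cutG Γ D W hs).P FreeGroup.of (cutG Γ D W hs).base u y := by
      rintro v _ rfl y hy
      exact hy
    exact h3 _ _ h2 _ h1
  obtain ⟨m, g, hg, hm⟩ := rel_gen FreeGroup.of Γ hΓ.good.conn D W hs hc
  rw [hΓ.good.im_eq] at hg
  have hrk := hΓ.good.rank
  have hcE : Fintype.card (cutG Γ D W hs).E = D.card := card_cutG_E Γ D W hs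
  have hcV : Fintype.card (cutG Γ D W hs).V = W.card := card_cutG_V Γ D W hs
  rcases lt_trichotomy D.card W.card with hlt | heq | hgt
  · exfalso
    obtain ⟨z, hz⟩ := gen_of_good (f := FreeGroup.of) (Γ := cutG Γ D W hs)
      (H := (cutG Γ D W hs).im FreeGroup.of) (k := 0) ⟨hc, by rw [hcE, hcV]; omega, rfl⟩
    rw [← hz, Set.range_eq_empty, Subgroup.closure_empty, Subgroup.mem_bot] at hx
    exact hr.ne_one hx
  · exfalso
    obtain ⟨z, hz⟩ := gen_of_good (f := FreeGroup.of) (Γ := cutG Γ D W hs)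
      (H := (cutG Γ D W hs).im FreeGroup.of) (k := 1) ⟨hc, by rw [hcE, hcV]; omega, rfl⟩
    have hrz : Set.range z = {z 0} := by
      ext y
      constructor
      · rintro ⟨i, rfl⟩
        rw [Subsingleton.elim i 0]
        rfl
      · rintro rfl
        exact ⟨0, rfl⟩
    rw [hrz] at hz
    have hx2 : wd w ∈ Subgroup.closure {z 0} := hz.symm ▸ hx
    obtain ⟨k, hk⟩ := Subgroup.mem_closure_singleton.1 hx2
    have hcl : Subgroup.closure {wd w} = Subgroup.closure {z 0} := by
      rcases hr _ _ hk with rfl | rfl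
      · rw [← hk, zpow_one]
      · rw [← hk, zpow_neg_one, ← Subgroup.zpowers_eq_closure, ← Subgroup.zpowers_eq_closure,
          Subgroup.zpowers_inv]
    apply hp
    have hm1 : m ≤ 1 := by omega
    rw [← hz, ← hcl] at hg
    rcases Nat.le_one_iff_eq_zero_or_eq_one.1 hm1 with rfl | rfl
    · refine ⟨1, ?_⟩
      rw [hg, Set.range_eq_empty, Subgroup.closure_empty, sup_bot_eq]
      apply le_antisymm
      · exact Subgroup.closure_mono (by simp)
      · rw [Subgroup.closure_le]
        rintro y (rfl | rfl)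
        · exact Subgroup.subset_closure rfl
        · exact one_mem _
    · refine ⟨g 0, ?_⟩
      have hrg : Set.range g = {g 0} := by
        ext y
        constructor
        · rintro ⟨i, rfl⟩
          rw [Subsingleton.elim i 0]
          rfl
        · rintro rfl
          exact ⟨0, rfl⟩
      rw [hg, hrg, ← Subgroup.closure_union]
      rfl
  · have hm0 : m = 0 := by omega
    subst hm0
    rw [Set.range_eq_empty, Subgroup.closure_empty, sup_bot_eq] at hg
    have hgood : (cutG Γ D W hs).Good FreeGroup.of H 2 :=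
      ⟨hc, by rw [hcE, hcV]; omega, hg.symm⟩
    have hle := hΓ.le _ hgood
    rw [hcE] at hle
    have hDu : D = Finset.univ := Finset.eq_univ_of_card D
      (le_antisymm (Finset.card_le_univ D) hle)
    have hWu : W = Finset.univ := Finset.eq_univ_of_card W (by
      have h1 := Finset.card_le_univ W
      have h2 := Finset.card_le_univ D
      omega)
    constructor
    · intro e
      have he : e ∈ D := by
        rw [hDu]
        exact Finset.mem_univ e
      obtain ⟨i, _, hi⟩ := Finset.mem_image.1 he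
      exact ⟨i, hi⟩
    · intro v
      have hv : v ∈ W := by
        rw [hWu]
        exact Finset.mem_univ v
      obtain ⟨i, _, hi⟩ := Finset.mem_image.1 hv
      exact ⟨i, hi⟩

end Pool.Agent.Helper32.OR
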