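import Pool.Agent.Helper32.OR.CvDefs
import Pool.Agent.Helper32.OR.Rg3

/-!
A nonprimitive closed path runs through every edge at least twice (project OR, MP_d4e3d0_lc).
-/

namespace Pool.Agent.Helper32.OR

open Pool.Agent.Helper22.OR Pool.Agent.Helper22.OR.Gr

variable {N L : ℕ} [NeZero L] {w : ZMod L → Letter N} {Γ : Gr (Fin N)} {p : ZMod L → Γ.D}

/-- Let the edge `e` be used only at the place `i₁`. The subgraph `Γ'` without `e` (with all vertices) is
connected: the path from `i₁ + 1` round the circle to `i₁` does not use `e` and runs through all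
vertices, also through the base. -/
theorem conn_erase (h : Loop w Γ p) (hv : ∀ v, ∃ i, Γ.st (p i) = v) (i₁ : ZMod L)
    (h1 : ∀ i, (p i).1 = (p i₁).1 → i = i₁)
    (hs : IsSub Γ (Finset.univ.erase (p i₁).1) Finset.univ) :
    ∀ v, ∃ g, (cutG Γ (Finset.univ.erase (p i₁).1) Finset.univ hs).P FreeGroup.of
      (cutG Γ (Finset.univ.erase (p i₁).1) Finset.univ hs).base v g := by
  classical
  let Q := cutG Γ (Finset.univ.erase (p i₁).1) Finset.univ hs
  let vx : Γ.V → Q.V := fun v => ⟨v, Finset.mem_univ v⟩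
  -- the darts other than `p i₁` are darts of the subgraph
  have step : ∀ i, i ≠ i₁ → ∃ g, Q.P FreeGroup.of (vx (Γ.st (p i))) (vx (Γ.st (p (i + 1)))) g := by
    intro i hi
    have hne : (p i).1 ≠ (p i₁).1 := fun hh => hi (h1 i hh)
    have hmem : (p i).1 ∈ Finset.univ.erase (p i₁).1 :=
      Finset.mem_erase.mpr ⟨hne, Finset.mem_univ _⟩
    let e : Q.E := ⟨(p i).1, hmem⟩
    rw [← h.next i]
    rcases hb : (p i).2 with _ | _
    · have h2 := P.edge' (Γ := Q) (f := FreeGroup.of) e
      have hs1 : Q.tgt e = vx (Γ.st (p i)) := by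
        apply Subtype.ext
        simp [Q, cutG, e, vx, Gr.st, hb]
      have he1 : Q.src e = vx (Γ.en (p i)) := by
        apply Subtype.ext
        simp [Q, cutG, e, vx, Gr.en, hb]
      rw [hs1, he1] at h2
      exact ⟨_, h2⟩
    · have h2 := P.edge (Γ := Q) (f := FreeGroup.of) e
      have hs1 : Q.src e = vx (Γ.st (p i)) := by
        apply Subtype.ext
        simp [Q, cutG, e, vx, Gr.st, hb]
      have he1 : Q.tgt e = vx (Γ.en (p i)) := by
        apply Subtype.ext
        simp [Q, cutG, e, vx, Gr.en, hb]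
      rw [hs1, he1] at h2
      exact ⟨_, h2⟩
  -- round the circle, without the place `i₁`
  have walk : ∀ k : ℕ, k + 1 ≤ L →
      ∃ g, Q.P FreeGroup.of (vx (Γ.st (p (i₁ + 1)))) (vx (Γ.st (p (i₁ + 1 + (k : ZMod L))))) g := by
    intro k
    induction k with
    | zero =>
      intro _
      refine ⟨1, ?_⟩
      rw [Nat.cast_zero, add_zero]
      exact P.refl _
    | succ k ih =>
      intro hk
      obtain ⟨g, hg⟩ := ih (by omega)
      have hi : i₁ + 1 + (k : ZMod L) ≠ i₁ := by
        intro hh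
        have h3 : (((k + 1 : ℕ)) : ZMod L) = 0 := by
          push_cast
          have h4 : i₁ + ((k : ZMod L) + 1) = i₁ + 0 := by
            rw [add_zero]
            calc i₁ + ((k : ZMod L) + 1) = i₁ + 1 + (k : ZMod L) := by ring
              _ = i₁ := hh
          exact add_left_cancel h4
        rw [ZMod.natCast_eq_zero_iff] at h3
        have h5 := Nat.le_of_dvd (by omega) h3
        omega
      obtain ⟨g', hg'⟩ := step _ hi
      refine ⟨g * g', ?_⟩
      have hidx : i₁ + 1 + ((k + 1 : ℕ) : ZMod L) = i₁ + 1 + (k : ZMod L) + 1 := by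
        push_cast
        ring
      rw [hidx]
      exact P.trans hg hg'
  have all : ∀ j : ZMod L, ∃ g, Q.P FreeGroup.of (vx (Γ.st (p (i₁ + 1)))) (vx (Γ.st (p j))) g := by
    intro j
    have hval := walk (j - i₁ - 1).val (by
      have := ZMod.val_lt (j - i₁ - 1)
      omega)
    rw [ZMod.natCast_zmod_val] at hval
    have hj : i₁ + 1 + (j - i₁ - 1) = j := by ring
    rw [hj] at hval
    exact hval
  intro v
  obtain ⟨i, hi⟩ := hv v.1
  obtain ⟨g, hg⟩ := all 0
  obtain ⟨g', hg'⟩ := all i
  refine ⟨g⁻¹ * g', ?_⟩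
  have hb : vx (Γ.st (p 0)) = Q.base := by
    apply Subtype.ext
    exact h.base
  have hvv : vx (Γ.st (p i)) = v := by
    apply Subtype.ext
    exact hi
  rw [hb] at hg
  rw [hvv] at hg'
  exact P.trans (P.symm hg) hg'

end Pool.Agent.Helper32.OR
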