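import Pool.Agent.Helper32.OR.Cv2a

/-!
A nonprimitive closed path runs through every edge at least twice (project OR, MP_d4e3d0_lc).
-/

namespace Pool.Agent.Helper32.OR

open Pool.Agent.Helper22.OR Pool.Agent.Helper22.OR.Gr

variable {N L : ℕ} [NeZero L] {w : ZMod L → Letter N} {Γ : Gr (Fin N)} {p : ZMod L → Γ.D}

/-- the product of the letters at the places `k, …, k + j - 1` -/
private def Cv2b_q {N L : ℕ} (w : ZMod L → Letter N) (k j : ℕ) : FreeGroup (Fin N) :=
  ((List.range j).map (fun i : ℕ => lv FreeGroup.of (w ((k + i : ℕ) : ZMod L)))).prod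

private theorem Cv2b_q_add {N L : ℕ} (w : ZMod L → Letter N) (k a b : ℕ) :
    Cv2b_q w k (a + b) = Cv2b_q w k a * Cv2b_q w (k + a) b := by
  unfold Cv2b_q
  rw [List.range_add, List.map_append, List.prod_append, List.map_map]
  congr 2
  refine List.map_congr_left fun i _ => ?_
  simp only [Function.comp_apply, add_assoc]

private theorem Cv2b_q_one {N L : ℕ} (w : ZMod L → Letter N) (k : ℕ) :
    Cv2b_q w k 1 = lv FreeGroup.of (w (k : ZMod L)) := by
  simp [Cv2b_q]

private theorem Cv2b_wd {N L : ℕ} (w : ZMod L → Letter N) : wd w = Cv2b_q w 0 L := by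
  unfold wd Cv2b_q
  have h1 : ∀ l : List (Letter N), FreeGroup.mk l = (l.map (lv FreeGroup.of)).prod := by
    intro l
    have h2 : FreeGroup.lift (FreeGroup.of (α := Fin N)) = MonoidHom.id _ := by
      apply FreeGroup.ext_hom
      intro i
      simp
    have h3 : FreeGroup.mk l = FreeGroup.lift (FreeGroup.of (α := Fin N)) (FreeGroup.mk l) := by
      rw [h2]
      rfl
    rw [h3, FreeGroup.lift_mk]
    rfl
  rw [h1, List.map_map]
  congr 1
  refine List.map_congr_left fun i _ => ?_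
  simp only [Function.comp_apply, zero_add]

private theorem Cv2b_dart {N : ℕ} {Γ : Gr (Fin N)} (e : Γ.E)
    (hs : IsSub Γ (Finset.univ.erase e) Finset.univ) (d : Γ.D) (hd : d.1 ≠ e) :
    (cutG Γ (Finset.univ.erase e) Finset.univ hs).P FreeGroup.of
      ⟨Γ.st d, Finset.mem_univ _⟩ ⟨Γ.en d, Finset.mem_univ _⟩ (lv FreeGroup.of (Γ.lt d)) := by
  rcases d with ⟨x, b⟩
  have hx : x ∈ Finset.univ.erase e := Finset.mem_erase.2 ⟨hd, Finset.mem_univ _⟩
  cases b
  · exact P.edge' (Γ := cutG Γ (Finset.univ.erase e) Finset.univ hs) (f := FreeGroup.of) ⟨x, hx⟩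
  · exact P.edge (Γ := cutG Γ (Finset.univ.erase e) Finset.univ hs) (f := FreeGroup.of) ⟨x, hx⟩

private theorem Cv2b_path {N L : ℕ} {w : ZMod L → Letter N} {Γ : Gr (Fin N)} {p : ZMod L → Γ.D}
    (h : Loop w Γ p) (e : Γ.E) (hs : IsSub Γ (Finset.univ.erase e) Finset.univ) (k : ℕ) :
    ∀ j : ℕ, (∀ i, i < j → (p ((k + i : ℕ) : ZMod L)).1 ≠ e) →
    (cutG Γ (Finset.univ.erase e) Finset.univ hs).P FreeGroup.of
      ⟨Γ.st (p (k : ZMod L)), Finset.mem_univ _⟩
      ⟨Γ.st (p ((k + j : ℕ) : ZMod L)), Finset.mem_univ _⟩ (Cv2b_q w k j) := by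
  intro j
  induction j with
  | zero =>
    intro _
    have h1 : Cv2b_q w k 0 = 1 := by simp [Cv2b_q]
    rw [h1]
    exact P.refl _
  | succ j ih =>
    intro hj
    have h1 := ih fun i hi => hj i (by omega)
    have h2 := Cv2b_dart e hs (p ((k + j : ℕ) : ZMod L)) (hj j (by omega))
    have h3 : Γ.en (p ((k + j : ℕ) : ZMod L)) = Γ.st (p ((k + (j + 1) : ℕ) : ZMod L)) := by
      rw [h.next]
      congr 2
      push_cast
      ring
    rw [Cv2b_q_add, Cv2b_q_one]
    rw [h.lt] at h2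
    simp only [h3] at h2
    exact h1.trans h2

/-- One dart: the new path differs from the old one by an element of `K`. -/
private theorem Cv2b_step {N : ℕ} {Γ : Gr (Fin N)} (d : Γ.D)
    (hs : IsSub Γ (Finset.univ.erase d.1) Finset.univ) (a b : FreeGroup (Fin N))
    (ha : (cutG Γ (Finset.univ.erase d.1) Finset.univ hs).P FreeGroup.of
      (cutG Γ (Finset.univ.erase d.1) Finset.univ hs).base ⟨Γ.st d, Finset.mem_univ _⟩ a)
    (hb : (cutG Γ (Finset.univ.erase d.1) Finset.univ hs).P FreeGroup.of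
      ⟨Γ.en d, Finset.mem_univ _⟩ (cutG Γ (Finset.univ.erase d.1) Finset.univ hs).base b)
    (K : Subgroup (FreeGroup (Fin N)))
    (hK1 : (cutG Γ (Finset.univ.erase d.1) Finset.univ hs).im FreeGroup.of ≤ K)
    (hK2 : a * lv FreeGroup.of (Γ.lt d) * b ∈ K) (d' : Γ.D) (x : FreeGroup (Fin N))
    (hx : (cutG Γ (Finset.univ.erase d.1) Finset.univ hs).P FreeGroup.of
      (cutG Γ (Finset.univ.erase d.1) Finset.univ hs).base ⟨Γ.st d', Finset.mem_univ _⟩ x) :
    ∃ y, (cutG Γ (Finset.univ.erase d.1) Finset.univ hs).P FreeGroup.of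
      (cutG Γ (Finset.univ.erase d.1) Finset.univ hs).base ⟨Γ.en d', Finset.mem_univ _⟩ y ∧
      x * lv FreeGroup.of (Γ.lt d') * y⁻¹ ∈ K := by
  by_cases hd : d'.1 = d.1
  · rcases Γ.eq_or_eq_dinv hd with rfl | rfl
    · refine ⟨b⁻¹, hb.symm, ?_⟩
      have h1 : x * a⁻¹ ∈ K := hK1 (hx.trans ha.symm)
      have h2 := K.mul_mem h1 hK2
      have h3 : x * a⁻¹ * (a * lv FreeGroup.of (Γ.lt d') * b) =
          x * lv FreeGroup.of (Γ.lt d') * b⁻¹⁻¹ := by group
      rwa [h3] at h2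
    · refine ⟨a, ?_, ?_⟩
      · simpa only [en_dinv] using ha
      · simp only [st_dinv] at hx
        have h1 : x * b ∈ K := hK1 (hx.trans hb)
        have h2 := K.mul_mem h1 (K.inv_mem hK2)
        have h4 : lv (FreeGroup.of (α := Fin N)) (Γ.lt (Γ.dinv d)) =
            (lv FreeGroup.of (Γ.lt d))⁻¹ := by
          rcases d with ⟨e, t⟩
          cases t
          · exact (inv_inv _).symm
          · rfl
        rw [h4]
        have h3 : x * b * (a * lv FreeGroup.of (Γ.lt d) * b)⁻¹ =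
            x * (lv FreeGroup.of (Γ.lt d))⁻¹ * a⁻¹ := by group
        rwa [h3] at h2
  · refine ⟨_, hx.trans (Cv2b_dart d.1 hs d' hd), ?_⟩
    rw [mul_inv_cancel]
    exact K.one_mem

private theorem Cv2b_walk {N : ℕ} {Γ : Gr (Fin N)} (d : Γ.D)
    (hs : IsSub Γ (Finset.univ.erase d.1) Finset.univ) (a b : FreeGroup (Fin N))
    (ha : (cutG Γ (Finset.univ.erase d.1) Finset.univ hs).P FreeGroup.of
      (cutG Γ (Finset.univ.erase d.1) Finset.univ hs).base ⟨Γ.st d, Finset.mem_univ _⟩ a)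
    (hb : (cutG Γ (Finset.univ.erase d.1) Finset.univ hs).P FreeGroup.of
      ⟨Γ.en d, Finset.mem_univ _⟩ (cutG Γ (Finset.univ.erase d.1) Finset.univ hs).base b)
    (K : Subgroup (FreeGroup (Fin N)))
    (hK1 : (cutG Γ (Finset.univ.erase d.1) Finset.univ hs).im FreeGroup.of ≤ K)
    (hK2 : a * lv FreeGroup.of (Γ.lt d) * b ∈ K) {u v : Γ.V} {g : FreeGroup (Fin N)}
    (hP : Γ.P FreeGroup.of u v g) : ∀ x : FreeGroup (Fin N),
    (cutG Γ (Finset.univ.erase d.1) Finset.univ hs).P FreeGroup.of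
      (cutG Γ (Finset.univ.erase d.1) Finset.univ hs).base ⟨u, Finset.mem_univ _⟩ x →
    ∃ y, (cutG Γ (Finset.univ.erase d.1) Finset.univ hs).P FreeGroup.of
      (cutG Γ (Finset.univ.erase d.1) Finset.univ hs).base ⟨v, Finset.mem_univ _⟩ y ∧
      x * g * y⁻¹ ∈ K := by
  induction hP with
  | refl v =>
    intro x hx
    refine ⟨x, hx, ?_⟩
    rw [mul_one, mul_inv_cancel]
    exact K.one_mem
  | @fwd v g e _ ih =>
    intro x hx
    obtain ⟨y, hy, hxy⟩ := Cv2b_step d hs a b ha hb K hK1 hK2 (e, true) x hx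
    obtain ⟨z, hz, hyz⟩ := ih y hy
    refine ⟨z, hz, ?_⟩
    have h1 := K.mul_mem hxy hyz
    have h2 : x * lv FreeGroup.of (Γ.lt (e, true)) * y⁻¹ * (y * g * z⁻¹) =
        x * (FreeGroup.of (Γ.lab e) * g) * z⁻¹ := by
      change x * FreeGroup.of (Γ.lab e) * y⁻¹ * (y * g * z⁻¹) = _
      group
    rwa [h2] at h1
  | @bwd v g e _ ih =>
    intro x hx
    obtain ⟨y, hy, hxy⟩ := Cv2b_step d hs a b ha hb K hK1 hK2 (e, false) x hx
    obtain ⟨z, hz, hyz⟩ := ih y hy
    refine ⟨z, hz, ?_⟩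
    have h1 := K.mul_mem hxy hyz
    have h2 : x * lv FreeGroup.of (Γ.lt (e, false)) * y⁻¹ * (y * g * z⁻¹) =
        x * ((FreeGroup.of (Γ.lab e))⁻¹ * g) * z⁻¹ := by
      change x * (FreeGroup.of (Γ.lab e))⁻¹ * y⁻¹ * (y * g * z⁻¹) = _
      group
    rwa [h2] at h1

/-- `wd w = a * l * b` where `l` is the value of the dart `p i₁` and `a`, `b` are values of paths of `Γ'` from the base
to the start of the dart and from its end to the base. Every path of `Γ` is a product of paths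
of `Γ'` and of the dart `p i₁` and its inverse. -/
theorem im_erase (h : Loop w Γ p) (hv : ∀ v, ∃ i, Γ.st (p i) = v) (i₁ : ZMod L)
    (h1 : ∀ i, (p i).1 = (p i₁).1 → i = i₁)
    (hs : IsSub Γ (Finset.univ.erase (p i₁).1) Finset.univ) :
    Γ.im FreeGroup.of =
      (cutG Γ (Finset.univ.erase (p i₁).1) Finset.univ hs).im FreeGroup.of ⊔
        Subgroup.closure {wd w} := by
  have hL : 0 < L := Nat.pos_of_ne_zero (NeZero.ne L)
  have hm : i₁.val < L := ZMod.val_lt i₁
  have hmi : ((i₁.val : ℕ) : ZMod L) = i₁ := ZMod.natCast_zmod_val i₁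
  have hne : ∀ j : ℕ, j < L → j ≠ i₁.val → (p (j : ZMod L)).1 ≠ (p i₁).1 := by
    intro j hj hji hp
    apply hji
    have h2 := congrArg ZMod.val (h1 _ hp)
    rwa [ZMod.val_natCast_of_lt hj] at h2
  -- the two paths of the subgraph
  have ha := Cv2b_path h (p i₁).1 hs 0 i₁.val (by
    intro i hi
    rw [Nat.zero_add]
    exact hne i (by omega) (by omega))
  have hb := Cv2b_path h (p i₁).1 hs (i₁.val + 1) (L - (i₁.val + 1)) (by
    intro i hi
    exact hne _ (by omega) (by omega))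
  have e0 : Γ.st (p ((0 : ℕ) : ZMod L)) = Γ.base := by
    rw [Nat.cast_zero]
    exact h.base
  have e1 : Γ.st (p ((0 + i₁.val : ℕ) : ZMod L)) = Γ.st (p i₁) := by
    rw [Nat.zero_add, hmi]
  have e2 : Γ.st (p ((i₁.val + 1 : ℕ) : ZMod L)) = Γ.en (p i₁) := by
    rw [h.next, Nat.cast_add, hmi, Nat.cast_one]
  have e3 : Γ.st (p ((i₁.val + 1 + (L - (i₁.val + 1)) : ℕ) : ZMod L)) = Γ.base := by
    rw [show i₁.val + 1 + (L - (i₁.val + 1)) = L by omega, ZMod.natCast_self]
    exact h.base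
  simp only [e0, e1] at ha
  simp only [e2, e3] at hb
  have hwd : wd w = Cv2b_q w 0 i₁.val * lv FreeGroup.of (Γ.lt (p i₁)) *
      Cv2b_q w (i₁.val + 1) (L - (i₁.val + 1)) := by
    have hL1 : L = i₁.val + 1 + (L - (i₁.val + 1)) := by omega
    calc wd w = Cv2b_q w 0 L := Cv2b_wd w
      _ = Cv2b_q w 0 (i₁.val + 1 + (L - (i₁.val + 1))) := by rw [← hL1]
      _ = _ := by rw [Cv2b_q_add, Cv2b_q_add, Cv2b_q_one, Nat.zero_add, Nat.zero_add, hmi, h.lt]
  apply le_antisymm
  · intro g hg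
    obtain ⟨y, hy, hgy⟩ := Cv2b_walk (p i₁) hs _ _ ha hb
      ((cutG Γ (Finset.univ.erase (p i₁).1) Finset.univ hs).im FreeGroup.of ⊔
        Subgroup.closure {wd w}) le_sup_left (by
      rw [← hwd]
      exact (le_sup_right : Subgroup.closure {wd w} ≤ _) (Subgroup.subset_closure rfl))
      (mem_im.1 hg) 1 (P.refl _)
    have h2 : y ∈ (cutG Γ (Finset.univ.erase (p i₁).1) Finset.univ hs).im FreeGroup.of ⊔
        Subgroup.closure {wd w} := (le_sup_left :
          (cutG Γ (Finset.univ.erase (p i₁).1) Finset.univ hs).im FreeGroup.of ≤ _) hy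
    have h3 := Subgroup.mul_mem _ hgy h2
    have h4 : 1 * g * y⁻¹ * y = g := by group
    rwa [h4] at h3
  · apply sup_le
    · intro g hg
      exact P_of_cutG hg
    · rw [Subgroup.closure_le, Set.singleton_subset_iff]
      change Γ.P FreeGroup.of Γ.base Γ.base (wd w)
      rw [hwd]
      exact ((P_of_cutG ha).trans (P.dart (p i₁))).trans (P_of_cutG hb)

end Pool.Agent.Helper32.OR
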