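import Pool.Agent.Helper32.OR.Cv2b

/-!
A nonprimitive closed path runs through every edge at least twice (project OR, MP_d4e3d0_lc).
-/

namespace Pool.Agent.Helper32.OR

open Pool.Agent.Helper22.OR Pool.Agent.Helper22.OR.Gr

variable {N L : ℕ} [NeZero L] {w : ZMod L → Letter N} {Γ : Gr (Fin N)} {p : ZMod L → Γ.D}

/-- An edge which is used only once gives a generator of `H` next to `wd w`. -/
private theorem Cv2c_once (h : Loop w Γ p) {H : Subgroup (FreeGroup (Fin N))}
    (hΓ : Γ.Good FreeGroup.of H 2) (hv : ∀ v, ∃ i, Γ.st (p i) = v) (i₁ : ZMod L)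
    (h1 : ∀ i, (p i).1 = (p i₁).1 → i = i₁) : PrimIn (wd w) H := by
  have hs : IsSub Γ (Finset.univ.erase (p i₁).1) Finset.univ :=
    ⟨fun _ _ => Finset.mem_univ _, fun _ _ => Finset.mem_univ _, Finset.mem_univ _⟩
  have hg : (cutG Γ (Finset.univ.erase (p i₁).1) Finset.univ hs).Good FreeGroup.of
      ((cutG Γ (Finset.univ.erase (p i₁).1) Finset.univ hs).im FreeGroup.of) 1 := by
    refine ⟨conn_erase h hv i₁ h1 hs, ?_, rfl⟩
    rw [card_cutG_E, card_cutG_V, Finset.card_erase_of_mem (Finset.mem_univ _), Finset.card_univ,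
      Finset.card_univ]
    have h2 := hΓ.rank
    omega
  obtain ⟨g, hgg⟩ := gen_of_good FreeGroup.of hg
  refine ⟨g 0, ?_⟩
  have h3 := im_erase h hv i₁ h1 hs
  rw [hΓ.im_eq, ← hgg] at h3
  rw [h3]
  have h4 : Set.range g = {g 0} := by
    ext x
    simp only [Set.mem_range, Set.mem_singleton_iff]
    constructor
    · rintro ⟨i, rfl⟩
      rw [Subsingleton.elim i 0]
    · rintro rfl
      exact ⟨0, rfl⟩
  rw [h4, ← Subgroup.closure_union]
  congr 1
  rw [Set.union_comm]
  rfl

/-- Every edge is used at least twice: otherwise (`conn_erase`, `gen_of_good` with `k = 1`) the image of `Γ'`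
is `closure {z}`, and `im_erase` gives `H = closure {wd w, z}`. So `2 |E| ≤ L`. -/
theorem twice (h : Loop w Γ p) {H : Subgroup (FreeGroup (Fin N))}
    (hΓ : Γ.Good FreeGroup.of H 2) (he : ∀ e, ∃ i, (p i).1 = e) (hv : ∀ v, ∃ i, Γ.st (p i) = v)
    (hp : ¬ PrimIn (wd w) H) : 2 * Fintype.card Γ.E ≤ L := by
  classical
  have h1 : ∀ e : Γ.E, 2 ≤ (Finset.univ.filter (fun i : ZMod L => (p i).1 = e)).card := by
    intro e
    by_contra hcon
    push Not at hcon
    obtain ⟨i₁, hi₁⟩ := he e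
    refine hp (Cv2c_once h hΓ hv i₁ fun i hi => ?_)
    rw [hi₁] at hi
    have h2 : (Finset.univ.filter (fun i : ZMod L => (p i).1 = e)).card ≤ 1 := by omega
    rw [Finset.card_le_one] at h2
    exact h2 i (by simp [hi]) i₁ (by simp [hi₁])
  have h3 : (Finset.univ : Finset (ZMod L)).card =
      ∑ e : Γ.E, (Finset.univ.filter (fun i : ZMod L => (p i).1 = e)).card :=
    Finset.card_eq_sum_card_fiberwise (fun _ _ => Finset.mem_coe.2 (Finset.mem_univ _))
  rw [Finset.card_univ, ZMod.card] at h3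
  calc 2 * Fintype.card Γ.E = ∑ _e : Γ.E, 2 := by
        rw [Finset.sum_const, Finset.card_univ, smul_eq_mul, mul_comm]
    _ ≤ ∑ e : Γ.E, (Finset.univ.filter (fun i : ZMod L => (p i).1 = e)).card :=
        Finset.sum_le_sum fun e _ => h1 e
    _ = L := h3.symm

end Pool.Agent.Helper32.OR
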