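import Pool.Agent.Helper32.OR.RgDefs

/-!
A closed path in a graph (project OR, MP_d4e3d0_lc).
-/

namespace Pool.Agent.Helper32.OR

open Pool.Agent.Helper22.OR Pool.Agent.Helper22.OR.Gr

variable {N : ℕ}

/-- `r` is not a proper power (in particular `r ≠ 1`). -/
def IsRoot {G : Type} [Group G] (r : G) : Prop := ∀ (z : G) (k : ℤ), z ^ k = r → k = 1 ∨ k = -1

/-- `r` is one element of a pair of generators of `M`. -/
def PrimIn {G : Type} [Group G] (r : G) (M : Subgroup G) : Prop :=
  ∃ y : G, M = Subgroup.closure {r, y}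

theorem IsRoot.ne_one {G : Type} [Group G] {r : G} (h : IsRoot r) : r ≠ 1 := by
  intro h1
  have h2 := h 1 0 (by rw [h1, one_zpow])
  omega

/-- The element with the word `w 0, …, w (L - 1)`. -/
def wd {L : ℕ} (w : ZMod L → Letter N) : FreeGroup (Fin N) :=
  FreeGroup.mk ((List.range L).map (fun i : ℕ => w (i : ZMod L)))

/-- `p` is a closed path of length `L` of `Γ` from the base, with the reduced cyclic word `w`. -/
structure Loop {L : ℕ} (w : ZMod L → Letter N) (Γ : Gr (Fin N)) (p : ZMod L → Γ.D) : Prop where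
  next : ∀ i, Γ.en (p i) = Γ.st (p (i + 1))
  lt : ∀ i, Γ.lt (p i) = w i
  base : Γ.st (p 0) = Γ.base
  red : ∀ i, w (i + 1) ≠ linv (w i)

end Pool.Agent.Helper32.OR
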