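import Mathlib

/-!
Random one-relator groups: common definitions (project OR, MP_d4e3d0_lc).
-/

namespace Pool.Agent.Helper32.OR

open FreeGroup

/-- `P r` holds asymptotically almost surely, where `r` runs through the reduced words of length at
most `t` in `n` letters, each counted once. -/
def AAS (n : ℕ) (P : FreeGroup (Fin n) → Prop) : Prop :=
  Filter.Tendsto (fun t : ℕ => (Set.ncard {r : FreeGroup (Fin n) | r.norm ≤ t ∧ P r} : ℝ) /
    (Set.ncard {r : FreeGroup (Fin n) | r.norm ≤ t} : ℝ)) Filter.atTop (nhds 1)

/-- The window of length `s` at place `i` of a list. -/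
def win {α : Type*} (w : List α) (s i : ℕ) : List α := (w.drop i).take s

/-- The window at place `i` occurs again, or its inverse occurs. -/
def Bad {n : ℕ} (w : List (Fin n × Bool)) (s i : ℕ) : Prop :=
  (∃ j, j ≠ i ∧ j + s ≤ w.length ∧ win w s j = win w s i) ∨
  (∃ j, j + s ≤ w.length ∧ win w s j = invRev (win w s i))

/-- The number of bad windows of length `s`. -/
noncomputable def badCard {n : ℕ} (w : List (Fin n × Bool)) (s : ℕ) : ℕ :=
  Set.ncard {i : ℕ | i + s ≤ w.length ∧ Bad w s i}

/-- The only property of the relator that is used: for a window length `s` (about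
`log r.norm / log (2 n - 1)`) there are few bad windows, while `(2 n - 2) ^ s` is small against the
length, and the first window is not inverse to the last one. -/
def Generic (n K : ℕ) (r : FreeGroup (Fin n)) : Prop :=
  ∃ s : ℕ, 1 ≤ s ∧ K ≤ r.norm ∧ K * s ≤ r.norm ∧ K * badCard r.toWord s ≤ r.norm ∧
    K * (s * (2 * n - 1) ^ 2 * (2 * n - 2) ^ s) ≤ r.norm ∧
    win r.toWord s 0 ≠ invRev (win r.toWord s (r.norm - s))

/-- The letter at place `i` of the bi-infinite periodic word with period `c`. -/
def cyc {α : Type*} (c : List α) (hc : c ≠ []) (i : ℤ) : α :=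
  c.get ⟨(i % (c.length : ℤ)).toNat, by
    have h : 0 < c.length := List.length_pos_iff.2 hc
    have h1 := Int.emod_nonneg i (by omega : (c.length : ℤ) ≠ 0)
    have h2 := Int.emod_lt_of_pos i (by omega : 0 < (c.length : ℤ))
    omega⟩

/-- The subword of length `m` at place `i` of the bi-infinite periodic word with period `c`. -/
def cycWord {α : Type*} (c : List α) (hc : c ≠ []) (i : ℤ) (m : ℕ) : List α :=
  (List.range m).map (fun x => cyc c hc (i + x))

/-- Small cancellation: subwords of length `l0` of the periodic word at places which are different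
modulo the period are different, and never inverse to each other. -/
def SC {n : ℕ} (c : List (Fin n × Bool)) (hc : c ≠ []) (l0 : ℕ) : Prop :=
  ∀ i j : ℤ, (cycWord c hc i l0 = cycWord c hc j l0 → (c.length : ℤ) ∣ i - j) ∧
    cycWord c hc i l0 ≠ invRev (cycWord c hc j l0)

/-- A good cyclically reduced relator `c`: window length `s`, small cancellation length `l0`. -/
structure GoodRel (n K : ℕ) (c : List (Fin n × Bool)) (hc : c ≠ []) (s l0 : ℕ) : Prop where
  cyc : IsCyclicallyReduced c
  s_pos : 1 ≤ s
  l0_pos : 1 ≤ l0
  len : K ≤ c.length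
  s_le : K * s ≤ c.length
  l0_le : K * l0 ≤ c.length
  sc : SC c hc l0
  bad_le : ∀ i : ℤ, ∀ m : ℕ, m ≤ c.length → K * badCard (cycWord c hc i m) s ≤ c.length
  grow : K * (s * (2 * n - 1) ^ 2 * (2 * n - 2) ^ s) ≤ c.length

end Pool.Agent.Helper32.OR
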