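import Mathlib

/-!
Longest common initial part of two lists (project OR, MP_d4e3d0_lc).
-/

namespace Pool.Agent.Helper32.OR

/-- The length of the longest common initial part of two lists. -/
def lcp {α : Type*} [DecidableEq α] : List α → List α → ℕ
  | a :: u, b :: v => if a = b then lcp u v + 1 else 0
  | _, _ => 0

variable {α : Type*} [DecidableEq α]

/-- Induction on `u` generalizing `v`. -/
theorem lcp_comm (u v : List α) : lcp u v = lcp v u := by
  induction u generalizing v with
  | nil => cases v <;> simp [lcp]
  | cons a u ih =>
    cases v with
    | nil => simp [lcp]
    | cons b v =>
      by_cases h : a = b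
      · subst h
        simp [lcp, ih v]
      · have h' : ¬ b = a := fun e => h e.symm
        simp [lcp, h, h']

theorem lcp_le_left (u v : List α) : lcp u v ≤ u.length := by
  induction u generalizing v with
  | nil => cases v <;> simp [lcp]
  | cons a u ih =>
    cases v with
    | nil => simp [lcp]
    | cons b v =>
      by_cases h : a = b
      · subst h
        simpa [lcp] using ih v
      · simp [lcp, h]

theorem lcp_le_right (u v : List α) : lcp u v ≤ v.length := by
  rw [lcp_comm]
  exact lcp_le_left v u

/-- Induction on `u` generalizing `v`. -/
theorem lcp_take (u v : List α) : u.take (lcp u v) = v.take (lcp u v) := by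
  induction u generalizing v with
  | nil => cases v <;> simp [lcp]
  | cons a u ih =>
    cases v with
    | nil => simp [lcp]
    | cons b v =>
      by_cases h : a = b
      · subst h
        simp [lcp, ih v]
      · simp [lcp, h]

/-- `lcp` is the largest length with equal initial parts: induction on `u`. -/
theorem le_lcp (u v : List α) (k : ℕ) (h1 : k ≤ u.length) (h2 : k ≤ v.length)
    (h : u.take k = v.take k) : k ≤ lcp u v := by
  induction u generalizing v k with
  | nil =>
    have : k = 0 := by simpa using h1
    omega
  | cons a u ih =>
    cases v with
    | nil =>
      have : k = 0 := by simpa using h2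
      omega
    | cons b v =>
      cases k with
      | zero => exact Nat.zero_le _
      | succ k =>
        have hh : a = b ∧ u.take k = v.take k := by
          simpa [List.take_succ_cons] using h
        have h1' : k ≤ u.length := by simpa using h1
        have h2' : k ≤ v.length := by simpa using h2
        have := ih v k h1' h2' hh.2
        simp [lcp, hh.1, this]

/-- From `lcp_take` and `le_lcp` with `k = min (lcp u v) (lcp v w)` (take of take). -/
theorem lcp_ultra (u v w : List α) : min (lcp u v) (lcp v w) ≤ lcp u w := by
  have hv1 := lcp_le_left u v
  have hw := lcp_le_right v w
  refine le_lcp u w _ (le_trans (min_le_left _ _) hv1) (le_trans (min_le_right _ _) hw) ?_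
  have e1 : u.take (min (lcp u v) (lcp v w)) = v.take (min (lcp u v) (lcp v w)) := by
    have := congrArg (List.take (min (lcp u v) (lcp v w))) (lcp_take u v)
    rw [List.take_take, List.take_take, min_eq_left (min_le_left _ _)] at this
    exact this
  have e2 : v.take (min (lcp u v) (lcp v w)) = w.take (min (lcp u v) (lcp v w)) := by
    have := congrArg (List.take (min (lcp u v) (lcp v w))) (lcp_take v w)
    rw [List.take_take, List.take_take, min_eq_left (min_le_right _ _)] at this
    exact this
  exact e1.trans e2

/-- After the common initial part the next letters (if both exist) are different. Induction. -/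
theorem lcp_next (u v : List α) (a b : α) (u' v' : List α) (hu : u.drop (lcp u v) = a :: u')
    (hv : v.drop (lcp u v) = b :: v') : a ≠ b := by
  induction u generalizing v with
  | nil => cases v <;> simp [lcp] at hu
  | cons c u ih =>
    cases v with
    | nil => simp [lcp] at hv
    | cons d v =>
      by_cases h : c = d
      · subst h
        have e : lcp (c :: u) (c :: v) = lcp u v + 1 := by simp [lcp]
        rw [e, List.drop_succ_cons] at hu hv
        exact ih v hu hv
      · have e : lcp (c :: u) (d :: v) = 0 := by simp [lcp, h]
        rw [e, List.drop_zero] at hu hv
        have h1 : c = a := (List.cons.inj hu).1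
        have h2 : d = b := (List.cons.inj hv).1
        rw [← h1, ← h2]
        exact h

end Pool.Agent.Helper32.OR
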