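import Pool.Agent.Helper32.OR.F1

/-!
The reduced word of a quotient (project OR, MP_d4e3d0_lc).
-/

namespace Pool.Agent.Helper32.OR

open FreeGroup

variable {α : Type*} [DecidableEq α]

private theorem F2_isReduced_invRev {w : List (α × Bool)} (h : IsReduced w) :
    IsReduced (invRev w) := by
  rw [isReduced_iff_reduce_eq] at h ⊢
  rw [reduce_invRev, h]

omit [DecidableEq α] in
private theorem F2_getLast_invRev (w : List (α × Bool)) :
    (invRev w).getLast? = w.head?.map (fun a => (a.1, !a.2)) := by
  cases w with
  | nil => simp [invRev]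
  | cons a w => simp [invRev]

private theorem F2_joint {A B : List (α × Bool)} (hA : IsReduced A) (hB : IsReduced B)
    (h : ∀ a b A' B', A = a :: A' → B = b :: B' → a ≠ b) : IsReduced (invRev A ++ B) := by
  have hA' := F2_isReduced_invRev hA
  unfold FreeGroup.IsReduced at hA' hB ⊢
  rw [List.isChain_append]
  refine ⟨hA', hB, ?_⟩
  intro x hx y hy
  rw [F2_getLast_invRev] at hx
  cases A with
  | nil => simp at hx
  | cons a A' =>
    cases B with
    | nil => simp at hy
    | cons b B' =>
      simp only [List.head?_cons, Option.map_some, Option.mem_def, Option.some.injEq] at hx hy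
      subst hx
      subst hy
      intro h1
      have hne := h a b A' B' rfl rfl
      obtain ⟨a1, a2⟩ := a
      obtain ⟨b1, b2⟩ := b
      simp only at h1 ⊢
      subst h1
      cases a2 <;> cases b2 <;> simp_all

/-- With `l = lcp x.toWord y.toWord`: the word `invRev (x.toWord.drop l) ++ y.toWord.drop l` is
reduced (`lcp_next`: at the joint the letters are `(a.1, !a.2)` and `b` with `a ≠ b`), and it
represents `x⁻¹ * y` because `x = mk (take l) * mk (drop l)`, `y = mk (take l) * mk (drop l)` with
the same `take`. -/
theorem toWord_inv_mul (x y : FreeGroup α) : (x⁻¹ * y).toWord =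
    invRev (x.toWord.drop (lcp x.toWord y.toWord)) ++
      y.toWord.drop (lcp x.toWord y.toWord) := by
  have hx : x = mk (x.toWord.take (lcp x.toWord y.toWord)) *
      mk (x.toWord.drop (lcp x.toWord y.toWord)) := by
    rw [mul_mk, List.take_append_drop, mk_toWord]
  have hy : y = mk (x.toWord.take (lcp x.toWord y.toWord)) *
      mk (y.toWord.drop (lcp x.toWord y.toWord)) := by
    rw [lcp_take, mul_mk, List.take_append_drop, mk_toWord]
  have key : x⁻¹ * y = mk (invRev (x.toWord.drop (lcp x.toWord y.toWord)) ++
      y.toWord.drop (lcp x.toWord y.toWord)) := by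
    rw [← mul_mk, ← inv_mk]
    conv_lhs => rw [hx]
    conv_lhs =>
      enter [2]
      rw [hy]
    group
  have hred : IsReduced (invRev (x.toWord.drop (lcp x.toWord y.toWord)) ++
      y.toWord.drop (lcp x.toWord y.toWord)) := by
    apply F2_joint
    · have h := isReduced_toWord (x := x)
      unfold FreeGroup.IsReduced at h ⊢
      exact h.drop _
    · have h := isReduced_toWord (x := y)
      unfold FreeGroup.IsReduced at h ⊢
      exact h.drop _
    · intro a b A' B' h1 h2
      exact lcp_next _ _ a b A' B' h1 h2
  rw [key, toWord_mk, hred.reduce_eq]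

/-- Lengths in `toWord_inv_mul`. -/
theorem norm_inv_mul (x y : FreeGroup α) :
    (x⁻¹ * y).norm + 2 * lcp x.toWord y.toWord = x.norm + y.norm := by
  have h := congrArg List.length (toWord_inv_mul x y)
  rw [List.length_append, invRev_length, List.length_drop, List.length_drop] at h
  have h1 := lcp_le_left x.toWord y.toWord
  have h2 := lcp_le_right x.toWord y.toWord
  unfold FreeGroup.norm
  omega

end Pool.Agent.Helper32.OR
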