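import Pool.Agent.Helper32.OR.Tree
import Pool.Agent.Helper32.OR.F2

/-!
The Cayley tree of a free group as a discrete tree metric (project OR, MP_d4e3d0_lc).
-/

namespace Pool.Agent.Helper32.OR

open FreeGroup

variable {α : Type*} [DecidableEq α]

theorem F3_split (b : FreeGroup α) (l : ℕ) (hl : l ≤ b.norm) (m : FreeGroup α)
    (hm : m = FreeGroup.mk (b.toWord.take l)) :
    m.norm = l ∧ (m⁻¹ * b).norm + l = b.norm := by
  have hr : m⁻¹ * b = FreeGroup.mk (b.toWord.drop l) := by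
    have h1 : b = m * FreeGroup.mk (b.toWord.drop l) := by
      rw [hm, FreeGroup.mul_mk, List.take_append_drop, FreeGroup.mk_toWord]
    rw [inv_mul_eq_iff_eq_mul]
    exact h1
  have h1 : m.norm ≤ l := by
    rw [hm]
    refine FreeGroup.norm_mk_le.trans ?_
    rw [List.length_take]
    exact min_le_left _ _
  have h2 : (m⁻¹ * b).norm ≤ b.norm - l := by
    rw [hr]
    refine FreeGroup.norm_mk_le.trans ?_
    rw [List.length_drop]
    exact le_refl _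
  have h3 : b.norm ≤ m.norm + (m⁻¹ * b).norm := by
    calc b.norm = (m * (m⁻¹ * b)).norm := by rw [mul_inv_cancel_left]
      _ ≤ _ := FreeGroup.norm_mul_le _ _
  omega

theorem F3_med (x y z : FreeGroup α) : ∃ m : FreeGroup α,
    (x⁻¹ * m).norm + (m⁻¹ * y).norm = (x⁻¹ * y).norm ∧
    (y⁻¹ * m).norm + (m⁻¹ * z).norm = (y⁻¹ * z).norm ∧
    (x⁻¹ * m).norm + (m⁻¹ * z).norm = (x⁻¹ * z).norm := by
  have hly : lcp (x⁻¹ * y).toWord (x⁻¹ * z).toWord ≤ (x⁻¹ * y).norm := lcp_le_left _ _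
  have hlz : lcp (x⁻¹ * y).toWord (x⁻¹ * z).toWord ≤ (x⁻¹ * z).norm := lcp_le_right _ _
  have ht := lcp_take (x⁻¹ * y).toWord (x⁻¹ * z).toWord
  have hn := norm_inv_mul (x⁻¹ * y) (x⁻¹ * z)
  obtain ⟨h1, h2⟩ := F3_split (x⁻¹ * y) _ hly _ rfl
  obtain ⟨h3, h4⟩ := F3_split (x⁻¹ * z) _ hlz
    (FreeGroup.mk ((x⁻¹ * y).toWord.take (lcp (x⁻¹ * y).toWord (x⁻¹ * z).toWord)))
    (by rw [ht])
  set m' : FreeGroup α :=
    FreeGroup.mk ((x⁻¹ * y).toWord.take (lcp (x⁻¹ * y).toWord (x⁻¹ * z).toWord)) with hm'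
  set l : ℕ := lcp (x⁻¹ * y).toWord (x⁻¹ * z).toWord with hl
  have e1 : x⁻¹ * (x * m') = m' := inv_mul_cancel_left x m'
  have e2 : (x * m')⁻¹ * y = m'⁻¹ * (x⁻¹ * y) := by group
  have e3 : (x * m')⁻¹ * z = m'⁻¹ * (x⁻¹ * z) := by group
  have e4 : (y⁻¹ * (x * m')).norm = (m'⁻¹ * (x⁻¹ * y)).norm := by
    have h5 : y⁻¹ * (x * m') = (m'⁻¹ * (x⁻¹ * y))⁻¹ := by group
    rw [h5, FreeGroup.norm_inv_eq]
  have e5 : (x⁻¹ * y)⁻¹ * (x⁻¹ * z) = y⁻¹ * z := by group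
  refine ⟨x * m', ?_, ?_, ?_⟩
  · rw [e1, e2]
    omega
  · rw [e4, e3]
    rw [e5] at hn
    omega
  · rw [e1, e3]
    omega

theorem F3_hyp (x y z w : FreeGroup α) : (x⁻¹ * y).norm + (z⁻¹ * w).norm ≤
    max ((x⁻¹ * z).norm + (y⁻¹ * w).norm) ((x⁻¹ * w).norm + (y⁻¹ * z).norm) := by
  have h1 := norm_inv_mul (x⁻¹ * z) (x⁻¹ * w)
  have h2 := norm_inv_mul (x⁻¹ * y) (x⁻¹ * w)
  have h3 := norm_inv_mul (x⁻¹ * y) (x⁻¹ * z)
  have e1 : (x⁻¹ * z)⁻¹ * (x⁻¹ * w) = z⁻¹ * w := by group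
  have e2 : (x⁻¹ * y)⁻¹ * (x⁻¹ * w) = y⁻¹ * w := by group
  have e3 : (x⁻¹ * y)⁻¹ * (x⁻¹ * z) = y⁻¹ * z := by group
  rw [e1] at h1
  rw [e2] at h2
  rw [e3] at h3
  have h4 := lcp_ultra (x⁻¹ * z).toWord (x⁻¹ * y).toWord (x⁻¹ * w).toWord
  rw [lcp_comm (x⁻¹ * z).toWord (x⁻¹ * y).toWord] at h4
  rcases min_le_iff.1 h4 with h5 | h5
  · refine le_max_of_le_right ?_
    omega
  · refine le_max_of_le_left ?_
    omega

/-- The Cayley tree of the free group. `hyp` (four point condition): by left translation by `x⁻¹`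
one may take `x = 1`; then it is `norm_inv_mul` and `lcp_ultra`. `med`: translate to `x = 1`; the
median of `1, y, z` is `mk (y.toWord.take l)` with `l = lcp y.toWord z.toWord`. -/
noncomputable def ftree (α : Type*) [DecidableEq α] : TreeSp (FreeGroup α) where
  d x y := (x⁻¹ * y).norm
  d_self x := by rw [inv_mul_cancel, FreeGroup.norm_one]
  eq_of_d x y h := by
    rw [FreeGroup.norm_eq_zero] at h
    exact (inv_mul_eq_one.1 h)
  d_comm x y := by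
    have h : y⁻¹ * x = (x⁻¹ * y)⁻¹ := by group
    rw [h, FreeGroup.norm_inv_eq]
  tri x y z := by
    have h : x⁻¹ * z = (x⁻¹ * y) * (y⁻¹ * z) := by group
    rw [h]
    exact FreeGroup.norm_mul_le _ _
  hyp := F3_hyp
  med := F3_med

theorem ftree_d (x y : FreeGroup α) : (ftree α).d x y = (x⁻¹ * y).norm := rfl

end Pool.Agent.Helper32.OR
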