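import Pool.Agent.Helper32.OR.Defs

/-!
Subwords of the periodic word (project OR, MP_d4e3d0_lc).
-/

namespace Pool.Agent.Helper32.OR

open FreeGroup

variable {α : Type*} (c : List α) (hc : c ≠ [])

theorem FL1_cyc_congr {i j : ℤ} (h : (c.length : ℤ) ∣ i - j) : cyc c hc i = cyc c hc j := by
  have h1 : i % (c.length : ℤ) = j % (c.length : ℤ) :=
    (Int.emod_eq_emod_iff_emod_sub_eq_zero).mpr (Int.emod_eq_zero_of_dvd h)
  unfold cyc
  simp only [h1]

theorem FL1_cycWord_eq (i : ℤ) (m : ℕ) :
    cycWord c hc i m = (List.range m).map (fun x : ℕ => cyc c hc (i + (x : ℤ))) := by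
  have h : (List.range m).flatMap (fun a : ℕ => [(a : ℤ)]) =
      (List.range m).map (fun a : ℕ => (a : ℤ)) := by
    generalize List.range m = l
    induction l with
    | nil => rfl
    | cons a l ih => rw [List.flatMap_cons, ih]; rfl
  show List.map (fun x : ℤ => cyc c hc (i + x))
    ((List.range m).flatMap (fun a : ℕ => [(a : ℤ)])) = _
  rw [h, List.map_map]
  rfl

theorem cyc_add_length (i : ℤ) : cyc c hc (i + c.length) = cyc c hc i := by
  apply FL1_cyc_congr
  rw [add_sub_cancel_left]

theorem cyc_of_lt (i : ℕ) (hi : i < c.length) : cyc c hc i = c.get ⟨i, hi⟩ := by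
  have h1 : (i : ℤ) % (c.length : ℤ) = i := Int.emod_eq_of_lt (by omega) (by omega)
  unfold cyc
  simp only [h1, Int.toNat_natCast]

theorem length_cycWord (i : ℤ) (m : ℕ) : (cycWord c hc i m).length = m := by
  simp [cycWord]

theorem cycWord_add (i : ℤ) (m m' : ℕ) :
    cycWord c hc i (m + m') = cycWord c hc i m ++ cycWord c hc (i + m) m' := by
  rw [FL1_cycWord_eq, FL1_cycWord_eq, FL1_cycWord_eq, List.range_add, List.map_append,
    List.map_map]
  congr 1
  apply List.map_congr_left
  intro x _
  simp only [Function.comp_apply]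
  congr 1
  push_cast
  ring

theorem cycWord_zero_length : cycWord c hc 0 c.length = c := by
  apply List.ext_getElem (length_cycWord c hc 0 c.length)
  intro k h1 h2
  have h3 : (cycWord c hc 0 c.length)[k] = cyc c hc (0 + (k : ℤ)) := by
    simp [FL1_cycWord_eq]
  rw [h3, zero_add, cyc_of_lt c hc k h2]
  rfl

theorem cycWord_add_length (i : ℤ) (m : ℕ) :
    cycWord c hc (i + c.length) m = cycWord c hc i m := by
  rw [FL1_cycWord_eq, FL1_cycWord_eq]
  apply List.map_congr_left
  intro x _
  apply FL1_cyc_congr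
  have h1 : i + (c.length : ℤ) + x - (i + x) = c.length := by ring
  rw [h1]

/-- From `cycWord_add_length` by induction on the quotient. -/
theorem cycWord_of_dvd (i j : ℤ) (m : ℕ) (h : (c.length : ℤ) ∣ i - j) :
    cycWord c hc i m = cycWord c hc j m := by
  rw [FL1_cycWord_eq, FL1_cycWord_eq]
  apply List.map_congr_left
  intro x _
  apply FL1_cyc_congr
  have h1 : i + (x : ℤ) - (j + x) = i - j := by ring
  rw [h1]
  exact h

/-- A window of a window. -/
theorem win_cycWord (i : ℤ) (m s k : ℕ) (h : k + s ≤ m) :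
    win (cycWord c hc i m) s k = cycWord c hc (i + k) s := by
  obtain ⟨r, rfl⟩ := Nat.exists_eq_add_of_le h
  unfold win
  rw [add_assoc k s r, cycWord_add, cycWord_add, List.drop_left' (length_cycWord c hc i k),
    List.take_left' (length_cycWord c hc (i + k) s)]

end Pool.Agent.Helper32.OR
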