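import Pool.Agent.Helper32.OR.FL1

/-!
The periodic word is reduced (project OR, MP_d4e3d0_lc).
-/

namespace Pool.Agent.Helper32.OR

open FreeGroup

variable {α : Type*} [DecidableEq α] (c : List (α × Bool)) (hc : c ≠ [])

private theorem FL2_cyc_eq (i : ℤ) (k : ℕ) (hk : k < c.length) (h : i % (c.length : ℤ) = k) :
    cyc c hc i = c.get ⟨k, hk⟩ := by
  unfold cyc
  congr 1
  apply Fin.ext
  simp only
  omega

/-- Consecutive letters of the periodic word do not cancel (inside `c` because `c` is reduced, at
the end because `c` is cyclically reduced). -/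
theorem cyc_next (h : IsCyclicallyReduced c) (i : ℤ) :
    (cyc c hc i).1 = (cyc c hc (i + 1)).1 → (cyc c hc i).2 = (cyc c hc (i + 1)).2 := by
  have hl : 0 < c.length := List.length_pos_iff.2 hc
  have hL : (0 : ℤ) < c.length := by exact_mod_cast hl
  have h0 := Int.emod_nonneg i (by omega : (c.length : ℤ) ≠ 0)
  have h1 := Int.emod_lt_of_pos i hL
  obtain ⟨k, hk⟩ := Int.eq_ofNat_of_zero_le h0
  have hkl : k < c.length := by omega
  have e0 : cyc c hc i = c.get ⟨k, hkl⟩ := FL2_cyc_eq c hc i k hkl hk
  rcases Nat.lt_or_ge (k + 1) c.length with h2 | h2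
  · have e1 : cyc c hc (i + 1) = c.get ⟨k + 1, h2⟩ := by
      apply FL2_cyc_eq c hc (i + 1) (k + 1) h2
      rw [Int.add_emod, hk, Int.emod_eq_of_lt (by omega : (0 : ℤ) ≤ 1)
        (by omega : (1 : ℤ) < c.length)]
      push_cast
      exact Int.emod_eq_of_lt (by omega) (by omega)
    rw [e0, e1]
    have h3 := h.1
    rw [FreeGroup.IsReduced, List.isChain_iff_getElem] at h3
    exact h3 k h2
  · have hk1 : k + 1 = c.length := by omega
    have e1 : cyc c hc (i + 1) = c.get ⟨0, hl⟩ := by
      apply FL2_cyc_eq c hc (i + 1) 0 hl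
      have : i + 1 = (c.length : ℤ) * (i / c.length + 1) := by
        have h6 := Int.emod_add_mul_ediv i (c.length : ℤ)
        rw [hk] at h6
        have h4 : (k : ℤ) + 1 = c.length := by exact_mod_cast hk1
        linarith
      rw [this]
      simp
    rw [e0, e1]
    refine h.2 _ ?_ _ ?_
    · have h7 : c.length - 1 = k := by omega
      rw [List.getLast?_eq_getElem?, h7, List.getElem?_eq_getElem hkl]
      simp
    · rw [List.head?_eq_getElem?, List.getElem?_eq_getElem hl]
      simp

private theorem FL2_word (i : ℤ) (m : ℕ) :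
    cycWord c hc i m = (List.range m).map (fun x : ℕ => cyc c hc (i + (x : ℤ))) := by
  have h : (List.range m).flatMap (fun a : ℕ => [(a : ℤ)]) =
      (List.range m).map (fun a : ℕ => (a : ℤ)) := (List.map_eq_flatMap).symm
  have h1 : cycWord c hc i m =
      ((List.range m).flatMap (fun a : ℕ => [(a : ℤ)])).map (fun x : ℤ => cyc c hc (i + x)) := rfl
  rw [h1, h, List.map_map]
  rfl

/-- From `cyc_next`. -/
theorem cycWord_reduced (h : IsCyclicallyReduced c) (i : ℤ) (m : ℕ) :
    IsReduced (cycWord c hc i m) := by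
  rw [FL2_word, FreeGroup.IsReduced, List.isChain_iff_getElem]
  intro k hk
  simp only [List.getElem_map, List.getElem_range]
  have := cyc_next c hc h (i + k)
  push_cast
  rw [← add_assoc]
  exact this

end Pool.Agent.Helper32.OR
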