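import Pool.Agent.Helper32.OR.FL2
import Pool.Agent.Helper32.OR.F3

/-!
The axis of a cyclically reduced word (project OR, MP_d4e3d0_lc).
-/

namespace Pool.Agent.Helper32.OR

open FreeGroup

variable {α : Type*} [DecidableEq α] (c : List (α × Bool)) (hc : c ≠ [])

/-- The vertex at place `i` of the axis of `c`. -/
noncomputable def lineA (i : ℤ) : FreeGroup α :=
  if 0 ≤ i then mk (cycWord c hc 0 i.toNat) else (mk (cycWord c hc i (-i).toNat))⁻¹

omit [DecidableEq α] in
private theorem FL3_nonneg (n : ℕ) : lineA c hc (n : ℤ) = mk (cycWord c hc 0 n) := by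
  rw [lineA, if_pos (Int.natCast_nonneg n), Int.toNat_natCast]

omit [DecidableEq α] in
private theorem FL3_neg (i : ℤ) (n : ℕ) (h : i + n = 0) :
    lineA c hc i = (mk (cycWord c hc i n))⁻¹ := by
  by_cases h0 : 0 ≤ i
  · have hi : i = 0 := by omega
    have hn : n = 0 := by omega
    subst hi
    subst hn
    have h1 : cycWord c hc 0 0 = [] := List.length_eq_zero_iff.1 (length_cycWord c hc 0 0)
    rw [lineA, if_pos le_rfl, Int.toNat_zero, h1, ← one_eq_mk, inv_one]
  · rw [lineA, if_neg h0]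
    have hn : (-i).toNat = n := by omega
    rw [hn]

/-- Cases on the signs of `i` and `i + m`, with `cycWord_add`. -/
theorem lineA_diff (i : ℤ) (m : ℕ) :
    (lineA c hc i)⁻¹ * lineA c hc (i + m) = mk (cycWord c hc i m) := by
  by_cases h0 : 0 ≤ i
  · obtain ⟨n, rfl⟩ := Int.eq_ofNat_of_zero_le h0
    have h1 : ((n : ℤ) + m) = ((n + m : ℕ) : ℤ) := by push_cast; ring
    rw [h1, FL3_nonneg, FL3_nonneg, cycWord_add, zero_add, ← mul_mk, inv_mul_cancel_left]
  · obtain ⟨n, hn⟩ : ∃ n : ℕ, i + n = 0 := ⟨(-i).toNat, by omega⟩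
    rw [FL3_neg c hc i n hn, inv_inv]
    by_cases h2 : n ≤ m
    · obtain ⟨m', rfl⟩ := Nat.exists_eq_add_of_le h2
      have h3 : i + ((n + m' : ℕ) : ℤ) = (m' : ℤ) := by push_cast; omega
      rw [h3, FL3_nonneg, cycWord_add, hn, mul_mk]
    · obtain ⟨m', rfl⟩ := Nat.exists_eq_add_of_le (le_of_not_ge h2)
      rw [FL3_neg c hc (i + m) m' (by push_cast at hn; omega), cycWord_add, ← mul_mk,
        mul_inv_cancel_right]

/-- `lineA 0 = 1`, `lineA c.length = mk c`, and `lineA_diff` with `cycWord_add_length`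
(first for `i ≥ 0`, then in general through `lineA_diff` from `i` to `0` and from `i + L` to
`L`). -/
theorem lineA_trans (i : ℤ) : mk c * lineA c hc i = lineA c hc (i + c.length) := by
  have hL : lineA c hc (c.length : ℤ) = mk c := by
    rw [FL3_nonneg, cycWord_zero_length]
  by_cases h0 : 0 ≤ i
  · obtain ⟨n, rfl⟩ := Int.eq_ofNat_of_zero_le h0
    have h1 := lineA_diff c hc (c.length : ℤ) n
    have h2 := cycWord_add_length c hc 0 n
    rw [zero_add] at h2
    rw [h2, hL, ← FL3_nonneg, inv_mul_eq_iff_eq_mul] at h1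
    rw [← h1, add_comm]
  · obtain ⟨n, hn⟩ : ∃ n : ℕ, i + n = 0 := ⟨(-i).toNat, by omega⟩
    have h1 := lineA_diff c hc (i + c.length) n
    have h3 : i + (c.length : ℤ) + n = c.length := by omega
    rw [h3, cycWord_add_length, hL, inv_mul_eq_iff_eq_mul] at h1
    rw [FL3_neg c hc i n hn, h1, mul_inv_cancel_right]

/-- By `lineA_diff` and `cycWord_reduced` (and `norm x⁻¹ = norm x` for `i > j`). -/
theorem lineA_dist (h : IsCyclicallyReduced c) (i j : ℤ) :
    ((ftree α).d (lineA c hc i) (lineA c hc j) : ℤ) = |i - j| := by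
  have key : ∀ (i : ℤ) (m : ℕ), ((lineA c hc i)⁻¹ * lineA c hc (i + m)).norm = m := by
    intro i m
    rw [lineA_diff, FreeGroup.norm, toWord_mk, (cycWord_reduced c hc h i m).reduce_eq, length_cycWord]
  rw [ftree_d]
  rcases le_total i j with hij | hij
  · obtain ⟨m, hm⟩ : ∃ m : ℕ, j = i + m := ⟨(j - i).toNat, by omega⟩
    subst hm
    rw [key, show i - (i + (m : ℤ)) = -(m : ℤ) by ring, abs_neg, Nat.abs_cast]
  · obtain ⟨m, hm⟩ : ∃ m : ℕ, i = j + m := ⟨(i - j).toNat, by omega⟩
    subst hm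
    have h1 := key j m
    rw [← norm_inv_eq, mul_inv_rev, inv_inv] at h1
    rw [h1, show j + (m : ℤ) - j = (m : ℤ) by ring, Nat.abs_cast]

end Pool.Agent.Helper32.OR
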