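import Pool.Agent.Helper32.OR.CvDefs
import Pool.Agent.Helper22.OR.Read

/-!
Cyclic words (project OR, MP_d4e3d0_lc).
-/

namespace Pool.Agent.Helper32.OR

open Pool.Agent.Helper22.OR Pool.Agent.Helper22.OR.Gr

variable {N : ℕ}

private theorem Lu1a_succ {L : ℕ} [NeZero L] (i : ZMod L) :
    (i.val + 1 < L ∧ (i + 1).val = i.val + 1) ∨ (i.val + 1 = L ∧ i + 1 = 0) := by
  have h1 : i + 1 = ((i.val + 1 : ℕ) : ZMod L) := by
    rw [Nat.cast_add, Nat.cast_one, ZMod.natCast_zmod_val]
  have h2 := ZMod.val_lt i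
  rcases Nat.lt_or_ge (i.val + 1) L with h | h
  · left
    refine ⟨h, ?_⟩
    rw [h1, ZMod.val_natCast, Nat.mod_eq_of_lt h]
  · right
    have h3 : i.val + 1 = L := by omega
    refine ⟨h3, ?_⟩
    rw [h1, h3, ZMod.natCast_self]

private theorem Lu1a_eq_linv {a b : Letter N} (h : a = linv b) : b.1 = a.1 ∧ b.2 ≠ a.2 := by
  subst h
  refine ⟨rfl, ?_⟩
  unfold linv
  cases b.2 <;> simp

/-- The letters of `x` as a function on `ZMod L`, `L = x.norm`. -/
theorem exists_zword (x : FreeGroup (Fin N)) (hx : x ≠ 1)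
    (hc : FreeGroup.IsCyclicallyReduced x.toWord) : ∃ w : ZMod x.norm → Letter N,
      (∀ i : ℕ, x.toWord[i]? = if i < x.norm then some (w (i : ZMod x.norm)) else none) ∧
      wd w = x ∧ ∀ i, w (i + 1) ≠ linv (w i) := by
  have hL0 : x.norm ≠ 0 := fun h => hx (FreeGroup.norm_eq_zero.1 h)
  have : NeZero x.norm := ⟨hL0⟩
  have hL : x.toWord.length = x.norm := rfl
  have h0 : 0 < x.toWord.length := by omega
  have hv : ∀ i : ZMod x.norm, i.val < x.toWord.length := fun i => by
    rw [hL]
    exact ZMod.val_lt i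
  have hget : ∀ i : ℕ, x.toWord[i]? =
      if i < x.norm then
        some ((fun j : ZMod x.norm => x.toWord[j.val]'(hv j)) (i : ZMod x.norm)) else none := by
    intro i
    split_ifs with hi
    · have h1 : ((i : ZMod x.norm)).val = i := by
        rw [ZMod.val_natCast, Nat.mod_eq_of_lt hi]
      simp only [h1]
      exact List.getElem?_eq_getElem (by omega)
    · exact List.getElem?_eq_none (by omega)
  refine ⟨fun j => x.toWord[j.val]'(hv j), hget, ?_, ?_⟩
  · have h1 : (List.range x.norm).map
        (fun i : ℕ => (fun j : ZMod x.norm => x.toWord[j.val]'(hv j)) (i : ZMod x.norm)) =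
        x.toWord := by
      apply List.ext_getElem?
      intro i
      rw [hget i]
      split_ifs with hi
      · rw [List.getElem?_map, List.getElem?_range hi]
        rfl
      · apply List.getElem?_eq_none
        rw [List.length_map, List.length_range]
        omega
    unfold wd
    rw [h1, FreeGroup.mk_toWord]
  · intro i hi
    obtain ⟨h1, h2⟩ := Lu1a_eq_linv hi
    simp only at h1 h2
    rcases Lu1a_succ i with ⟨h3, h4⟩ | ⟨h3, h4⟩
    · have h5 := List.isChain_iff_getElem.mp hc.1 i.val (by omega)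
      apply h2
      have h6 : (x.toWord[(i + 1).val]'(hv (i + 1))) = x.toWord[i.val + 1]'(by omega) := by
        congr 1
      rw [h6]
      rw [h6] at h1
      exact h5 h1
    · apply h2
      have h5 : (x.toWord[(i + 1).val]'(hv (i + 1))) = x.toWord[0]'h0 := by
        congr 1
        rw [h4, ZMod.val_zero]
      have h6 : (x.toWord[i.val]'(hv i)) = x.toWord.getLast (List.length_pos_iff.1 h0) := by
        rw [List.getLast_eq_getElem]
        congr 1
        omega
      refine hc.2 _ ?_ _ ?_ h1
      · rw [h6, List.getLast?_eq_getLast_of_ne_nil (List.length_pos_iff.1 h0)]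
        rfl
      · rw [h5, List.head?_eq_getElem?, List.getElem?_eq_getElem h0]
        rfl

private theorem Lu1a_walk {Γ : Gr (Fin N)} {u v : Γ.V} {l : List Γ.D} (h : walk Γ u l v) :
    ∀ (i : ℕ) (hi : i < l.length), (i = 0 → Γ.st (l[i]'hi) = u) ∧
      (i + 1 = l.length → Γ.en (l[i]'hi) = v) ∧
      (∀ hj : i + 1 < l.length, Γ.en (l[i]'hi) = Γ.st (l[i + 1]'hj)) := by
  induction l generalizing u with
  | nil => intro i hi; simp at hi
  | cons d l ih =>
    obtain ⟨h1, h2⟩ := h
    intro i hi
    rcases i with _ | i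
    · refine ⟨fun _ => h1, fun h3 => ?_, fun hj => ?_⟩
      · have h4 : l = [] := by
          rw [← List.length_eq_zero_iff]
          simpa using h3.symm
        subst h4
        exact h2
      · have h4 : 0 < l.length := by simpa using hj
        exact ((ih h2 0 h4).1 rfl).symm
    · have hi' : i < l.length := by simpa using hi
      obtain ⟨_, h4, h5⟩ := ih h2 i hi'
      refine ⟨fun h => absurd h (by omega), fun h3 => ?_, fun hj => ?_⟩
      · exact h4 (by simpa using h3)
      · exact h5 (by simpa using hj)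

/-- `walk_of_P` gives a list of darts with the word `x.toWord`; make it a function on
`ZMod x.norm`. -/
theorem exists_loop (x : FreeGroup (Fin N)) (hx : x ≠ 1) (w : ZMod x.norm → Letter N)
    (hw : ∀ i : ℕ, x.toWord[i]? = if i < x.norm then some (w (i : ZMod x.norm)) else none)
    (hr : ∀ i, w (i + 1) ≠ linv (w i)) (Γ : Gr (Fin N)) (hf : Γ.Folded)
    (hm : x ∈ Γ.im FreeGroup.of) : ∃ p : ZMod x.norm → Γ.D, Loop w Γ p := by
  have hL0 : x.norm ≠ 0 := fun h => hx (FreeGroup.norm_eq_zero.1 h)
  have : NeZero x.norm := ⟨hL0⟩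
  obtain ⟨l, hl1, hl2⟩ := walk_of_P hf (mem_im.mp hm)
  have hL : l.length = x.norm := by
    rw [← List.length_map (f := Γ.lt), hl2]
    rfl
  have hv : ∀ i : ZMod x.norm, i.val < l.length := fun i => by
    rw [hL]
    exact ZMod.val_lt i
  have hW := Lu1a_walk hl1
  have hst0 : ∀ i : ZMod x.norm, i = 0 → Γ.st (l[i.val]'(hv i)) = Γ.base := by
    intro i hi
    refine (hW i.val (hv i)).1 ?_
    rw [hi, ZMod.val_zero]
  refine ⟨fun i => l[i.val]'(hv i), fun i => ?_, fun i => ?_, hst0 0 rfl, hr⟩
  · rcases Lu1a_succ i with ⟨h3, h4⟩ | ⟨h3, h4⟩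
    · rw [(hW i.val (hv i)).2.2 (by omega)]
      congr 1
      congr 1
      exact h4.symm
    · rw [(hW i.val (hv i)).2.1 (by omega)]
      exact (hst0 (i + 1) h4).symm
  · have h1 := hw i.val
    rw [if_pos (ZMod.val_lt i), ZMod.natCast_zmod_val, ← hl2, List.getElem?_map,
      List.getElem?_eq_getElem (hv i)] at h1
    exact Option.some.inj h1

end Pool.Agent.Helper32.OR
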