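import Pool.Agent.Helper32.OR.Lu1a

/-!
Cyclic words (project OR, MP_d4e3d0_lc).
-/

namespace Pool.Agent.Helper32.OR

open Pool.Agent.Helper22.OR Pool.Agent.Helper22.OR.Gr

variable {N : ℕ}

theorem Lu1b_pow (W : ℕ → Letter N) (g : ℕ) (hW : ∀ q i : ℕ, W (g * q + i) = W i) (q : ℕ) :
    FreeGroup.mk ((List.range (g * q)).map W) = (FreeGroup.mk ((List.range g).map W)) ^ q := by
  induction q with
  | zero => rfl
  | succ q ih =>
    rw [Nat.mul_succ, List.range_add, List.map_append, ← FreeGroup.mul_mk, ih, pow_succ,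
      List.map_map]
    congr 2
    exact List.map_congr_left (fun i _ => hW q i)

/-- If `w (i + d) = w i` for all `i` and `d ≠ 0` then `g = gcd (d.val, L) < L` is also a period, and
`wd w = (mk (first g letters)) ^ (L / g)` is a proper power. -/
theorem per_of_root {L : ℕ} [NeZero L] (w : ZMod L → Letter N) (hr : IsRoot (wd w)) (d : ZMod L)
    (hd : ∀ i, w (i + d) = w i) : d = 0 := by
  by_contra hd0
  have hv : d.val ≠ 0 := fun h => hd0 ((ZMod.val_eq_zero d).mp h)
  have hvL : d.val < L := ZMod.val_lt d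
  set g := Nat.gcd d.val L with hg
  have hgL : g ∣ L := Nat.gcd_dvd_right _ _
  have hgd : g ≤ d.val := Nat.le_of_dvd (Nat.pos_of_ne_zero hv) (Nat.gcd_dvd_left _ _)
  have hper : Function.Periodic w d := hd
  have h1 : (g : ZMod L) = (Nat.gcdA d.val L) • d := by
    have h2 := congrArg (fun z : ℤ => (z : ZMod L)) (Nat.gcd_eq_gcd_ab d.val L)
    simp only [Int.cast_natCast, Int.cast_add, Int.cast_mul, ZMod.natCast_self, zero_mul,
      add_zero, ZMod.natCast_zmod_val] at h2
    rw [← hg] at h2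
    rw [h2, zsmul_eq_mul, mul_comm]
  have h3 : Function.Periodic w (g : ZMod L) := by rw [h1]; exact hper.zsmul _
  obtain ⟨q, hq⟩ := hgL
  have h4 : ∀ q' i : ℕ, w ((g * q' + i : ℕ) : ZMod L) = w ((i : ℕ) : ZMod L) := by
    intro q' i
    have h5 := (h3.nsmul q') (i : ZMod L)
    rw [← h5]
    congr 1
    push_cast
    rw [nsmul_eq_mul]
    ring
  have h6 := Lu1b_pow (fun i : ℕ => w (i : ZMod L)) g h4 q
  rw [← hq] at h6
  have h7 := hr (FreeGroup.mk ((List.range g).map (fun i : ℕ => w (i : ZMod L)))) (q : ℤ)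
    (by rw [zpow_natCast]; exact h6.symm)
  have h8 : q ≠ 1 := by
    rintro rfl
    omega
  omega

end Pool.Agent.Helper32.OR
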