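import Pool.Agent.Helper32.OR.Lu1b

/-!
Cyclic words (project OR, MP_d4e3d0_lc).
-/

namespace Pool.Agent.Helper32.OR

open Pool.Agent.Helper22.OR Pool.Agent.Helper22.OR.Gr

variable {N : ℕ}

/-- A conjugate of minimal norm is cyclically reduced. -/
theorem exists_cyc (x : FreeGroup (Fin N)) : ∃ g : FreeGroup (Fin N),
    FreeGroup.IsCyclicallyReduced (g * x * g⁻¹).toWord := by
  have hred : FreeGroup.IsReduced x.toWord := FreeGroup.isReduced_toWord
  have h1 := FreeGroup.reduceCyclically.conj_conjugator_reduceCyclically x.toWord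
  have h2 := FreeGroup.reduceCyclically.isCyclicallyReduced hred
  obtain ⟨c, hc⟩ : ∃ c, c = FreeGroup.mk (FreeGroup.reduceCyclically.conjugator x.toWord) :=
    ⟨_, rfl⟩
  obtain ⟨y, hy⟩ : ∃ y, y = FreeGroup.mk (FreeGroup.reduceCyclically x.toWord) := ⟨_, rfl⟩
  have h3 : x = c * y * c⁻¹ := by
    rw [hc, hy, FreeGroup.inv_mk, FreeGroup.mul_mk, FreeGroup.mul_mk, h1, FreeGroup.mk_toWord]
  refine ⟨c⁻¹, ?_⟩
  have h4 : c⁻¹ * x * c⁻¹⁻¹ = y := by
    rw [h3]
    group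
  rw [h4, hy, FreeGroup.toWord_mk, (FreeGroup.isReduced_iff_reduce_eq).1 h2.isReduced]
  exact h2

end Pool.Agent.Helper32.OR
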