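import Pool.Agent.Helper32.OR.Pu8c
import Pool.Agent.Helper32.OR.Cv1b
import Pool.Agent.Helper32.OR.Cv2c
import Pool.Agent.Helper32.OR.Lu1c
import Pool.Agent.Helper22.OR.Init
import Pool.Agent.Helper22.OR.Fold
import Pool.Agent.Helper22.OR.Max

/-!
Two subgroups of rank two with a common nonprimitive element (project OR, MP_d4e3d0_lc).
-/

namespace Pool.Agent.Helper32.OR

open Pool.Agent.Helper22.OR Pool.Agent.Helper22.OR.Gr

variable {N : ℕ}

/-- For `H` and `K` take minimal good graphs (`exists_good` with `f = FreeGroup.of`, `exists_mini`), folded by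
`Mini.folded`; loops from `exists_loop`; `cover` and `twice`; then the structure `Circ` and
`gen_push`. -/
theorem lemmaU_cyc (H K : Subgroup (FreeGroup (Fin N))) (hH : Gen 2 H) (hK : Gen 2 K)
    (x : FreeGroup (Fin N)) (hxH : x ∈ H) (hxK : x ∈ K) (hr : IsRoot x) (h1 : ¬ PrimIn x H)
    (h2 : ¬ PrimIn x K) (hc : FreeGroup.IsCyclicallyReduced x.toWord) : Gen 2 (H ⊔ K) := by
  have hx1 : x ≠ 1 := hr.ne_one
  obtain ⟨w, hw, hwd, hred⟩ := exists_zword x hx1 hc
  have hne : NeZero x.norm := ⟨fun h => hx1 (FreeGroup.norm_eq_zero.mp h)⟩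
  have hsurj : Function.Surjective
      (FreeGroup.lift (FreeGroup.of : Fin N → FreeGroup (Fin N))) := by
    intro y
    exact ⟨y, by rw [FreeGroup.lift_of_eq_id]; rfl⟩
  let HH : Bool → Subgroup (FreeGroup (Fin N)) := fun b => cond b K H
  have hG : ∀ b, Gen 2 (HH b) := fun b => by cases b <;> assumption
  have hx : ∀ b, x ∈ HH b := fun b => by cases b <;> assumption
  have hp : ∀ b, ¬ PrimIn x (HH b) := fun b => by cases b <;> assumption
  have h3 : ∀ b, ∃ Γ : Gr (Fin N), Γ.Mini FreeGroup.of (HH b) 2 := by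
    intro b
    obtain ⟨g, hg⟩ := hG b
    obtain ⟨Γ, hΓ⟩ := exists_good FreeGroup.of hsurj g
    rw [hg] at hΓ
    exact exists_mini ⟨Γ, hΓ⟩
  choose Γ hΓ using h3
  have hf : ∀ b, (Γ b).Folded := fun b => (hΓ b).folded
  have h4 : ∀ b, ∃ p : ZMod x.norm → (Γ b).D, Loop w (Γ b) p := fun b =>
    exists_loop x hx1 w hw hred (Γ b) (hf b) (by rw [(hΓ b).good.im_eq]; exact hx b)
  choose p hl using h4
  have h5 : ∀ b, (∀ e, ∃ i, (p b i).1 = e) ∧ ∀ v, ∃ i, (Γ b).st (p b i) = v := fun b =>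
    cover (hl b) (hΓ b) (by rw [hwd]; exact hr) (by rw [hwd]; exact hp b)
  have h6 : ∀ b, 2 * Fintype.card (Γ b).E ≤ x.norm := fun b =>
    twice (hl b) (hΓ b).good (h5 b).1 (h5 b).2 (by rw [hwd]; exact hp b)
  have hC : Circ w Γ p :=
    { folded := hf
      next := fun b => (hl b).next
      lt := fun b => (hl b).lt
      red := hred
      edge := fun b => (h5 b).1
      vert := fun b => (h5 b).2 }
  exact gen_push hC HH (fun b => (hΓ b).good) (fun b => (hl b).base) h6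
    (fun d hd => per_of_root w (by rw [hwd]; exact hr) d hd)

private theorem Lu2_gen_map {G : Type} [Group G] (ψ : G ≃* G) {k : ℕ} {M : Subgroup G}
    (h : Gen k M) : Gen k (M.map ψ.toMonoidHom) := by
  obtain ⟨g, rfl⟩ := h
  refine ⟨fun i => ψ (g i), ?_⟩
  rw [MonoidHom.map_closure, ← Set.range_comp]
  rfl

private theorem Lu2_map_symm {G : Type} [Group G] (ψ : G ≃* G) (M : Subgroup G) :
    (M.map ψ.toMonoidHom).map ψ.symm.toMonoidHom = M := by
  ext y
  constructor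
  · rintro ⟨z, ⟨t, ht, rfl⟩, rfl⟩
    have h1 : ψ.symm.toMonoidHom (ψ.toMonoidHom t) = t := ψ.symm_apply_apply t
    rw [h1]
    exact ht
  · intro hy
    exact ⟨ψ y, ⟨y, hy, rfl⟩, ψ.symm_apply_apply y⟩

private theorem Lu2_prim {G : Type} [Group G] (ψ : G ≃* G) {r : G} {M : Subgroup G}
    (h : PrimIn r M) : PrimIn (ψ r) (M.map ψ.toMonoidHom) := by
  obtain ⟨y, rfl⟩ := h
  refine ⟨ψ y, ?_⟩
  rw [MonoidHom.map_closure, Set.image_pair]
  rfl

private theorem Lu2_root {G : Type} [Group G] (ψ : G ≃* G) {r : G} (h : IsRoot r) :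
    IsRoot (ψ r) := by
  intro z k hz
  refine h (ψ.symm z) k ?_
  rw [← map_zpow, hz, ψ.symm_apply_apply]

/-- Conjugate everything by the element of `exists_cyc` (`Subgroup.map` of `MulAut.conj`). -/
theorem lemmaU (H K : Subgroup (FreeGroup (Fin N))) (hH : Gen 2 H) (hK : Gen 2 K)
    (x : FreeGroup (Fin N)) (hxH : x ∈ H) (hxK : x ∈ K) (hr : IsRoot x) (h1 : ¬ PrimIn x H)
    (h2 : ¬ PrimIn x K) : Gen 2 (H ⊔ K) := by
  obtain ⟨g, hg⟩ := exists_cyc x
  obtain ⟨ψ, hψ⟩ : ∃ ψ : FreeGroup (Fin N) ≃* FreeGroup (Fin N), ψ x = g * x * g⁻¹ :=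
    ⟨MulAut.conj g, MulAut.conj_apply g x⟩
  rw [← hψ] at hg
  have key : ∀ M : Subgroup (FreeGroup (Fin N)), ¬ PrimIn x M →
      ¬ PrimIn (ψ x) (M.map ψ.toMonoidHom) := by
    intro M hM hp
    have h3 := Lu2_prim ψ.symm hp
    rw [Lu2_map_symm, ψ.symm_apply_apply] at h3
    exact hM h3
  have h4 := lemmaU_cyc (H.map ψ.toMonoidHom) (K.map ψ.toMonoidHom) (Lu2_gen_map ψ hH)
    (Lu2_gen_map ψ hK) (ψ x) ⟨x, hxH, rfl⟩ ⟨x, hxK, rfl⟩ (Lu2_root ψ hr) (key H h1) (key K h2) hg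
  rw [← Subgroup.map_sup] at h4
  have h5 := Lu2_gen_map ψ.symm h4
  rwa [Lu2_map_symm] at h5

end Pool.Agent.Helper32.OR
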