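import Pool.Agent.Helper32.OR.Line

/-!
Greendlinger's lemma by windmills (project OR, MP_d4e3d0_lc).
-/

namespace Pool.Agent.Helper32.OR

open TreeSp

namespace Line

variable {V : Type*} {T : TreeSp V} {F : Type*} [Group F] [MulAction F V] (Λ : Line T F)

/-- Two points of one axis, far apart, on the segment from `x` to `y`. -/
def Long (x y : V) : Prop := ∃ (g : F) (i j : ℤ), g • Λ.a i ∈ T.seg x y ∧
  g • Λ.a j ∈ T.seg x y ∧ Λ.L ≤ T.d (Λ.a i) (Λ.a j) + 3 * Λ.l0 + 2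

/-- The windmill condition for a set `W` and a subgroup `K`. -/
structure Mill (x0 : V) (W : Set V) (K : Subgroup F) : Prop where
  base : x0 ∈ W
  conv : T.Conv W
  inv : ∀ k ∈ K, ∀ x ∈ W, k • x ∈ W
  w1 : ∀ g : F, (Λ.axis g ⊆ W ∧ Λ.tau g ∈ K) ∨
    (∀ p q, p ∈ Λ.axis g → p ∈ W → q ∈ Λ.axis g → q ∈ W → T.d p q < 2 * Λ.l0)
  w2 : ∀ k ∈ K, k ≠ 1 → Λ.Long x0 (k • x0)

theorem long_of {g : F} {x y p q : V} (hp : p ∈ Λ.axis g) (hq : q ∈ Λ.axis g)
    (h1 : p ∈ T.seg x y) (h2 : q ∈ T.seg x y) (h3 : Λ.L ≤ T.d p q + 3 * Λ.l0 + 2) :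
    Λ.Long x y := by
  obtain ⟨i, rfl⟩ := hp
  obtain ⟨j, rfl⟩ := hq
  rw [Λ.iso] at h3
  exact ⟨g, i, j, h1, h2, h3⟩

theorem mill_zero (x0 : V) : Λ.Mill x0 {x0} ⊥ where
  base := rfl
  conv := by
    intro x hx y hy p hp
    rw [Set.mem_singleton_iff] at *
    rw [hx, hy, mem_seg, T.d_self] at hp
    exact (T.eq_of_d _ _ (by omega : T.d x0 p = 0)).symm
  inv := by
    intro k hk x hx
    rw [Subgroup.mem_bot] at hk
    rw [hk, one_smul]
    exact hx
  w1 := by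
    intro g
    right
    rintro p q - rfl - rfl
    rw [T.d_self]
    have := Λ.l0_pos
    omega
  w2 := by
    intro k hk h
    exact absurd (Subgroup.mem_bot.1 hk) h

section step

variable {x0 : V} {W : Set V} {K : Subgroup F}

/-- The 1-neighbourhood. -/
def nb (T : TreeSp V) (W : Set V) : Set V := {x | ∃ y ∈ W, T.d x y ≤ 1}

theorem sub_nb : W ⊆ nb T W := fun x hx => ⟨x, hx, by rw [T.d_self]; omega⟩

theorem conv_nb (hW : T.Conv W) : T.Conv (nb T W) := by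
  rintro x ⟨x', hx', hx⟩ y ⟨y', hy', hy⟩ z hz
  rcases T.seg_union x' hz with h | h
  · refine ⟨x', hx', ?_⟩
    rw [mem_seg] at h
    omega
  · rcases T.seg_union y' h with h | h
    · exact sub_nb (hW x' hx' y' hy' h)
    · refine ⟨y', hy', ?_⟩
      rw [mem_seg] at h
      rw [T.d_comm y' z] at h
      rw [T.d_comm y' y] at h
      omega

variable (M : Λ.Mill x0 W K)

/-- The axes which are added. -/
def Aset (W : Set V) (K : Subgroup F) (g : F) : Prop :=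
  ¬ (Λ.axis g ⊆ W ∧ Λ.tau g ∈ K) ∧ ∃ p ∈ Λ.axis g, p ∈ nb T W

include M in
theorem inv_nb {k : F} (hk : k ∈ K) {x : V} (hx : x ∈ nb T W) : k • x ∈ nb T W := by
  obtain ⟨y, hy, h⟩ := hx
  exact ⟨k • y, M.inv k hk y hy, by rw [Λ.iso]; exact h⟩

include M in
theorem diam_nb {g : F} (hg : ¬ (Λ.axis g ⊆ W ∧ Λ.tau g ∈ K)) {p q : V} (hp : p ∈ Λ.axis g)
    (hp' : p ∈ nb T W) (hq : q ∈ Λ.axis g) (hq' : q ∈ nb T W) : T.d p q ≤ 2 * Λ.l0 + 1 := by
  obtain ⟨p', hp'⟩ := T.exists_gate M.conv ⟨x0, M.base⟩ p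
  obtain ⟨q', hq'⟩ := T.exists_gate M.conv ⟨x0, M.base⟩ q
  rename_i hpn hqn
  obtain ⟨y, hy, h1⟩ := hpn
  obtain ⟨z, hz, h2⟩ := hqn
  have h3 := T.mem_seg.1 (hp'.2 y hy)
  have h4 := T.mem_seg.1 (hq'.2 z hz)
  have h5 := Λ.l0_pos
  by_cases h : p' = q'
  · subst h
    have := T.tri p p' q
    rw [T.d_comm p' q] at this
    omega
  · have h6 := T.gates_mem hp' hq' h
    have h7 := T.gates_concat hp' hq' h
    have h8 : p' ∈ Λ.axis g := Λ.conv_axis g p hp q hq h6.1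
    have h9 : q' ∈ Λ.axis g := Λ.conv_axis g p hp q hq h6.2
    rcases M.w1 g with h10 | h10
    · exact absurd h10 hg
    · have := h10 p' q' h8 hp'.1 h9 hq'.1
      rw [T.d_comm q' q] at h7
      omega

include M in
theorem aset_mul {k g : F} (hk : k ∈ K) (h : Λ.Aset W K g) : Λ.Aset W K (k * g) := by
  refine ⟨fun h1 => h.1 ⟨fun x hx => ?_, ?_⟩, ?_⟩
  · have h2 := h1.1 (Λ.smul_mem_axis k g hx)
    have h3 := M.inv k⁻¹ (K.inv_mem hk) _ h2
    simpa using h3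
  · have h2 := h1.2
    rw [Λ.tau_mul] at h2
    have h3 := K.mul_mem (K.mul_mem (K.inv_mem hk) h2) hk
    simpa [mul_assoc] using h3
  · obtain ⟨p, hp, hp'⟩ := h.2
    exact ⟨k • p, Λ.smul_mem_axis k g hp, Λ.inv_nb M hk hp'⟩

theorem aset_same {g h : F} (H : Λ.Same g h) (hg : Λ.Aset W K g) : Λ.Aset W K h := by
  unfold Aset at *
  rw [← Λ.same_axis H, ← Λ.same_tau H]
  exact hg

/-- The gate of `z` on `axis g` is near to a point of `axis g ∩ nb W`. -/
def Near (W : Set V) (g : F) (z : V) : Prop :=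
  ∃ b p, T.IsGate (Λ.axis g) z b ∧ p ∈ Λ.axis g ∧ p ∈ nb T W ∧ T.d b p ≤ Λ.l0

/-- Points which are seen from `axis g` behind `W`. -/
inductive Adm (W : Set V) (K : Subgroup F) : F → V → Prop
  | base (g : F) (z : V) : z ∈ nb T W → Adm W K g z
  | ax (g g' : F) (z : V) : Λ.Aset W K g' → ¬ Λ.Same g g' → z ∈ Λ.axis g' → Adm W K g z
  | cons (g g1 : F) (k : ℤ) (z : V) : Λ.Aset W K g1 → ¬ Λ.Same g g1 → k ≠ 0 →
      Adm W K g1 z → Adm W K g (Λ.tau g1 ^ k • z)

include M in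
theorem near_of_adm {g : F} {z : V} (h : Λ.Adm W K g z) (hg : Λ.Aset W K g) : Λ.Near W g z := by
  have hcn := conv_nb M.conv
  induction h with
  | base g z hz =>
    obtain ⟨b, hb⟩ := T.exists_gate (Λ.conv_axis g) (Λ.axis_nonempty g) z
    obtain ⟨w, hw, hw'⟩ := hg.2
    refine ⟨b, b, hb, hb.1, hcn z hz w hw' (hb.2 w hw), ?_⟩
    rw [T.d_self]; omega
  | ax g g' z hg' hs hz =>
    obtain ⟨b, hb⟩ := T.exists_gate (Λ.conv_axis g) (Λ.axis_nonempty g) z
    obtain ⟨w, hw, hw'⟩ := hg.2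
    obtain ⟨v, hv, hv'⟩ := hg'.2
    obtain ⟨e, he⟩ := T.exists_gate hcn ⟨w, hw'⟩ z
    have he1 : e ∈ Λ.axis g' := Λ.conv_axis g' z hz v hv (he.2 v hv')
    have hbw := hb.2 w hw
    have hew := he.2 w hw'
    rcases le_total (T.d z e) (T.d z b) with h1 | h1
    · have h2 := (T.mem_seg_of_le hew hbw h1).2
      refine ⟨b, b, hb, hb.1, hcn e he.1 w hw' h2, ?_⟩
      rw [T.d_self]; omega
    · have h2 := T.mem_seg_of_le hbw hew h1
      have he2 : e ∈ Λ.axis g := Λ.conv_axis g b hb.1 w hw h2.2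
      have hb2 : b ∈ Λ.axis g' := Λ.conv_axis g' z hz e he1 h2.1
      refine ⟨b, e, hb, he2, he.1, ?_⟩
      by_contra h3
      exact hs (Λ.overlap hb.1 hb2 he2 he1 (by omega))
  | cons g g1 k z hg1 hs hk hz ih =>
    obtain ⟨b', p', hb', hp', hp'', hd⟩ := ih hg1
    have hb1 := Λ.gate_tau g1 k hb'
    set b1 := Λ.tau g1 ^ k • b' with hb1d
    obtain ⟨b, hb⟩ := T.exists_gate (Λ.conv_axis g) (Λ.axis_nonempty g) (Λ.tau g1 ^ k • z)
    obtain ⟨w, hw, hw'⟩ := hg.2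
    obtain ⟨e1, he1⟩ := T.exists_gate (Λ.conv_axis g1) (Λ.axis_nonempty g1) w
    have he1' : e1 ∈ nb T W := hcn w hw' p' hp'' (he1.2 p' hp')
    have h1 := Λ.diam_nb M hg1.1 he1.1 he1' hp' hp''
    have h2 := Λ.d_tau g1 hk he1.1 hb'.1
    have h3 := T.tri e1 p' b'
    rw [T.d_comm p' b'] at h3
    have h4 := Λ.large
    have h4' := Λ.l0_pos
    rw [← hb1d] at h2
    have hne : b1 ≠ e1 := by
      intro h5
      rw [h5, T.d_self] at h2
      omega
    have h5 := T.gates_mem hb1 he1 hne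
    have hbw := hb.2 w hw
    rcases le_total (T.d (Λ.tau g1 ^ k • z) e1) (T.d (Λ.tau g1 ^ k • z) b) with h6 | h6
    · have h7 := (T.mem_seg_of_le h5.2 hbw h6).2
      refine ⟨b, b, hb, hb.1, hcn e1 he1' w hw' h7, ?_⟩
      rw [T.d_self]; omega
    · have h7 := T.mem_seg_of_le hbw h5.2 h6
      have he2 : e1 ∈ Λ.axis g := Λ.conv_axis g b hb.1 w hw h7.2
      rcases le_total (T.d (Λ.tau g1 ^ k • z) b1) (T.d (Λ.tau g1 ^ k • z) b) with h8 | h8
      · have h9 := (T.mem_seg_of_le h5.1 hbw h8).2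
        -- b lies between b1 and e1
        have h10 : b ∈ T.seg b1 e1 := by
          have h11 := T.seg_order h5.1 hbw h8
          have h12 := T.seg_order hbw h5.2 h6
          have h13 := T.seg_order h5.1 h5.2 (le_trans h8 h6)
          rw [mem_seg]
          omega
        have hb2 : b ∈ Λ.axis g1 := Λ.conv_axis g1 b1 hb1.1 e1 he1.1 h10
        refine ⟨b, e1, hb, he2, he1', ?_⟩
        by_contra h14
        exact hs (Λ.overlap hb.1 hb2 he2 he1.1 (by omega))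
      · have h9 := T.mem_seg_of_le hbw h5.1 h8
        have hb2 : b1 ∈ Λ.axis g := Λ.conv_axis g b hb.1 w hw h9.2
        exfalso
        apply hs
        refine Λ.overlap hb2 hb1.1 he2 he1.1 ?_
        rw [T.d_comm]
        omega

/-- The generators of the new group. -/
def gens (W : Set V) (K : Subgroup F) : Set F := {k | k ∈ K} ∪ {k | ∃ g, Λ.Aset W K g ∧ k = Λ.tau g}

/-- The product of powers of translations. -/
def ev (l : List (F × ℤ)) : F := (l.map (fun x => Λ.tau x.1 ^ x.2)).prod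

/-- Normal form lists. -/
def Good (W : Set V) (K : Subgroup F) (l : List (F × ℤ)) : Prop :=
  (∀ x ∈ l, Λ.Aset W K x.1 ∧ x.2 ≠ 0) ∧ l.IsChain (fun x y => ¬ Λ.Same x.1 y.1)

theorem ev_nil : Λ.ev [] = 1 := rfl

theorem ev_cons (x : F × ℤ) (l : List (F × ℤ)) : Λ.ev (x :: l) = Λ.tau x.1 ^ x.2 * Λ.ev l := by
  simp [ev]

theorem ev_concat (x : F × ℤ) (l : List (F × ℤ)) :
    Λ.ev (l ++ [x]) = Λ.ev l * Λ.tau x.1 ^ x.2 := by
  simp [ev]

theorem ev_map (k : F) (l : List (F × ℤ)) :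
    Λ.ev (l.map (fun x => (k * x.1, x.2))) = k * Λ.ev l * k⁻¹ := by
  induction l with
  | nil => simp [ev]
  | cons x l ih =>
    rw [List.map_cons, ev_cons, ih, ev_cons, Λ.tau_mul, conj_zpow]
    group

theorem good_cons {x : F × ℤ} {l : List (F × ℤ)} : Λ.Good W K (x :: l) ↔
    (Λ.Aset W K x.1 ∧ x.2 ≠ 0) ∧ (∀ y ∈ l.head?, ¬ Λ.Same x.1 y.1) ∧ Λ.Good W K l := by
  unfold Good
  rw [List.isChain_cons]
  simp only [List.forall_mem_cons]
  tauto

include M in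
theorem good_map {k : F} (hk : k ∈ K) {l : List (F × ℤ)} (h : Λ.Good W K l) :
    Λ.Good W K (l.map (fun x => (k * x.1, x.2))) := by
  induction l with
  | nil => exact h
  | cons x l ih =>
    rw [good_cons] at h
    rw [List.map_cons, good_cons]
    refine ⟨⟨Λ.aset_mul M hk h.1.1, h.1.2⟩, ?_, ih h.2.2⟩
    intro y hy
    cases l with
    | nil => simp at hy
    | cons z l =>
      simp only [List.map_cons, List.head?_cons, Option.mem_def, Option.some.injEq] at hy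
      subst hy
      rw [Λ.same_mul]
      exact h.2.1 z (by simp)

include M in
/-- Multiplication by a power of a translation. -/
theorem nf_tau {g : F} (hg : Λ.Aset W K g) {e : ℤ} (he : e ≠ 0) {γ : F}
    (h : ∃ l, Λ.Good W K l ∧ ∃ k ∈ K, γ = Λ.ev l * k) :
    ∃ l, Λ.Good W K l ∧ ∃ k ∈ K, Λ.tau g ^ e * γ = Λ.ev l * k := by
  obtain ⟨l, hl, k, hk, rfl⟩ := h
  cases l with
  | nil =>
    refine ⟨[(g, e)], ?_, k, hk, ?_⟩
    · rw [good_cons]
      exact ⟨⟨hg, he⟩, by simp, hl⟩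
    · rw [ev_cons, mul_assoc]
  | cons x l =>
    have hl' := (Λ.good_cons).1 hl
    by_cases hs : Λ.Same g x.1
    · have ht := Λ.same_tau hs
      by_cases h0 : e + x.2 = 0
      · refine ⟨l, hl'.2.2, k, hk, ?_⟩
        rw [ev_cons, ht, ← mul_assoc, ← mul_assoc, ← zpow_add, h0]
        simp
      · refine ⟨(x.1, e + x.2) :: l, ?_, k, hk, ?_⟩
        · rw [good_cons]
          exact ⟨⟨hl'.1.1, h0⟩, hl'.2.1, hl'.2.2⟩
        · rw [ev_cons, ev_cons, ht]
          simp only [zpow_add, mul_assoc]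
    · refine ⟨(g, e) :: x :: l, ?_, k, hk, ?_⟩
      · rw [good_cons]
        refine ⟨⟨hg, he⟩, ?_, hl⟩
        intro y hy
        simp only [List.head?_cons, Option.mem_def, Option.some.injEq] at hy
        subst hy
        exact hs
      · rw [Λ.ev_cons (g, e), mul_assoc]

include M in
theorem nf_mul {k0 : F} (hk0 : k0 ∈ K) {γ : F}
    (h : ∃ l, Λ.Good W K l ∧ ∃ k ∈ K, γ = Λ.ev l * k) :
    ∃ l, Λ.Good W K l ∧ ∃ k ∈ K, k0 * γ = Λ.ev l * k := by
  obtain ⟨l, hl, k, hk, rfl⟩ := h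
  refine ⟨_, Λ.good_map M hk0 hl, k0 * k, K.mul_mem hk0 hk, ?_⟩
  rw [ev_map]
  group

include M in
/-- Normal forms. -/
theorem nf {γ : F} (hγ : γ ∈ Subgroup.closure (Λ.gens W K)) :
    ∃ l, Λ.Good W K l ∧ ∃ k ∈ K, γ = Λ.ev l * k := by
  induction hγ using Subgroup.closure_induction_left with
  | one => exact ⟨[], ⟨by simp, by simp⟩, 1, K.one_mem, by simp [ev]⟩
  | mul_left x hx y hy ih =>
    rcases hx with hx | ⟨g, hg, rfl⟩
    · exact Λ.nf_mul M hx ih
    · have := Λ.nf_tau M hg one_ne_zero ih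
      simpa using this
  | inv_mul_cancel x hx y hy ih =>
    rcases hx with hx | ⟨g, hg, rfl⟩
    · exact Λ.nf_mul M (K.inv_mem hx) ih
    · have := Λ.nf_tau M hg (show (-1 : ℤ) ≠ 0 by norm_num) ih
      simpa using this

/-- The points added to `W`, before translation. -/
def Uset (W : Set V) (K : Subgroup F) : Set V :=
  {y | y ∈ nb T W ∨ ∃ g, Λ.Aset W K g ∧ y ∈ Λ.axis g}

/-- The new set. -/
def Wnew (W : Set V) (K : Subgroup F) : Set V :=
  {z | ∃ γ ∈ Subgroup.closure (Λ.gens W K), ∃ y ∈ Λ.Uset W K, z = γ • y}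

theorem mem_closure_of_mem {k : F} (hk : k ∈ K) : k ∈ Subgroup.closure (Λ.gens W K) :=
  Subgroup.subset_closure (Or.inl hk)

theorem tau_mem_closure {g : F} (hg : Λ.Aset W K g) :
    Λ.tau g ∈ Subgroup.closure (Λ.gens W K) :=
  Subgroup.subset_closure (Or.inr ⟨g, hg, rfl⟩)

theorem nb_sub_new {x : V} (hx : x ∈ nb T W) : x ∈ Λ.Wnew W K :=
  ⟨1, Subgroup.one_mem _, x, Or.inl hx, by rw [one_smul]⟩

theorem axis_sub_new {g : F} (hg : Λ.Aset W K g) {x : V} (hx : x ∈ Λ.axis g) :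
    x ∈ Λ.Wnew W K :=
  ⟨1, Subgroup.one_mem _, x, Or.inr ⟨g, hg, hx⟩, by rw [one_smul]⟩

theorem inv_new {γ : F} (hγ : γ ∈ Subgroup.closure (Λ.gens W K)) {x : V}
    (hx : x ∈ Λ.Wnew W K) : γ • x ∈ Λ.Wnew W K := by
  obtain ⟨δ, hδ, y, hy, rfl⟩ := hx
  exact ⟨γ * δ, Subgroup.mul_mem _ hγ hδ, y, hy, by rw [mul_smul]⟩

include M in
theorem inv_uset {k : F} (hk : k ∈ K) {y : V} (hy : y ∈ Λ.Uset W K) : k • y ∈ Λ.Uset W K := by
  rcases hy with hy | ⟨g, hg, hy⟩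
  · exact Or.inl (Λ.inv_nb M hk hy)
  · exact Or.inr ⟨k * g, Λ.aset_mul M hk hg, Λ.smul_mem_axis k g hy⟩

include M in
theorem seg_new (l : List (F × ℤ)) (hl : ∀ x ∈ l, Λ.Aset W K x.1) {x y : V} (hx : x ∈ nb T W)
    (hy : y ∈ Λ.Uset W K) : T.seg x (Λ.ev l • y) ⊆ Λ.Wnew W K := by
  have hcn := conv_nb M.conv
  induction l generalizing x with
  | nil =>
    rw [ev_nil, one_smul]
    intro z hz
    rcases hy with hy | ⟨g, hg, hy⟩
    · exact Λ.nb_sub_new (hcn x hx y hy hz)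
    · obtain ⟨w, hw, hw'⟩ := hg.2
      rcases T.seg_union w hz with h | h
      · exact Λ.nb_sub_new (hcn x hx w hw' h)
      · exact Λ.axis_sub_new hg (Λ.conv_axis g w hw y hy h)
  | cons a l ih =>
    intro z hz
    have ha := hl a (by simp)
    rw [ev_cons, mul_smul] at hz
    obtain ⟨w, hw, hw'⟩ := ha.2
    rcases T.seg_union w hz with h | h
    · exact Λ.nb_sub_new (hcn x hx w hw' h)
    · rcases T.seg_union (Λ.tau a.1 ^ a.2 • w) h with h' | h'
      · exact Λ.axis_sub_new ha (Λ.conv_axis a.1 w hw _ (Λ.tau_mem_axis a.1 a.2 hw) h')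
      · have h1 : (Λ.tau a.1 ^ a.2)⁻¹ • z ∈ T.seg w (Λ.ev l • y) := by
          have := Λ.smul_seg (Λ.tau a.1 ^ a.2)⁻¹ h'
          simpa using this
        have h2 := ih (fun x hx => hl x (by simp [hx])) hw' h1
        have h3 := Λ.inv_new (Subgroup.zpow_mem _ (Λ.tau_mem_closure ha) a.2) h2
        simpa using h3

include M in
theorem conv_new : T.Conv (Λ.Wnew W K) := by
  have key : ∀ z ∈ Λ.Wnew W K, T.seg x0 z ⊆ Λ.Wnew W K := by
    rintro _ ⟨γ, hγ, y, hy, rfl⟩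
    obtain ⟨l, hl, k, hk, rfl⟩ := Λ.nf M hγ
    rw [mul_smul]
    exact Λ.seg_new M l (fun x hx => (hl.1 x hx).1) (sub_nb M.base) (Λ.inv_uset M hk hy)
  intro u hu v hv z hz
  rcases T.seg_union x0 hz with h | h
  · rw [seg_comm] at h
    exact key u hu h
  · exact key v hv h

theorem adm_ev (l : List (F × ℤ)) (x : F × ℤ) (hl : Λ.Good W K (x :: l)) (y : V)
    (h : Λ.Adm W K ((x :: l).getLast (by simp)).1 y) : Λ.Adm W K x.1 (Λ.ev l • y) := by
  induction l generalizing x with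
  | nil =>
    rw [ev_nil, one_smul]
    simpa using h
  | cons z l ih =>
    rw [ev_cons, mul_smul]
    have h1 := Λ.good_cons.1 hl
    have h2 := Λ.good_cons.1 h1.2.2
    refine Adm.cons x.1 z.1 z.2 _ h2.1.1 (h1.2.1 z (by simp)) h2.1.2 (ih z h1.2.2 ?_)
    rwa [List.getLast_cons (by simp)] at h

include M in
theorem far {g : F} {k : ℤ} {z p e u : V} {m : ℕ} (hg : Λ.Aset W K g) (hk : k ≠ 0)
    (hz : Λ.Adm W K g z) (he : T.IsGate (Λ.axis g) p e) (hu : u ∈ Λ.axis g)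
    (hu' : u ∈ nb T W) (hm : T.d e u ≤ m) :
    ∃ b1, T.IsGate (Λ.axis g) (Λ.tau g ^ k • z) b1 ∧ Λ.L ≤ T.d e b1 + 3 * Λ.l0 + 1 + m := by
  obtain ⟨b', p', hb', hp', hp'', hd⟩ := Λ.near_of_adm M hz hg
  refine ⟨_, Λ.gate_tau g k hb', ?_⟩
  have h1 := Λ.diam_nb M hg.1 hu hu' hp' hp''
  have h2 := Λ.d_tau g hk he.1 hb'.1
  have h3 := T.tri e u b'
  have h4 := T.tri u p' b'
  rw [T.d_comm p' b'] at h4
  omega

include M in
theorem w2_new {γ : F} (hγ : γ ∈ Subgroup.closure (Λ.gens W K)) (h1 : γ ≠ 1) :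
    Λ.Long x0 (γ • x0) := by
  obtain ⟨l, hl, k, hk, rfl⟩ := Λ.nf M hγ
  have hcn := conv_nb M.conv
  cases l with
  | nil =>
    rw [ev_nil, one_mul] at *
    exact M.w2 k hk h1
  | cons x l =>
    have h2 := Λ.good_cons.1 hl
    have h3 : Λ.Adm W K x.1 (Λ.ev l • (k • x0)) :=
      Λ.adm_ev l x hl _ (Adm.base _ _ (Λ.inv_nb M hk (sub_nb M.base)))
    obtain ⟨e, he⟩ := T.exists_gate (Λ.conv_axis x.1) (Λ.axis_nonempty x.1) x0
    obtain ⟨w, hw, hw'⟩ := h2.1.1.2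
    have he' : e ∈ nb T W := hcn x0 (sub_nb M.base) w hw' (he.2 w hw)
    obtain ⟨b1, hb1, h4⟩ := Λ.far M (m := 0) h2.1.1 h2.1.2 h3 he he.1 he' (by rw [T.d_self])
    have h5 := Λ.large
    have hne : e ≠ b1 := by
      intro h6
      rw [h6, T.d_self] at h4
      omega
    have h6 := T.gates_mem he hb1 hne
    rw [ev_cons, mul_smul, mul_smul]
    exact Λ.long_of he.1 hb1.1 h6.1 h6.2 (by omega)

include M in
theorem w1_aux (N : ℕ) : ∀ l : List (F × ℤ), l.length = N → Λ.Good W K l →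
    ∀ (B B' g : F) (p y : V), Λ.Aset W K B → p ∈ Λ.axis B → Λ.Aset W K B' → y ∈ Λ.axis B' →
    p ∈ Λ.axis g → Λ.ev l • y ∈ Λ.axis g →
    (∀ γ ∈ Subgroup.closure (Λ.gens W K), ∀ x ∈ nb T W, γ • x ∉ Λ.axis g) →
    T.d p (Λ.ev l • y) < 2 * Λ.l0 := by
  have hcn := conv_nb M.conv
  induction N using Nat.strong_induction_on with
  | _ N IH =>
  intro l hlN hl B B' g p y hB hp hB' hy hpg hyg hneg
  have hns : ∀ C, Λ.Aset W K C → ¬ Λ.Same g C := by
    intro C hC hs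
    obtain ⟨w, hw, hw'⟩ := hC.2
    have := hneg 1 (Subgroup.one_mem _) w hw'
    rw [one_smul, Λ.same_axis hs] at this
    exact this hw
  have hL := Λ.large
  cases l with
  | nil =>
    rw [ev_nil, one_smul] at *
    obtain ⟨w, hw, hw'⟩ := hB.2
    obtain ⟨w1, hw1, hw1'⟩ := hB'.2
    obtain ⟨a, ha⟩ := T.exists_gate hcn ⟨w, hw'⟩ p
    obtain ⟨a', ha'⟩ := T.exists_gate hcn ⟨w, hw'⟩ y
    have haa : a = a' := by
      by_contra h
      have h1 := (T.gates_mem ha ha' h).1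
      have h2 := Λ.conv_axis g p hpg y hyg h1
      have h3 := hneg 1 (Subgroup.one_mem _) a ha.1
      rw [one_smul] at h3
      exact h3 h2
    subst haa
    obtain ⟨m, h1, h2, h3⟩ := T.med p y a
    have hmg : m ∈ Λ.axis g := Λ.conv_axis g p hpg y hyg h1
    have haB : a ∈ Λ.axis B := Λ.conv_axis B p hp w hw (ha.2 w hw')
    have haB' : a ∈ Λ.axis B' := Λ.conv_axis B' y hy w1 hw1 (ha'.2 w1 hw1')
    have hmB : m ∈ Λ.axis B := Λ.conv_axis B p hp a haB h3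
    have hmB' : m ∈ Λ.axis B' := Λ.conv_axis B' y hy a haB' h2
    have h4 : T.d p m < Λ.l0 := by
      by_contra h
      exact hns B hB (Λ.overlap hpg hp hmg hmB (by omega))
    have h5 : T.d m y < Λ.l0 := by
      by_contra h
      exact hns B' hB' (Λ.overlap hmg hmB' hyg hy (by omega))
    omega
  | cons x l =>
    have hl' := Λ.good_cons.1 hl
    by_cases hs : Λ.Same B x.1
    · -- remove the first factor
      rw [ev_cons, mul_smul] at hyg ⊢
      have h1 := IH l.length (by rw [← hlN]; simp) l rfl hl'.2.2 x.1 B'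
        ((Λ.tau x.1 ^ x.2)⁻¹ * g) ((Λ.tau x.1 ^ x.2)⁻¹ • p) y hl'.1.1 ?_ hB' hy ?_ ?_ ?_
      · have h2 := Λ.iso (Λ.tau x.1 ^ x.2) ((Λ.tau x.1 ^ x.2)⁻¹ • p) (Λ.ev l • y)
        rw [smul_inv_smul] at h2
        rw [h2]
        exact h1
      · rw [← zpow_neg]
        apply Λ.tau_mem_axis
        rw [← Λ.same_axis hs]
        exact hp
      · exact Λ.smul_mem_axis _ _ hpg
      · have := Λ.smul_mem_axis (Λ.tau x.1 ^ x.2)⁻¹ g hyg
        simpa using this
      · intro γ hγ z hz h2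
        have h3 := Λ.smul_mem_axis (Λ.tau x.1 ^ x.2) _ h2
        rw [mul_inv_cancel_left, ← mul_smul] at h3
        exact hneg _ (Subgroup.mul_mem _
          (Subgroup.zpow_mem _ (Λ.tau_mem_closure hl'.1.1) x.2) hγ) z hz h3
    · by_cases hs' : Λ.Same ((x :: l).getLast (by simp)).1 B'
      · -- remove the last factor
        have h0 : (x :: l).dropLast ++ [(x :: l).getLast (by simp)] = x :: l :=
          List.dropLast_append_getLast (by simp)
        set l' := (x :: l).dropLast with hl'd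
        set z := (x :: l).getLast (by simp) with hzd
        have hlen : l'.length < N := by rw [hl'd, List.length_dropLast, hlN]; simp at hlN; omega
        rw [← h0, ev_concat, mul_smul] at hyg ⊢
        have hg' : Λ.Good W K l' := by
          rw [← h0] at hl
          refine ⟨fun w hw => hl.1 w (by simp [hw]), ?_⟩
          exact (List.isChain_append.1 hl.2).1
        refine IH l'.length hlen l' rfl hg' B B' g p _ hB hp hB' ?_ hpg hyg hneg
        have hax := Λ.same_axis hs'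
        rw [← hax] at hy ⊢
        exact Λ.tau_mem_axis _ _ hy
      · -- far apart
        exfalso
        have h3 : Λ.Adm W K x.1 (Λ.ev l • y) :=
          Λ.adm_ev l x hl y (Adm.ax _ B' y hB' hs' hy)
        have h4 : Λ.Adm W K x.1 p :=
          Adm.ax _ B p hB (fun h => hs (Λ.same_symm h)) hp
        obtain ⟨e, u, he, hu, hu', hd⟩ := Λ.near_of_adm M h4 hl'.1.1
        obtain ⟨b1, hb1, h5⟩ := Λ.far M hl'.1.1 hl'.1.2 h3 he hu hu' hd
        have hne : e ≠ b1 := by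
          intro h6
          rw [h6, T.d_self] at h5
          omega
        have h6 := T.gates_mem he hb1 hne
        rw [ev_cons, mul_smul] at hyg
        have h7 := Λ.conv_axis g p hpg _ hyg h6.1
        have h8 := Λ.conv_axis g p hpg _ hyg h6.2
        exact hns x.1 hl'.1.1 (Λ.overlap h7 he.1 h8 hb1.1 (by omega))

include M in
theorem w1_new (g : F) : (Λ.axis g ⊆ Λ.Wnew W K ∧ Λ.tau g ∈ Subgroup.closure (Λ.gens W K)) ∨
    (∀ p q, p ∈ Λ.axis g → p ∈ Λ.Wnew W K → q ∈ Λ.axis g → q ∈ Λ.Wnew W K →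
      T.d p q < 2 * Λ.l0) := by
  by_cases h : ∃ γ ∈ Subgroup.closure (Λ.gens W K), ∃ y ∈ nb T W, γ • y ∈ Λ.axis g
  · left
    obtain ⟨γ, hγ, y, hy, hyg⟩ := h
    have hy' : y ∈ Λ.axis (γ⁻¹ * g) := by
      have := Λ.smul_mem_axis γ⁻¹ g hyg
      simpa using this
    have htau : Λ.tau g = γ * Λ.tau (γ⁻¹ * g) * γ⁻¹ := by
      rw [← Λ.tau_mul, mul_inv_cancel_left]
    by_cases h1 : Λ.axis (γ⁻¹ * g) ⊆ W ∧ Λ.tau (γ⁻¹ * g) ∈ K
    · constructor
      · intro x hx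
        have h2 := h1.1 (Λ.smul_mem_axis γ⁻¹ g hx)
        have h3 := Λ.inv_new hγ (Λ.nb_sub_new (K := K) (sub_nb h2))
        simpa using h3
      · rw [htau]
        exact Subgroup.mul_mem _ (Subgroup.mul_mem _ hγ (Λ.mem_closure_of_mem h1.2))
          (Subgroup.inv_mem _ hγ)
    · have h2 : Λ.Aset W K (γ⁻¹ * g) := ⟨h1, y, hy', hy⟩
      constructor
      · intro x hx
        have h3 := Λ.inv_new hγ (Λ.axis_sub_new h2 (Λ.smul_mem_axis γ⁻¹ g hx))
        simpa using h3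
      · rw [htau]
        exact Subgroup.mul_mem _ (Subgroup.mul_mem _ hγ (Λ.tau_mem_closure h2))
          (Subgroup.inv_mem _ hγ)
  · right
    push_neg at h
    rintro p q hpg ⟨γ1, hγ1, y1, hy1, rfl⟩ hqg ⟨γ2, hγ2, y2, hy2, rfl⟩
    rcases hy1 with hy1 | ⟨B, hB, hy1⟩
    · exact absurd hpg (h γ1 hγ1 y1 hy1)
    rcases hy2 with hy2 | ⟨B', hB', hy2⟩
    · exact absurd hqg (h γ2 hγ2 y2 hy2)
    have hγ : γ1⁻¹ * γ2 ∈ Subgroup.closure (Λ.gens W K) :=
      Subgroup.mul_mem _ (Subgroup.inv_mem _ hγ1) hγ2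
    obtain ⟨l, hl, k, hk, hlk⟩ := Λ.nf M hγ
    have e1 : Λ.ev l • (k • y2) = γ1⁻¹ • (γ2 • y2) := by
      rw [← mul_smul, ← hlk, mul_smul]
    have h1 := Λ.w1_aux M l.length l rfl hl B (k * B') (γ1⁻¹ * g) y1 (k • y2) hB hy1
      (Λ.aset_mul M hk hB') (Λ.smul_mem_axis k B' hy2) ?_ ?_ ?_
    · rw [e1] at h1
      have h2 := Λ.iso γ1 y1 (γ1⁻¹ • (γ2 • y2))
      rw [smul_inv_smul] at h2
      rw [h2]
      exact h1
    · have := Λ.smul_mem_axis γ1⁻¹ g hpg
      simpa using this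
    · rw [e1]
      exact Λ.smul_mem_axis γ1⁻¹ g hqg
    · intro γ hγ' x hx h2
      have h3 := Λ.smul_mem_axis γ1 _ h2
      rw [mul_inv_cancel_left, ← mul_smul] at h3
      exact h _ (Subgroup.mul_mem _ hγ1 hγ') x hx h3

include M in
/-- The windmill step. -/
theorem mill_step : Λ.Mill x0 (Λ.Wnew W K) (Subgroup.closure (Λ.gens W K)) where
  base := Λ.nb_sub_new (sub_nb M.base)
  conv := Λ.conv_new M
  inv := fun _ hk _ hx => Λ.inv_new hk hx
  w1 := Λ.w1_new M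
  w2 := fun _ hk h => Λ.w2_new M hk h

include M in
/-- The translations of the axes which meet `W` belong to the new group. -/
theorem tau_mem_new {g : F} {p : V} (hp : p ∈ Λ.axis g) (hp' : p ∈ W) :
    Λ.tau g ∈ Subgroup.closure (Λ.gens W K) := by
  by_cases h : Λ.axis g ⊆ W ∧ Λ.tau g ∈ K
  · exact Λ.mem_closure_of_mem h.2
  · exact Λ.tau_mem_closure ⟨h, p, hp, sub_nb hp'⟩

end step

/-- Windmills exhaust the tree. -/
theorem exists_mill (x0 : V)
    (hstep : ∀ x, x ≠ x0 → ∃ z, T.d z x = 1 ∧ T.d x0 z + 1 = T.d x0 x) (N : ℕ) :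
    ∃ (W : Set V) (K : Subgroup F), Λ.Mill x0 W K ∧ (∀ x, T.d x0 x ≤ N → x ∈ W) ∧
      ∀ g i, T.d x0 (g • Λ.a i) + 1 ≤ N → Λ.tau g ∈ K := by
  induction N with
  | zero =>
    refine ⟨{x0}, ⊥, Λ.mill_zero x0, ?_, ?_⟩
    · intro x hx
      exact (T.eq_of_d _ _ (by omega : T.d x0 x = 0)).symm
    · intro g i h
      omega
  | succ N ih =>
    obtain ⟨W, K, M, h1, h2⟩ := ih
    refine ⟨_, _, Λ.mill_step M, ?_, ?_⟩
    · intro x hx
      by_cases h : T.d x0 x ≤ N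
      · exact Λ.nb_sub_new (sub_nb (h1 x h))
      · have hx0 : x ≠ x0 := by
          intro h0
          rw [h0, T.d_self] at h
          omega
        obtain ⟨z, hz1, hz2⟩ := hstep x hx0
        refine Λ.nb_sub_new ⟨z, h1 z (by omega), ?_⟩
        rw [T.d_comm]
        omega
    · intro g i h
      exact Λ.tau_mem_new M ⟨i, rfl⟩ (h1 _ (by omega))

/-- Greendlinger's lemma: the segment from `x0` to `γ • x0` contains a long piece of an axis. -/
theorem greendlinger (x0 : V)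
    (hstep : ∀ x, x ≠ x0 → ∃ z, T.d z x = 1 ∧ T.d x0 z + 1 = T.d x0 x) (γ : F)
    (hγ : γ ∈ Subgroup.normalClosure {Λ.c}) (h1 : γ ≠ 1) :
    ∃ (g : F) (i j : ℤ), g • Λ.a i ∈ T.seg x0 (γ • x0) ∧ g • Λ.a j ∈ T.seg x0 (γ • x0) ∧
      Λ.L ≤ T.d (Λ.a i) (Λ.a j) + 3 * Λ.l0 + 2 := by
  have key : ∃ N : ℕ, ∀ K : Subgroup F,
      (∀ g i, T.d x0 (g • Λ.a i) + 1 ≤ N → Λ.tau g ∈ K) → γ ∈ K := by
    induction hγ using Subgroup.closure_induction with
    | mem x hx =>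
      obtain ⟨y, hy, hyx⟩ := Group.mem_conjugatesOfSet_iff.1 hx
      rw [Set.mem_singleton_iff] at hy
      subst hy
      obtain ⟨g, rfl⟩ := isConj_iff.1 hyx
      refine ⟨T.d x0 (g • Λ.a 0) + 1, fun K hK => hK g 0 le_rfl⟩
    | one => exact ⟨0, fun K _ => K.one_mem⟩
    | mul x y _ _ ihx ihy =>
      by_cases hx1 : x = 1
      · by_cases hy1 : y = 1
        · exact ⟨0, fun K _ => by rw [hx1, hy1, one_mul]; exact K.one_mem⟩
        · obtain ⟨N, hN⟩ := ihy hy1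
          exact ⟨N, fun K hK => by rw [hx1, one_mul]; exact hN K hK⟩
      · by_cases hy1 : y = 1
        · obtain ⟨N, hN⟩ := ihx hx1
          exact ⟨N, fun K hK => by rw [hy1, mul_one]; exact hN K hK⟩
        · obtain ⟨N, hN⟩ := ihx hx1
          obtain ⟨N', hN'⟩ := ihy hy1
          exact ⟨max N N', fun K hK => K.mul_mem
            (hN K fun g i h => hK g i (le_trans h (le_max_left _ _)))
            (hN' K fun g i h => hK g i (le_trans h (le_max_right _ _)))⟩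
    | inv x _ ihx =>
      obtain ⟨N, hN⟩ := ihx (fun h => h1 (by rw [h, inv_one]))
      exact ⟨N, fun K hK => K.inv_mem (hN K hK)⟩
  obtain ⟨N, hN⟩ := key
  obtain ⟨W, K, M, h2, h3⟩ := Λ.exists_mill x0 hstep N
  exact M.w2 γ (hN K h3) h1

end Line

end Pool.Agent.Helper32.OR
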