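import Pool.Agent.Helper32.OR.PuDefs

/-!
Darts of the pushout (project OR, MP_d4e3d0_lc).
-/

namespace Pool.Agent.Helper32.OR

open Pool.Agent.Helper22.OR Pool.Agent.Helper22.OR.Gr

variable {N L : ℕ} [NeZero L] {w : ZMod L → Letter N} {Γ : Bool → Gr (Fin N)}
  {p : ∀ b, ZMod L → (Γ b).D}

/-- By cases on the sign of `d`; all are `rfl`. -/
theorem st_cd (h : Circ w Γ p) (b : Bool) (d : (Γ b).D) :
    (push h).st (cd h b d) = cls h ⟨b, (Γ b).st d⟩ := by
  rcases d with ⟨e, s⟩
  cases s <;> rfl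

theorem en_cd (h : Circ w Γ p) (b : Bool) (d : (Γ b).D) :
    (push h).en (cd h b d) = cls h ⟨b, (Γ b).en d⟩ := by
  rcases d with ⟨e, s⟩
  cases s <;> rfl

theorem lt_cd (h : Circ w Γ p) (b : Bool) (d : (Γ b).D) :
    (push h).lt (cd h b d) = (Γ b).lt d := by
  rfl

theorem dinv_cd (h : Circ w Γ p) (b : Bool) (d : (Γ b).D) :
    (push h).dinv (cd h b d) = cd h b ((Γ b).dinv d) := by
  rfl

/-- `Quot.sound` for `relE` and `Circ.sign`. -/
theorem cd_p (h : Circ w Γ p) (b : Bool) (i : ZMod L) : cd h b (p b i) = cp h i := by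
  unfold cp cd
  refine Prod.ext ?_ ?_
  · exact Quot.sound ⟨i, b, false, rfl, rfl⟩
  · show (p b i).2 = (p false i).2
    rw [h.sign, h.sign]

/-- From `lt_cd`. -/
theorem lt_cp (h : Circ w Γ p) (i : ZMod L) : (push h).lt (cp h i) = w i := by
  unfold cp
  rw [lt_cd, h.lt]

theorem st_cp (h : Circ w Γ p) (b : Bool) (i : ZMod L) :
    (push h).st (cp h i) = cls h (nd p b i) := by
  rw [← cd_p h b i, st_cd]
  rfl

/-- From `h.next`. -/
theorem en_cp (h : Circ w Γ p) (b : Bool) (i : ZMod L) :
    (push h).en (cp h i) = cls h (nd p b (i + 1)) := by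
  rw [← cd_p h b i, en_cd, h.next]
  rfl

/-- The dart `dinv (p b (i - 1))` starts at the node of the place `i`. -/
theorem st_dinv_p (h : Circ w Γ p) (b : Bool) (i : ZMod L) :
    (Γ b).st ((Γ b).dinv (p b (i - 1))) = (Γ b).st (p b i) := by
  rw [Gr.st_dinv, h.next, sub_add_cancel]

/-- The letters of the two darts are `w i` and `linv (w (i - 1))`, which are different (`h.red`). -/
theorem turn_card (h : Circ w Γ p) (i : ZMod L) : (turn h i).card = 2 := by
  unfold turn
  refine Finset.card_pair ?_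
  intro hc
  have h1 := congrArg (push h).lt hc
  rw [lt_cp, Gr.lt_dinv, lt_cp] at h1
  have h2 := h.red (i - 1)
  rw [sub_add_cancel] at h2
  exact h2 h1

/-- Both half edges of the place `i` start at the node `nd p b i`. -/
theorem turn_subset (h : Circ w Γ p) (b : Bool) (i : ZMod L) :
    turn h i ⊆ half h (nd p b i) := by
  intro d hd
  unfold turn at hd
  unfold half
  rw [Finset.mem_insert, Finset.mem_singleton] at hd
  rw [Finset.mem_image]
  rcases hd with rfl | rfl
  · exact ⟨p b i, Finset.mem_filter.2 ⟨Finset.mem_univ _, rfl⟩, cd_p h b i⟩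
  · refine ⟨(Γ b).dinv (p b (i - 1)),
      Finset.mem_filter.2 ⟨Finset.mem_univ _, st_dinv_p h b i⟩, ?_⟩
    show cd h b ((Γ b).dinv (p b (i - 1))) = _
    rw [← dinv_cd, cd_p]

/-- The map `cd h b` is injective on the darts which start at a given vertex: the class determines the
letter (`lt_cd`) and the graph is folded. -/
theorem card_half (h : Circ w Γ p) (b : Bool) (u : (Γ b).V) :
    (half h ⟨b, u⟩).card = (Γ b).deg u := by
  unfold half Gr.deg
  refine Finset.card_image_of_injOn ?_
  intro d hd d' hd' he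
  have h1 : (Γ b).st d = u := (Finset.mem_filter.1 (Finset.mem_coe.1 hd)).2
  have h2 : (Γ b).st d' = u := (Finset.mem_filter.1 (Finset.mem_coe.1 hd')).2
  have he' : cd h b d = cd h b d' := he
  refine h.folded b d d' (h1.trans h2.symm) ?_
  rw [← lt_cd h b d, ← lt_cd h b d', he']

end Pool.Agent.Helper32.OR
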