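import Pool.Agent.Helper32.OR.Sh
import Pool.Agent.Helper32.OR.Pu1

/-!
Degrees in the pushout (project OR, MP_d4e3d0_lc).
-/

namespace Pool.Agent.Helper32.OR

open Pool.Agent.Helper22.OR Pool.Agent.Helper22.OR.Gr

variable {N L : ℕ} [NeZero L] {w : ZMod L → Letter N} {Γ : Bool → Gr (Fin N)}
  {p : ∀ b, ZMod L → (Γ b).D}

/-- Two nodes of the same place. -/
def Adj (p : ∀ b, ZMod L → (Γ b).D) (x y : Nd Γ) : Prop :=
  ∃ i b b', x = nd p b i ∧ y = nd p b' i

/-- Both contain the `2` elements of `turn h i` (`turn_subset`, `turn_card`). -/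
theorem two_le_of_adj (h : Circ w Γ p) (x y : Nd Γ) (hxy : Adj p x y) :
    2 ≤ (half h x ∩ half h y).card := by
  obtain ⟨i, b, b', rfl, rfl⟩ := hxy
  rw [← turn_card h i]
  exact Finset.card_le_card (Finset.subset_inter (turn_subset h b i) (turn_subset h b' i))

/-- Every dart of the pushout which starts at `v` is the class of a dart of one of the two graphs
(`Quot.exists_rep` for the edge), which starts at a node over `v` (`st_cd`). -/
theorem deg_push (h : Circ w Γ p) (v : (push h).V) :
    (push h).deg v = ((fib h v).biUnion (half h)).card := by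
  unfold Gr.deg
  congr 1
  ext d
  rw [Finset.mem_filter, Finset.mem_biUnion]
  constructor
  · rintro ⟨-, hd⟩
    obtain ⟨e, s⟩ := d
    obtain ⟨⟨b, e'⟩, rfl⟩ := Quot.exists_rep e
    have h1 : ((Quot.mk (relE p) ⟨b, e'⟩, s) : (push h).D) = cd h b (e', s) := rfl
    rw [h1, st_cd] at hd
    refine ⟨⟨b, (Γ b).st (e', s)⟩, ?_, ?_⟩
    · unfold fib
      exact Finset.mem_filter.2 ⟨Finset.mem_univ _, hd⟩
    · unfold half
      exact Finset.mem_image.2 ⟨(e', s), Finset.mem_filter.2 ⟨Finset.mem_univ _, rfl⟩, rfl⟩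
  · rintro ⟨x, hx, hd⟩
    refine ⟨Finset.mem_univ _, ?_⟩
    unfold fib at hx
    unfold half at hd
    obtain ⟨d', hd', rfl⟩ := Finset.mem_image.1 hd
    rw [st_cd, (Finset.mem_filter.1 hd').2]
    exact (Finset.mem_filter.1 hx).2

theorem Pu2a_symm {x y : Nd Γ} (h : Adj p x y) : Adj p y x := by
  obtain ⟨i, b, b', h1, h2⟩ := h
  exact ⟨i, b', b, h2, h1⟩

theorem Pu2a_rtg {I : Type*} {r : I → I → Prop} (hr : ∀ s t, r s t → r t s) {a c : I}
    (h : Relation.ReflTransGen r a c) : Relation.ReflTransGen r c a := by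
  induction h with
  | refl => exact Relation.ReflTransGen.refl
  | tail _ h2 ih => exact Relation.ReflTransGen.head (hr _ _ h2) ih

/-- `Quot.eqvGen_exact` and induction; `Adj` is symmetric. -/
theorem conn_fib (h : Circ w Γ p) (v : (push h).V) (x y : Nd Γ) (hx : cls h x = v)
    (hy : cls h y = v) : Relation.ReflTransGen
      (fun a c => a ∈ fib h v ∧ c ∈ fib h v ∧ Adj p a c) x y := by
  have hmem : ∀ z : Nd Γ, cls h z = v → z ∈ fib h v := fun z hz => by
    unfold fib
    exact Finset.mem_filter.2 ⟨Finset.mem_univ _, hz⟩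
  have hxy : Quot.mk (relV p) x = Quot.mk (relV p) y := hx.trans hy.symm
  have hgen := Quot.eqvGen_exact hxy
  have hcls : ∀ z z' : Nd Γ, Relation.EqvGen (relV p) z z' → cls h z = cls h z' :=
    fun z z' hz => Quot.eqvGen_sound hz
  have key : ∀ z z' : Nd Γ, Relation.EqvGen (relV p) z z' → cls h z = v →
      Relation.ReflTransGen (fun a c => a ∈ fib h v ∧ c ∈ fib h v ∧ Adj p a c) z z' := by
    intro z z' hz
    induction hz with
    | rel a c hac =>
      intro ha
      have hc : cls h c = v := (hcls a c (Relation.EqvGen.rel a c hac)).symm.trans ha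
      exact Relation.ReflTransGen.single ⟨hmem a ha, hmem c hc, hac⟩
    | refl a => intro _; exact Relation.ReflTransGen.refl
    | symm a c hac ih =>
      intro hc
      have ha : cls h a = v := (hcls a c hac).trans hc
      have h1 := ih ha
      exact Pu2a_rtg (fun s t ⟨h2, h3, h4⟩ => ⟨h3, h2, Pu2a_symm h4⟩) h1
    | trans a c d hac _ ih1 ih2 =>
      intro ha
      have hc : cls h c = v := (hcls a c hac).symm.trans ha
      exact (ih1 ha).trans (ih2 hc)
  exact key x y hgen hx

end Pool.Agent.Helper32.OR
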