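import Pool.Agent.Helper32.OR.Pu2a

/-!
Degrees in the pushout (project OR, MP_d4e3d0_lc).
-/

namespace Pool.Agent.Helper32.OR

open Pool.Agent.Helper22.OR Pool.Agent.Helper22.OR.Gr

variable {N L : ℕ} [NeZero L] {w : ZMod L → Letter N} {Γ : Bool → Gr (Fin N)}
  {p : ∀ b, ZMod L → (Γ b).D}

/-- `grow` with `A = {x}` for a node `x` over `v`, and `c = 2`. -/
theorem weak_ineq (h : Circ w Γ p) (v : (push h).V) :
    (push h).deg v + 2 * (fib h v).card ≤ (∑ x ∈ fib h v, (half h x).card) + 2 := by
  obtain ⟨x, hx⟩ : ∃ x, cls h x = v := Quot.exists_rep v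
  have hxm : x ∈ fib h v := Finset.mem_filter.mpr ⟨Finset.mem_univ _, hx⟩
  rw [deg_push]
  refine grow (half h) (Adj p) (fun a b hab => two_le_of_adj h a b hab) {x} (fib h v)
    (Finset.singleton_subset_iff.mpr hxm) 2 ?_ ?_
  · rw [Finset.singleton_biUnion, Finset.card_singleton, Finset.sum_singleton]
  · intro b hb
    exact ⟨x, Finset.mem_singleton_self x, conn_fib h v x b hx (Finset.mem_filter.mp hb).2⟩

theorem Pu2b_fiber (h : Circ w Γ p) (F : Nd Γ → ℕ) :
    ∑ v, ∑ x ∈ fib h v, F x = ∑ x, F x := by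
  unfold fib
  exact Finset.sum_fiberwise Finset.univ (cls h) F

theorem Pu2b_card (h : Circ w Γ p) :
    ∑ v, (fib h v).card = Fintype.card (Γ false).V + Fintype.card (Γ true).V := by
  have h1 := Pu2b_fiber h (fun _ => 1)
  simp only [Finset.sum_const, smul_eq_mul, mul_one, Finset.card_univ] at h1
  rw [h1, Fintype.card_sigma, Fintype.sum_bool, add_comm]

theorem Pu2b_half (h : Circ w Γ p) :
    ∑ v, ∑ x ∈ fib h v, (half h x).card =
      2 * (Fintype.card (Γ false).E + Fintype.card (Γ true).E) := by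
  rw [Pu2b_fiber h (fun x => (half h x).card), Fintype.sum_sigma, Fintype.sum_bool]
  simp only [card_half, sum_deg]
  ring

/-- Sum `weak_ineq` over `v`, with a gain of `1` at the vertex `v₀` in the strict case (`g = 1`):
`sum_deg`, `card_half`; the fibres `fib h v` form a partition of all nodes. -/
theorem sum_ineq (h : Circ w Γ p) (g : ℕ) (hg : g = 0 ∨ ∃ v : (push h).V,
    (push h).deg v + 2 * (fib h v).card + g ≤ (∑ x ∈ fib h v, (half h x).card) + 2) :
    2 * Fintype.card (push h).E +
        2 * (Fintype.card (Γ false).V + Fintype.card (Γ true).V) + g ≤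
      2 * (Fintype.card (Γ false).E + Fintype.card (Γ true).E) + 2 * Fintype.card (push h).V := by
  have key : ∑ v, ((push h).deg v + 2 * (fib h v).card) + g ≤
      ∑ v : (push h).V, ((∑ x ∈ fib h v, (half h x).card) + 2) := by
    rcases hg with rfl | ⟨v₀, hv⟩
    · rw [add_zero]
      exact Finset.sum_le_sum fun v _ => weak_ineq h v
    · rw [← Finset.add_sum_erase Finset.univ _ (Finset.mem_univ v₀),
        ← Finset.add_sum_erase Finset.univ (fun v => (∑ x ∈ fib h v, (half h x).card) + 2)
          (Finset.mem_univ v₀)]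
      have h1 : ∑ v ∈ Finset.univ.erase v₀, ((push h).deg v + 2 * (fib h v).card) ≤
          ∑ v ∈ Finset.univ.erase v₀, ((∑ x ∈ fib h v, (half h x).card) + 2) :=
        Finset.sum_le_sum fun v _ => weak_ineq h v
      omega
  rw [Finset.sum_add_distrib, Finset.sum_add_distrib, ← Finset.mul_sum, sum_deg, Pu2b_card,
    Pu2b_half, Finset.sum_const, Finset.card_univ, smul_eq_mul] at key
  omega

end Pool.Agent.Helper32.OR
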