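import Pool.Agent.Helper32.OR.Pu2b

/-!
The strict inequality (project OR, MP_d4e3d0_lc).
-/

namespace Pool.Agent.Helper32.OR

open Pool.Agent.Helper22.OR Pool.Agent.Helper22.OR.Gr

variable {N L : ℕ} [NeZero L] {w : ZMod L → Letter N} {Γ : Bool → Gr (Fin N)}
  {p : ∀ b, ZMod L → (Γ b).D}

theorem Pu3_avoid_chain {b : Bool} {i : ZMod L} {A₀ : Finset (Nd Γ)} {u : Nd Γ} (hu : u.1 = b)
    (hA : ∀ b' k, nd p b' k ≠ u → Avoid p u i k → nd p b' k ∈ A₀) {k l : ZMod L}
    (hkl : Avoid p u k l) : Avoid p u i k → Relation.ReflTransGen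
      (fun x y => x ∈ A₀ ∧ y ∈ A₀ ∧ Adj p x y) (nd p (!b) k) (nd p (!b) l) := by
  have hne : ∀ m : ZMod L, nd p (!b) m ≠ u := by
    intro m hm
    have h1 : (!b) = u.1 := congrArg Sigma.fst hm
    rw [hu] at h1
    cases b <;> simp at h1
  unfold Avoid at hkl
  induction hkl with
  | rel k l h1 =>
    intro hk
    obtain ⟨b', h2, h3⟩ := h1
    have hl : Avoid p u i l := Relation.EqvGen.trans _ _ _ hk
      (Relation.EqvGen.rel _ _ ⟨b', h2, h3⟩)
    have e1 : nd p (!b) k ∈ A₀ := hA _ _ (hne k) hk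
    have e2 : nd p b' k ∈ A₀ := hA _ _ h3 hk
    have e3 : nd p (!b) l ∈ A₀ := hA _ _ (hne l) hl
    refine Relation.ReflTransGen.tail (Relation.ReflTransGen.single ⟨e1, e2, k, !b, b', rfl, rfl⟩)
      ⟨e2, e3, l, b', !b, h2, rfl⟩
  | refl k => intro _; exact Relation.ReflTransGen.refl
  | symm k l h1 ih =>
    intro hl
    have hk : Avoid p u i k := Relation.EqvGen.trans _ _ _ hl (Relation.EqvGen.symm _ _ h1)
    exact Pu2a_rtg (fun s t ⟨h2, h3, h4⟩ => ⟨h3, h2, Pu2a_symm h4⟩) (ih hk)
  | trans k m l h1 _ ih1 ih2 =>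
    intro hk
    have hm : Avoid p u i m := Relation.EqvGen.trans _ _ _ hk h1
    exact (ih1 hk).trans (ih2 hm)

theorem Pu3_avoid_cls (h : Circ w Γ p) {u : Nd Γ} {k l : ZMod L} (hkl : Avoid p u k l) :
    cls h (nd p false k) = cls h (nd p false l) := by
  have h0 : ∀ (b b' : Bool) (m : ZMod L), cls h (nd p b m) = cls h (nd p b' m) :=
    fun b b' m => Quot.sound ⟨m, b, b', rfl, rfl⟩
  unfold Avoid at hkl
  induction hkl with
  | rel k l h1 =>
    obtain ⟨b', h2, -⟩ := h1
    rw [h0 false b' k, h2, h0 b' false l]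
  | refl k => rfl
  | symm k l _ ih => exact ih.symm
  | trans k m l _ _ ih1 ih2 => exact ih1.trans ih2

/-- Let `u = nd p b i = nd p b j`, `Avoid p u i j`, `turn h i ≠ turn h j`. Let `A₀` be the set of the nodes
`≠ u` of the form `nd p b' k` with `Avoid p u i k`; it contains `a = nd p (!b) i` and
`a' = nd p (!b) j`. By `grow` from `{a}` to `A₀` (`c = 2`; the nodes of `A₀` are connected in `A₀`, induction on
`Avoid`) the inequality with `c = 2` holds for `A₀`. `half h u` contains `turn h i ∪ turn h j`, which has at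
least `3` elements and is contained in `half h a ∪ half h a'`; so for `A₁ = insert u A₀` the inequality holds
with `c = 1`. Then `grow` from `A₁` to `fib h v`, `v = cls h u` (`conn_fib`). -/
theorem strict_ineq (h : Circ w Γ p) (b : Bool) (i j : ZMod L) (hij : nd p b i = nd p b j)
    (ha : Avoid p (nd p b i) i j) (ht : turn h i ≠ turn h j) :
    (push h).deg (cls h (nd p b i)) + 2 * (fib h (cls h (nd p b i))).card + 1 ≤
      (∑ x ∈ fib h (cls h (nd p b i)), (half h x).card) + 2 := by
  classical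
  set u : Nd Γ := nd p b i with hu
  have hne : ∀ m : ZMod L, nd p (!b) m ≠ u := by
    intro m hm
    have h1 : (!b) = u.1 := congrArg Sigma.fst hm
    have h2 : u.1 = b := rfl
    rw [h2] at h1
    cases b <;> simp at h1
  let A₀ : Finset (Nd Γ) :=
    Finset.univ.filter (fun y => y ≠ u ∧ ∃ b' k, y = nd p b' k ∧ Avoid p u i k)
  have hA : ∀ b' k, nd p b' k ≠ u → Avoid p u i k → nd p b' k ∈ A₀ := fun b' k h1 h2 =>
    Finset.mem_filter.2 ⟨Finset.mem_univ _, h1, b', k, rfl, h2⟩
  have hrefl : Avoid p u i i := Relation.EqvGen.refl _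
  have ha1 : nd p (!b) i ∈ A₀ := hA _ _ (hne i) hrefl
  have ha2 : nd p (!b) j ∈ A₀ := hA _ _ (hne j) ha
  have hu0 : u ∉ A₀ := fun h1 => (Finset.mem_filter.1 h1).2.1 rfl
  have hr : ∀ x y : Nd Γ, Adj p x y → 2 ≤ (half h x ∩ half h y).card :=
    fun x y hxy => two_le_of_adj h x y hxy
  have I1 : (A₀.biUnion (half h)).card + 2 * A₀.card ≤ (∑ a ∈ A₀, (half h a).card) + 2 := by
    refine grow (half h) (Adj p) hr {nd p (!b) i} A₀ (Finset.singleton_subset_iff.2 ha1) 2 ?_ ?_
    · rw [Finset.singleton_biUnion, Finset.card_singleton, Finset.sum_singleton]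
    · intro y hy
      refine ⟨nd p (!b) i, Finset.mem_singleton_self _, ?_⟩
      obtain ⟨-, h1, b', k, rfl, h2⟩ := Finset.mem_filter.1 hy
      have h3 : Relation.ReflTransGen (fun x y => x ∈ A₀ ∧ y ∈ A₀ ∧ Adj p x y)
          (nd p (!b) i) (nd p (!b) k) := Pu3_avoid_chain (b := b) (i := i) rfl hA h2 hrefl
      exact h3.tail ⟨hA _ _ (hne k) h2, hy, k, !b, b', rfl, rfl⟩
  have hsub1 : turn h i ∪ turn h j ⊆ half h u := by
    refine Finset.union_subset (turn_subset h b i) ?_
    have h1 := turn_subset h b j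
    rw [← hij] at h1
    exact h1
  have hsub2 : turn h i ∪ turn h j ⊆ A₀.biUnion (half h) := by
    refine Finset.union_subset ?_ ?_
    · exact (turn_subset h (!b) i).trans (Finset.subset_biUnion_of_mem (half h) ha1)
    · exact (turn_subset h (!b) j).trans (Finset.subset_biUnion_of_mem (half h) ha2)
  have hcard : 3 ≤ (turn h i ∪ turn h j).card := by
    by_contra h1
    have e1 : turn h i = turn h i ∪ turn h j := by
      refine Finset.eq_of_subset_of_card_le Finset.subset_union_left ?_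
      rw [turn_card]
      omega
    have e2 : turn h j = turn h i ∪ turn h j := by
      refine Finset.eq_of_subset_of_card_le Finset.subset_union_right ?_
      rw [turn_card]
      omega
    exact ht (e1.trans e2.symm)
  have h3 : 3 ≤ (half h u ∩ A₀.biUnion (half h)).card :=
    hcard.trans (Finset.card_le_card (Finset.subset_inter hsub1 hsub2))
  have I2 : ((insert u A₀).biUnion (half h)).card + 2 * (insert u A₀).card ≤
      (∑ a ∈ insert u A₀, (half h a).card) + 1 := by
    rw [Finset.biUnion_insert, Finset.sum_insert hu0, Finset.card_insert_of_notMem hu0]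
    have h4 := Finset.card_union_add_card_inter (half h u) (A₀.biUnion (half h))
    omega
  have hcls : ∀ (b' : Bool) (k : ZMod L), Avoid p u i k → cls h (nd p b' k) = cls h u := by
    intro b' k hk
    have h0 : ∀ (b b' : Bool) (m : ZMod L), cls h (nd p b m) = cls h (nd p b' m) :=
      fun b b' m => Quot.sound ⟨m, b, b', rfl, rfl⟩
    rw [h0 b' false k, ← Pu3_avoid_cls h hk, h0 false b i]
  have hsub : insert u A₀ ⊆ fib h (cls h u) := by
    intro y hy
    refine Finset.mem_filter.2 ⟨Finset.mem_univ _, ?_⟩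
    rcases Finset.mem_insert.1 hy with rfl | h1
    · rfl
    · obtain ⟨-, -, b', k, rfl, h2⟩ := Finset.mem_filter.1 h1
      exact hcls b' k h2
  have I3 := grow (half h) (Adj p) hr (insert u A₀) (fib h (cls h u)) hsub 1 I2 (by
    intro y hy
    exact ⟨u, Finset.mem_insert_self _ _, conn_fib h (cls h u) u y rfl (Finset.mem_filter.1 hy).2⟩)
  rw [deg_push]
  omega

/-- `sum_ineq` with `g = 1` and `strict_ineq`. -/
theorem star_of_large (h : Circ w Γ p) (hr : ∀ b, Fintype.card (Γ b).E ≤ Fintype.card (Γ b).V + 1)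
    (hT : Fintype.card (push h).V + 2 ≤ Fintype.card (push h).E) : Star h := by
  intro b i j hij ha
  by_contra ht
  have h1 := strict_ineq h b i j hij ha ht
  have h2 := sum_ineq h 1 (Or.inr ⟨_, h1⟩)
  have h3 := hr false
  have h4 := hr true
  omega

end Pool.Agent.Helper32.OR
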