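import Pool.Agent.Helper32.OR.Pu1

/-!
Balanced functions (project OR, MP_d4e3d0_lc).
-/

namespace Pool.Agent.Helper32.OR

open Pool.Agent.Helper22.OR Pool.Agent.Helper22.OR.Gr

variable {N L : ℕ} [NeZero L] {w : ZMod L → Letter N} {Γ : Bool → Gr (Fin N)}
  {p : ∀ b, ZMod L → (Γ b).D}

/-- The sum of a balanced function over a union of fibres of `nd p b'` is zero. -/
theorem Pu4_union (y : ZMod L → ℚ) (hy : Bal p y) (b' : Bool) (C : Finset (ZMod L))
    (hC : ∀ i j, nd p b' i = nd p b' j → (i ∈ C ↔ j ∈ C)) : ∑ i ∈ C, y i = 0 := by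
  classical
  rw [← Finset.sum_fiberwise_of_maps_to (s := C) (t := C.image (nd p b')) (g := nd p b')
    (fun i hi => Finset.mem_image_of_mem _ hi)]
  apply Finset.sum_eq_zero
  intro x hx
  obtain ⟨i1, hi1, rfl⟩ := Finset.mem_image.1 hx
  have h1 := hy (nd p b' i1)
  have h2 : C.filter (fun i => nd p b' i = nd p b' i1) =
      Finset.univ.filter (fun i => nd p (nd p b' i1).1 i = nd p b' i1) := by
    ext i
    rw [Finset.mem_filter, Finset.mem_filter]
    constructor
    · rintro ⟨-, h⟩
      exact ⟨Finset.mem_univ _, h⟩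
    · rintro ⟨-, h⟩
      exact ⟨(hC i i1 h).2 hi1, h⟩
  rw [h2]
  exact h1

/-- Let `C` be an equivalence class of `Avoid p u`, `u = nd p b i₀`. The sum of `y` over `C` is `0`: `C` is a
union of fibres of `nd p (!b)` (all its values are `≠ u`). The sum of `y` over the `i ∈ C` with
`nd p b i ≠ u` is `0`: this set is a union of fibres of `nd p b`. Subtract. -/
theorem sum_class (y : ZMod L → ℚ) (hy : Bal p y) (b : Bool) (i₀ : ZMod L)
    (C : Finset (ZMod L)) (hC : ∀ i j, Avoid p (nd p b i₀) i j → (i ∈ C ↔ j ∈ C)) :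
    ∑ i ∈ C.filter (fun i => nd p b i = nd p b i₀), y i = 0 := by
  have h1 : ∑ i ∈ C, y i = 0 := by
    refine Pu4_union y hy (!b) C fun i j hij => hC i j (Relation.EqvGen.rel _ _ ⟨!b, hij, ?_⟩)
    intro h
    have h2 : (!b) = b := congrArg Sigma.fst h
    cases b <;> cases h2
  have h2 : ∑ i ∈ C.filter (fun i => ¬ nd p b i = nd p b i₀), y i = 0 := by
    refine Pu4_union y hy b _ fun i j hij => ?_
    rw [Finset.mem_filter, Finset.mem_filter]
    constructor
    · rintro ⟨h3, h4⟩
      exact ⟨(hC i j (Relation.EqvGen.rel _ _ ⟨b, hij, h4⟩)).1 h3, fun h5 => h4 (hij.trans h5)⟩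
    · rintro ⟨h3, h4⟩
      exact ⟨(hC i j (Relation.EqvGen.rel _ _ ⟨b, hij, fun h5 => h4 (hij.symm.trans h5)⟩)).2 h3,
        fun h5 => h4 (hij.symm.trans h5)⟩
  have h3 := Finset.sum_filter_add_sum_filter_not C (fun i => nd p b i = nd p b i₀) y
  rw [h1, h2, add_zero] at h3
  exact h3

/-- Let `x` be a node; if no place has this node the sum is empty, otherwise `x = nd p b i₀`. The
equivalence classes of `Avoid p x` (a setoid on the finite type `ZMod L`) cut the sum over the places
at `x` into pieces; on the places at `x` of one class `turn h`, hence `Q`, is constant (`Star`), so the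
piece is `0` by `sum_class` or empty. -/
theorem bal_restrict (h : Circ w Γ p) (hs : Star h) (y : ZMod L → ℚ) (hy : Bal p y)
    (Q : ZMod L → Prop) [DecidablePred Q] (hQ : ∀ i j, turn h i = turn h j → (Q i ↔ Q j)) :
    Bal p (fun i => if Q i then y i else 0) := by
  classical
  intro x
  have hS : ∀ (b : Bool) (x : Nd Γ), ∑ i ∈ Finset.univ.filter (fun i => nd p b i = x),
      (if Q i then y i else 0) = 0 := by
    intro b x
    set S := Finset.univ.filter (fun i => nd p b i = x) with hSd
    set s : Setoid (ZMod L) :=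
      Relation.EqvGen.setoid (fun i j => ∃ b, nd p b i = nd p b j ∧ nd p b i ≠ x) with hs'
    rw [← Finset.sum_fiberwise_of_maps_to (s := S) (t := S.image (fun i => Quotient.mk s i))
      (g := fun i => Quotient.mk s i) (fun i hi => Finset.mem_image_of_mem _ hi)]
    apply Finset.sum_eq_zero
    intro q hq
    obtain ⟨i1, hi1, rfl⟩ := Finset.mem_image.1 hq
    have hx1 : nd p b i1 = x := (Finset.mem_filter.1 hi1).2
    have hQ1 : ∀ i ∈ S.filter (fun i => Quotient.mk s i = Quotient.mk s i1), (Q i ↔ Q i1) := by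
      intro i hi
      obtain ⟨hi2, hi3⟩ := Finset.mem_filter.1 hi
      have hx2 : nd p b i = x := (Finset.mem_filter.1 hi2).2
      apply hQ
      apply hs b i i1 (hx2.trans hx1.symm)
      rw [hx2]
      exact Quotient.exact hi3
    by_cases hQi : Q i1
    · have h1 : ∑ i ∈ S.filter (fun i => Quotient.mk s i = Quotient.mk s i1),
          (if Q i then y i else 0) =
          ∑ i ∈ S.filter (fun i => Quotient.mk s i = Quotient.mk s i1), y i := by
        refine Finset.sum_congr rfl fun i hi => ?_
        rw [if_pos ((hQ1 i hi).2 hQi)]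
      rw [h1]
      have h2 := sum_class y hy b i1
        (Finset.univ.filter (fun i => Quotient.mk s i = Quotient.mk s i1)) (by
          intro i j hij
          rw [hx1] at hij
          have h3 : Quotient.mk s i = Quotient.mk s j := Quotient.sound hij
          simp only [Finset.mem_filter, Finset.mem_univ, true_and, h3])
      rw [hx1] at h2
      rw [← h2]
      refine Finset.sum_congr ?_ fun i _ => rfl
      ext i
      simp only [hSd, Finset.mem_filter, Finset.mem_univ, true_and]
      exact and_comm
    · refine Finset.sum_eq_zero fun i hi => ?_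
      rw [if_neg (fun h1 => hQi ((hQ1 i hi).1 h1))]
  exact hS x.1 x

end Pool.Agent.Helper32.OR
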