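import Pool.Agent.Helper32.OR.Pu1

/-!
Moving a balanced function (project OR, MP_d4e3d0_lc).
-/

namespace Pool.Agent.Helper32.OR

open Pool.Agent.Helper22.OR Pool.Agent.Helper22.OR.Gr

variable {N L : ℕ} [NeZero L] {w : ZMod L → Letter N} {Γ : Bool → Gr (Fin N)}
  {p : ∀ b, ZMod L → (Γ b).D}

omit [NeZero L] in
private theorem Pu5_nd_iff (b : Bool) (j : ZMod L) (u : (Γ b).V) :
    nd p b j = (⟨b, u⟩ : Nd Γ) ↔ (Γ b).st (p b j) = u := by
  unfold nd
  constructor
  · intro h1
    exact eq_of_heq (Sigma.mk.inj h1).2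
  · intro h1
    rw [h1]

/-- The first kind of summand after the substitution. -/
private noncomputable def Pu5_A (h : Circ w Γ p) (δ : (push h).D) (y : ZMod L → ℚ) (b : Bool)
    (u : (Γ b).V) (i : ZMod L) : ℚ :=
  if cp h i = δ ∧ (Γ b).en (p b i) = u then y i else 0

/-- The second kind of summand after the substitution. -/
private noncomputable def Pu5_B (h : Circ w Γ p) (δ : (push h).D) (y : ZMod L → ℚ) (b : Bool)
    (u : (Γ b).V) (i : ZMod L) : ℚ :=
  if (push h).dinv (cp h (i - 1)) = δ ∧ (Γ b).en ((Γ b).dinv (p b (i - 1))) = u then y i else 0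

private theorem Pu5_split (h : Circ w Γ p) (δ : (push h).D) (y : ZMod L → ℚ) (b : Bool)
    (u : (Γ b).V) (j : ZMod L) :
    (if nd p b j = (⟨b, u⟩ : Nd Γ) then move h δ y j else 0) =
      Pu5_A h δ y b u (j - 1) + Pu5_B h δ y b u (j + 1) := by
  have h1 : (Γ b).en (p b (j - 1)) = (Γ b).st (p b j) := by
    rw [h.next, sub_add_cancel]
  have h2 : (Γ b).en ((Γ b).dinv (p b (j + 1 - 1))) = (Γ b).st (p b j) := by
    rw [add_sub_cancel_right, Gr.en_dinv]
  have h3 : (push h).dinv (cp h (j + 1 - 1)) = (push h).dinv (cp h j) := by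
    rw [add_sub_cancel_right]
  unfold Pu5_A Pu5_B move
  rw [h1, h2, h3]
  by_cases hj : (Γ b).st (p b j) = u
  · rw [if_pos ((Pu5_nd_iff b j u).2 hj)]
    simp only [hj, and_true]
  · rw [if_neg (fun hc => hj ((Pu5_nd_iff b j u).1 hc))]
    simp only [hj, and_false, if_false, add_zero]

private theorem Pu5_sum (h : Circ w Γ p) (δ : (push h).D) (y : ZMod L → ℚ) (b : Bool)
    (u : (Γ b).V) :
    ∑ i ∈ Finset.univ.filter (fun i => nd p b i = (⟨b, u⟩ : Nd Γ)), move h δ y i =
      ∑ i, (Pu5_A h δ y b u i + Pu5_B h δ y b u i) := by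
  rw [Finset.sum_filter, Finset.sum_congr rfl (fun j _ => Pu5_split h δ y b u j),
    Finset.sum_add_distrib, Finset.sum_add_distrib]
  congr 1
  · exact Equiv.sum_comp (Equiv.subRight (1 : ZMod L)) (Pu5_A h δ y b u)
  · exact Equiv.sum_comp (Equiv.addRight (1 : ZMod L)) (Pu5_B h δ y b u)

/-- Let `x = ⟨b, u'⟩`. The sum of `move h δ y` over the places at `x` is (substitute `i = j - 1`,
`i = j + 1`) the sum of `y i` over the `i` with `cp h i = δ`, `en (p b i) = u'` plus the sum of `y i` over the
`i` with `dinv (cp h (i - 1)) = δ`, `en (dinv (p b (i - 1))) = u'`. Let `D` be the set of the darts `d` of `Γ b`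
with `cd h b d = δ` and `en d = u'`: it has at most one element (the darts `dinv d` start at `u'` and
have the same letter, `lt_cd`, folded). If `D` is empty both sums are empty. If `D = {d}`, then with
`u = st d` they are the sums of `y i` over the `i` with `p b i = d` and over the `i` with
`dinv (p b (i - 1)) = d`; these two sets are disjoint (letters, `h.red`) and consist of the places at `⟨b, u⟩`
whose `turn` contains `δ` (a dart at `u` with class `δ` is `d`, folded); so the sum is the sum of `y` over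
all places at `⟨b, u⟩`, because `y i = 0` if `δ ∉ turn h i`. It is `0` because `y` is balanced. -/
theorem bal_move (h : Circ w Γ p) (δ : (push h).D) (y : ZMod L → ℚ) (hy : Bal p y)
    (hδ : ∀ i, y i ≠ 0 → δ ∈ turn h i) : Bal p (move h δ y) := by
  rintro ⟨b, u'⟩
  show ∑ i ∈ Finset.univ.filter (fun i => nd p b i = (⟨b, u'⟩ : Nd Γ)), move h δ y i = 0
  rw [Pu5_sum]
  have hcd1 : ∀ i, cd h b (p b i) = cp h i := fun i => cd_p h b i
  have hcd2 : ∀ i, cd h b ((Γ b).dinv (p b (i - 1))) = (push h).dinv (cp h (i - 1)) := by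
    intro i
    rw [← dinv_cd, cd_p]
  by_cases hD : ∃ d : (Γ b).D, cd h b d = δ ∧ (Γ b).en d = u'
  · obtain ⟨d, hd, hu⟩ := hD
    have huniq : ∀ d' : (Γ b).D, cd h b d' = δ → (Γ b).en d' = u' → d' = d := by
      intro d' h1 h2
      have h3 : (Γ b).dinv d' = (Γ b).dinv d := by
        refine h.folded b _ _ ?_ ?_
        · rw [Gr.st_dinv, Gr.st_dinv, h2, hu]
        · rw [Gr.lt_dinv, Gr.lt_dinv, ← lt_cd h b d', ← lt_cd h b d, h1, hd]
      rw [← Gr.dinv_dinv (Γ b) d', h3, Gr.dinv_dinv]
    have hlet : ∀ i, (Γ b).dinv (p b (i - 1)) ≠ p b i := by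
      intro i hc
      have h1 := congrArg (Γ b).lt hc
      rw [Gr.lt_dinv, h.lt, h.lt] at h1
      have h2 := h.red (i - 1)
      rw [sub_add_cancel] at h2
      exact h2 h1.symm
    have hA : ∀ i, Pu5_A h δ y b u' i = if p b i = d then y i else 0 := by
      intro i
      unfold Pu5_A
      refine if_congr ⟨?_, ?_⟩ rfl rfl
      · rintro ⟨h1, h2⟩
        exact huniq _ ((hcd1 i).trans h1) h2
      · intro h1
        exact ⟨(hcd1 i).symm.trans (by rw [h1, hd]), by rw [h1, hu]⟩
    have hB : ∀ i, Pu5_B h δ y b u' i = if (Γ b).dinv (p b (i - 1)) = d then y i else 0 := by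
      intro i
      unfold Pu5_B
      refine if_congr ⟨?_, ?_⟩ rfl rfl
      · rintro ⟨h1, h2⟩
        exact huniq _ ((hcd2 i).trans h1) h2
      · intro h1
        exact ⟨(hcd2 i).symm.trans (by rw [h1, hd]), by rw [h1, hu]⟩
    have hC : ∀ i, Pu5_A h δ y b u' i + Pu5_B h δ y b u' i =
        if nd p b i = (⟨b, (Γ b).st d⟩ : Nd Γ) then y i else 0 := by
      intro i
      rw [hA, hB]
      by_cases hy0 : y i = 0
      · rw [hy0]
        simp only [ite_self, add_zero]
      · by_cases hs : (Γ b).st (p b i) = (Γ b).st d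
        · rw [if_pos ((Pu5_nd_iff b i _).2 hs)]
          have hmem := hδ i hy0
          unfold turn at hmem
          rw [Finset.mem_insert, Finset.mem_singleton] at hmem
          rcases hmem with h1 | h1
          · have h2 : p b i = d := by
              refine h.folded b _ _ hs ?_
              rw [← lt_cd h b (p b i), ← lt_cd h b d, hcd1, hd, h1]
            have h3 : ¬ (Γ b).dinv (p b (i - 1)) = d := fun h4 => hlet i (h4.trans h2.symm)
            rw [if_pos h2, if_neg h3, add_zero]
          · have h2 : (Γ b).dinv (p b (i - 1)) = d := by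
              refine h.folded b _ _ ((st_dinv_p h b i).trans hs) ?_
              rw [← lt_cd h b ((Γ b).dinv (p b (i - 1))), ← lt_cd h b d, hcd2, hd, h1]
            have h3 : ¬ p b i = d := fun h4 => hlet i (h2.trans h4.symm)
            rw [if_pos h2, if_neg h3, zero_add]
        · rw [if_neg (fun hc => hs ((Pu5_nd_iff b i _).1 hc))]
          have h2 : ¬ p b i = d := fun h4 => hs (by rw [h4])
          have h3 : ¬ (Γ b).dinv (p b (i - 1)) = d := fun h4 =>
            hs (by rw [← h4, st_dinv_p h b i])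
          rw [if_neg h2, if_neg h3, add_zero]
    rw [Finset.sum_congr rfl (fun i _ => hC i), ← Finset.sum_filter]
    exact hy ⟨b, (Γ b).st d⟩
  · refine Finset.sum_eq_zero (fun i _ => ?_)
    unfold Pu5_A Pu5_B
    rw [if_neg, if_neg, add_zero]
    · rintro ⟨h1, h2⟩
      exact hD ⟨_, (hcd2 i).trans h1, h2⟩
    · rintro ⟨h1, h2⟩
      exact hD ⟨_, (hcd1 i).trans h1, h2⟩

end Pool.Agent.Helper32.OR
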