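import Pool.Agent.Helper32.OR.Pu4
import Pool.Agent.Helper32.OR.Pu5

/-!
Under `Star` there is no balanced function `≠ 0` (project OR, MP_d4e3d0_lc).
-/

namespace Pool.Agent.Helper32.OR

open Pool.Agent.Helper22.OR Pool.Agent.Helper22.OR.Gr

variable {N L : ℕ} [NeZero L] {w : ZMod L → Letter N} {Γ : Bool → Gr (Fin N)}
  {p : ∀ b, ZMod L → (Γ b).D}

/-- A reduced cyclic word is not a rotation of its inverse. Write `c = ((z : ℤ) : ZMod L)`. If `z = 2 m`
then the place `m` gives `w m = linv (w m)`, impossible. If `z = 2 m + 1` then the place `m` gives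
`w m = linv (w (m + 1))`, so `w (m + 1) = linv (w m)`, against `h.red`. -/
theorem no_rev (h : Circ w Γ p) (c : ZMod L) : ¬ ∀ m : ZMod L, w m = linv (w (c - m)) := by
  intro hc
  obtain ⟨z, rfl⟩ := ZMod.intCast_surjective c
  rcases Int.even_or_odd' z with ⟨m, rfl | rfl⟩
  · have h1 := hc (m : ZMod L)
    have h2 : ((2 * m : ℤ) : ZMod L) - (m : ZMod L) = (m : ZMod L) := by
      push_cast
      ring
    rw [h2] at h1
    have h3 := congrArg Prod.snd h1
    simp [linv] at h3
  · have h1 := hc (m : ZMod L)
    have h2 : ((2 * m + 1 : ℤ) : ZMod L) - (m : ZMod L) = (m : ZMod L) + 1 := by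
      push_cast
      ring
    rw [h2] at h1
    apply h.red (m : ZMod L)
    rw [h1]
    simp [linv]

/-- The functions `y₀ = y`, `y_(t+1) = move h (cp h (i₀ + t)) (y_t restricted to the places whose turn
contains cp h (i₀ + t))`. -/
noncomputable def flow (h : Circ w Γ p) (i₀ : ZMod L) (y : ZMod L → ℚ) : ℕ → ZMod L → ℚ
  | 0 => y
  | t + 1 => move h (cp h (i₀ + t)) (fun i =>
      open Classical in if cp h (i₀ + t) ∈ turn h i then flow h i₀ y t i else 0)

/-- Induction on `t` with `bal_restrict` and `bal_move`. -/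
theorem bal_flow (h : Circ w Γ p) (hs : Star h) (i₀ : ZMod L) (y : ZMod L → ℚ) (hy : Bal p y)
    (t : ℕ) : Bal p (flow h i₀ y t) := by
  classical
  induction t with
  | zero => exact hy
  | succ t ih =>
    have h1 := bal_move h (cp h (i₀ + t))
      (fun i => if cp h (i₀ + t) ∈ turn h i then flow h i₀ y t i else 0)
      (bal_restrict h hs (flow h i₀ y t) ih (fun i => cp h (i₀ + t) ∈ turn h i)
        (fun i j e => by rw [e]))
      (fun i hi => by
        by_contra hn
        exact hi (if_neg hn))
    have h2 : flow h i₀ y (t + 1) = move h (cp h (i₀ + t))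
        (fun i => if cp h (i₀ + t) ∈ turn h i then flow h i₀ y t i else 0) := by
      show move h (cp h (i₀ + t)) _ = _
      congr 1
    rw [h2]
    exact h1

end Pool.Agent.Helper32.OR
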