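import Pool.Agent.Helper32.OR.Pu6a

/-!
Under `Star` there is no balanced function `≠ 0` (project OR, MP_d4e3d0_lc).
-/

namespace Pool.Agent.Helper32.OR

open Pool.Agent.Helper22.OR Pool.Agent.Helper22.OR.Gr

variable {N L : ℕ} [NeZero L] {w : ZMod L → Letter N} {Γ : Bool → Gr (Fin N)}
  {p : ∀ b, ZMod L → (Γ b).D}

private theorem Pu6b_lt_dinv (h : Circ w Γ p) (d : (push h).D) :
    (push h).lt ((push h).dinv d) = linv ((push h).lt d) := rfl

private theorem Pu6b_linv_linv (a : Letter N) : linv (linv a) = a := by
  simp [linv]

/-- `cp h (i + 1)` and `cp h i` are never inverse to each other. -/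
private theorem Pu6b_red (h : Circ w Γ p) (i : ZMod L) :
    (push h).dinv (cp h i) ≠ cp h (i + 1) := by
  intro hc
  have h1 := congrArg (push h).lt hc
  rw [Pu6b_lt_dinv, lt_cp, lt_cp] at h1
  exact h.red i h1.symm

private theorem Pu6b_red' (h : Circ w Γ p) (i : ZMod L) :
    (push h).dinv (cp h (i + 1)) ≠ cp h i := by
  intro hc
  have h1 := congrArg (push h).lt hc
  rw [Pu6b_lt_dinv, lt_cp, lt_cp] at h1
  exact h.red i (by rw [← h1, Pu6b_linv_linv])

open Classical in
private theorem Pu6b_succ (h : Circ w Γ p) (i₀ : ZMod L) (y : ZMod L → ℚ) (t : ℕ) (j : ZMod L) :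
    flow h i₀ y (t + 1) j =
      (if cp h (j - 1) = cp h (i₀ + t) then flow h i₀ y t (j - 1) else 0) +
      (if (push h).dinv (cp h j) = cp h (i₀ + t) then flow h i₀ y t (j + 1) else 0) := by
  have h1 : flow h i₀ y (t + 1) j = move h (cp h (i₀ + t))
        (fun i => if cp h (i₀ + t) ∈ turn h i then flow h i₀ y t i else 0) j := by
    show move h (cp h (i₀ + t)) _ j = _
    congr 1
  rw [h1]
  unfold move
  congr 1
  · by_cases h2 : cp h (j - 1) = cp h (i₀ + t)
    · rw [if_pos h2, if_pos h2]
      have h3 : cp h (i₀ + t) ∈ turn h (j - 1) := by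
        rw [← h2]
        unfold turn
        exact Finset.mem_insert_self _ _
      exact if_pos h3
    · rw [if_neg h2, if_neg h2]
  · by_cases h2 : (push h).dinv (cp h j) = cp h (i₀ + t)
    · rw [if_pos h2, if_pos h2]
      have h3 : cp h (i₀ + t) ∈ turn h (j + 1) := by
        rw [← h2]
        unfold turn
        rw [add_sub_cancel_right]
        exact Finset.mem_insert_of_mem (Finset.mem_singleton_self _)
      exact if_pos h3
    · rw [if_neg h2, if_neg h2]

open Classical in
/-- Formula for `flow`, `t ≥ 1`: induction on `t`. In the step let `δ = cp h (i₀ + t)`. If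
`cp h (j - 1) = δ` then `δ ∈ turn h (j - 1)` and the second summand of `flow t (j - 1)` vanishes,
because its condition for `s = t - 1` says `dinv (cp h (j - 1)) = cp h (i₀ + t - 1)`, which contradicts
`h.red` (letters). Similarly if `dinv (cp h j) = δ` then `δ ∈ turn h (j + 1)` and the first summand of
`flow t (j + 1)` vanishes. -/
theorem flow_eq (h : Circ w Γ p) (i₀ : ZMod L) (y : ZMod L → ℚ) (t : ℕ) (ht : 1 ≤ t)
    (j : ZMod L) : flow h i₀ y t j =
      (if ∀ s < t, cp h (j - t + s) = cp h (i₀ + s) then y (j - t) else 0) +
      (if ∀ s < t, (push h).dinv (cp h (j + t - 1 - s)) = cp h (i₀ + s) then y (j + t) else 0) := by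
  induction t, ht using Nat.le_induction generalizing j with
  | base =>
    rw [Pu6b_succ]
    congr 1
    · have h1 : (cp h (j - 1) = cp h (i₀ + ((0 : ℕ) : ZMod L))) ↔
          ∀ s : ℕ, s < 1 → cp h (j - ((1 : ℕ) : ZMod L) + (s : ZMod L)) = cp h (i₀ + (s : ZMod L)) := by
        constructor
        · intro h2 s hs
          obtain rfl : s = 0 := by omega
          rw [← h2]
          congr 1
          push_cast
          ring
        · intro h2
          have h3 := h2 0 (by omega)
          rw [← h3]
          congr 1
          push_cast
          ring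
      have h4 : flow h i₀ y 0 (j - 1) = y (j - ((1 : ℕ) : ZMod L)) := by
        show y (j - 1) = _
        rw [Nat.cast_one]
      rw [h4]
      exact if_congr h1 rfl rfl
    · have h1 : ((push h).dinv (cp h j) = cp h (i₀ + ((0 : ℕ) : ZMod L))) ↔
          ∀ s : ℕ, s < 1 → (push h).dinv (cp h (j + ((1 : ℕ) : ZMod L) - 1 - (s : ZMod L))) =
            cp h (i₀ + (s : ZMod L)) := by
        constructor
        · intro h2 s hs
          obtain rfl : s = 0 := by omega
          rw [← h2]
          congr 2
          push_cast
          ring
        · intro h2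
          have h3 := h2 0 (by omega)
          rw [← h3]
          congr 2
          push_cast
          ring
      have h4 : flow h i₀ y 0 (j + 1) = y (j + ((1 : ℕ) : ZMod L)) := by
        show y (j + 1) = _
        rw [Nat.cast_one]
      rw [h4]
      exact if_congr h1 rfl rfl
  | succ t ht ih =>
    rw [Pu6b_succ]
    congr 1
    · rw [ih (j - 1)]
      by_cases hc : cp h (j - 1) = cp h (i₀ + (t : ZMod L))
      · rw [if_pos hc]
        have hB : ¬ ∀ s < t, (push h).dinv (cp h (j - 1 + (t : ZMod L) - 1 - (s : ZMod L))) =
            cp h (i₀ + (s : ZMod L)) := by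
          intro hB
          have h1 := hB (t - 1) (by omega)
          have h2 : ((t - 1 : ℕ) : ZMod L) = (t : ZMod L) - 1 := by
            rw [Nat.cast_sub ht, Nat.cast_one]
          rw [h2] at h1
          have h3 : j - 1 + (t : ZMod L) - 1 - ((t : ZMod L) - 1) = j - 1 := by ring
          rw [h3, hc] at h1
          have h4 : i₀ + (t : ZMod L) = (i₀ + ((t : ZMod L) - 1)) + 1 := by ring
          rw [h4] at h1
          exact Pu6b_red' h _ h1
        rw [if_neg hB, add_zero]
        have h5 : (∀ s < t, cp h (j - 1 - (t : ZMod L) + (s : ZMod L)) = cp h (i₀ + (s : ZMod L))) ↔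
            ∀ s < t + 1, cp h (j - ((t + 1 : ℕ) : ZMod L) + (s : ZMod L)) =
              cp h (i₀ + (s : ZMod L)) := by
          constructor
          · intro h6 s hs
            rcases Nat.lt_succ_iff_lt_or_eq.1 hs with h7 | rfl
            · rw [← h6 s h7]
              congr 1
              push_cast
              ring
            · rw [← hc]
              congr 1
              push_cast
              ring
          · intro h6 s hs
            rw [← h6 s (by omega)]
            congr 1
            push_cast
            ring
        have h8 : j - 1 - (t : ZMod L) = j - ((t + 1 : ℕ) : ZMod L) := by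
          push_cast
          ring
        rw [← h8] at h5 ⊢
        exact if_congr h5 rfl rfl
      · rw [if_neg hc, if_neg]
        intro h1
        apply hc
        rw [← h1 t (by omega)]
        congr 1
        push_cast
        ring
    · rw [ih (j + 1)]
      by_cases hc : (push h).dinv (cp h j) = cp h (i₀ + (t : ZMod L))
      · rw [if_pos hc]
        have hA : ¬ ∀ s < t, cp h (j + 1 - (t : ZMod L) + (s : ZMod L)) =
            cp h (i₀ + (s : ZMod L)) := by
          intro hA
          have h1 := hA (t - 1) (by omega)
          have h2 : ((t - 1 : ℕ) : ZMod L) = (t : ZMod L) - 1 := by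
            rw [Nat.cast_sub ht, Nat.cast_one]
          rw [h2] at h1
          have h3 : j + 1 - (t : ZMod L) + ((t : ZMod L) - 1) = j := by ring
          rw [h3] at h1
          rw [h1] at hc
          have h4 : i₀ + (t : ZMod L) = (i₀ + ((t : ZMod L) - 1)) + 1 := by ring
          rw [h4] at hc
          exact Pu6b_red h _ hc
        rw [if_neg hA, zero_add]
        have h5 : (∀ s < t, (push h).dinv (cp h (j + 1 + (t : ZMod L) - 1 - (s : ZMod L))) =
              cp h (i₀ + (s : ZMod L))) ↔
            ∀ s < t + 1, (push h).dinv (cp h (j + ((t + 1 : ℕ) : ZMod L) - 1 - (s : ZMod L))) =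
              cp h (i₀ + (s : ZMod L)) := by
          constructor
          · intro h6 s hs
            rcases Nat.lt_succ_iff_lt_or_eq.1 hs with h7 | rfl
            · rw [← h6 s h7]
              congr 2
              push_cast
              ring
            · rw [← hc]
              congr 2
              push_cast
              ring
          · intro h6 s hs
            rw [← h6 s (by omega)]
            congr 2
            push_cast
            ring
        have h8 : j + 1 + (t : ZMod L) = j + ((t + 1 : ℕ) : ZMod L) := by
          push_cast
          ring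
        rw [← h8] at h5 ⊢
        exact if_congr h5 rfl rfl
      · rw [if_neg hc, if_neg]
        intro h1
        apply hc
        rw [← h1 t (by omega)]
        congr 2
        push_cast
        ring

end Pool.Agent.Helper32.OR
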