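import Pool.Agent.Helper32.OR.Pu6b

/-!
Under `Star` there is no balanced function `≠ 0` (project OR, MP_d4e3d0_lc).
-/

namespace Pool.Agent.Helper32.OR

open Pool.Agent.Helper22.OR Pool.Agent.Helper22.OR.Gr

variable {N L : ℕ} [NeZero L] {w : ZMod L → Letter N} {Γ : Bool → Gr (Fin N)}
  {p : ∀ b, ZMod L → (Γ b).D}

private theorem Pu6c_surj (i₀ m : ZMod L) : ∃ s : ℕ, s < L ∧ i₀ + (s : ZMod L) = m := by
  refine ⟨(m - i₀).val, ZMod.val_lt _, ?_⟩
  rw [ZMod.natCast_zmod_val]
  ring

private theorem Pu6c_lt (G : Gr (Fin N)) (d : G.D) : G.lt (G.dinv d) = linv (G.lt d) := rfl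

private theorem Pu6c_flow (h : Circ w Γ p) (hper : ∀ d, (∀ i, w (i + d) = w i) → d = 0)
    (i₀ : ZMod L) (y : ZMod L → ℚ) (j : ZMod L) :
    flow h i₀ y L j = if j = i₀ then y i₀ else 0 := by
  classical
  have hL : 1 ≤ L := Nat.one_le_iff_ne_zero.mpr (NeZero.ne L)
  have hc : ((L : ℕ) : ZMod L) = 0 := ZMod.natCast_self L
  rw [flow_eq h i₀ y L hL j, hc, sub_zero, add_zero]
  have h2 : ¬ ∀ s < L, (push h).dinv (cp h (j - 1 - s)) = cp h (i₀ + s) := by
    intro hcon
    refine no_rev h (j - 1 + i₀) fun m => ?_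
    obtain ⟨s, hs, rfl⟩ := Pu6c_surj i₀ m
    have h3 := congrArg (push h).lt (hcon s hs)
    rw [Pu6c_lt, lt_cp, lt_cp] at h3
    rw [← h3]
    congr 2
    ring
  rw [if_neg h2, add_zero]
  by_cases hj : j = i₀
  · subst hj
    rw [if_pos rfl, if_pos (fun s _ => rfl)]
  · rw [if_neg hj, if_neg]
    intro hcon
    apply hj
    rw [← sub_eq_zero]
    refine hper (j - i₀) fun m => ?_
    obtain ⟨s, hs, rfl⟩ := Pu6c_surj i₀ m
    have h3 := congrArg (push h).lt (hcon s hs)
    rw [lt_cp, lt_cp] at h3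
    rw [← h3]
    congr 1
    ring

/-- Take `t = L`. In `flow_eq` the second condition would give (letters, `lt_cp`; every element of
`ZMod L` is some `i₀ + s` with `s < L`) `w m = linv (w (c - m))` for all `m`, against `no_rev`. The first one
gives `w (m + d) = w m` for all `m` with `d = j - L - i₀`, so `d = 0`. Therefore `flow h i₀ y L` is `0` outside
of `j = i₀ + L` where it is `y i₀`; the sum over the places at the node of `j` is `0` (`bal_flow`). -/
theorem bal_zero (h : Circ w Γ p) (hs : Star h) (hper : ∀ d, (∀ i, w (i + d) = w i) → d = 0)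
    (y : ZMod L → ℚ) (hy : Bal p y) : y = 0 := by
  classical
  funext i₀
  have h1 := bal_flow h hs i₀ y hy L (nd p false i₀)
  have h2 : ∑ i ∈ Finset.univ.filter (fun i => nd p (nd p false i₀).1 i = nd p false i₀),
      flow h i₀ y L i = y i₀ := by
    rw [Finset.sum_congr rfl fun i _ => Pu6c_flow h hper i₀ y i, Finset.sum_ite_eq' ]
    rw [if_pos]
    rw [Finset.mem_filter]
    exact ⟨Finset.mem_univ _, rfl⟩
  rw [← h2]
  exact h1

end Pool.Agent.Helper32.OR
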