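import Pool.Agent.Helper32.OR.Pu1

/-!
Dimension count (project OR, MP_d4e3d0_lc).
-/

namespace Pool.Agent.Helper32.OR

open Pool.Agent.Helper22.OR Pool.Agent.Helper22.OR.Gr

variable {N L : ℕ} [NeZero L] {w : ZMod L → Letter N} {Γ : Bool → Gr (Fin N)}
  {p : ∀ b, ZMod L → (Γ b).D}

private theorem Pu7_cls (h : Circ w Γ p) (i : ZMod L) (b b' : Bool) :
    cls h (nd p b i) = cls h (nd p b' i) :=
  Quot.sound ⟨i, b, b', rfl, rfl⟩

private theorem Pu7_orth (h : Circ w Γ p) (y : ZMod L → ℚ) (f : (push h).V → ℚ) :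
    ∑ x : Nd Γ, (∑ i ∈ Finset.univ.filter (fun i => nd p x.1 i = x), y i) *
      ((if x.1 then (-1 : ℚ) else 1) * f (cls h x)) = 0 := by
  have h1 : ∀ b : Bool, ∑ v : (Γ b).V, (∑ i ∈ Finset.univ.filter (fun i => nd p b i = ⟨b, v⟩), y i) *
      ((if b then (-1 : ℚ) else 1) * f (cls h ⟨b, v⟩)) =
      (if b then (-1 : ℚ) else 1) * ∑ i, y i * f (cls h (nd p false i)) := by
    intro b
    simp only [Finset.sum_mul, Finset.sum_filter]
    rw [Finset.sum_comm, Finset.mul_sum]
    refine Finset.sum_congr rfl fun i _ => ?_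
    rw [Finset.sum_eq_single ((Γ b).st (p b i))]
    · have h2 : nd p b i = ⟨b, (Γ b).st (p b i)⟩ := rfl
      rw [if_pos h2, ← h2, Pu7_cls h i b false]
      ring
    · intro v _ hv
      have h2 : ¬ nd p b i = ⟨b, v⟩ := by
        intro e
        apply hv
        have e2 : (⟨b, (Γ b).st (p b i)⟩ : Nd Γ) = ⟨b, v⟩ := e
        exact (eq_of_heq (Sigma.mk.inj e2).2).symm
      rw [if_neg h2, zero_mul]
    · intro hn
      exact absurd (Finset.mem_univ _) hn
  rw [Fintype.sum_sigma, Fintype.sum_bool]
  rw [h1 true, h1 false]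
  simp

/-- The linear map `A : (ZMod L → ℚ) → (Nd Γ → ℚ)`, `A y x = ∑ i with nd p x.1 i = x, y i`, is injective. The
linear map `B : (Nd Γ → ℚ) → ((push h).V → ℚ)`, `B a v = ∑ x over v, ± a x` (sign `+` for `x.1 = false`, `-` for
`x.1 = true`), is surjective: every `v` is the class of some `⟨false, u⟩` (a vertex `⟨true, u'⟩` is
`nd p true i` by `h.vert`, and is identified with `nd p false i`). `B ∘ A = 0`: both parts are the sum of `y i`
over the places `i` with class `v`. So `L ≤ dim ker B = card (Nd Γ) - card (push h).V`. -/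
theorem dim_ineq (h : Circ w Γ p) (hb : ∀ y : ZMod L → ℚ, Bal p y → y = 0) :
    L + Fintype.card (push h).V ≤ Fintype.card (Γ false).V + Fintype.card (Γ true).V := by
  let T : ((ZMod L → ℚ) × ((push h).V → ℚ)) →ₗ[ℚ] (Nd Γ → ℚ) :=
    { toFun := fun q x => (∑ i ∈ Finset.univ.filter (fun i => nd p x.1 i = x), q.1 i) +
        (if x.1 then (-1 : ℚ) else 1) * q.2 (cls h x)
      map_add' := by
        intro q q'
        funext x
        simp only [Prod.fst_add, Prod.snd_add, Pi.add_apply, Finset.sum_add_distrib]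
        ring
      map_smul' := by
        intro c q
        funext x
        simp only [Prod.smul_fst, Prod.smul_snd, Pi.smul_apply, smul_eq_mul, RingHom.id_apply,
          ← Finset.mul_sum]
        ring }
  have hinj : Function.Injective T := by
    rw [injective_iff_map_eq_zero]
    rintro ⟨y, f⟩ hq
    have e : ∀ x : Nd Γ, (∑ i ∈ Finset.univ.filter (fun i => nd p x.1 i = x), y i) +
        (if x.1 then (-1 : ℚ) else 1) * f (cls h x) = 0 := fun x => congrFun hq x
    have h1 : ∑ x : Nd Γ, (∑ i ∈ Finset.univ.filter (fun i => nd p x.1 i = x), y i) *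
        (∑ i ∈ Finset.univ.filter (fun i => nd p x.1 i = x), y i) = 0 := by
      have h2 := Pu7_orth h y f
      rw [← neg_eq_zero, ← Finset.sum_neg_distrib] at h2
      rw [← h2]
      refine Finset.sum_congr rfl fun x _ => ?_
      have h3 := e x
      rw [← mul_neg]
      congr 1
      linarith
    have h2 : ∀ x : Nd Γ, ∑ i ∈ Finset.univ.filter (fun i => nd p x.1 i = x), y i = 0 := by
      intro x
      have h3 := (Finset.sum_eq_zero_iff_of_nonneg
        (fun x _ => mul_self_nonneg (∑ i ∈ Finset.univ.filter (fun i => nd p x.1 i = x), y i))).1 h1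
        x (Finset.mem_univ x)
      exact mul_self_eq_zero.1 h3
    have hy : y = 0 := hb y h2
    have hf : f = 0 := by
      funext v
      obtain ⟨x, rfl⟩ := Quot.exists_rep v
      have h3 := e x
      rw [h2 x, zero_add] at h3
      have h4 : (if x.1 then (-1 : ℚ) else 1) ≠ 0 := by
        split_ifs <;> norm_num
      exact (mul_eq_zero.1 h3).resolve_left h4
    rw [hy, hf]
    rfl
  have h1 := LinearMap.finrank_le_finrank_of_injective hinj
  rw [Module.finrank_prod, Module.finrank_fintype_fun_eq_card, Module.finrank_fintype_fun_eq_card,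
    Module.finrank_fintype_fun_eq_card, ZMod.card, Fintype.card_sigma, Fintype.sum_bool] at h1
  omega

end Pool.Agent.Helper32.OR
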