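import Pool.Agent.Helper32.OR.Pu3
import Pool.Agent.Helper32.OR.Pu6c
import Pool.Agent.Helper32.OR.Pu7
import Pool.Agent.Helper22.OR.GenG

/-!
The pushout has rank at most two (project OR, MP_d4e3d0_lc).
-/

namespace Pool.Agent.Helper32.OR

open Pool.Agent.Helper22.OR Pool.Agent.Helper22.OR.Gr

variable {N L : ℕ} [NeZero L] {w : ZMod L → Letter N} {Γ : Bool → Gr (Fin N)}
  {p : ∀ b, ZMod L → (Γ b).D}

/-- Otherwise `star_of_large`, `bal_zero`, `dim_ineq` give `L + |V_T| ≤ |V₁| + |V₂|`, and `sum_ineq` with `g = 0`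
and `2 |E_b| ≤ L` give `|E_T| + |V₁| + |V₂| ≤ |E₁| + |E₂| + |V_T| ≤ L + |V_T| ≤ |V₁| + |V₂|`, so `|E_T| = 0`;
but `(cp h 0).1` is an edge. -/
theorem push_rank (h : Circ w Γ p) (hr : ∀ b, Fintype.card (Γ b).E ≤ Fintype.card (Γ b).V + 1)
    (h2 : ∀ b, 2 * Fintype.card (Γ b).E ≤ L) (hper : ∀ d, (∀ i, w (i + d) = w i) → d = 0) :
    Fintype.card (push h).E ≤ Fintype.card (push h).V + 1 := by
  by_contra hcon
  have hT : Fintype.card (push h).V + 2 ≤ Fintype.card (push h).E := by omega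
  have hs : Star h := star_of_large h hr hT
  have h4 := dim_ineq h (fun y hy => bal_zero h hs hper y hy)
  have h5 := sum_ineq h 0 (Or.inl rfl)
  have h6 := h2 false
  have h7 := h2 true
  omega

end Pool.Agent.Helper32.OR
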