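import Pool.Agent.Helper32.OR.Pu8a

/-!
The pushout has rank at most two (project OR, MP_d4e3d0_lc).
-/

namespace Pool.Agent.Helper32.OR

open Pool.Agent.Helper22.OR Pool.Agent.Helper22.OR.Gr

variable {N L : ℕ} [NeZero L] {w : ZMod L → Letter N} {Γ : Bool → Gr (Fin N)}
  {p : ∀ b, ZMod L → (Γ b).D}

/-- Paths of `Γ b` give paths of the pushout with the same value (`P.transfer'`). -/
theorem P_push (h : Circ w Γ p) (b : Bool) {u v : (Γ b).V} {g : FreeGroup (Fin N)}
    (hP : (Γ b).P FreeGroup.of u v g) :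
    (push h).P FreeGroup.of (cls h ⟨b, u⟩) (cls h ⟨b, v⟩) g := by
  refine P.transfer' (Γ' := push h) (f' := FreeGroup.of) (fun v => cls h ⟨b, v⟩) (fun e => ?_) hP
  exact P.edge (Γ := push h) (f := FreeGroup.of) (Quot.mk _ ⟨b, e⟩)

/-- values of the nodes along the word, the same in both graphs -/
theorem Pu8b_places (h : Circ w Γ p) (hb : ∀ b, (Γ b).st (p b 0) = (Γ b).base) (k : ℕ) :
    ∃ g : FreeGroup (Fin N), ∀ b,
      (Γ b).P FreeGroup.of (Γ b).base ((Γ b).st (p b (k : ZMod L))) g := by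
  induction k with
  | zero =>
    refine ⟨1, fun b => ?_⟩
    rw [Nat.cast_zero, hb b]
    exact P.refl _
  | succ k ih =>
    obtain ⟨g, hg⟩ := ih
    refine ⟨g * lv FreeGroup.of (w (k : ZMod L)), fun b => ?_⟩
    have h1 := P.dart (f := FreeGroup.of) (p b (k : ZMod L))
    rw [h.next b (k : ZMod L), h.lt b (k : ZMod L)] at h1
    have h2 := (hg b).trans h1
    rwa [Nat.cast_succ]

/-- identified nodes have values in the same coset -/
theorem Pu8b_coset (h : Circ w Γ p) (hb : ∀ b, (Γ b).st (p b 0) = (Γ b).base)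
    (hc : ∀ b v, ∃ g, (Γ b).P FreeGroup.of (Γ b).base v g) (J : Subgroup (FreeGroup (Fin N)))
    (hJ : ∀ b, (Γ b).im FreeGroup.of ≤ J) (x y : Nd Γ) (hxy : cls h x = cls h y)
    (a b : FreeGroup (Fin N)) (ha : (Γ x.1).P FreeGroup.of (Γ x.1).base x.2 a)
    (hb' : (Γ y.1).P FreeGroup.of (Γ y.1).base y.2 b) : a * b⁻¹ ∈ J := by
  have hself : ∀ (x : Nd Γ) (a b : FreeGroup (Fin N)),
      (Γ x.1).P FreeGroup.of (Γ x.1).base x.2 a → (Γ x.1).P FreeGroup.of (Γ x.1).base x.2 b →
      a * b⁻¹ ∈ J := by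
    intro x a b ha hb
    exact hJ x.1 (mem_im.2 (ha.trans hb.symm))
  have hE : Relation.EqvGen (relV p) x y := Quot.eqvGen_exact hxy
  clear hxy
  revert a b
  induction hE with
  | rel x y hr =>
    intro a b ha hb'
    obtain ⟨i, b1, b2, rfl, rfl⟩ := hr
    obtain ⟨g, hg⟩ := Pu8b_places h hb i.val
    rw [ZMod.natCast_zmod_val] at hg
    have h1 := hself (nd p b1 i) a g ha (hg b1)
    have h2 := hself (nd p b2 i) g b (hg b2) hb'
    have h3 := J.mul_mem h1 h2
    have h4 : a * g⁻¹ * (g * b⁻¹) = a * b⁻¹ := by group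
    rwa [h4] at h3
  | refl x =>
    intro a b ha hb'
    exact hself x a b ha hb'
  | symm x y _ ih =>
    intro a b ha hb'
    have h1 := J.inv_mem (ih b a hb' ha)
    have h2 : (b * a⁻¹)⁻¹ = a * b⁻¹ := by group
    rwa [h2] at h1
  | trans x y z _ _ ih1 ih2 =>
    intro a b ha hb'
    obtain ⟨g, hg⟩ := hc y.1 y.2
    have h3 := J.mul_mem (ih1 a g ha hg) (ih2 g b hg hb')
    have h4 : a * g⁻¹ * (g * b⁻¹) = a * b⁻¹ := by group
    rwa [h4] at h3

theorem Pu8b_path (h : Circ w Γ p) (hb : ∀ b, (Γ b).st (p b 0) = (Γ b).base)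
    (hc : ∀ b v, ∃ g, (Γ b).P FreeGroup.of (Γ b).base v g) (J : Subgroup (FreeGroup (Fin N)))
    (hJ : ∀ b, (Γ b).im FreeGroup.of ≤ J) {u v : (push h).V} {g : FreeGroup (Fin N)}
    (hP : (push h).P FreeGroup.of u v g) : ∀ (x y : Nd Γ), cls h x = u → cls h y = v →
      ∀ (a b : FreeGroup (Fin N)), (Γ x.1).P FreeGroup.of (Γ x.1).base x.2 a →
      (Γ y.1).P FreeGroup.of (Γ y.1).base y.2 b → a * g * b⁻¹ ∈ J := by
  induction hP with
  | refl v =>
    intro x y hx hy a b ha hb'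
    rw [mul_one]
    exact Pu8b_coset h hb hc J hJ x y (hx.trans hy.symm) a b ha hb'
  | @fwd v g e hP ih =>
    intro x y hx hy a b ha hb'
    obtain ⟨⟨b0, e0⟩, rfl⟩ := Quot.exists_rep e
    obtain ⟨a0, ha0⟩ := hc b0 ((Γ b0).src e0)
    have h1 : a * a0⁻¹ ∈ J :=
      Pu8b_coset h hb hc J hJ x ⟨b0, (Γ b0).src e0⟩ hx a a0 ha ha0
    have h2 := ih ⟨b0, (Γ b0).tgt e0⟩ y rfl hy (a0 * FreeGroup.of ((Γ b0).lab e0)) b
      (ha0.trans (P.edge e0)) hb'
    have h3 := J.mul_mem h1 h2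
    have h4 : a * a0⁻¹ * (a0 * FreeGroup.of ((Γ b0).lab e0) * g * b⁻¹) =
        a * (FreeGroup.of ((Γ b0).lab e0) * g) * b⁻¹ := by group
    rw [h4] at h3
    exact h3
  | @bwd v g e hP ih =>
    intro x y hx hy a b ha hb'
    obtain ⟨⟨b0, e0⟩, rfl⟩ := Quot.exists_rep e
    obtain ⟨a0, ha0⟩ := hc b0 ((Γ b0).tgt e0)
    have h1 : a * a0⁻¹ ∈ J :=
      Pu8b_coset h hb hc J hJ x ⟨b0, (Γ b0).tgt e0⟩ hx a a0 ha ha0
    have h2 := ih ⟨b0, (Γ b0).src e0⟩ y rfl hy (a0 * (FreeGroup.of ((Γ b0).lab e0))⁻¹) b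
      (ha0.trans (P.edge' e0)) hb'
    have h3 := J.mul_mem h1 h2
    have h4 : a * a0⁻¹ * (a0 * (FreeGroup.of ((Γ b0).lab e0))⁻¹ * g * b⁻¹) =
        a * ((FreeGroup.of ((Γ b0).lab e0))⁻¹ * g) * b⁻¹ := by group
    rw [h4] at h3
    exact h3

/-- Let both paths start at the base vertices. Then a path of the pushout from the base to the class of
a node `x = ⟨b, u⟩` has a value in `J * g`, where `g` is the value of any path of `Γ b` from the base to `u` and
`J` is the join of the two images: induction on the path; for identified nodes `nd p b i`, `nd p b' i`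
use the paths along the first `i` letters of the word, which have the same value. For `u` = base the
claim is that the value is in `J`. -/
theorem im_push (h : Circ w Γ p) (hb : ∀ b, (Γ b).st (p b 0) = (Γ b).base)
    (hc : ∀ b v, ∃ g, (Γ b).P FreeGroup.of (Γ b).base v g) :
    (push h).im FreeGroup.of = (Γ false).im FreeGroup.of ⊔ (Γ true).im FreeGroup.of := by
  have hbase : ∀ b, cls h ⟨b, (Γ b).base⟩ = (push h).base := by
    intro b
    refine Quot.sound ⟨0, b, false, ?_, ?_⟩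
    · unfold nd
      rw [hb b]
    · unfold nd
      rw [hb false]
  have hJ : ∀ b, (Γ b).im FreeGroup.of ≤ (Γ false).im FreeGroup.of ⊔ (Γ true).im FreeGroup.of := by
    intro b
    cases b
    · exact le_sup_left
    · exact le_sup_right
  refine le_antisymm ?_ (sup_le ?_ ?_)
  · intro g hg
    have h1 := Pu8b_path h hb hc _ hJ (mem_im.1 hg) ⟨false, (Γ false).base⟩
      ⟨false, (Γ false).base⟩ (hbase false) (hbase false) 1 1 (P.refl _) (P.refl _)
    rwa [one_mul, inv_one, mul_one] at h1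
  · intro g hg
    have h1 := P_push h false (mem_im.1 hg)
    rw [hbase false] at h1
    exact h1
  · intro g hg
    have h1 := P_push h true (mem_im.1 hg)
    rw [hbase true] at h1
    exact h1

end Pool.Agent.Helper32.OR
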