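import Pool.Agent.Helper32.OR.Pu8b

/-!
The pushout has rank at most two (project OR, MP_d4e3d0_lc).
-/

namespace Pool.Agent.Helper32.OR

open Pool.Agent.Helper22.OR Pool.Agent.Helper22.OR.Gr

variable {N L : ℕ} [NeZero L] {w : ZMod L → Letter N} {Γ : Bool → Gr (Fin N)}
  {p : ∀ b, ZMod L → (Γ b).D}

/-- `gen_of_good` for the pushout: connectedness from `P_push` and `cls h ⟨true, base⟩ = cls h ⟨false, base⟩`,
rank from `push_rank`, image from `im_push`. -/
theorem gen_push (h : Circ w Γ p) (H : Bool → Subgroup (FreeGroup (Fin N)))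
    (hg : ∀ b, (Γ b).Good FreeGroup.of (H b) 2) (hb : ∀ b, (Γ b).st (p b 0) = (Γ b).base)
    (h2 : ∀ b, 2 * Fintype.card (Γ b).E ≤ L) (hper : ∀ d, (∀ i, w (i + d) = w i) → d = 0) :
    ∃ g : Fin 2 → FreeGroup (Fin N), Subgroup.closure (Set.range g) = H false ⊔ H true := by
  have hc : ∀ b v, ∃ g, (Γ b).P FreeGroup.of (Γ b).base v g := fun b v => (hg b).conn v
  have hbase : ∀ b, cls h ⟨b, (Γ b).base⟩ = (push h).base := by
    intro b
    refine Quot.sound ⟨0, b, false, ?_, ?_⟩
    · rw [nd, hb b]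
    · rw [nd, hb false]
  refine gen_of_good (k := 2) FreeGroup.of (Γ := push h) ⟨?_, ?_, ?_⟩
  · intro v
    induction v using Quot.ind with
    | mk x =>
      obtain ⟨b, u⟩ := x
      obtain ⟨g, hP⟩ := hc b u
      have h1 := P_push h b hP
      rw [hbase b] at h1
      exact ⟨g, h1⟩
  · have h1 := push_rank h (fun b => by have := (hg b).rank; omega) h2 hper
    omega
  · rw [im_push h hb hc, (hg false).im_eq, (hg true).im_eq]

end Pool.Agent.Helper32.OR
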