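import Pool.Agent.Helper22.OR.Deg

/-!
The pushout of two graphs covered by the same circle (project OR, MP_d4e3d0_lc).
-/

namespace Pool.Agent.Helper32.OR

open Pool.Agent.Helper22.OR Pool.Agent.Helper22.OR.Gr

variable {N L : ℕ}

/-- Two folded graphs (indexed by `Bool`), each of which is covered by a closed path of length `L`;
both paths have the same reduced cyclic word `w`. -/
structure Circ [NeZero L] (w : ZMod L → Letter N) (Γ : Bool → Gr (Fin N))
    (p : ∀ b, ZMod L → (Γ b).D) : Prop where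
  folded : ∀ b, (Γ b).Folded
  next : ∀ b i, (Γ b).en (p b i) = (Γ b).st (p b (i + 1))
  lt : ∀ b i, (Γ b).lt (p b i) = w i
  red : ∀ i, w (i + 1) ≠ linv (w i)
  edge : ∀ b e, ∃ i, (p b i).1 = e
  vert : ∀ b v, ∃ i, (Γ b).st (p b i) = v

/-- Nodes: the vertices of both graphs. -/
abbrev Nd (Γ : Bool → Gr (Fin N)) : Type := Σ b, (Γ b).V

/-- The edges of both graphs. -/
abbrev Ed (Γ : Bool → Gr (Fin N)) : Type := Σ b, (Γ b).E

/-- The node of the place `i` in the graph `b`. -/
def nd {Γ : Bool → Gr (Fin N)} (p : ∀ b, ZMod L → (Γ b).D) (b : Bool) (i : ZMod L) : Nd Γ :=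
  ⟨b, (Γ b).st (p b i)⟩

/-- The edge of the place `i` in the graph `b`. -/
def ed {Γ : Bool → Gr (Fin N)} (p : ∀ b, ZMod L → (Γ b).D) (b : Bool) (i : ZMod L) : Ed Γ :=
  ⟨b, (p b i).1⟩

/-- The nodes of the same place are identified. -/
def relV {Γ : Bool → Gr (Fin N)} (p : ∀ b, ZMod L → (Γ b).D) (x y : Nd Γ) : Prop :=
  ∃ i b b', x = nd p b i ∧ y = nd p b' i

/-- The edges of the same place are identified. -/
def relE {Γ : Bool → Gr (Fin N)} (p : ∀ b, ZMod L → (Γ b).D) (x y : Ed Γ) : Prop :=
  ∃ i b b', x = ed p b i ∧ y = ed p b' i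

section

variable [NeZero L] {w : ZMod L → Letter N} {Γ : Bool → Gr (Fin N)} {p : ∀ b, ZMod L → (Γ b).D}

theorem Circ.sign (h : Circ w Γ p) (b : Bool) (i : ZMod L) : (p b i).2 = (w i).2 := by
  have h1 := h.lt b i
  exact congrArg Prod.snd h1

theorem Circ.lab (h : Circ w Γ p) (b : Bool) (i : ZMod L) : (Γ b).lab (p b i).1 = (w i).1 := by
  have h1 := h.lt b i
  exact congrArg Prod.fst h1

theorem Circ.src_eq (h : Circ w Γ p) (b : Bool) (i : ZMod L) :
    (Γ b).src (p b i).1 = (Γ b).st (p b (if (w i).2 then i else i + 1)) := by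
  have h1 := h.sign b i
  have h2 := h.next b i
  cases h3 : (w i).2
  · rw [h3] at h1
    simp only [Bool.false_eq_true, if_false]
    rw [← h2]
    unfold Gr.en
    rw [h1]
    rfl
  · rw [h3] at h1
    simp only [if_true]
    unfold Gr.st
    rw [h1]
    rfl

theorem Circ.tgt_eq (h : Circ w Γ p) (b : Bool) (i : ZMod L) :
    (Γ b).tgt (p b i).1 = (Γ b).st (p b (if (w i).2 then i + 1 else i)) := by
  have h1 := h.sign b i
  have h2 := h.next b i
  cases h3 : (w i).2
  · rw [h3] at h1
    simp only [Bool.false_eq_true, if_false]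
    unfold Gr.st
    rw [h1]
    rfl
  · rw [h3] at h1
    simp only [if_true]
    rw [← h2]
    unfold Gr.en
    rw [h1]
    rfl

open Classical in
/-- The pushout graph. -/
noncomputable def push (h : Circ w Γ p) : Gr (Fin N) where
  V := Quot (relV p)
  E := Quot (relE p)
  fV := Fintype.ofFinite _
  fE := Fintype.ofFinite _
  dV := Classical.decEq _
  dE := Classical.decEq _
  src := Quot.lift (fun e : Ed Γ => Quot.mk (relV p) ⟨e.1, (Γ e.1).src e.2⟩) (by
    rintro _ _ ⟨i, b, b', rfl, rfl⟩
    refine Quot.sound ⟨if (w i).2 then i else i + 1, b, b', ?_, ?_⟩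
    · simp only [ed, nd, h.src_eq b i]
    · simp only [ed, nd, h.src_eq b' i])
  tgt := Quot.lift (fun e : Ed Γ => Quot.mk (relV p) ⟨e.1, (Γ e.1).tgt e.2⟩) (by
    rintro _ _ ⟨i, b, b', rfl, rfl⟩
    refine Quot.sound ⟨if (w i).2 then i + 1 else i, b, b', ?_, ?_⟩
    · simp only [ed, nd, h.tgt_eq b i]
    · simp only [ed, nd, h.tgt_eq b' i])
  lab := Quot.lift (fun e : Ed Γ => (Γ e.1).lab e.2) (by
    rintro _ _ ⟨i, b, b', rfl, rfl⟩
    simp only [ed, h.lab])
  base := Quot.mk _ ⟨false, (Γ false).base⟩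

/-- The class of a node. -/
def cls (h : Circ w Γ p) (x : Nd Γ) : (push h).V := Quot.mk _ x

/-- The class of a dart. -/
def cd (h : Circ w Γ p) (b : Bool) (d : (Γ b).D) : (push h).D := (Quot.mk _ ⟨b, d.1⟩, d.2)

/-- The dart of the pushout which starts at the place `i` and goes forward. -/
noncomputable def cp (h : Circ w Γ p) (i : ZMod L) : (push h).D := cd h false (p false i)

/-- The two half edges at the place `i`. -/
noncomputable def turn (h : Circ w Γ p) (i : ZMod L) : Finset (push h).D :=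
  {cp h i, (push h).dinv (cp h (i - 1))}

/-- The half edges at a node, as darts of the pushout. -/
noncomputable def half (h : Circ w Γ p) (x : Nd Γ) : Finset (push h).D :=
  (Finset.univ.filter (fun d : (Γ x.1).D => (Γ x.1).st d = x.2)).image (cd h x.1)

/-- The nodes over a vertex of the pushout. -/
noncomputable def fib (h : Circ w Γ p) (v : (push h).V) : Finset (Nd Γ) :=
  Finset.univ.filter (fun x => cls h x = v)

/-- The places `i` and `j` are connected through nodes other than `u`. -/
def Avoid (p : ∀ b, ZMod L → (Γ b).D) (u : Nd Γ) : ZMod L → ZMod L → Prop :=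
  Relation.EqvGen (fun i j => ∃ b, nd p b i = nd p b j ∧ nd p b i ≠ u)

/-- Two places at the same node which are connected outside of it have the same half edges. -/
def Star (h : Circ w Γ p) : Prop :=
  ∀ (b : Bool) (i j : ZMod L), nd p b i = nd p b j → Avoid p (nd p b i) i j → turn h i = turn h j

/-- The sum of `y` over the places of each node is zero. -/
def Bal (p : ∀ b, ZMod L → (Γ b).D) (y : ZMod L → ℚ) : Prop :=
  ∀ x : Nd Γ, ∑ i ∈ Finset.univ.filter (fun i => nd p x.1 i = x), y i = 0

/-- Move the function `y` along the dart `δ`. -/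
noncomputable def move (h : Circ w Γ p) (δ : (push h).D) (y : ZMod L → ℚ) (j : ZMod L) : ℚ :=
  (if cp h (j - 1) = δ then y (j - 1) else 0) +
    (if (push h).dinv (cp h j) = δ then y (j + 1) else 0)

end

end Pool.Agent.Helper32.OR
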