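import Pool.Agent.Helper32.OR.RgDefs

/-!
Generators of the group of a graph relative to a subgraph (project OR, MP_d4e3d0_lc).
-/

namespace Pool.Agent.Helper32.OR

open Pool.Agent.Helper22.OR Pool.Agent.Helper22.OR.Gr

variable {α : Type} {G : Type} [Group G]

/-- The case `W = univ`: choose for every vertex `v` the value `c v` of a path of the subgraph from the base to
`v`; the new generators are `c (src e) * f (lab e) * (c (tgt e))⁻¹` for the edges `e ∉ D`. `P.transfer` with the
gauge `c` (to a graph with one vertex) or induction on the path shows that the image of `Γ` is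
contained in the subgroup on the right. -/
theorem rel_gen_univ (f : α → G) (Γ : Gr α) (D : Finset Γ.E) (h : IsSub Γ D Finset.univ)
    (hc : ∀ v, ∃ g, (cutG Γ D Finset.univ h).P f (cutG Γ D Finset.univ h).base v g) :
    ∃ (m : ℕ) (g : Fin m → G), Γ.im f =
      (cutG Γ D Finset.univ h).im f ⊔ Subgroup.closure (Set.range g) ∧
      m + D.card = Fintype.card Γ.E := by
  classical
  choose c0 hc0 using hc
  -- the gauge
  let c : Γ.V → G := fun v => c0 ⟨v, Finset.mem_univ v⟩
  have hcP : ∀ v : Γ.V, (cutG Γ D Finset.univ h).P f (cutG Γ D Finset.univ h).base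
      ⟨v, Finset.mem_univ v⟩ (c v) := fun v => hc0 ⟨v, Finset.mem_univ v⟩
  have hcG : ∀ v : Γ.V, Γ.P f Γ.base v (c v) := fun v => P_of_cutG (hcP v)
  let eq : {e : Γ.E // e ∉ D} ≃ Fin (Fintype.card {e : Γ.E // e ∉ D}) := Fintype.equivFin _
  let g : Fin (Fintype.card {e : Γ.E // e ∉ D}) → G := fun i =>
    c (Γ.src (eq.symm i).1) * f (Γ.lab (eq.symm i).1) * (c (Γ.tgt (eq.symm i).1))⁻¹
  refine ⟨Fintype.card {e : Γ.E // e ∉ D}, g, ?_, ?_⟩
  · apply le_antisymm
    · -- the values of the edges
      have hedge : ∀ e : Γ.E, c (Γ.src e) * f (Γ.lab e) * (c (Γ.tgt e))⁻¹ ∈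
          (cutG Γ D Finset.univ h).im f ⊔ Subgroup.closure (Set.range g) := by
        intro e
        by_cases he : e ∈ D
        · apply Subgroup.mem_sup_left
          rw [mem_im]
          have h1 : (cutG Γ D Finset.univ h).P f ⟨Γ.src e, Finset.mem_univ _⟩
              ⟨Γ.tgt e, Finset.mem_univ _⟩ (f (Γ.lab e)) :=
            P.edge (f := f) (Γ := cutG Γ D Finset.univ h) ⟨e, he⟩
          exact ((hcP (Γ.src e)).trans h1).trans (hcP (Γ.tgt e)).symm
        · apply Subgroup.mem_sup_right
          apply Subgroup.subset_closure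
          refine ⟨eq ⟨e, he⟩, ?_⟩
          simp only [g, Equiv.symm_apply_apply]
      have key : ∀ (u v : Γ.V) (x : G), Γ.P f u v x → c u * x * (c v)⁻¹ ∈
          (cutG Γ D Finset.univ h).im f ⊔ Subgroup.closure (Set.range g) := by
        intro u v x hx
        induction hx with
        | refl v =>
          have h1 : c v * 1 * (c v)⁻¹ = 1 := by group
          rw [h1]
          exact one_mem _
        | @fwd v x e _ ih =>
          have h1 : c (Γ.src e) * (f (Γ.lab e) * x) * (c v)⁻¹ =
              (c (Γ.src e) * f (Γ.lab e) * (c (Γ.tgt e))⁻¹) * (c (Γ.tgt e) * x * (c v)⁻¹) := by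
            group
          rw [h1]
          exact mul_mem (hedge e) ih
        | @bwd v x e _ ih =>
          have h1 : c (Γ.tgt e) * ((f (Γ.lab e))⁻¹ * x) * (c v)⁻¹ =
              (c (Γ.src e) * f (Γ.lab e) * (c (Γ.tgt e))⁻¹)⁻¹ * (c (Γ.src e) * x * (c v)⁻¹) := by
            group
          rw [h1]
          exact mul_mem (inv_mem (hedge e)) ih
      intro x hx
      rw [mem_im] at hx
      have h2 := key _ _ _ hx
      have h3 : c Γ.base ∈ (cutG Γ D Finset.univ h).im f ⊔ Subgroup.closure (Set.range g) := by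
        apply Subgroup.mem_sup_left
        rw [mem_im]
        exact hcP Γ.base
      have h4 : x = (c Γ.base)⁻¹ * (c Γ.base * x * (c Γ.base)⁻¹) * c Γ.base := by group
      rw [h4]
      exact mul_mem (mul_mem (inv_mem h3) h2) h3
    · apply sup_le
      · intro x hx
        rw [mem_im] at hx ⊢
        exact P_of_cutG hx
      · rw [Subgroup.closure_le]
        rintro _ ⟨i, rfl⟩
        show Γ.P f Γ.base Γ.base (g i)
        exact ((hcG _).trans (P.edge (f := f) (eq.symm i).1)).trans (hcG _).symm
  · have h1 : Fintype.card {e : Γ.E // e ∉ D} = Fintype.card Γ.E - Fintype.card {e : Γ.E // e ∈ D} :=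
      Fintype.card_subtype_compl (fun e => e ∈ D)
    have h2 : Fintype.card {e : Γ.E // e ∈ D} = D.card := Fintype.card_coe D
    have h3 : D.card ≤ Fintype.card Γ.E := Finset.card_le_univ D
    omega

end Pool.Agent.Helper32.OR
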