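import Pool.Agent.Helper32.OR.Rg1

/-!
Generators of the group of a graph relative to a subgraph (project OR, MP_d4e3d0_lc).
-/

namespace Pool.Agent.Helper32.OR

open Pool.Agent.Helper22.OR Pool.Agent.Helper22.OR.Gr

variable {α : Type} {G : Type} [Group G]

theorem Rg2_notMem (Γ : Gr α) (D : Finset Γ.E) (W : Finset Γ.V) (h : IsSub Γ D W) (d : Γ.D)
    (h2 : Γ.en d ∉ W) : d.1 ∉ D := by
  intro hd
  rcases d with ⟨e, b⟩
  cases b
  · exact h2 (h.src e hd)
  · exact h2 (h.tgt e hd)

theorem Rg2_sub (Γ : Gr α) (D : Finset Γ.E) (W : Finset Γ.V) (h : IsSub Γ D W) (d : Γ.D)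
    (h1 : Γ.st d ∈ W) : IsSub Γ (insert d.1 D) (insert (Γ.en d) W) := by
  refine ⟨fun e he => ?_, fun e he => ?_, Finset.mem_insert_of_mem h.base⟩
  · rcases Finset.mem_insert.1 he with rfl | he
    · rcases d with ⟨e, b⟩
      cases b
      · exact Finset.mem_insert_self _ _
      · exact Finset.mem_insert_of_mem h1
    · exact Finset.mem_insert_of_mem (h.src e he)
  · rcases Finset.mem_insert.1 he with rfl | he
    · rcases d with ⟨e, b⟩
      cases b
      · exact Finset.mem_insert_of_mem h1
      · exact Finset.mem_insert_self _ _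
    · exact Finset.mem_insert_of_mem (h.tgt e he)

/-- Paths of a subgraph are paths of a larger subgraph. -/
theorem Rg2_mono {f : α → G} {Γ : Gr α} {D D' : Finset Γ.E} {W W' : Finset Γ.V} {h : IsSub Γ D W}
    {h' : IsSub Γ D' W'} (hD : D ⊆ D') (hW : W ⊆ W') {u v : (cutG Γ D W h).V} {g : G}
    (hP : (cutG Γ D W h).P f u v g) :
    (cutG Γ D' W' h').P f ⟨u.1, hW u.2⟩ ⟨v.1, hW v.2⟩ g :=
  P.transfer' (Γ := cutG Γ D W h) (Γ' := cutG Γ D' W' h') (f := f) (f' := f)
    (fun x => ⟨x.1, hW x.2⟩)
    (fun e => P.edge (Γ := cutG Γ D' W' h') (f := f) ⟨e.1, hD e.2⟩) hP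

/-- Add an edge `e ∉ D` with one end in `W` and the other end `z ∉ W`: the image and connectedness do
not change (no edge of `D` has the end `z`). For the images: `P_of_cutG`-like maps in one direction; in the
other direction `P.transfer` with `φ z =` the other end of `e` and the gauge `c z =` the value which
makes the value of `e` trivial. -/
theorem add_leaf (f : α → G) (Γ : Gr α) (D : Finset Γ.E) (W : Finset Γ.V) (h : IsSub Γ D W)
    (hc : ∀ v, ∃ g, (cutG Γ D W h).P f (cutG Γ D W h).base v g) (d : Γ.D) (h1 : Γ.st d ∈ W)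
    (h2 : Γ.en d ∉ W) : ∃ h' : IsSub Γ (insert d.1 D) (insert (Γ.en d) W),
      (∀ v, ∃ g, (cutG Γ (insert d.1 D) (insert (Γ.en d) W) h').P f
        (cutG Γ (insert d.1 D) (insert (Γ.en d) W) h').base v g) ∧
      (cutG Γ (insert d.1 D) (insert (Γ.en d) W) h').im f = (cutG Γ D W h).im f ∧
      d.1 ∉ D := by
  have hD := Rg2_notMem Γ D W h d h2
  have h' := Rg2_sub Γ D W h d h1
  refine ⟨h', ?_, ?_, hD⟩
  · rintro ⟨v, hv⟩
    rcases Finset.mem_insert.1 hv with rfl | hv'
    · obtain ⟨g, hg⟩ := hc ⟨Γ.st d, h1⟩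
      have hg' := Rg2_mono (h' := h') (Finset.subset_insert d.1 D)
        (Finset.subset_insert (Γ.en d) W) hg
      have he : (cutG Γ (insert d.1 D) (insert (Γ.en d) W) h').P f
          ⟨Γ.st d, Finset.mem_insert_of_mem h1⟩ ⟨Γ.en d, Finset.mem_insert_self _ _⟩
          (cond d.2 (f (Γ.lab d.1)) (f (Γ.lab d.1))⁻¹) := by
        rcases d with ⟨e, b⟩
        cases b
        · exact P.edge' (Γ := cutG Γ (insert e D) (insert (Γ.en (e, false)) W) h') (f := f)
            ⟨e, Finset.mem_insert_self _ _⟩
        · exact P.edge (Γ := cutG Γ (insert e D) (insert (Γ.en (e, true)) W) h') (f := f)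
            ⟨e, Finset.mem_insert_self _ _⟩
      exact ⟨_, hg'.trans he⟩
    · obtain ⟨g, hg⟩ := hc ⟨v, hv'⟩
      exact ⟨g, Rg2_mono (h' := h') (Finset.subset_insert d.1 D)
        (Finset.subset_insert (Γ.en d) W) hg⟩
  · ext g
    rw [mem_im, mem_im]
    constructor
    · intro hg
      have key := P.transfer (Γ := cutG Γ (insert d.1 D) (insert (Γ.en d) W) h')
        (Γ' := cutG Γ D W h) (f := f) (f' := f)
        (fun x => if hx : x.1 ∈ W then (⟨x.1, hx⟩ : {v // v ∈ W}) else ⟨Γ.st d, h1⟩)
        (fun x => if x.1 ∈ W then 1 else cond d.2 (f (Γ.lab d.1)) (f (Γ.lab d.1))⁻¹)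
        (fun e => by
          rcases Finset.mem_insert.1 e.2 with he | he
          · rcases e with ⟨e, hem⟩
            simp only at he
            subst he
            rcases d with ⟨e, b⟩
            cases b
            · have hs : (cutG Γ (insert e D) (insert (Γ.en (e, false)) W) h').src ⟨e, hem⟩
                = ⟨Γ.en (e, false), Finset.mem_insert_self _ _⟩ := rfl
              have ht : (cutG Γ (insert e D) (insert (Γ.en (e, false)) W) h').tgt ⟨e, hem⟩
                = ⟨Γ.st (e, false), Finset.mem_insert_of_mem h1⟩ := rfl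
              have hl : (cutG Γ (insert e D) (insert (Γ.en (e, false)) W) h').lab ⟨e, hem⟩
                = Γ.lab e := rfl
              simp only [hs, ht, hl, dif_neg h2, if_neg h2, dif_pos h1, if_pos h1, cond_false]
              exact (P.refl _).congr (by group)
            · have hs : (cutG Γ (insert e D) (insert (Γ.en (e, true)) W) h').src ⟨e, hem⟩
                = ⟨Γ.st (e, true), Finset.mem_insert_of_mem h1⟩ := rfl
              have ht : (cutG Γ (insert e D) (insert (Γ.en (e, true)) W) h').tgt ⟨e, hem⟩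
                = ⟨Γ.en (e, true), Finset.mem_insert_self _ _⟩ := rfl
              have hl : (cutG Γ (insert e D) (insert (Γ.en (e, true)) W) h').lab ⟨e, hem⟩
                = Γ.lab e := rfl
              simp only [hs, ht, hl, dif_neg h2, if_neg h2, dif_pos h1, if_pos h1, cond_true]
              exact (P.refl _).congr (by group)
          · rcases e with ⟨e, hem⟩
            have hs : (cutG Γ (insert d.1 D) (insert (Γ.en d) W) h').src ⟨e, hem⟩
              = ⟨Γ.src e, h'.src e hem⟩ := rfl
            have ht : (cutG Γ (insert d.1 D) (insert (Γ.en d) W) h').tgt ⟨e, hem⟩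
              = ⟨Γ.tgt e, h'.tgt e hem⟩ := rfl
            have hl : (cutG Γ (insert d.1 D) (insert (Γ.en d) W) h').lab ⟨e, hem⟩
              = Γ.lab e := rfl
            have hs1 := h.src e he
            have ht1 := h.tgt e he
            simp only [hs, ht, hl, dif_pos hs1, if_pos hs1, dif_pos ht1, if_pos ht1]
            exact (P.edge (Γ := cutG Γ D W h) (f := f) ⟨e, he⟩).congr (by
              show f (Γ.lab e) = _
              group)) hg
      have hb : (cutG Γ (insert d.1 D) (insert (Γ.en d) W) h').base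
        = ⟨Γ.base, Finset.mem_insert_of_mem h.base⟩ := rfl
      have hb1 := h.base
      simp only [hb, dif_pos hb1, if_pos hb1] at key
      exact key.congr (by group)
    · intro hg
      exact Rg2_mono (h' := h') (Finset.subset_insert d.1 D)
        (Finset.subset_insert (Γ.en d) W) hg

end Pool.Agent.Helper32.OR
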