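import Pool.Agent.Helper22.OR.GenG

/-!
Subgraphs (project OR, MP_d4e3d0_lc).
-/

namespace Pool.Agent.Helper32.OR

open Pool.Agent.Helper22.OR Pool.Agent.Helper22.OR.Gr

variable {α : Type} {G : Type} [Group G]

/-- A set `D` of edges and a set `W` of vertices which contains the base and the ends of the edges
of `D`. -/
structure IsSub (Γ : Gr α) (D : Finset Γ.E) (W : Finset Γ.V) : Prop where
  src : ∀ e ∈ D, Γ.src e ∈ W
  tgt : ∀ e ∈ D, Γ.tgt e ∈ W
  base : Γ.base ∈ W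

/-- The subgraph with the edges `D` and the vertices `W`. -/
def cutG (Γ : Gr α) (D : Finset Γ.E) (W : Finset Γ.V) (h : IsSub Γ D W) : Gr α where
  V := {v // v ∈ W}
  E := {e // e ∈ D}
  src := fun e => ⟨Γ.src e.1, h.src e.1 e.2⟩
  tgt := fun e => ⟨Γ.tgt e.1, h.tgt e.1 e.2⟩
  lab := fun e => Γ.lab e.1
  base := ⟨Γ.base, h.base⟩

theorem card_cutG_E (Γ : Gr α) (D : Finset Γ.E) (W : Finset Γ.V) (h : IsSub Γ D W) :
    Fintype.card (cutG Γ D W h).E = D.card := by
  simp [cutG]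

theorem card_cutG_V (Γ : Gr α) (D : Finset Γ.E) (W : Finset Γ.V) (h : IsSub Γ D W) :
    Fintype.card (cutG Γ D W h).V = W.card := by
  simp [cutG]

/-- Paths of the subgraph are paths. -/
theorem P_of_cutG {f : α → G} {Γ : Gr α} {D : Finset Γ.E} {W : Finset Γ.V} {h : IsSub Γ D W}
    {u v : (cutG Γ D W h).V} {g : G} (hP : (cutG Γ D W h).P f u v g) : Γ.P f u.1 v.1 g :=
  P.transfer' (Γ := cutG Γ D W h) (Γ' := Γ) (f := f) (f' := f) (fun x => x.1)
    (fun e => P.edge (Γ := Γ) (f := f) e.1) hP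

end Pool.Agent.Helper32.OR
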