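import Pool.Agent.Helper32.OR.RkDefs

/-!
The Ehrenfeucht game decides the sentences (project OR, MP_d4e3d0_lc).
-/

namespace Pool.Agent.Helper32.OR

open FirstOrder Pool.Agent.Helper22.OR

/-- Every term in the variables `Fin i` is a word: induction on the term. -/
theorem exists_word_term {i : ℕ} (t : grpLang.Term (Empty ⊕ Fin i)) :
    ∃ w : FreeGroup (Fin i), ∀ (G : Type) [Group G] (x : Fin i → G),
      t.realize (Sum.elim (default : Empty → G) x) = FreeGroup.lift x w := by
  induction t with
  | var a =>
    rcases a with a | a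
    · exact a.elim
    · exact ⟨FreeGroup.of a, fun G _ x => by
        rw [FreeGroup.lift_apply_of]
        rfl⟩
  | @func k f ts ih =>
    choose w hw using ih
    match k, f, ts, w, hw with
    | _, .one, ts, w, hw =>
      exact ⟨1, fun G _ x => by
        rw [map_one]
        rfl⟩
    | _, .inv, ts, w, hw =>
      exact ⟨(w 0)⁻¹, fun G _ x => by
        rw [map_inv, ← hw 0 G x]
        rfl⟩
    | _, .mul, ts, w, hw =>
      exact ⟨w 0 * w 1, fun G _ x => by
        rw [map_mul, ← hw 0 G x, ← hw 1 G x]
        rfl⟩

end Pool.Agent.Helper32.OR
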