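import Pool.Agent.Helper32.OR.Rk1a

/-!
The Ehrenfeucht game decides the sentences (project OR, MP_d4e3d0_lc).
-/

namespace Pool.Agent.Helper32.OR

open FirstOrder Pool.Agent.Helper22.OR

private theorem Rk1b_snoc {G : Type} {i i' : ℕ} (f : Fin i → Fin i') (x : Fin i' → G) (a : G) :
    (Fin.snoc x a : Fin (i' + 1) → G) ∘
      (Fin.snoc (fun m => (f m).castSucc) (Fin.last i') : Fin (i + 1) → Fin (i' + 1)) =
      (Fin.snoc (x ∘ f) a : Fin (i + 1) → G) := by
  funext m
  refine Fin.lastCases ?_ (fun m => ?_) m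
  · simp [Function.comp]
  · simp [Function.comp]

private theorem Rk1b_comp {G H : Type} [Group G] [Group H] (j : ℕ) :
    ∀ (i i' : ℕ) (f : Fin i → Fin i') (x : Fin i' → G) (y : Fin i' → H),
      Eqv G H j i' x y → Eqv G H j i (x ∘ f) (y ∘ f) := by
  induction j with
  | zero =>
    intro i i' f x y h w
    have h1 : ∀ (K : Type) [Group K] (z : Fin i' → K),
        FreeGroup.lift (z ∘ f) w = FreeGroup.lift z (FreeGroup.map f w) := by
      intro K _ z
      have h2 : FreeGroup.lift (z ∘ f) = (FreeGroup.lift z).comp (FreeGroup.map f) := by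
        ext m
        simp
      rw [h2]
      rfl
    rw [h1 G x, h1 H y]
    exact h _
  | succ j ih =>
    intro i i' f x y h
    refine ⟨fun a => ?_, fun b => ?_⟩
    · obtain ⟨b, hb⟩ := h.1 a
      refine ⟨b, ?_⟩
      have h3 := ih _ _ (Fin.snoc (fun m => (f m).castSucc) (Fin.last i')) _ _ hb
      rwa [Rk1b_snoc, Rk1b_snoc] at h3
    · obtain ⟨a, ha⟩ := h.2 b
      refine ⟨a, ?_⟩
      have h3 := ih _ _ (Fin.snoc (fun m => (f m).castSucc) (Fin.last i')) _ _ ha
      rwa [Rk1b_snoc, Rk1b_snoc] at h3

/-- Take `a = 1` in both directions and use injectivity of the index map: if `Eqv (j + 1) x y` then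
`Eqv j` holds for extended tuples, and the restriction to the first `i` entries satisfies `Eqv j` too
(prove more generally: `Eqv` is preserved by composition with an injective or any map
`Fin i → Fin i'` of indices, induction on `j`, using `Fin.snoc` of the map). -/
theorem Eqv.mono {G H : Type} [Group G] [Group H] (j i : ℕ) (x : Fin i → G) (y : Fin i → H)
    (h : Eqv G H (j + 1) i x y) : Eqv G H j i x y := by
  obtain ⟨b, hb⟩ := h.1 1
  have h3 := Rk1b_comp j i (i + 1) Fin.castSucc _ _ hb
  have h4 : (Fin.snoc x (1 : G) : Fin (i + 1) → G) ∘ Fin.castSucc = x := by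
    funext m
    simp
  have h5 : (Fin.snoc y b : Fin (i + 1) → H) ∘ Fin.castSucc = y := by
    funext m
    simp
  rwa [h4, h5] at h3

end Pool.Agent.Helper32.OR
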