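import Pool.Agent.Helper32.OR.Rk1b

/-!
The Ehrenfeucht game decides the sentences (project OR, MP_d4e3d0_lc).
-/

namespace Pool.Agent.Helper32.OR

open FirstOrder Pool.Agent.Helper22.OR

private theorem Rk1c_zero {G H : Type} [Group G] [Group H] (j : ℕ) {i : ℕ} (x : Fin i → G)
    (y : Fin i → H) (h : Eqv G H j i x y) : Eqv G H 0 i x y := by
  induction j with
  | zero => exact h
  | succ j ih => exact ih (Eqv.mono j i x y h)

/-- Induction on `φ`, for all `j`, `x`, `y`. `equal`: `exists_word_term` and `Eqv 0` (`Eqv.mono`) for the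
word `w₁ * w₂⁻¹`. `rel`: no relation symbols. `all`: `j = j' + 1`. -/
theorem realize_iff_of_eqv {G H : Type} [Group G] [Group H] {i : ℕ}
    (φ : grpLang.BoundedFormula Empty i) (j : ℕ) (hφ : qr φ ≤ j) (x : Fin i → G) (y : Fin i → H)
    (h : Eqv G H j i x y) : φ.Realize default x ↔ φ.Realize default y := by
  induction φ generalizing j with
  | falsum => exact Iff.rfl
  | @equal n t₁ t₂ =>
    obtain ⟨w₁, h₁⟩ := exists_word_term t₁
    obtain ⟨w₂, h₂⟩ := exists_word_term t₂
    have h0 := Rk1c_zero j x y h (w₁ * w₂⁻¹)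
    simp only [map_mul, map_inv, mul_inv_eq_one] at h0
    simp only [Language.BoundedFormula.Realize]
    have e1 := h₁ G x
    have e2 := h₂ G x
    have e3 := h₁ H y
    have e4 := h₂ H y
    rw [e1, e2, e3, e4]
    exact h0
  | rel R ts => exact R.elim
  | @imp n φ ψ ihφ ihψ =>
    simp only [qr, max_le_iff] at hφ
    have a := ihφ j hφ.1 x y h
    have b := ihψ j hφ.2 x y h
    simp only [Language.BoundedFormula.Realize]
    exact imp_congr a b
  | @all n φ ih =>
    cases j with
    | zero => simp [qr] at hφ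
    | succ j =>
      simp only [qr, Nat.add_le_add_iff_right] at hφ
      simp only [Language.BoundedFormula.Realize]
      constructor
      · intro hh b
        obtain ⟨a, ha⟩ := h.2 b
        exact (ih j hφ _ _ ha).1 (hh a)
      · intro hh a
        obtain ⟨b, hb⟩ := h.1 a
        exact (ih j hφ _ _ hb).2 (hh b)

theorem sentence_iff_of_eqv {G H : Type} [Group G] [Group H] (j : ℕ)
    (h : Eqv G H j 0 default default) (φ : grpLang.Sentence) (hφ : qr φ ≤ j) : G ⊨ φ ↔ H ⊨ φ := by
  exact realize_iff_of_eqv φ j hφ default default h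

end Pool.Agent.Helper32.OR
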