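import Pool.Agent.Helper32.OR.RkDefs

/-!
The last round (project OR, MP_d4e3d0_lc).
-/

namespace Pool.Agent.Helper32.OR

open Pool.Agent.Helper22.OR

theorem Pos.symm {G H : Type} [Group G] [Group H] {x : Fin 2 → G} {y : Fin 2 → H}
    (h : Pos G H x y) : Pos H G y x := by
  obtain ⟨u, v, u', v', h1, h2, s, h3, h4⟩ := h
  exact ⟨u', v', u, v, h2, h1, s, h4, h3⟩

private theorem Rk2_iff {G : Type} [Group G] {κ : Type} (f : FreeGroup κ →* G)
    (hf : Function.Injective f) {n : ℕ} (t : Fin n → FreeGroup κ) (X : Fin n → G)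
    (hX : ∀ i, X i = f (t i)) (w : FreeGroup (Fin n)) :
    FreeGroup.lift X w = 1 ↔ FreeGroup.lift t w = 1 := by
  have h1 : FreeGroup.lift X = f.comp (FreeGroup.lift t) := by
    ext i
    simp [hX i]
  rw [h1, MonoidHom.comp_apply]
  exact map_eq_one_iff f hf

private theorem Rk2_snoc {G : Type} [Group G] {κ : Type} (f : FreeGroup κ →* G) {n : ℕ}
    (t : Fin n → FreeGroup κ) (c : FreeGroup κ) (x : Fin n → G) (a : G)
    (hx : ∀ i, x i = f (t i)) (ha : a = f c) (i : Fin (n + 1)) :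
    (Fin.snoc x a : Fin (n + 1) → G) i = f ((Fin.snoc t c : Fin (n + 1) → FreeGroup κ) i) := by
  induction i using Fin.lastCases with
  | last => rw [Fin.snoc_last, Fin.snoc_last, ha]
  | cast i => rw [Fin.snoc_castSucc, Fin.snoc_castSucc, hx i]

private theorem Rk2_two {G : Type} [Group G] (u v : G) {a : G}
    (ha : a ∈ Subgroup.closure ({u, v} : Set G)) : ∃ c, a = FreeGroup.lift ![u, v] c := by
  have h1 : (FreeGroup.lift ![u, v]).range = Subgroup.closure ({u, v} : Set G) := by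
    rw [FreeGroup.range_lift_eq_closure]
    congr 1
    simp [Matrix.range_cons, Set.pair_comm]
  rw [← h1] at ha
  obtain ⟨c, hc⟩ := ha
  exact ⟨c, hc.symm⟩

private theorem Rk2_three {G : Type} [Group G] (u v a : G) (c : FreeGroup (Fin 2)) :
    FreeGroup.lift ![u, v] c = FreeGroup.lift ![u, v, a] (FreeGroup.map Fin.castSucc c) := by
  have h1 : FreeGroup.lift ![u, v] =
      (FreeGroup.lift ![u, v, a]).comp (FreeGroup.map (Fin.castSucc : Fin 2 → Fin 3)) := by
    ext i
    fin_cases i <;> simp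
  rw [h1, MonoidHom.comp_apply]

private theorem Rk2_out {H : Type} [Group H] (hH : R3 H) (u v : H) :
    ∃ b : H, b ∉ Subgroup.closure ({u, v} : Set H) := by
  by_contra hcon
  push Not at hcon
  apply hH.top
  refine ⟨![u, v], ?_⟩
  have h1 : Set.range ![u, v] = {u, v} := by
    simp [Matrix.range_cons, Set.pair_comm]
  rw [h1]
  exact (Subgroup.eq_top_iff' _).2 hcon

/-- Let `f = lift ![u, v]`, `g = lift ![u', v']`. If `a ∈ closure {u, v}`, `a = f s₃`, answer `b = g s₃`: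
`lift (snoc x a) w = f (lift (snoc s s₃) w)` and `f`, `g` are injective (`free`). Otherwise choose
`b ∉ closure {u', v'}` (`top`) and let `F = lift ![u, v, a]`, `F' = lift ![u', v', b]`, injective by `free`, with
`x i = F (map castSucc (s i))`, `a = F (of 2)`: again both sides are `1` iff
`lift (snoc (map castSucc ∘ s) (of 2)) w = 1`. -/
theorem eqv_zero_of_pos {G H : Type} [Group G] [Group H] (hG : R3 G) (hH : R3 H) {x : Fin 2 → G}
    {y : Fin 2 → H} (h : Pos G H x y) (a : G) : ∃ b : H, ∀ w : FreeGroup (Fin 3),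
      FreeGroup.lift (Fin.snoc x a : Fin 3 → G) w = 1 ↔
        FreeGroup.lift (Fin.snoc y b : Fin 3 → H) w = 1 := by
  obtain ⟨u, v, u', v', h1, h2, s, h3, h4⟩ := h
  by_cases ha : a ∈ Subgroup.closure ({u, v} : Set G)
  · obtain ⟨c, hc⟩ := Rk2_two u v ha
    refine ⟨FreeGroup.lift ![u', v'] c, fun w => ?_⟩
    rw [Rk2_iff (FreeGroup.lift ![u, v]) (hG.free _ h1 u v rfl).1 (Fin.snoc s c) _
        (Rk2_snoc _ s c x a h3 hc) w,
      Rk2_iff (FreeGroup.lift ![u', v']) (hH.free _ h2 u' v' rfl).1 (Fin.snoc s c) _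
        (Rk2_snoc _ s c y _ h4 rfl) w]
  · obtain ⟨b, hb⟩ := Rk2_out hH u' v'
    refine ⟨b, fun w => ?_⟩
    rw [Rk2_iff (FreeGroup.lift ![u, v, a]) ((hG.free _ h1 u v rfl).2 a ha)
        (Fin.snoc (fun i => FreeGroup.map Fin.castSucc (s i)) (FreeGroup.of 2)) _
        (Rk2_snoc _ _ _ x a (fun i => by rw [h3 i]; exact Rk2_three u v a (s i)) (by simp)) w,
      Rk2_iff (FreeGroup.lift ![u', v', b]) ((hH.free _ h2 u' v' rfl).2 b hb)
        (Fin.snoc (fun i => FreeGroup.map Fin.castSucc (s i)) (FreeGroup.of 2)) _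
        (Rk2_snoc _ _ _ y b (fun i => by rw [h4 i]; exact Rk2_three u' v' b (s i)) (by simp)) w]

/-- From `eqv_zero_of_pos` and `Pos.symm`. -/
theorem eqv_one_of_pos {G H : Type} [Group G] [Group H] (hG : R3 G) (hH : R3 H) {x : Fin 2 → G}
    {y : Fin 2 → H} (h : Pos G H x y) : Eqv G H 1 2 x y := by
  refine ⟨fun a => ?_, fun b => ?_⟩
  · exact eqv_zero_of_pos hG hH h a
  · obtain ⟨a, ha⟩ := eqv_zero_of_pos hH hG h.symm b
    exact ⟨a, fun w => (ha w).symm⟩

end Pool.Agent.Helper32.OR
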