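import Pool.Agent.Helper32.OR.RkDefs

/-!
The first two rounds (project OR, MP_d4e3d0_lc).
-/

namespace Pool.Agent.Helper32.OR

open Pool.Agent.Helper22.OR

theorem Pos1.symm {G H : Type} [Group G] [Group H] {x : G} {y : H} (h : Pos1 G H x y) :
    Pos1 H G y x := by
  rcases h with h | ⟨r, r', k, hr, hr', hx, hy, h⟩
  · exact Or.inl ⟨h.2, h.1⟩
  · refine Or.inr ⟨r', r, k, hr', hr, hy, hx, ?_⟩
    rcases h with h | ⟨u, v, u', v', s, hM, hM', h1, h2, h3, h4⟩
    · exact Or.inl ⟨h.2, h.1⟩
    · exact Or.inr ⟨u', v', u, v, s, hM', hM, h2, h1, h4, h3⟩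

theorem Rk3a_range {G : Type} [Group G] (u v : G) :
    (FreeGroup.lift ![u, v]).range = Subgroup.closure {u, v} := by
  rw [FreeGroup.range_lift_eq_closure]
  congr 1
  ext z
  constructor
  · rintro ⟨i, rfl⟩
    fin_cases i
    · exact Or.inl rfl
    · exact Or.inr rfl
  · rintro (h | h)
    · exact ⟨0, h.symm⟩
    · exact ⟨1, h.symm⟩

/-- Every root is primitive in some maximal subgroup with two generators: let `r ∈ M`, `M` maximal (`max`). If
`¬ PrimIn r M` take `c ∉ M` (`top`) and `M'` maximal with `r, c ∈ M'`; if `¬ PrimIn r M'` then `M = M'`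
(`uniq`), but `c ∉ M`. -/
theorem R3.exists_prim {G : Type} [Group G] (hG : R3 G) (r : G) (hr : IsRoot r) :
    ∃ v : G, Max2 (Subgroup.closure {r, v}) := by
  obtain ⟨M, hM, hrM, -⟩ := hG.max r r
  by_cases hp : PrimIn r M
  · obtain ⟨y, hy⟩ := hp
    exact ⟨y, hy ▸ hM⟩
  · have hc : ∃ c, c ∉ M := by
      by_contra hall
      push Not at hall
      have htop : M = ⊤ := (Subgroup.eq_top_iff' M).2 hall
      exact hG.top (htop ▸ hM.1)
    obtain ⟨c, hc⟩ := hc
    obtain ⟨M', hM', hrM', hcM'⟩ := hG.max r c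
    by_cases hp' : PrimIn r M'
    · obtain ⟨y, hy⟩ := hp'
      exact ⟨y, hy ▸ hM'⟩
    · exfalso
      have h := hG.uniq M M' r hM hM' hrM hrM' hr hp hp'
      exact hc (h ▸ hcM')

/-- Let `M = closure {u, v}` be maximal, `f = lift ![u, v]` (injective, range `M`). If `f s` is a root then
`s` is a root, and then `g s` is a root for every other maximal `closure {u', v'}`, `g = lift ![u', v']`: if
`z ^ k = g s` and `z ∉ closure {u', v'}` then `lift ![u', v', z]` kills the nontrivial word
`(map castSucc s)⁻¹ * (of 2) ^ k`; so `z = g t`, `t ^ k = s`. -/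
theorem R3.root_transfer {G H : Type} [Group G] [Group H] (hG : R3 G) (hH : R3 H) (u v : G)
    (u' v' : H) (hM : Max2 (Subgroup.closure {u, v})) (hM' : Max2 (Subgroup.closure {u', v'}))
    (s : FreeGroup (Fin 2)) (hs : IsRoot (FreeGroup.lift ![u, v] s)) :
    IsRoot (FreeGroup.lift ![u', v'] s) := by
  intro z k hz
  have hinj := (hH.free _ hM' u' v' rfl).1
  by_cases hzM : z ∈ Subgroup.closure {u', v'}
  · rw [← Rk3a_range u' v'] at hzM
    obtain ⟨t, ht⟩ := hzM
    have h1 : t ^ k = s := by
      apply hinj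
      rw [map_zpow, ht, hz]
    apply hs (FreeGroup.lift ![u, v] t) k
    rw [← map_zpow, h1]
  · exfalso
    have hinj3 := (hH.free _ hM' u' v' rfl).2 z hzM
    have e1 : (FreeGroup.lift ![u', v', z]) (FreeGroup.map Fin.castSucc s) =
        FreeGroup.lift ![u', v'] s := by
      have : (FreeGroup.lift ![u', v', z]).comp (FreeGroup.map Fin.castSucc) =
          FreeGroup.lift ![u', v'] := by
        apply FreeGroup.ext_hom
        intro i
        fin_cases i <;> simp
      exact DFunLike.congr_fun this s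
    have e2 : (FreeGroup.lift ![u', v', z]) ((FreeGroup.of (2 : Fin 3)) ^ k) =
        FreeGroup.lift ![u', v'] s := by
      rw [map_zpow, FreeGroup.lift_apply_of, ← hz]
      rfl
    have e3 : FreeGroup.map Fin.castSucc s = (FreeGroup.of (2 : Fin 3)) ^ k :=
      hinj3 (e1.trans e2.symm)
    have e4 : s = 1 := by
      have h1 : (FreeGroup.lift ![FreeGroup.of (0 : Fin 2), FreeGroup.of (1 : Fin 2), 1])
          (FreeGroup.map Fin.castSucc s) = s := by
        have : (FreeGroup.lift ![FreeGroup.of (0 : Fin 2), FreeGroup.of (1 : Fin 2), 1]).comp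
            (FreeGroup.map Fin.castSucc) = MonoidHom.id _ := by
          apply FreeGroup.ext_hom
          intro i
          fin_cases i <;> simp
        exact DFunLike.congr_fun this s
      rw [← h1, e3, map_zpow, FreeGroup.lift_apply_of]
      exact one_zpow k
    apply hs.ne_one
    rw [e4, map_one]

/-- If `closure {g s, y} = closure {u', v'}` then `y = g t`, `closure {s, t} = ⊤` in `FreeGroup (Fin 2)`
(`g` is injective) and `closure {f s, f t} = closure {u, v}`. -/
theorem R3.prim_transfer {G H : Type} [Group G] [Group H] (hH : R3 H) (u v : G)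
    (u' v' : H) (hM' : Max2 (Subgroup.closure {u', v'})) (s : FreeGroup (Fin 2))
    (hs : ¬ PrimIn (FreeGroup.lift ![u, v] s) (Subgroup.closure {u, v})) :
    ¬ PrimIn (FreeGroup.lift ![u', v'] s) (Subgroup.closure {u', v'}) := by
  rintro ⟨y, hy⟩
  apply hs
  have hinj := (hH.free _ hM' u' v' rfl).1
  have hyM : y ∈ Subgroup.closure {u', v'} := by
    rw [hy]
    exact Subgroup.subset_closure (Or.inr rfl)
  rw [← Rk3a_range u' v'] at hyM
  obtain ⟨t, ht⟩ := hyM
  refine ⟨FreeGroup.lift ![u, v] t, ?_⟩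
  have e1 : Subgroup.map (FreeGroup.lift ![u', v']) (Subgroup.closure {s, t}) =
      Subgroup.map (FreeGroup.lift ![u', v']) ⊤ := by
    rw [MonoidHom.map_closure, Set.image_pair, ht, ← hy, ← MonoidHom.range_eq_map, Rk3a_range]
  have e2 : Subgroup.closure {s, t} = ⊤ := Subgroup.map_injective hinj e1
  have e3 : Subgroup.map (FreeGroup.lift ![u, v]) (Subgroup.closure {s, t}) =
      (FreeGroup.lift ![u, v]).range := by
    rw [e2, MonoidHom.range_eq_map]
  rw [MonoidHom.map_closure, Set.image_pair, Rk3a_range] at e3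
  exact e3.symm

end Pool.Agent.Helper32.OR
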