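import Pool.Agent.Helper32.OR.Rk3a

/-!
The first two rounds (project OR, MP_d4e3d0_lc).
-/

namespace Pool.Agent.Helper32.OR

open Pool.Agent.Helper22.OR

/-- The range of the pair. -/
theorem Rk3b_range {G : Type} [Group G] (u v : G) :
    (FreeGroup.lift ![u, v]).range = Subgroup.closure {u, v} := by
  rw [FreeGroup.range_lift_eq_closure]
  congr 1
  ext z
  simp only [Set.mem_range, Fin.exists_fin_two, Matrix.cons_val_zero, Matrix.cons_val_one,
    Set.mem_insert_iff, Set.mem_singleton_iff, eq_comm]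

theorem Rk3b_mem {G : Type} [Group G] {u v a : G} (h : a ∈ Subgroup.closure {u, v}) :
    ∃ s : FreeGroup (Fin 2), a = FreeGroup.lift ![u, v] s := by
  rw [← Rk3b_range] at h
  obtain ⟨s, hs⟩ := h
  exact ⟨s, hs.symm⟩

theorem Rk3b_mem' {G : Type} [Group G] (u v : G) (s : FreeGroup (Fin 2)) :
    FreeGroup.lift ![u, v] s ∈ Subgroup.closure {u, v} := by
  rw [← Rk3b_range]
  exact ⟨s, rfl⟩

theorem Rk3b_gen {G : Type} [Group G] {M : Subgroup G} (h : Max2 M) :
    ∃ u v : G, M = Subgroup.closure {u, v} := by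
  obtain ⟨⟨g, hg⟩, -⟩ := h
  refine ⟨g 0, g 1, ?_⟩
  rw [← hg]
  congr 1
  ext z
  simp only [Set.mem_range, Fin.exists_fin_two, Set.mem_insert_iff, Set.mem_singleton_iff,
    eq_comm]

/-- The first round. `x = 1`: answer `1`. Otherwise `x = r ^ k` (`root`). If `r` is primitive in every
maximal subgroup which contains it: answer `e ^ k` (`prim`). Otherwise there is a maximal
`M = closure {u, v} ∋ r` with `¬ PrimIn r M`, `r = lift ![u, v] s`; take any maximal
`closure {u', v'}` of `H` (`max 1 1`) and answer `(lift ![u', v'] s) ^ k` (`root_transfer`, `prim_transfer`). -/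
theorem exists_pos1 {G H : Type} [Group G] [Group H] (hG : R3 G) (hH : R3 H) (x : G) :
    ∃ y : H, Pos1 G H x y := by
  by_cases hx : x = 1
  · exact ⟨1, Or.inl ⟨hx, rfl⟩⟩
  obtain ⟨r, hr, k, -, hk⟩ := hG.root x hx
  by_cases hp : ∀ M, Max2 M → r ∈ M → PrimIn r M
  · obtain ⟨e, he, he'⟩ := hH.prim
    exact ⟨e ^ k, Or.inr ⟨r, e, k, hr, he, hk, rfl, Or.inl ⟨hp, he'⟩⟩⟩
  · push Not at hp
    obtain ⟨M, hM, hrM, hn⟩ := hp
    obtain ⟨u, v, rfl⟩ := Rk3b_gen hM
    obtain ⟨s, hs⟩ := Rk3b_mem hrM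
    obtain ⟨M', hM', -, -⟩ := hH.max 1 1
    obtain ⟨u', v', rfl⟩ := Rk3b_gen hM'
    have h1 : IsRoot (FreeGroup.lift ![u', v'] s) :=
      hG.root_transfer hH u v u' v' hM hM' s (hs ▸ hr)
    have h2 : ¬ PrimIn (FreeGroup.lift ![u', v'] s) (Subgroup.closure {u', v'}) :=
      hH.prim_transfer u v u' v' hM' s (hs ▸ hn)
    exact ⟨(FreeGroup.lift ![u', v'] s) ^ k, Or.inr ⟨r, FreeGroup.lift ![u', v'] s, k, hr, h1, hk,
      rfl, Or.inr ⟨u, v, u', v', s, hM, hM', hs, rfl, hn, h2⟩⟩⟩

/-- The second round. If `x = 1`, `y = 1`: take a maximal `closure {u, v} ∋ a`, `a = lift ![u, v] s`, any maximal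
`closure {u', v'}` of `H`, `b = lift ![u', v'] s`; the coordinates of the pairs are `1` and `s`. Otherwise let
`V` be maximal with `r, a ∈ V` (`max`). If `¬ PrimIn r V` then the first alternative of `Pos1` is
impossible and in the second one `V = closure {u, v}` by `uniq`; `a = lift ![u, v] t`, answer
`b = lift ![u', v'] t`. If `V = closure {r, v₁}`: take `v₁'` with `closure {r', v₁'}` maximal (`exists_prim`),
`a = lift ![r, v₁] t`, answer `b = lift ![r', v₁'] t`; `x` and `y` have the coordinate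
`(of 0) ^ k`. -/
theorem pos_of_pos1 {G H : Type} [Group G] [Group H] (hG : R3 G) (hH : R3 H) (x : G) (y : H)
    (h : Pos1 G H x y) (a : G) : ∃ b : H, Pos G H ![x, a] ![y, b] := by
  rcases h with ⟨rfl, rfl⟩ | ⟨r, r', k, hr, hr', hx, hy, h⟩
  · obtain ⟨M, hM, ha, -⟩ := hG.max a a
    obtain ⟨u, v, rfl⟩ := Rk3b_gen hM
    obtain ⟨s, hs⟩ := Rk3b_mem ha
    obtain ⟨M', hM', -, -⟩ := hH.max 1 1
    obtain ⟨u', v', rfl⟩ := Rk3b_gen hM'
    refine ⟨FreeGroup.lift ![u', v'] s, u, v, u', v', hM, hM', ![1, s], ?_, ?_⟩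
    · intro i
      fin_cases i
      · exact (map_one (FreeGroup.lift ![u, v])).symm
      · exact hs
    · intro i
      fin_cases i
      · exact (map_one (FreeGroup.lift ![u', v'])).symm
      · rfl
  · obtain ⟨V, hV, hrV, haV⟩ := hG.max r a
    by_cases hP : PrimIn r V
    · obtain ⟨v1, rfl⟩ := hP
      obtain ⟨v1', hv1'⟩ := hH.exists_prim r' hr'
      obtain ⟨t, ht⟩ := Rk3b_mem haV
      refine ⟨FreeGroup.lift ![r', v1'] t, r, v1, r', v1', hV, hv1',
        ![(FreeGroup.of 0) ^ k, t], ?_, ?_⟩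
      · intro i
        fin_cases i
        · change x = FreeGroup.lift ![r, v1] ((FreeGroup.of 0) ^ k)
          rw [map_zpow, FreeGroup.lift_apply_of, hx]
          rfl
        · exact ht
      · intro i
        fin_cases i
        · change y = FreeGroup.lift ![r', v1'] ((FreeGroup.of 0) ^ k)
          rw [map_zpow, FreeGroup.lift_apply_of, hy]
          rfl
        · rfl
    · rcases h with ⟨h1, -⟩ | ⟨u, v, u', v', s, hM, hM', hs, hs', hn, -⟩
      · exact absurd (h1 V hV hrV) hP
      · have hrM : r ∈ Subgroup.closure {u, v} := hs ▸ Rk3b_mem' u v s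
        have hVe := hG.uniq V _ r hV hM hrV hrM hr hP hn
        rw [hVe] at haV
        obtain ⟨t, ht⟩ := Rk3b_mem haV
        refine ⟨FreeGroup.lift ![u', v'] t, u, v, u', v', hM, hM', ![s ^ k, t], ?_, ?_⟩
        · intro i
          fin_cases i
          · change x = FreeGroup.lift ![u, v] (s ^ k)
            rw [map_zpow, ← hs, hx]
          · exact ht
        · intro i
          fin_cases i
          · change y = FreeGroup.lift ![u', v'] (s ^ k)
            rw [map_zpow, ← hs', hy]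
          · rfl

end Pool.Agent.Helper32.OR
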