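import Pool.Agent.Helper32.OR.Rk1c
import Pool.Agent.Helper32.OR.Rk2
import Pool.Agent.Helper32.OR.Rk3b

/-!
The game with three rounds (project OR, MP_d4e3d0_lc).
-/

namespace Pool.Agent.Helper32.OR

open FirstOrder Pool.Agent.Helper22.OR

private theorem Rk4_snoc {G : Type} (x a : G) :
    (Fin.snoc (fun _ : Fin 1 => x) a : Fin 2 → G) = ![x, a] := by
  funext i
  fin_cases i
  · rfl
  · rfl

private theorem Rk4_snoc0 {G : Type} (x : G) :
    (Fin.snoc (default : Fin 0 → G) x : Fin 1 → G) = fun _ => x := by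
  funext i
  fin_cases i
  rfl

/-- `pos_of_pos1` in both directions and `eqv_one_of_pos`; `Fin.snoc (fun _ => x) a = ![x, a]`. -/
theorem eqv_two {G H : Type} [Group G] [Group H] (hG : R3 G) (hH : R3 H) (x : G) (y : H)
    (h : Pos1 G H x y) : Eqv G H 2 1 (fun _ => x) (fun _ => y) := by
  refine ⟨fun a => ?_, fun b => ?_⟩
  · obtain ⟨b, hb⟩ := pos_of_pos1 hG hH x y h a
    refine ⟨b, ?_⟩
    rw [Rk4_snoc, Rk4_snoc]
    exact eqv_one_of_pos hG hH hb
  · obtain ⟨a, ha⟩ := pos_of_pos1 hH hG y x h.symm b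
    refine ⟨a, ?_⟩
    rw [Rk4_snoc, Rk4_snoc]
    exact eqv_one_of_pos hG hH ha.symm

/-- `exists_pos1` in both directions and `eqv_two`. -/
theorem eqv_three {G H : Type} [Group G] [Group H] (hG : R3 G) (hH : R3 H) :
    Eqv G H 3 0 default default := by
  refine ⟨fun a => ?_, fun b => ?_⟩
  · obtain ⟨b, hb⟩ := exists_pos1 hG hH a
    refine ⟨b, ?_⟩
    rw [Rk4_snoc0, Rk4_snoc0]
    exact eqv_two hG hH a b hb
  · obtain ⟨a, ha⟩ := exists_pos1 hH hG b
    refine ⟨a, ?_⟩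
    rw [Rk4_snoc0, Rk4_snoc0]
    exact eqv_two hG hH a b ha.symm

theorem rank_three_iff {G H : Type} [Group G] [Group H] (hG : R3 G) (hH : R3 H)
    (φ : grpLang.Sentence) (hφ : qr φ ≤ 3) : G ⊨ φ ↔ H ⊨ φ := by
  exact sentence_iff_of_eqv 3 (eqv_three hG hH) φ hφ

end Pool.Agent.Helper32.OR
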