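import Pool.Agent.Helper32.OR.RkDefs
import Pool.Agent.Helper22.OR.Out

/-!
The properties `R3` from the graph part (project OR, MP_d4e3d0_lc).
-/

namespace Pool.Agent.Helper32.OR

open Pool.Agent.Helper22.OR

/-- Subgroups with at most four generators are free. -/
def Free4 (G : Type) [Group G] : Prop :=
  ∀ (k : ℕ), k ≤ 4 → ∀ H : Subgroup G, Gen k H → ∃ j, j ≤ k ∧ Nonempty (FreeGroup (Fin j) ≃* ↥H)

/-- `Pairs.cen` for `x`: `x` commutes exactly with the powers of `r`; so `x = r ^ k`, `k ≠ 0`; if `z ^ m = r` then `z`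
commutes with `x`, `z = r ^ l`, `l * m = 1` by `Pairs.tf`. -/
theorem r3_root {G : Type} [Group G] (h : Pairs G) (x : G) (hx : x ≠ 1) :
    ∃ r : G, IsRoot r ∧ ∃ k : ℤ, k ≠ 0 ∧ x = r ^ k := by
  obtain ⟨u, hu, hc⟩ := h.cen x hx
  obtain ⟨k, hk⟩ := Subgroup.mem_zpowers_iff.1 ((hc x).1 rfl)
  refine ⟨u, ?_, k, ?_, hk.symm⟩
  · intro z m hz
    have h1 : x = z ^ (m * k) := by rw [zpow_mul, hz, hk]
    have h2 : x * z = z * x := by
      rw [h1]
      exact ((Commute.refl z).zpow_left _).eq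
    obtain ⟨l, hl⟩ := Subgroup.mem_zpowers_iff.1 ((hc z).1 h2)
    have h3 : u ^ (l * m - 1) = 1 := by
      rw [zpow_sub, zpow_mul, hl, hz, zpow_one, mul_inv_cancel]
    rcases h.tf u _ h3 with h4 | h4
    · have h5 : m * l = 1 := by linarith [mul_comm l m]
      rcases Int.isUnit_iff.1 (IsUnit.of_mul_eq_one l h5) with h6 | h6
      · exact Or.inl h6
      · exact Or.inr h6
    · exact absurd h4 hu
  · rintro rfl
    exact hx (by rw [← hk, zpow_zero])

end Pool.Agent.Helper32.OR
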