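import Pool.Agent.Helper32.OR.Rk5a

/-!
The properties `R3` from the graph part (project OR, MP_d4e3d0_lc).
-/

namespace Pool.Agent.Helper32.OR

open Pool.Agent.Helper22.OR

private theorem Rk5b_gen {G : Type} [Group G] {j : ℕ} {M : Subgroup G}
    (φ : FreeGroup (Fin j) ≃* ↥M) : Gen j M := by
  refine ⟨fun i => ((φ (FreeGroup.of i) : ↥M) : G), ?_⟩
  have h1 : (Set.range (fun i => ((φ (FreeGroup.of i) : ↥M) : G))) =
      M.subtype.comp φ.toMonoidHom '' Set.range (FreeGroup.of (α := Fin j)) := by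
    rw [← Set.range_comp]
    rfl
  rw [h1, ← MonoidHom.map_closure, FreeGroup.closure_range_of, ← MonoidHom.range_eq_map]
  ext x
  constructor
  · rintro ⟨w, rfl⟩
    exact (φ w).2
  · intro hx
    exact ⟨φ.symm ⟨x, hx⟩, by simp⟩

private theorem Rk5b_range {G : Type} [Group G] {j : ℕ} (v : Fin j → G) :
    (FreeGroup.lift v).range = Subgroup.closure (Set.range v) := by
  rw [MonoidHom.range_eq_map, ← FreeGroup.closure_range_of, MonoidHom.map_closure,
    ← Set.range_comp]
  congr 1
  ext x
  simp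

private theorem Rk5b_inj {G : Type} [Group G] {m : ℕ} (v : Fin m → G) (H : Subgroup G)
    (hv : Subgroup.closure (Set.range v) = H) (χ : FreeGroup (Fin m) ≃* ↥H) :
    Function.Injective (FreeGroup.lift v) := by
  have hr : (FreeGroup.lift v).range = H := (Rk5b_range v).trans hv
  have hmem : ∀ w, FreeGroup.lift v w ∈ H := fun w => by
    rw [← hr]
    exact ⟨w, rfl⟩
  let ψ : FreeGroup (Fin m) →* ↥H := (FreeGroup.lift v).codRestrict _ hmem
  have hψ : Function.Surjective ψ := by
    rintro ⟨z, hz⟩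
    rw [← hr] at hz
    obtain ⟨w, hw⟩ := hz
    exact ⟨w, Subtype.ext hw⟩
  have h1 := hopfian (χ.symm.toMonoidHom.comp ψ) (χ.symm.surjective.comp hψ)
  intro y z hyz
  apply h1
  show χ.symm (ψ y) = χ.symm (ψ z)
  congr 1
  exact Subtype.ext hyz

/-- As in `closed1` (Helper22/OR/Out.lean). `M` is not `⊤` (`top`), so there is `c ∉ M`; if `M` is isomorphic to
`FreeGroup (Fin j)` with `j ≤ 1` then `M ⊔ closure {c}` has two generators, against maximality. So
`j = 2` and `hopfian` shows that `lift ![u, v]` is injective. For `a ∉ M` the subgroup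
`M ⊔ closure {a}` has three generators, is free of rank `q ≤ 3` (`Free4`) and does not have two
generators by maximality; so `q = 3`, and `hopfian` again. -/
theorem r3_free {G : Type} [Group G] (hF : Free4 G) (ht : ¬ Gen 2 (⊤ : Subgroup G))
    (M : Subgroup G) (hM : Max2 M) (u v : G) (huv : M = Subgroup.closure {u, v}) :
    Function.Injective (FreeGroup.lift ![u, v]) ∧
      ∀ a, a ∉ M → Function.Injective (FreeGroup.lift ![u, v, a]) := by
  have hr2 : Subgroup.closure (Set.range ![u, v]) = M := by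
    rw [huv]
    congr 1
    ext x
    simp only [Matrix.range_cons, Matrix.range_empty, Set.union_empty, Set.mem_union,
      Set.mem_singleton_iff, Set.mem_insert_iff]
  obtain ⟨hMg, hmax⟩ := hM
  have hgt : ∀ a, a ∉ M → ¬ Gen 2 (M ⊔ Subgroup.closure {a}) := by
    intro a ha h1
    have h2 := hmax _ h1 le_sup_left
    apply ha
    rw [← h2]
    exact (le_sup_right : Subgroup.closure {a} ≤ _) (Subgroup.subset_closure rfl)
  obtain ⟨j, hj, ⟨φ⟩⟩ := hF 2 (by omega) M hMg
  have hgM : Gen j M := Rk5b_gen φ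
  obtain ⟨c, hc⟩ : ∃ c, c ∉ M := by
    by_contra hall
    push Not at hall
    exact ht ((eq_top_iff.2 fun u _ => hall u : M = ⊤) ▸ hMg)
  have hj2 : j = 2 := by
    by_contra hne
    exact hgt c hc ((hgM.insert c).mono (by omega))
  subst hj2
  refine ⟨Rk5b_inj _ M hr2 φ, fun a ha => ?_⟩
  obtain ⟨q, hq, ⟨χ⟩⟩ := hF 3 (by omega) (M ⊔ Subgroup.closure {a}) (hMg.insert a)
  have hq3 : q = 3 := by
    by_contra hne
    exact hgt a ha ((Rk5b_gen χ).mono (by omega))
  subst hq3
  refine Rk5b_inj _ _ ?_ χ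
  rw [huv, ← Subgroup.closure_union]
  congr 1
  ext x
  simp only [Matrix.range_cons, Matrix.range_empty, Set.union_empty, Set.mem_union,
    Set.mem_singleton_iff, Set.mem_insert_iff]
  tauto

end Pool.Agent.Helper32.OR
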