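import Pool.Agent.Helper32.OR.Rk5b

/-!
The properties `R3` from the graph part (project OR, MP_d4e3d0_lc).
-/

namespace Pool.Agent.Helper32.OR

open Pool.Agent.Helper22.OR

private theorem Rk5c_card {G : Type} [Group G] {γ : Type} (φ : FreeGroup γ →* G)
    (hφ : Function.Injective φ) {k : ℕ}
    (g : Fin k → G) (hr : φ.range = Subgroup.closure (Set.range g)) :
    Finite γ ∧ Nat.card γ ≤ k := by
  have hmem : ∀ i, g i ∈ φ.range := fun i => by
    rw [hr]
    exact Subgroup.subset_closure ⟨i, rfl⟩
  have htop : Subgroup.closure (Set.range fun i => (⟨g i, hmem i⟩ : φ.range)) = ⊤ := by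
    apply Subgroup.map_injective (Subgroup.subtype_injective φ.range)
    rw [MonoidHom.map_closure, ← MonoidHom.range_eq_map, Subgroup.range_subtype,
      ← Set.range_comp]
    exact hr.symm
  exact card_le_of_gen (MonoidHom.ofInjective hφ) _ htop

/-- Let `e = f 0`. If `z ^ k = e` then `factor` with `k = 1`, `S = {0}`, `g = ![z]` gives an injective homomorphism
`φ` from `FreeGroup (S ⊕ β)` with range `closure {z}`, so `β` is empty (`card_le_of_gen` or commutativity),
`z = e ^ l`, and `k * l = 1` (no torsion: `FreeGroup` is torsion free). If `M = closure {g 0, g 1}` contains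
`e` then `factor` with `k = 2` gives a basis of `M` with at most two elements (`card_le_of_gen`) which
contains `e`. -/
theorem r3_prim {n : ℕ} {G : Type} [Group G] {f : Fin n → G} {L e s b : ℕ}
    {RR : Set (List (Letter n))} (hy : Hyp f L e s b RR) (hn : 3 ≤ n) (i : Fin n) :
    IsRoot (f i) ∧ ∀ M, Gen 2 M → f i ∈ M → PrimIn (f i) M := by
  classical
  refine ⟨?_, ?_⟩
  · intro z k hz
    have hmem : f i ∈ Subgroup.closure (Set.range fun _ : Fin 1 => z) := by
      rw [← hz]
      exact Subgroup.zpow_mem _ (Subgroup.subset_closure (Set.mem_range_self (0 : Fin 1))) k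
    obtain ⟨β, φ, hinj, hran, hval⟩ := factor hy (k := 1) (by omega) {i} (fun _ => z) (by
      intro i' hi'
      rw [Set.mem_singleton_iff] at hi'
      rw [hi']
      exact hmem)
    have hzr : z ∈ φ.range := by
      rw [hran]
      exact Subgroup.subset_closure ⟨0, rfl⟩
    obtain ⟨y, hyz⟩ := hzr
    have h1 : y ^ k = FreeGroup.of (Sum.inl (⟨i, rfl⟩ : ↥({i} : Set (Fin n)))) := by
      apply hinj
      rw [map_zpow, hyz, hz, hval]
    have h2 := congrArg (FreeGroup.lift fun _ : ↥({i} : Set (Fin n)) ⊕ β =>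
      Multiplicative.ofAdd (1 : ℤ)) h1
    rw [map_zpow, FreeGroup.lift_apply_of] at h2
    have h3 := congrArg Multiplicative.toAdd h2
    rw [toAdd_zpow, toAdd_ofAdd, smul_eq_mul] at h3
    exact Int.eq_one_or_neg_one_of_mul_eq_one h3
  · rintro M ⟨g, hg⟩ hi
    obtain ⟨β, φ, hinj, hran, hval⟩ := factor hy (k := 2) (by omega) {i} g (by
      intro i' hi'
      rw [Set.mem_singleton_iff] at hi'
      rw [hi', hg]
      exact hi)
    obtain ⟨hfin, hcard⟩ := Rk5c_card φ hinj g hran
    have hfb : Finite β :=
      Finite.of_injective (Sum.inr : β → ↥({i} : Set (Fin n)) ⊕ β) Sum.inr_injective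
    have hsub : ∀ x y : β, x = y := by
      have h1 : Nat.card (↥({i} : Set (Fin n)) ⊕ β) = 1 + Nat.card β := by
        rw [Nat.card_sum]
        simp
      have h2 : Nat.card β ≤ 1 := by omega
      rw [Finite.card_le_one_iff_subsingleton] at h2
      exact h2.elim
    let y : G := if h : Nonempty β then φ (FreeGroup.of (Sum.inr h.some)) else 1
    refine ⟨y, ?_⟩
    rw [← hg, ← hran]
    apply le_antisymm
    · rw [MonoidHom.range_eq_map, ← FreeGroup.closure_range_of, MonoidHom.map_closure,
        Subgroup.closure_le]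
      rintro _ ⟨_, ⟨x, rfl⟩, rfl⟩
      rcases x with ⟨i', hi'⟩ | x
      · rw [SetLike.mem_coe, hval]
        rw [Set.mem_singleton_iff] at hi'
        apply Subgroup.subset_closure
        left
        simp only [hi']
      · apply Subgroup.subset_closure
        right
        have h1 : Nonempty β := ⟨x⟩
        have h2 : y = φ (FreeGroup.of (Sum.inr h1.some)) := dif_pos h1
        rw [Set.mem_singleton_iff, h2, hsub x h1.some]
    · rw [Subgroup.closure_le]
      rintro x (rfl | hx)
      · exact ⟨_, hval ⟨i, rfl⟩⟩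
      · rw [Set.mem_singleton_iff] at hx
        rw [hx]
        by_cases h1 : Nonempty β
        · have h2 : y = φ (FreeGroup.of (Sum.inr h1.some)) := dif_pos h1
          rw [h2]
          exact ⟨_, rfl⟩
        · have h2 : y = 1 := dif_neg h1
          rw [h2]
          exact Subgroup.one_mem _

/-- Otherwise `factor` with `k = 2`, `S = univ` gives an injective homomorphism from
`FreeGroup (S ⊕ β)` onto `⊤`, and `card_le_of_gen` gives `n ≤ 2`. -/
theorem r3_top {n : ℕ} {G : Type} [Group G] {f : Fin n → G} {L e s b : ℕ}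
    {RR : Set (List (Letter n))} (hy : Hyp f L e s b RR) (hn : 3 ≤ n) :
    ¬ Gen 2 (⊤ : Subgroup G) := by
  classical
  rintro ⟨g, hg⟩
  obtain ⟨β, φ, hinj, hran, hval⟩ := factor hy (k := 2) (by omega) Set.univ g (by
    intro i _
    rw [hg]
    exact Subgroup.mem_top _)
  obtain ⟨hfin, hcard⟩ := Rk5c_card φ hinj g hran
  have h1 : Nat.card (Fin n) ≤ Nat.card (↥(Set.univ : Set (Fin n)) ⊕ β) :=
    Nat.card_le_card_of_injective
      (fun i : Fin n => (Sum.inl ⟨i, trivial⟩ : ↥(Set.univ : Set (Fin n)) ⊕ β)) (by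
        intro a b hab
        exact congrArg Subtype.val (Sum.inl_injective hab))
  rw [Nat.card_eq_fintype_card, Fintype.card_fin] at h1
  omega

end Pool.Agent.Helper32.OR
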