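import Pool.Agent.Helper32.OR.Rk5c
import Pool.Agent.Helper32.OR.Lu2

/-!
Uniqueness of the maximal subgroup (project OR, MP_d4e3d0_lc).
-/

namespace Pool.Agent.Helper32.OR

open Pool.Agent.Helper22.OR

theorem Rk6_gen_pair {G : Type} [Group G] (x y : G) : Gen 2 (Subgroup.closure {x, y}) := by
  refine ⟨![x, y], ?_⟩
  congr 1
  ext z
  constructor
  · rintro ⟨i, rfl⟩
    fin_cases i
    · exact Or.inl rfl
    · exact Or.inr rfl
  · rintro (h | h)
    · exact ⟨0, h.symm⟩
    · exact ⟨1, h.symm⟩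

theorem Rk6_gen_map {G H : Type} [Group G] [Group H] (ι : G →* H) {k : ℕ} {M : Subgroup G}
    (hM : Gen k M) : Gen k (M.map ι) := by
  obtain ⟨g, hg⟩ := hM
  refine ⟨fun i => ι (g i), ?_⟩
  rw [← hg, MonoidHom.map_closure, ← Set.range_comp]
  rfl

theorem Rk6_gen_sup {G : Type} [Group G] {j k : ℕ} {M M' : Subgroup G}
    (hM : Gen j M) (hM' : Gen k M') : Gen (j + k) (M ⊔ M') := by
  obtain ⟨g, hg⟩ := hM
  obtain ⟨g', hg'⟩ := hM'
  refine ⟨Fin.append g g', ?_⟩
  rw [← hg, ← hg', ← Subgroup.closure_union]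
  congr 1
  ext z
  constructor
  · rintro ⟨i, rfl⟩
    refine Fin.addCases (fun a => ?_) (fun a => ?_) i
    · rw [Fin.append_left]
      exact Or.inl ⟨a, rfl⟩
    · rw [Fin.append_right]
      exact Or.inr ⟨a, rfl⟩
  · rintro (⟨a, rfl⟩ | ⟨a, rfl⟩)
    · exact ⟨Fin.castAdd k a, Fin.append_left g g' a⟩
    · exact ⟨Fin.natAdd j a, Fin.append_right g g' a⟩

theorem Rk6_map_comap {G H : Type} [Group G] [Group H] (ι : G →* H) (M : Subgroup H)
    (hM : M ≤ ι.range) : (M.comap ι).map ι = M := by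
  rw [Subgroup.map_comap_eq]
  exact inf_eq_right.2 hM

theorem Rk6_gen_comap {G H : Type} [Group G] [Group H] (ι : G →* H)
    (hι : Function.Injective ι) {k : ℕ} {M : Subgroup H} (hM : Gen k M) (hle : M ≤ ι.range) :
    Gen k (M.comap ι) := by
  obtain ⟨g, hg⟩ := hM
  have hgM : ∀ i, g i ∈ M := fun i => hg ▸ Subgroup.subset_closure ⟨i, rfl⟩
  choose h hh using fun i => hle (hgM i)
  refine ⟨h, ?_⟩
  apply Subgroup.map_injective hι
  rw [Rk6_map_comap ι M hle, MonoidHom.map_closure, ← hg, ← Set.range_comp]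
  congr 2
  exact funext hh

/-- `M ⊔ M'` has four generators, so it is isomorphic to `FreeGroup (Fin j)` (`Free4`); let
`ι : FreeGroup (Fin j) →* G` be injective with range `M ⊔ M'`. Apply `lemmaU` to `M.comap ι`, `M'.comap ι` and the
preimage of `r`: `Gen`, `IsRoot`, `¬ PrimIn` are transported along `ι` (`Subgroup.map_comap_eq`). So
`M ⊔ M'` has two generators and is equal to `M` and to `M'`. -/
theorem r3_uniq {G : Type} [Group G] (hF : Free4 G) (M M' : Subgroup G) (r : G) (hM : Max2 M)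
    (hM' : Max2 M') (h1 : r ∈ M) (h2 : r ∈ M') (hr : IsRoot r) (h3 : ¬ PrimIn r M)
    (h4 : ¬ PrimIn r M') : M = M' := by
  have hS : Gen 4 (M ⊔ M') := Rk6_gen_sup hM.1 hM'.1
  obtain ⟨j, -, ⟨φ⟩⟩ := hF 4 le_rfl (M ⊔ M') hS
  set ι : FreeGroup (Fin j) →* G := (M ⊔ M').subtype.comp φ.toMonoidHom with hι
  have hinj : Function.Injective ι := by
    intro a b hab
    exact φ.injective (Subtype.ext hab)
  have hrange : ι.range = M ⊔ M' := by
    rw [hι, MonoidHom.range_comp]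
    have : φ.toMonoidHom.range = ⊤ := MonoidHom.range_eq_top.2 φ.surjective
    rw [this, ← MonoidHom.range_eq_map, Subgroup.range_subtype]
  have hle : M ≤ ι.range := hrange ▸ le_sup_left
  have hle' : M' ≤ ι.range := hrange ▸ le_sup_right
  obtain ⟨x, hx⟩ := hle h1
  have hroot : IsRoot x := by
    intro z k hz
    apply hr (ι z) k
    rw [← map_zpow, hz, hx]
  have hnp : ∀ N : Subgroup G, N ≤ ι.range → ¬ PrimIn r N → ¬ PrimIn x (N.comap ι) := by
    rintro N hN h ⟨y, hy⟩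
    apply h
    refine ⟨ι y, ?_⟩
    rw [← Rk6_map_comap ι N hN, hy, MonoidHom.map_closure, Set.image_pair, hx]
  have hU := lemmaU (M.comap ι) (M'.comap ι) (Rk6_gen_comap ι hinj hM.1 hle)
    (Rk6_gen_comap ι hinj hM'.1 hle') x (show ι x ∈ M from hx.symm ▸ h1)
    (show ι x ∈ M' from hx.symm ▸ h2) hroot (hnp M hle h3) (hnp M' hle' h4)
  have hmap := Rk6_gen_map ι hU
  rw [Subgroup.map_sup, Rk6_map_comap ι M hle, Rk6_map_comap ι M' hle'] at hmap
  have e1 := hM.2 _ hmap le_sup_left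
  have e2 := hM'.2 _ hmap le_sup_right
  exact e1.symm.trans e2

/-- Assembly: `r3_root` with `pairs hy hn`, `maximal` with `k = 2` for `closure {x, y}`, `r3_free`,
`r3_uniq`, `r3_prim`, `r3_top`. -/
theorem r3_of_hyp {n : ℕ} {G : Type} [Group G] {f : Fin n → G} {L e s b : ℕ}
    {RR : Set (List (Letter n))} (hy : Hyp f L e s b RR) (hn : 3 ≤ n) (hF : Free4 G) : R3 G where
  root := r3_root (pairs hy hn)
  max := by
    intro x y
    obtain ⟨M, hM, hle, hmax⟩ := maximal hy (k := 2) (by omega) (Subgroup.closure {x, y})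
      (Rk6_gen_pair x y)
    exact ⟨M, ⟨hM, hmax⟩, hle (Subgroup.subset_closure (Or.inl rfl)),
      hle (Subgroup.subset_closure (Or.inr rfl))⟩
  free := fun M hM u v huv => r3_free hF (r3_top hy hn) M hM u v huv
  uniq := fun M M' r hM hM' h1 h2 hr h3 h4 => r3_uniq hF M M' r hM hM' h1 h2 hr h3 h4
  prim := by
    have h := r3_prim hy hn (⟨0, by omega⟩ : Fin n)
    exact ⟨_, h.1, fun M hM hmem => h.2 M hM.1 hmem⟩
  top := r3_top hy hn

end Pool.Agent.Helper32.OR
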