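import Pool.Agent.Helper32.OR.Rk4
import Pool.Agent.Helper32.OR.Rk6
import Pool.Agent.Helper32.OR.Fin1

/-!
Random one-relator groups and sentences of quantifier rank at most three
(project OR, MP_d4e3d0_lc).
-/

namespace Pool.Agent.Helper32.OR

open FirstOrder Filter Pool.Agent.Helper22.OR

/-- `free_rank` for `FreeGroup (Fin (m + 5))` (`hyp_free`) and the injection
`FreeGroup.map (Fin.castLE _)`: subgroups with `k` generators are mapped to such subgroups. -/
theorem free4_free (m : ℕ) : Free4 (FreeGroup (Fin m)) := by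
  intro k hk H hH
  obtain ⟨g, hg⟩ := hH
  obtain ⟨L, e, s, b, h⟩ := hyp_free (m + 5)
  have hle : m ≤ m + 5 := by omega
  let φ : FreeGroup (Fin m) →* FreeGroup (Fin (m + 5)) := FreeGroup.map (Fin.castLE hle)
  have hφ : Function.Injective φ := FreeGroup.map_injective (Fin.castLE_injective hle)
  have h1 : Gen k (H.map φ) := ⟨φ ∘ g, by rw [← hg, MonoidHom.map_closure, Set.range_comp]⟩
  obtain ⟨j, hj, ⟨e1⟩⟩ := free_rank h (by omega) h1
  exact ⟨j, hj, ⟨e1.trans (H.equivMapOfInjective φ hφ).symm⟩⟩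

theorem r3_freeGroup (m : ℕ) (hm : 3 ≤ m) : R3 (FreeGroup (Fin m)) := by
  obtain ⟨L, e, s, b, h⟩ := hyp_free m
  exact r3_of_hyp h hm (free4_free m)

theorem aas_r3 (n : ℕ) (hn : 5 ≤ n) : AAS n (fun r => R3 (OneRel r)) := by
  refine aas_mono (aas_hyp n (by omega)) ?_
  rintro r ⟨L, e, s, b, RR, h⟩
  exact r3_of_hyp h (by omega) (fun k hk H hH => free_rank h (by omega) hH)

/-- The zero-one law for the sentences of quantifier rank at most three. -/
theorem rank_three (n : ℕ) (hn : 5 ≤ n) : AAS n (fun r => ∀ m, 3 ≤ m → ∀ φ : grpLang.Sentence,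
    qr φ ≤ 3 → (OneRel r ⊨ φ ↔ FreeGroup (Fin m) ⊨ φ)) :=
  aas_mono (aas_r3 n hn) (fun _ h m hm φ hφ => rank_three_iff h (r3_freeGroup m hm) φ hφ)

theorem rank_three_limits (n : ℕ) (hn : 5 ≤ n) (m : ℕ) (hm : 3 ≤ m) (φ : grpLang.Sentence)
    (hφ : qr φ ≤ 3) :
    (FreeGroup (Fin m) ⊨ φ → Tendsto (fun t => prob n t φ) atTop (nhds 1)) ∧
    (¬ (FreeGroup (Fin m) ⊨ φ) → Tendsto (fun t => prob n t φ) atTop (nhds 0)) := by
  constructor
  · intro h
    exact aas_mono (rank_three n hn) (fun r hr => (hr m hm φ hφ).2 h)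
  · intro h
    exact aas_not (aas_mono (rank_three n hn) (fun r hr h1 => h ((hr m hm φ hφ).1 h1)))

end Pool.Agent.Helper32.OR
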