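import Pool.Agent.Helper32.OR.BinDefs
import Pool.Agent.Helper32.OR.CvDefs
import Pool.Agent.Helper22.OR.Max

/-!
Sentences of quantifier rank at most three (project OR, MP_d4e3d0_lc).
-/

namespace Pool.Agent.Helper32.OR

open FirstOrder Pool.Agent.Helper22.OR

/-- The quantifier rank. -/
def qr {α : Type*} : {k : ℕ} → grpLang.BoundedFormula α k → ℕ
  | _, .falsum => 0
  | _, .equal _ _ => 0
  | _, .rel _ _ => 0
  | _, .imp φ ψ => max (qr φ) (qr ψ)
  | _, .all φ => qr φ + 1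

/-- The tuples `x` and `y` are equivalent for `j` more rounds of the Ehrenfeucht game. -/
def Eqv (G H : Type) [Group G] [Group H] : ℕ → (i : ℕ) → (Fin i → G) → (Fin i → H) → Prop
  | 0, i, x, y => ∀ w : FreeGroup (Fin i), FreeGroup.lift x w = 1 ↔ FreeGroup.lift y w = 1
  | j + 1, i, x, y =>
    (∀ a : G, ∃ b : H, Eqv G H j (i + 1) (Fin.snoc x a : Fin (i + 1) → G)
      (Fin.snoc y b : Fin (i + 1) → H)) ∧
    (∀ b : H, ∃ a : G, Eqv G H j (i + 1) (Fin.snoc x a : Fin (i + 1) → G)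
      (Fin.snoc y b : Fin (i + 1) → H))

/-- `M` is maximal among the subgroups with two generators. -/
def Max2 {G : Type} [Group G] (M : Subgroup G) : Prop :=
  Gen 2 M ∧ ∀ M', Gen 2 M' → M ≤ M' → M' = M

/-- The properties which are used for the game with three rounds. -/
structure R3 (G : Type) [Group G] : Prop where
  root : ∀ x : G, x ≠ 1 → ∃ r : G, IsRoot r ∧ ∃ k : ℤ, k ≠ 0 ∧ x = r ^ k
  max : ∀ x y : G, ∃ M, Max2 M ∧ x ∈ M ∧ y ∈ M
  free : ∀ M, Max2 M → ∀ u v : G, M = Subgroup.closure {u, v} →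
    Function.Injective (FreeGroup.lift ![u, v]) ∧
      ∀ a, a ∉ M → Function.Injective (FreeGroup.lift ![u, v, a])
  uniq : ∀ (M M' : Subgroup G) (r : G), Max2 M → Max2 M' → r ∈ M → r ∈ M' → IsRoot r →
    ¬ PrimIn r M → ¬ PrimIn r M' → M = M'
  prim : ∃ e : G, IsRoot e ∧ ∀ M, Max2 M → e ∈ M → PrimIn e M
  top : ¬ Gen 2 (⊤ : Subgroup G)

/-- The pairs `x` and `y` have the same coordinates in two maximal subgroups with two generators. -/
def Pos (G H : Type) [Group G] [Group H] (x : Fin 2 → G) (y : Fin 2 → H) : Prop :=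
  ∃ (u v : G) (u' v' : H), Max2 (Subgroup.closure {u, v}) ∧ Max2 (Subgroup.closure {u', v'}) ∧
    ∃ s : Fin 2 → FreeGroup (Fin 2), (∀ i, x i = FreeGroup.lift ![u, v] (s i)) ∧
      ∀ i, y i = FreeGroup.lift ![u', v'] (s i)

/-- The relation between the elements chosen in the first round. -/
def Pos1 (G H : Type) [Group G] [Group H] (x : G) (y : H) : Prop :=
  (x = 1 ∧ y = 1) ∨ ∃ (r : G) (r' : H) (k : ℤ), IsRoot r ∧ IsRoot r' ∧ x = r ^ k ∧ y = r' ^ k ∧
    (((∀ M, Max2 M → r ∈ M → PrimIn r M) ∧ (∀ M, Max2 M → r' ∈ M → PrimIn r' M)) ∨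
    ∃ (u v : G) (u' v' : H) (s : FreeGroup (Fin 2)), Max2 (Subgroup.closure {u, v}) ∧
      Max2 (Subgroup.closure {u', v'}) ∧ r = FreeGroup.lift ![u, v] s ∧
      r' = FreeGroup.lift ![u', v'] s ∧ ¬ PrimIn r (Subgroup.closure {u, v}) ∧
      ¬ PrimIn r' (Subgroup.closure {u', v'}))

end Pool.Agent.Helper32.OR
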