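import Mathlib

/-!
Finite sets which share at least two elements along a connected relation (project OR, MP_d4e3d0_lc).
-/

namespace Pool.Agent.Helper32.OR

/-- Induction on the number of elements of `N` outside of `A`. If `A ≠ N` take `b ∈ N \ A` and a chain in
`N` from some `a ∈ A` to `b`; it leaves `A` at some step: `x ∈ A`, `y ∈ N \ A`, `r x y`. Replace `A` by
`insert y A`: the union of the `S a` grows by at most `(S y).card - 2`, because `S y` and `S x` have two
common elements; `2 * A.card` grows by `2`. -/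
theorem grow {I X : Type*} [DecidableEq I] [DecidableEq X] (S : I → Finset X) (r : I → I → Prop)
    (hr : ∀ a b, r a b → 2 ≤ (S a ∩ S b).card) (A N : Finset I) (hAN : A ⊆ N) (c : ℕ)
    (hA : (A.biUnion S).card + 2 * A.card ≤ (∑ a ∈ A, (S a).card) + c)
    (hconn : ∀ b ∈ N, ∃ a ∈ A, Relation.ReflTransGen (fun x y => x ∈ N ∧ y ∈ N ∧ r x y) a b) :
    (N.biUnion S).card + 2 * N.card ≤ (∑ a ∈ N, (S a).card) + c := by
  classical
  obtain ⟨k, hk⟩ : ∃ k, (N \ A).card = k := ⟨_, rfl⟩
  induction k generalizing A with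
  | zero =>
    have h1 : N \ A = ∅ := Finset.card_eq_zero.mp hk
    have h2 : A = N := Finset.Subset.antisymm hAN (Finset.sdiff_eq_empty_iff_subset.mp h1)
    rw [← h2]
    exact hA
  | succ k ih =>
    have hne : (N \ A).Nonempty := by rw [← Finset.card_pos]; omega
    obtain ⟨b, hb⟩ := hne
    rw [Finset.mem_sdiff] at hb
    obtain ⟨a, haA, hch⟩ := hconn b hb.1
    have key : ∀ z, Relation.ReflTransGen (fun x y => x ∈ N ∧ y ∈ N ∧ r x y) a z → z ∉ A →
        ∃ x y, x ∈ A ∧ y ∉ A ∧ y ∈ N ∧ r x y := by
      intro z hz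
      induction hz with
      | refl => intro h; exact absurd haA h
      | tail h1 h2 ih2 =>
        rename_i y z
        intro hzA
        by_cases hy : y ∈ A
        · exact ⟨y, z, hy, hzA, h2.2.1, h2.2.2⟩
        · exact ih2 hy
    obtain ⟨x, y, hxA, hyA, hyN, hxy⟩ := key b hch hb.2
    refine ih (insert y A) (Finset.insert_subset hyN hAN) ?_ ?_ ?_
    · rw [Finset.biUnion_insert, Finset.sum_insert hyA, Finset.card_insert_of_notMem hyA]
      have h2 := hr x y hxy
      have h3 : (S x ∩ S y).card ≤ (S y ∩ A.biUnion S).card := by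
        apply Finset.card_le_card
        intro t ht
        rw [Finset.mem_inter] at ht ⊢
        exact ⟨ht.2, Finset.mem_biUnion.mpr ⟨x, hxA, ht.1⟩⟩
      have h4 := Finset.card_union_add_card_inter (S y) (A.biUnion S)
      omega
    · intro b' hb'
      obtain ⟨a', ha', h'⟩ := hconn b' hb'
      exact ⟨a', Finset.mem_insert_of_mem ha', h'⟩
    · have h5 : N \ insert y A = (N \ A).erase y := by
        ext t
        simp only [Finset.mem_sdiff, Finset.mem_insert, Finset.mem_erase]
        tauto
      rw [h5, Finset.card_erase_of_mem (Finset.mem_sdiff.mpr ⟨hyN, hyA⟩), hk]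
      rfl

end Pool.Agent.Helper32.OR
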