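import Pool.Agent.Helper32.OR.St1

/-!
Infinitely many centralizers (project OR, MP_d4e3d0_lc).
-/

namespace Pool.Agent.Helper32.OR

/-- If `a * b ^ k` and `a * b ^ (k + m)` commute, then `m = 0`. -/
private theorem St2_aux {G : Type} [Group G] (h : Pairs G) {a b : G} (hab : a * b ≠ b * a)
    (k m : ℕ) (hc : (a * b ^ k) * (a * b ^ (k + m)) = (a * b ^ (k + m)) * (a * b ^ k)) :
    m = 0 := by
  by_contra hm
  have hb : b ≠ 1 := by
    rintro rfl
    exact hab (by rw [mul_one, one_mul])
  have hbm : b ^ m ≠ 1 := by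
    intro h1
    have h2 : b ^ (m : ℤ) = 1 := by rw [zpow_natCast, h1]
    rcases h.tf b m h2 with h3 | h3
    · exact hm (by exact_mod_cast h3)
    · exact hb h3
  obtain ⟨u, -, hu⟩ := h.cen (b ^ m) hbm
  have h1 : b ∈ Subgroup.zpowers u := (hu b).1 (by rw [← pow_succ, ← pow_succ'])
  have h2 : a * b ^ k ∈ Subgroup.zpowers u := by
    refine (hu _).1 ?_
    have e : a * b ^ (k + m) = (a * b ^ k) * b ^ m := by rw [pow_add, mul_assoc]
    rw [e] at hc
    have h3 : (a * b ^ k) * ((a * b ^ k) * b ^ m) = (a * b ^ k) * (b ^ m * (a * b ^ k)) := by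
      rw [hc, mul_assoc]
    exact (mul_left_cancel h3).symm
  obtain ⟨i, hi⟩ := Subgroup.mem_zpowers_iff.1 h1
  obtain ⟨j, hj⟩ := Subgroup.mem_zpowers_iff.1 h2
  have h4 : (a * b ^ k) * b = b * (a * b ^ k) := by
    have h5 : u ^ j * u ^ i = u ^ i * u ^ j := by rw [← zpow_add, ← zpow_add, add_comm]
    rw [hi, hj] at h5
    exact h5
  apply hab
  have h6 : a * b * b ^ k = b * a * b ^ k := by
    calc a * b * b ^ k = a * b ^ k * b := by rw [mul_assoc, ← pow_succ', pow_succ, ← mul_assoc]
      _ = b * (a * b ^ k) := h4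
      _ = b * a * b ^ k := by rw [mul_assoc]
  exact mul_right_cancel h6

/-- The elements `a * b ^ k`, `k : ℕ`, pairwise do not commute (in the free group, by
`lift_injective`; in the free group on `x, y` the elements `x y^k` and `x y^l` do not commute for
`k ≠ l`: compare the reduced words of the products, or map to matrices). Hence there are
infinitely many centralizers of nontrivial elements. -/
theorem Pairs.infinite_centralizers {G : Type} [Group G] (h : Pairs G) :
    Set.Infinite {C : Subgroup G | ∃ a : G, a ≠ 1 ∧ C = Subgroup.centralizer {a}} := by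
  obtain ⟨a, b, hab⟩ := h.noncomm
  have key : ∀ k l : ℕ, k ≤ l →
      Subgroup.centralizer {a * b ^ k} = Subgroup.centralizer {a * b ^ l} → k = l := by
    intro k l hkl he
    obtain ⟨m, rfl⟩ := Nat.exists_eq_add_of_le hkl
    have h1 : a * b ^ k ∈ Subgroup.centralizer {a * b ^ (k + m)} := by
      rw [← he, Subgroup.mem_centralizer_singleton_iff]
    rw [Subgroup.mem_centralizer_singleton_iff] at h1
    have h2 := St2_aux h hab k m h1
    omega
  refine Set.infinite_of_injective_forall_mem
    (f := fun k : ℕ => Subgroup.centralizer ({a * b ^ k} : Set G)) ?_ ?_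
  · intro k l hkl
    rcases le_total k l with h1 | h1
    · exact key k l h1 hkl
    · exact (key l k h1 hkl.symm).symm
  · intro k
    refine ⟨a * b ^ k, ?_, rfl⟩
    intro h1
    apply hab
    have h2 : a = (b ^ k)⁻¹ := eq_inv_of_mul_eq_one_left h1
    rw [h2]
    exact ((Commute.refl b).pow_left k).inv_left

end Pool.Agent.Helper32.OR
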