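import Mathlib

/-!
Discrete tree metrics: segments, convex sets, gates (project OR, MP_d4e3d0_lc).
-/

namespace Pool.Agent.Helper32.OR

/-- A discrete tree metric. -/
structure TreeSp (V : Type*) where
  d : V → V → ℕ
  d_self : ∀ x, d x x = 0
  eq_of_d : ∀ x y, d x y = 0 → x = y
  d_comm : ∀ x y, d x y = d y x
  tri : ∀ x y z, d x z ≤ d x y + d y z
  hyp : ∀ x y z w, d x y + d z w ≤ max (d x z + d y w) (d x w + d y z)
  med : ∀ x y z, ∃ m, d x m + d m y = d x y ∧ d y m + d m z = d y z ∧ d x m + d m z = d x z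

namespace TreeSp

variable {V : Type*} (T : TreeSp V)

/-- The segment between two points. -/
def seg (x y : V) : Set V := {p | T.d x p + T.d p y = T.d x y}

/-- Convex sets (subtrees). -/
def Conv (S : Set V) : Prop := ∀ x ∈ S, ∀ y ∈ S, T.seg x y ⊆ S

/-- `b` is the gate (nearest point) of `x` in `S`. -/
def IsGate (S : Set V) (x b : V) : Prop := b ∈ S ∧ ∀ y ∈ S, b ∈ T.seg x y

theorem mem_seg {x y p : V} : p ∈ T.seg x y ↔ T.d x p + T.d p y = T.d x y := Iff.rfl

theorem left_mem (x y : V) : x ∈ T.seg x y := by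
  simp [mem_seg, T.d_self]

theorem right_mem (x y : V) : y ∈ T.seg x y := by
  simp [mem_seg, T.d_self]

theorem seg_comm (x y : V) : T.seg x y = T.seg y x := by
  ext p
  simp only [mem_seg]
  rw [T.d_comm x p, T.d_comm p y, T.d_comm x y]
  omega

theorem seg_order {x y p q : V} (hp : p ∈ T.seg x y) (hq : q ∈ T.seg x y)
    (h : T.d x p ≤ T.d x q) : T.d x p + T.d p q = T.d x q := by
  rw [mem_seg] at hp hq
  have h1 := T.hyp x y p q
  have h2 := T.tri x p q
  rw [T.d_comm y q, T.d_comm y p] at h1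
  rcases le_max_iff.1 h1 with h3 | h3 <;> omega

theorem seg_trans_left {x y p q : V} (hp : p ∈ T.seg x y) (hq : q ∈ T.seg x p) :
    q ∈ T.seg x y := by
  rw [mem_seg] at *
  have h1 := T.tri q p y
  have h2 := T.tri x q y
  omega

theorem seg_trans_right {x y p q : V} (hp : p ∈ T.seg x y) (hq : q ∈ T.seg p y) :
    q ∈ T.seg x y := by
  rw [seg_comm] at *
  exact T.seg_trans_left hp hq

theorem mem_seg_of_le {x y p q : V} (hp : p ∈ T.seg x y) (hq : q ∈ T.seg x y)
    (h : T.d x p ≤ T.d x q) : p ∈ T.seg x q ∧ q ∈ T.seg p y := by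
  have h1 := T.seg_order hp hq h
  have h2 := T.mem_seg.1 hp
  have h3 := T.mem_seg.1 hq
  refine ⟨h1, ?_⟩
  rw [mem_seg]
  omega

theorem seg_union {u v z : V} (w : V) (hz : z ∈ T.seg u v) :
    z ∈ T.seg u w ∨ z ∈ T.seg w v := by
  obtain ⟨m, h1, h2, h3⟩ := T.med u v w
  have hm : m ∈ T.seg u v := h1
  rcases le_total (T.d u z) (T.d u m) with h | h
  · left
    exact T.seg_trans_left h3 (T.mem_seg_of_le hz hm h).1
  · right
    have h4 := (T.mem_seg_of_le hm hz h).2
    have h5 : m ∈ T.seg w v := by rw [seg_comm]; exact h2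
    exact T.seg_trans_right h5 h4

theorem exists_gate {S : Set V} (hS : T.Conv S) (hne : S.Nonempty) (x : V) :
    ∃ b, T.IsGate S x b := by
  have hb := Function.argminOn_mem (fun y => T.d x y) S hne
  have hmin := fun y (hy : y ∈ S) => Function.argminOn_le (fun y => T.d x y) S hy
  set b := Function.argminOn (fun y => T.d x y) S hne with hbd
  refine ⟨b, hb, fun y hy => ?_⟩
  obtain ⟨m, h1, h2, h3⟩ := T.med x b y
  have hm : m ∈ S := hS b hb y hy h2
  have h4 : T.d x b ≤ T.d x m := hmin m hm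
  have h5 : T.d m b = 0 := by omega
  have h6 := T.eq_of_d _ _ h5
  rw [h6] at h3
  exact h3

theorem gates_concat {S : Set V} {x y b b' : V} (hb : T.IsGate S x b) (hb' : T.IsGate S y b')
    (h : b ≠ b') : T.d x y = T.d x b + T.d b b' + T.d b' y := by
  have h1 := hb.2 b' hb'.1
  have h2 := hb'.2 b hb.1
  rw [mem_seg] at h1 h2
  have h3 := T.hyp x b' y b
  have h4 := T.tri x b y
  have h5 := T.tri b b' y
  have h6 : T.d b b' ≠ 0 := fun h0 => h (T.eq_of_d _ _ h0)
  rw [T.d_comm y b', T.d_comm y b, T.d_comm b' b] at *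
  rcases le_max_iff.1 h3 with h7 | h7 <;> omega

theorem gates_mem {S : Set V} {x y b b' : V} (hb : T.IsGate S x b) (hb' : T.IsGate S y b')
    (h : b ≠ b') : b ∈ T.seg x y ∧ b' ∈ T.seg x y := by
  have h1 := T.gates_concat hb hb' h
  have h5 := T.tri b b' y
  have h6 := T.tri x b b'
  have h7 := T.tri x b y
  have h8 := T.tri x b' y
  rw [mem_seg, mem_seg]
  omega

end TreeSp

end Pool.Agent.Helper32.OR
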